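import Pool.Agent.H11.T3R.Eg

/-!
ROW Ei (the character of a square root; about 90 lines).

PROOF. `exists_psi0`: `s_w δ` is a square root of `D`, so `s_w δ = ε δ`, `ε = ± 1`, unique as `δ ≠ 0` (`D ≠ 0`) and `2 ≠ 0`. `ψ0 w = ε`. Homomorphism: `s_{w w'} δ = s_w (ψ0(w') δ) = ψ0(w') ψ0(w) δ` (integers are fixed). (Build it with `Classical.choose` and `MonoidHom.mk'`.)
`psi0_even`: an embedding `φ : C →+* ℂ`: `(φ δ)^2 = D > 0`, so `φ δ` is real (`z^2 = D > 0` implies `conj z = z`: `z = ± √D`), so `φ (s_{-1} δ) = conj (φ δ) = φ δ` (`conj_cyc`), `s_{-1} δ = δ`, so `ψ0 (-1) δ = δ`, `ψ0(-1) = 1`.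
`psi0_ne_one`: otherwise `δ` is fixed by `Gal(C/ℚ)`, so rational (`IsGalois.mem_range_algebraMap_iff_fixed`, `ℚ`), `q^2 = D`, `q ∈ ℤ` (`Rat`/`IsIntegrallyClosed`), and `D > 1` squarefree is not a square (`q * q ∣ D` so `q` is a unit).
-/

set_option autoImplicit false
set_option linter.unusedSectionVars false

open NumberField

namespace H11R

variable {N : ℕ} [NeZero N] {C : Type} [Field C] [NumberField C] [IsCyclotomicExtension {N} ℚ C]

private lemma Ei_ne {D : ℤ} (hD : D ≠ 0) {δ : C} (hδ : δ ^ 2 = (D : C)) : δ ≠ 0 := by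
  rintro rfl
  rw [zero_pow (by norm_num)] at hδ
  exact hD (Int.cast_injective (α := C) (by rw [← hδ, Int.cast_zero]))

omit [NumberField C] in
private lemma Ei_inj [CharZero C] {a b : ℤˣ} (h : (((a : ℤˣ) : ℤ) : C) = (((b : ℤˣ) : ℤ) : C)) :
    a = b := Units.ext (Int.cast_injective h)

theorem exists_psi0 {D : ℤ} (hD : D ≠ 0) {δ : C} (hδ : δ ^ 2 = (D : C)) : ∃ ψ0 : (ZMod N)ˣ →* ℤˣ, ∀ w : (ZMod N)ˣ,
    (IsCyclotomicExtension.Rat.galEquivZMod N C).symm w δ = (((ψ0 w : ℤˣ) : ℤ) : C) * δ := by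
  have hne := Ei_ne hD hδ
  have key : ∀ w : (ZMod N)ˣ, ∃ e : ℤˣ,
      (IsCyclotomicExtension.Rat.galEquivZMod N C).symm w δ = (((e : ℤˣ) : ℤ) : C) * δ := by
    intro w
    have h1 : ((IsCyclotomicExtension.Rat.galEquivZMod N C).symm w δ) ^ 2 = δ ^ 2 := by
      rw [← map_pow, hδ, map_intCast]
    rcases sq_eq_sq_iff_eq_or_eq_neg.1 h1 with h2 | h2
    · exact ⟨1, by rw [h2, Units.val_one, Int.cast_one, one_mul]⟩
    · exact ⟨-1, by rw [h2, Units.val_neg, Units.val_one, Int.cast_neg, Int.cast_one, neg_one_mul]⟩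
  choose e he using key
  refine ⟨MonoidHom.mk' e fun w w' => ?_, he⟩
  apply Ei_inj (C := C)
  apply mul_right_cancel₀ hne
  have h1 := he (w * w')
  rw [← h1, map_mul, AlgEquiv.mul_apply, he w', map_mul, map_intCast, he w]
  push_cast
  ring

theorem psi0_even {D : ℤ} (hD : 0 < D) {δ : C} (hδ : δ ^ 2 = (D : C)) {ψ0 : (ZMod N)ˣ →* ℤˣ} (h : ∀ w : (ZMod N)ˣ,
    (IsCyclotomicExtension.Rat.galEquivZMod N C).symm w δ = (((ψ0 w : ℤˣ) : ℤ) : C) * δ) : ψ0 (-1) = 1 := by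
  have hne := Ei_ne hD.ne' hδ
  obtain ⟨φ⟩ : Nonempty (C →+* ℂ) := ⟨((IsAlgClosed.lift : C →ₐ[ℚ] ℂ) : C →+* ℂ)⟩
  have h1 : (φ δ) ^ 2 = (D : ℂ) := by rw [← map_pow, hδ, map_intCast]
  have hre : (φ δ).re * (φ δ).re - (φ δ).im * (φ δ).im = (D : ℝ) := by
    have h2 := congrArg Complex.re h1
    rw [sq, Complex.mul_re, Complex.intCast_re] at h2
    exact h2
  have him : (φ δ).re * (φ δ).im + (φ δ).im * (φ δ).re = 0 := by
    have h2 := congrArg Complex.im h1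
    rw [sq, Complex.mul_im, Complex.intCast_im] at h2
    exact h2
  have hD' : (0 : ℝ) < (D : ℝ) := by exact_mod_cast hD
  have him0 : (φ δ).im = 0 := by
    have h2 : (φ δ).re * (φ δ).im = 0 := by linarith
    rcases mul_eq_zero.1 h2 with h3 | h3
    · rw [h3] at hre
      nlinarith [mul_self_nonneg (φ δ).im]
    · exact h3
  have h3 := conj_cyc (N := N) φ δ
  rw [Complex.conj_eq_iff_im.2 him0] at h3
  have h4 := φ.injective h3
  have h5 := h (-1)
  rw [← h4] at h5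
  apply Ei_inj (C := C)
  apply mul_right_cancel₀ hne
  rw [← h5, Units.val_one, Int.cast_one, one_mul]

theorem psi0_ne_one {D : ℤ} (hD : 1 < D) (hsq : Squarefree D) {δ : C} (hδ : δ ^ 2 = (D : C)) {ψ0 : (ZMod N)ˣ →* ℤˣ} (h : ∀ w : (ZMod N)ˣ,
    (IsCyclotomicExtension.Rat.galEquivZMod N C).symm w δ = (((ψ0 w : ℤˣ) : ℤ) : C) * δ) : ψ0 ≠ 1 := by
  rintro rfl
  have hG : IsGalois ℚ C := IsCyclotomicExtension.isGalois {N} ℚ C
  have hfix : ∀ g : C ≃ₐ[ℚ] C, g δ = δ := by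
    intro g
    have h1 := h ((IsCyclotomicExtension.Rat.galEquivZMod N C) g)
    rw [MulEquiv.symm_apply_apply, MonoidHom.one_apply, Units.val_one, Int.cast_one, one_mul] at h1
    exact h1
  obtain ⟨q, hq⟩ := (IsGalois.mem_range_algebraMap_iff_fixed δ).2 hfix
  have hq2 : q * q = (D : ℚ) := by
    apply (algebraMap ℚ C).injective
    rw [map_mul, hq, ← sq, hδ, map_intCast]
  have h2 : IsSquare (D : ℚ) := ⟨q, hq2.symm⟩
  obtain ⟨m, hm⟩ := Rat.isSquare_intCast_iff.1 h2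
  have h3 : IsUnit m := hsq m ⟨1, by rw [mul_one]; exact hm⟩
  rcases Int.isUnit_iff.1 h3 with h4 | h4
  · rw [hm, h4] at hD
    norm_num at hD
  · rw [hm, h4] at hD
    norm_num at hD

end H11R
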