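import Mathlib

/-!
ROW Ej (the conductor of a quadratic character; about 80 lines).

PROOF. Let `d` be the least `d ≥ 1` with `d ∣ N` and: every `u ∈ (ZMod N)ˣ` with `ZMod.unitsMap (h : d ∣ N) u = 1` has `ψ0 u = 1` (`Nat.find`; `N` has the property: `unitsMap` is the identity up to `ZMod.unitsMap_self`). `unitsMap : (ZMod N)ˣ → (ZMod d)ˣ` is surjective
(`ZMod.unitsMap_surjective`), so `ψ0 = ψ ∘ unitsMap` (`MonoidHom.liftOfSurjective`). `d ≠ 1` as `ψ0 ≠ 1` (all elements of `(ZMod 1)ˣ` are `1`). Let `q ∣ d` be prime and suppose `ψ u = 1` for all `u` with `unitsMap (d / q ∣ d) u = 1`; then `d / q ∣ N`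
has the property (`unitsMap (d/q ∣ N) w = unitsMap (d/q ∣ d) (unitsMap (d ∣ N) w)`: `ZMod.unitsMap_comp`), and `0 < d / q < d`: contradiction with minimality.
-/

set_option autoImplicit false

namespace H11R

theorem exists_cond {N : ℕ} [NeZero N] (ψ0 : (ZMod N)ˣ →* ℤˣ) (h0 : ψ0 ≠ 1) : ∃ (d : ℕ) (h : d ∣ N) (ψ : (ZMod d)ˣ →* ℤˣ), 1 < d ∧
    (∀ w : (ZMod N)ˣ, ψ0 w = ψ (ZMod.unitsMap h w)) ∧
    ∀ q : ℕ, q.Prime → ∀ hq : q ∣ d, ∃ u : (ZMod d)ˣ, ZMod.unitsMap (Nat.div_dvd_of_dvd hq) u = 1 ∧ ψ u ≠ 1 := by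
  classical
  have hN0 : N ≠ 0 := NeZero.ne N
  obtain ⟨P, hPdef⟩ : ∃ P : ℕ → Prop, P = fun d => 0 < d ∧ ∃ h : d ∣ N, ∀ u : (ZMod N)ˣ,
    ZMod.unitsMap h u = 1 → ψ0 u = 1 := ⟨_, rfl⟩
  have hP : ∃ d, P d := by
    refine ⟨N, ?_⟩
    rw [hPdef]
    refine ⟨Nat.pos_of_ne_zero hN0, dvd_refl N, fun u hu => ?_⟩
    rw [ZMod.unitsMap_self, MonoidHom.id_apply] at hu
    rw [hu, map_one]
  obtain ⟨d, hd, hmin⟩ : ∃ d, P d ∧ ∀ m < d, ¬ P m :=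
    ⟨Nat.find hP, Nat.find_spec hP, fun m hm => Nat.find_min hP hm⟩
  have hd' := hd
  rw [hPdef] at hd'
  obtain ⟨hd0, hdN, hdu⟩ := hd'
  have hsurj := ZMod.unitsMap_surjective hdN
  obtain ⟨ψ, hψ⟩ : ∃ ψ : (ZMod d)ˣ →* ℤˣ, ∀ w : (ZMod N)ˣ, ψ0 w = ψ (ZMod.unitsMap hdN w) := by
    have hker : (ZMod.unitsMap hdN).ker ≤ ψ0.ker := by
      intro u hu
      rw [MonoidHom.mem_ker] at hu ⊢
      exact hdu u hu
    refine ⟨(ZMod.unitsMap hdN).liftOfSurjective hsurj ⟨ψ0, hker⟩, fun w => ?_⟩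
    exact (MonoidHom.liftOfRightInverse_comp_apply (ZMod.unitsMap hdN) _
      (Function.rightInverse_surjInv hsurj) ⟨ψ0, hker⟩ w).symm
  refine ⟨d, hdN, ψ, ?_, hψ, ?_⟩
  · by_contra hle
    have hd1 : d = 1 := by omega
    apply h0
    ext w
    have h1 : ZMod.unitsMap hdN w = 1 := by
      subst hd1
      exact Subsingleton.elim _ _
    rw [hdu w h1, MonoidHom.one_apply]
  · intro q hq hqd
    by_contra hcon
    push Not at hcon
    have hlt : d / q < d := Nat.div_lt_self hd0 hq.one_lt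
    apply hmin (d / q) hlt
    rw [hPdef]
    refine ⟨Nat.div_pos (Nat.le_of_dvd hd0 hqd) hq.pos, (Nat.div_dvd_of_dvd hqd).trans hdN, fun w hw => ?_⟩
    rw [hψ w]
    apply hcon
    have h2 := ZMod.unitsMap_comp (Nat.div_dvd_of_dvd hqd) hdN
    rw [← hw, ← h2, MonoidHom.comp_apply]

end H11R
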