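import Pool.Agent.H11.T3R.Ee

set_option autoImplicit false

/-!
ROW Ek (the square root in all cyclotomic fields whose conductor is a multiple of `d`; about 90 lines).

PROOF. `C'' = CyclotomicField (N * N0) ℚ` with ring homomorphisms `C → C''`, `C0 → C''` (`exists_emb`, row Ee), used as algebras (`RingHom.toAlgebra`, `letI`). `δ''` = image of `δ0`, `δ''^2 = D`. For `w` modulo `N N0`: `s_w δ'' = image (s_{w mod N0} δ0) = ψ0(w mod N0) δ''`
(`act_emb`, `h0`) `= ψ(w mod d) δ''` (`hψ`, `ZMod.unitsMap_comp`). If `w = 1` modulo `N` then `w = 1` modulo `d` (`unitsMap_comp`), so `s_w δ'' = δ''`; so `δ''` is the image of some `δ ∈ C` (`mem_range_cyc`). `δ^2 = D` (injectivity). For `w ∈ (ZMod N)ˣ` choose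
`w''` modulo `N N0` with reduction `w` (`ZMod.unitsMap_surjective`): image of `s_w δ` = `s_{w''} δ'' = ψ(w'' mod d) δ''` = image of `ψ(w mod d) δ`.
-/

open NumberField

namespace H11R

theorem root_all {D : ℤ} {N0 d : ℕ} [NeZero N0] (hd : d ∣ N0) {C0 : Type} [Field C0] [NumberField C0] [IsCyclotomicExtension {N0} ℚ C0] {δ0 : C0}
    (hδ : δ0 ^ 2 = (D : C0)) {ψ0 : (ZMod N0)ˣ →* ℤˣ} (h0 : ∀ w : (ZMod N0)ˣ,
      (IsCyclotomicExtension.Rat.galEquivZMod N0 C0).symm w δ0 = (((ψ0 w : ℤˣ) : ℤ) : C0) * δ0)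
    {ψ : (ZMod d)ˣ →* ℤˣ} (hψ : ∀ w : (ZMod N0)ˣ, ψ0 w = ψ (ZMod.unitsMap hd w)) (N : ℕ) [NeZero N] (h : d ∣ N) (C : Type) [Field C]
    [NumberField C] [IsCyclotomicExtension {N} ℚ C] :
    ∃ δ : C, δ ^ 2 = (D : C) ∧ ∀ w : (ZMod N)ˣ,
      (IsCyclotomicExtension.Rat.galEquivZMod N C).symm w δ = (((ψ (ZMod.unitsMap h w) : ℤˣ) : ℤ) : C) * δ := by
  have hne : N * N0 ≠ 0 := mul_ne_zero (NeZero.ne N) (NeZero.ne N0)
  have : NeZero (N * N0) := ⟨hne⟩
  have : NeZero ((N * N0 : ℕ) : ℚ) := ⟨Nat.cast_ne_zero.mpr hne⟩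
  have : IsCyclotomicExtension {N * N0} ℚ (CyclotomicField (N * N0) ℚ) := CyclotomicField.isCyclotomicExtension (N * N0) ℚ
  have hN : N ∣ N * N0 := dvd_mul_right _ _
  have hN0 : N0 ∣ N * N0 := dvd_mul_left _ _
  obtain ⟨f⟩ := exists_emb (N1 := N) (N2 := N * N0) (C1 := C) (C2 := CyclotomicField (N * N0) ℚ) hN
  obtain ⟨g⟩ := exists_emb (N1 := N0) (N2 := N * N0) (C1 := C0) (C2 := CyclotomicField (N * N0) ℚ) hN0
  let _ : Algebra C (CyclotomicField (N * N0) ℚ) := f.toAlgebra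
  let _ : Algebra C0 (CyclotomicField (N * N0) ℚ) := g.toAlgebra
  set e : CyclotomicField (N * N0) ℚ := algebraMap C0 (CyclotomicField (N * N0) ℚ) δ0 with he
  have hsq : e ^ 2 = (D : CyclotomicField (N * N0) ℚ) := by
    rw [he, ← map_pow, hδ, map_intCast]
  have key : ∀ w : (ZMod (N * N0))ˣ,
      (IsCyclotomicExtension.Rat.galEquivZMod (N * N0) (CyclotomicField (N * N0) ℚ)).symm w e =
        (((ψ (ZMod.unitsMap h (ZMod.unitsMap hN w)) : ℤˣ) : ℤ) : CyclotomicField (N * N0) ℚ) * e := by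
    intro w
    have e1 : ZMod.unitsMap hd (ZMod.unitsMap hN0 w) = ZMod.unitsMap h (ZMod.unitsMap hN w) := by
      have a1 := congrArg (fun F => F w) (ZMod.unitsMap_comp hd hN0)
      have a2 := congrArg (fun F => F w) (ZMod.unitsMap_comp h hN)
      simp only [MonoidHom.comp_apply] at a1 a2
      rw [a1, a2]
    rw [he, act_emb hN0 w δ0, h0, map_mul, map_intCast, hψ, e1]
  have hmem : e ∈ Set.range (algebraMap C (CyclotomicField (N * N0) ℚ)) := by
    rw [mem_range_cyc hN e]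
    intro w hw
    rw [key w, hw, map_one, map_one]
    simp
  obtain ⟨δ, hδ'⟩ := hmem
  have hinj : Function.Injective (algebraMap C (CyclotomicField (N * N0) ℚ)) :=
    (algebraMap C (CyclotomicField (N * N0) ℚ)).injective
  refine ⟨δ, hinj (by rw [map_pow, hδ', hsq, map_intCast]), fun w => ?_⟩
  obtain ⟨w', hw'⟩ := ZMod.unitsMap_surjective hN w
  apply hinj
  rw [map_mul, map_intCast, hδ', ← hw', ← act_emb hN w' δ, hδ', key w']

end H11R
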