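import Pool.Agent.H11.T3R.Eh
import Pool.Agent.H11.T3R.Ei
import Pool.Agent.H11.T3R.Ej
import Pool.Agent.H11.T3R.Ek

/-! Existence of the character of `ℚ(√D)` (no row). -/

set_option autoImplicit false

open NumberField

namespace H11R

theorem exists_char {D : ℤ} (hD : 1 < D) (hsq : Squarefree D) : ∃ (d : ℕ) (_ : NeZero d) (ψ : (ZMod d)ˣ →* ℤˣ), CH D d ψ := by
  have hD0 : D ≠ 0 := by omega
  have hn : 0 < D.natAbs := Int.natAbs_pos.2 hD0
  have hN0 : NeZero (8 * D.natAbs) := ⟨by positivity⟩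
  have hz' : NeZero (((8 * D.natAbs : ℕ) : ℚ)) := ⟨Nat.cast_ne_zero.mpr (NeZero.ne _)⟩
  have hcyc : IsCyclotomicExtension {8 * D.natAbs} ℚ (CyclotomicField (8 * D.natAbs) ℚ) :=
    CyclotomicField.isCyclotomicExtension (8 * D.natAbs) ℚ
  have hNF : NumberField (CyclotomicField (8 * D.natAbs) ℚ) := IsCyclotomicExtension.numberField {8 * D.natAbs} ℚ _
  have hcast : ((D.natAbs : ℕ) : ℤ) = D := Int.natAbs_of_nonneg (by omega)
  obtain ⟨δ0, hδ0⟩ := sqrt_cyc D.natAbs hn (dvd_refl (8 * D.natAbs)) (CyclotomicField (8 * D.natAbs) ℚ)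
  have hδ : δ0 ^ 2 = (D : CyclotomicField (8 * D.natAbs) ℚ) := by
    rw [hδ0, ← hcast]
    simp
  obtain ⟨ψ0, h0⟩ := exists_psi0 (N := 8 * D.natAbs) hD0 hδ
  have he := psi0_even (by omega : 0 < D) hδ h0
  have h1 := psi0_ne_one hD hsq hδ h0
  obtain ⟨d, hd, ψ, hd1, hψ, hprim⟩ := exists_cond ψ0 h1
  have hdz : NeZero d := ⟨by omega⟩
  refine ⟨d, hdz, ψ, ⟨hd1, ?_, hprim⟩, ?_, ?_⟩
  · have h2 := hψ (-1)
    have e1 : ZMod.unitsMap hd (-1) = -1 := by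
      have e2 := Units.map_neg (ZMod.castHom hd (ZMod d)) (1 : (ZMod (8 * D.natAbs))ˣ)
      rw [map_one] at e2
      exact e2
    rw [he, e1] at h2
    exact h2.symm
  · have h3 : ((d : ℕ) : ℤ) ∣ ((8 * D.natAbs : ℕ) : ℤ) := by exact_mod_cast hd
    rw [Nat.cast_mul, hcast] at h3
    exact h3
  · intro N _ h C _ _ _
    exact root_all hd hδ h0 hψ N h C

end H11R
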