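import Pool.Agent.H11.T3R.DfX
import Pool.Agent.H5.SW.Df
import Pool.Agent.H73.WT.Fab

/-!
# Pairs of real abelian fields with norm compatible elements (helper11, MP_78d38b_T3, general D; no row)
-/

set_option autoImplicit false
set_option linter.unusedSectionVars false

open NumberField

namespace H11R

open H5SW

/-- a pair `A ⊆ B` of real abelian fields with elements `tA`, `tB` whose conjugates are associated, and `N_{B/A}(tB) = tA ^ q`, `3 ∤ q` -/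
structure TS (A B : Type) [Field A] [NumberField A] [Field B] [NumberField B] [Algebra A B] where
  q : ℕ
  h3q : ¬ 3 ∣ q
  h3 : ¬ 3 ∣ Module.finrank A B
  realA : IsTotallyReal A
  realB : IsTotallyReal B
  galA : IsGalois ℚ A
  galB : IsGalois ℚ B
  comm : ∀ g h : B ≃ₐ[ℚ] B, g * h = h * g
  tA : 𝓞 A
  tB : 𝓞 B
  nA : tA ≠ 0
  nB : tB ≠ 0
  uA : ∀ g : A ≃ₐ[ℚ] A, ∃ η : (𝓞 A)ˣ, g (tA : A) = ((η : 𝓞 A) : A) * (tA : A)
  uB : ∀ g : B ≃ₐ[ℚ] B, ∃ η : (𝓞 B)ˣ, g (tB : B) = ((η : 𝓞 B) : B) * (tB : B)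
  norm : Algebra.norm A (tB : B) = (tA : A) ^ q

section

variable {A B : Type} [Field A] [NumberField A] [Field B] [NumberField B] [Algebra A B] (S : TS A B)

/-- the unit `g t / t` -/
noncomputable def TS.eta (g : B ≃ₐ[ℚ] B) : (𝓞 B)ˣ := (S.uB g).choose

lemma TS.eta_spec (g : B ≃ₐ[ℚ] B) : g (S.tB : B) = ((S.eta g : 𝓞 B) : B) * (S.tB : B) := (S.uB g).choose_spec

/-- `∏ (g t / t) ^ θ g` -/
noncomputable def TS.tw (θ : (B ≃ₐ[ℚ] B) → ℤ) : (𝓞 B)ˣ := ∏ g : B ≃ₐ[ℚ] B, (S.eta g) ^ (θ g)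

lemma TS.tw_zero : S.tw 0 = 1 := by
  unfold TS.tw
  simp

lemma TS.tw_add (θ η : (B ≃ₐ[ℚ] B) → ℤ) : S.tw (θ + η) = S.tw θ * S.tw η := by
  unfold TS.tw
  rw [← Finset.prod_mul_distrib]
  refine Finset.prod_congr rfl fun g _ => ?_
  rw [Pi.add_apply, zpow_add]

/-- `tw` as a homomorphism -/
noncomputable def TS.twHom : ((B ≃ₐ[ℚ] B) → ℤ) →+ Additive (𝓞 B)ˣ where
  toFun θ := Additive.ofMul (S.tw θ)
  map_zero' := by rw [TS.tw_zero]; rfl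
  map_add' θ η := by rw [TS.tw_add]; rfl

lemma TS.tw_neg (θ : (B ≃ₐ[ℚ] B) → ℤ) : S.tw (-θ) = (S.tw θ)⁻¹ := by
  have h := (S.twHom).map_neg θ
  exact congrArg Additive.toMul h

lemma TS.tw_smul (k : ℤ) (θ : (B ≃ₐ[ℚ] B) → ℤ) : S.tw (fun g => k * θ g) = S.tw θ ^ k := by
  unfold TS.tw
  rw [← Finset.prod_zpow]
  refine Finset.prod_congr rfl fun g _ => ?_
  show S.eta g ^ (k * θ g) = (S.eta g ^ θ g) ^ k
  rw [mul_comm, zpow_mul]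

lemma TS.t_ne : (S.tB : B) ≠ 0 := RingOfIntegers.coe_ne_zero_iff.2 S.nB

lemma TS.gt_ne (g : B ≃ₐ[ℚ] B) : g (S.tB : B) ≠ 0 := by
  rw [map_ne_zero]
  exact S.t_ne

lemma unit_coe_ne {M : Type} [Field M] [NumberField M] (u : (𝓞 M)ˣ) : ((u : 𝓞 M) : M) ≠ 0 := by
  intro h
  exact u.ne_zero (RingOfIntegers.coe_eq_zero_iff.1 h)

lemma TS.tw_coe {θ : (B ≃ₐ[ℚ] B) → ℤ} (h : ∑ g, θ g = 0) :
    ((S.tw θ : 𝓞 B) : B) = ∏ g, (g (S.tB : B)) ^ θ g := by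
  classical
  have h1 : ∀ u : (𝓞 B)ˣ, ((u : 𝓞 B) : B) =
      ((Units.map (algebraMap (𝓞 B) B : 𝓞 B →* B) u : Bˣ) : B) := fun _ => rfl
  have h2 : ((S.tw θ : 𝓞 B) : B) = ∏ g, ((S.eta g : 𝓞 B) : B) ^ θ g := by
    rw [h1, TS.tw, map_prod, Units.coe_prod]
    refine Finset.prod_congr rfl fun g _ => ?_
    rw [map_zpow, Units.val_zpow_eq_zpow_val, ← h1]
  have h3 : ∏ g : B ≃ₐ[ℚ] B, (g (S.tB : B)) ^ θ g = (∏ g, ((S.eta g : 𝓞 B) : B) ^ θ g) *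
      ∏ g : B ≃ₐ[ℚ] B, (S.tB : B) ^ θ g := by
    rw [← Finset.prod_mul_distrib]
    refine Finset.prod_congr rfl fun g _ => ?_
    rw [TS.eta_spec, mul_zpow]
  have h4 : ∀ U : Finset (B ≃ₐ[ℚ] B), ∏ g ∈ U, (S.tB : B) ^ θ g = (S.tB : B) ^ (∑ g ∈ U, θ g) := by
    intro U
    induction U using Finset.induction_on with
    | empty => simp
    | insert a U ha ih =>
      rw [Finset.prod_insert ha, Finset.sum_insert ha, ih, zpow_add₀ S.t_ne]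
  rw [h2, h3, h4, h, zpow_zero, mul_one]

lemma TS.tw_mem {θ : (B ≃ₐ[ℚ] B) → ℤ} (h : ∑ g, θ g = 0) : S.tw θ ∈ XU S.tB S.nB := by
  rw [mem_XU]
  exact ⟨θ, 0, h, by rw [S.tw_coe h, zpow_zero, one_mul]⟩

/-- cube roots of units are unique -/
lemma unit_cube_inj {M : Type} [Field M] [NumberField M] [IsTotallyReal M] {u v : (𝓞 M)ˣ} (h : u ^ 3 = v ^ 3) : u = v := by
  obtain ⟨w⟩ := (inferInstance : Nonempty (InfinitePlace M))
  have hw : w.IsReal := IsTotallyReal.isReal w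
  apply Units.ext
  apply RingOfIntegers.coe_injective
  apply (InfinitePlace.embedding_of_isReal hw).injective
  have h1 := congrArg (fun w' : (𝓞 M)ˣ => (InfinitePlace.embedding_of_isReal hw) ((w' : 𝓞 M) : M)) h
  simp only [Units.val_pow_eq_pow_val] at h1
  have h2 : ∀ x : 𝓞 M, (InfinitePlace.embedding_of_isReal hw) ((x ^ 3 : 𝓞 M) : M) =
      (InfinitePlace.embedding_of_isReal hw) (x : M) ^ 3 := by
    intro x
    rw [← map_pow]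
    congr 1
  rw [h2, h2] at h1
  exact (Odd.strictMono_pow (by decide : Odd 3)).injective h1

/-- total sums of relations vanish -/
lemma rel_sumT {θ : (B ≃ₐ[ℚ] B) → ℤ} (hθ : Rel A B θ) : ∑ g, θ g = 0 := by
  classical
  have h1 : ∑ g : B ≃ₐ[ℚ] B, ∑ h : B ≃ₐ[A] B, θ (g * h.restrictScalars ℚ) = 0 :=
    Finset.sum_eq_zero fun g _ => hθ g
  rw [Finset.sum_comm] at h1
  have h2 : ∀ h : B ≃ₐ[A] B, ∑ g : B ≃ₐ[ℚ] B, θ (g * h.restrictScalars ℚ) = ∑ g, θ g := fun h =>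
    Equiv.sum_comp (Equiv.mulRight (h.restrictScalars ℚ)) θ
  rw [Finset.sum_congr rfl fun h _ => h2 h, Finset.sum_const, nsmul_eq_mul, mul_eq_zero] at h1
  rcases h1 with h3 | h3
  · exfalso
    rw [Nat.cast_eq_zero, Finset.card_eq_zero] at h3
    exact (Finset.notMem_empty (1 : B ≃ₐ[A] B)) (h3 ▸ Finset.mem_univ _)
  · exact h3

/-- cubes of units have exponents divisible by three -/
def HCubeT : Prop := ∀ θ : (B ≃ₐ[ℚ] B) → ℤ, Rel A B θ → ∀ u : (𝓞 B)ˣ, S.tw θ = u ^ 3 → ∀ g, (3 : ℤ) ∣ θ g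

/-- the same for `σ`-invariant exponents -/
def HPlusT (σ : B ≃ₐ[ℚ] B) : Prop := ∀ θ : (B ≃ₐ[ℚ] B) → ℤ, Rel A B θ → (∀ g, θ (g * σ) = θ g) →
  ∀ u : (𝓞 B)ˣ, S.tw θ = u ^ 3 → ∀ g, (3 : ℤ) ∣ θ g

/-- the same for `σ`-antiinvariant exponents, with a local hypothesis only -/
def HMinusT (σ : B ≃ₐ[ℚ] B) : Prop := ∀ θ : (B ≃ₐ[ℚ] B) → ℤ, Rel A B θ → (∀ g, θ (g * σ) = - θ g) →
  (∃ s : 𝓞 B, (27 : 𝓞 B) ∣ ((S.tw θ : 𝓞 B) - s ^ 3) ^ 2) → ∀ g, (3 : ℤ) ∣ θ g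

end

end H11R
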