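import Pool.Agent.H11.T3R.DfH
import Pool.Agent.H11.T3R.DfC

/-!
ROW Ea (transfer of `NoNewCubeT` to subfields; about 90 lines).

PROOF. Adapt Pool/Agent/H55/T3/RT.lean (`RT_val_below`, `RT_three_up` are private: copy them with `L = B0`, `F = B`).
`cube_descentT`: `algebraMap B0 B x = y ^ 3`, `B` totally real, `B/ℚ` Galois, so `B/B0` is Galois; for `τ ∈ Gal(B/B0)`: `(τ y)^3 = y^3`, and with a real embedding (an infinite place `w` of `B`, `InfinitePlace.embedding_of_isReal`, as in `unit_cube_inj` of DfC.lean)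
`τ y = y`, so `y` comes from `B0`.
`noNewCubeT_down`: `x ∈ B0` satisfies the hypotheses for `(A0, B0)`. Its image in `B` satisfies those for `(A, B)`: `x σ0(x) = y^3` maps to `x' σ(x') = y'^3` (`T.sig`); the valuations; at `W ∋ 3`: `w = W ∩ 𝓞 B0 ∋ 3`, `t`, and
`W(x' t'^3 - 1)^2 = (w(..)^e)^2 = (w(..)^2)^e ≤ (w 27)^e = W 27`; the norm: `T.norm_compat`. So `x'` is a cube, and `x` is a cube by `cube_descentT`.
-/

set_option autoImplicit false

namespace H11R

open NumberField IsDedekindDomain H5SW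

/-- the prime below and the valuations -/
private lemma Ea_val_below {L F : Type} [Field L] [NumberField L] [Field F] [NumberField F]
    [Algebra L F] (W : HeightOneSpectrum (𝓞 F)) :
    ∃ (w : HeightOneSpectrum (𝓞 L)) (e : ℕ), w.asIdeal = W.asIdeal.under (𝓞 L) ∧
      ∀ x : L, w.valuation L x ^ e = W.valuation F (algebraMap L F x) := by
  let w : HeightOneSpectrum (𝓞 L) := ⟨W.asIdeal.under (𝓞 L), inferInstance,
    Ideal.IsIntegral.comap_ne_bot _ W.ne_bot⟩
  have _ : W.asIdeal.LiesOver w.asIdeal := ⟨rfl⟩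
  exact ⟨w, _, rfl, fun x => HeightOneSpectrum.valuation_liesOver F w W x⟩

private lemma Ea_three_up {L F : Type} [Field L] [NumberField L] [Field F] [NumberField F]
    [Algebra L F] {x : L}
    (hev : ∀ w : HeightOneSpectrum (𝓞 L), (3 : ℤ) ∣ WithZero.log (w.valuation L x))
    (W : HeightOneSpectrum (𝓞 F)) :
    (3 : ℤ) ∣ WithZero.log (W.valuation F (algebraMap L F x)) := by
  obtain ⟨w, e, _, hw⟩ := Ea_val_below (L := L) W
  rw [← hw x, WithZero.log_pow, nsmul_eq_mul]
  exact Dvd.dvd.mul_left (hev w) _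

theorem cube_descentT {L F : Type} [Field L] [NumberField L] [Field F] [NumberField F] [Algebra L F] (hr : IsTotallyReal F)
    (hG : IsGalois ℚ F) {x : L} (h : ∃ y : F, algebraMap L F x = y ^ 3) : ∃ y : L, x = y ^ 3 := by
  obtain ⟨y, hy⟩ := h
  have hgal2 : IsGalois L F := IsGalois.tower_top_of_isGalois ℚ L F
  obtain ⟨w⟩ := (inferInstance : Nonempty (InfinitePlace F))
  have hw : w.IsReal := IsTotallyReal.isReal w
  have hfix : ∀ τ : F ≃ₐ[L] F, τ y = y := by
    intro τ
    have h1 : (τ y) ^ 3 = y ^ 3 := by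
      rw [← map_pow, ← hy, AlgEquiv.commutes]
    have h2 : (InfinitePlace.embedding_of_isReal hw (τ y)) ^ 3 = (InfinitePlace.embedding_of_isReal hw y) ^ 3 := by
      rw [← map_pow, h1, map_pow]
    have h3 : InfinitePlace.embedding_of_isReal hw (τ y) = InfinitePlace.embedding_of_isReal hw y :=
      (Odd.strictMono_pow (by decide : Odd 3)).injective h2
    exact (InfinitePlace.embedding_of_isReal hw).injective h3
  obtain ⟨z, hz⟩ := (IsGalois.mem_range_algebraMap_iff_fixed y).2 hfix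
  refine ⟨z, (algebraMap L F).injective ?_⟩
  rw [hy, map_pow, hz]

theorem noNewCubeT_down {A0 B0 A B : Type} [Field A0] [NumberField A0] [Field B0] [NumberField B0] [Field A] [NumberField A] [Field B]
    [NumberField B] [Algebra A0 B0] [Algebra A B] [Algebra A0 A] [Algebra B0 B] {σ0 : B0 ≃ₐ[ℚ] B0} {σ : B ≃ₐ[ℚ] B}
    (T : TrT A0 B0 A B σ0 σ) (h : NoNewCubeT A B σ) : NoNewCubeT A0 B0 σ0 := by
  intro x hx hc hev hloc hn
  refine cube_descentT (F := B) T.real T.gal ?_
  refine h (algebraMap B0 B x) (by rwa [Ne, map_eq_zero]) ?_ (Ea_three_up hev) ?_ ?_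
  · obtain ⟨y, hy⟩ := hc
    exact ⟨algebraMap B0 B y, by rw [T.sig, ← map_mul, hy, map_pow]⟩
  · intro W hW
    obtain ⟨w, e, hwW, hval⟩ := Ea_val_below (L := B0) W
    have h3w : (3 : 𝓞 B0) ∈ w.asIdeal := by
      rw [hwW]
      change algebraMap (𝓞 B0) (𝓞 B) 3 ∈ W.asIdeal
      rwa [map_ofNat]
    obtain ⟨t, ht⟩ := hloc w h3w
    refine ⟨algebraMap B0 B t, ?_⟩
    have e1 : algebraMap B0 B x * algebraMap B0 B t ^ 3 - 1 = algebraMap B0 B (x * t ^ 3 - 1) := by
      rw [map_sub, map_mul, map_pow, map_one]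
    have e2 : (27 : B) = algebraMap B0 B 27 := (map_ofNat (algebraMap B0 B) 27).symm
    rw [e1, e2, ← hval, ← hval, ← pow_mul, mul_comm e 2, pow_mul]
    exact pow_le_pow_left' ht e
  · obtain ⟨y, hy⟩ := hn
    refine ⟨algebraMap A0 A y, ?_⟩
    rw [← T.norm_compat x, hy, map_pow]

end H11R
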