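import Pool.Agent.H11.T3R.El

/-!
ROW Em (construction of the fields `A ⊆ B`; about 190 lines).

PROOF. `f = p^(n+1)`, `f' = p^(m+1)`, `N = d f`, `N' = d f'`, `N' ∣ N`. `CA = CyclotomicField N' ℚ`, `CB = CyclotomicField N ℚ` (instances: `CyclotomicField.isCyclotomicExtension` needs `NeZero ((N : ℕ) : ℚ)`, `IsCyclotomicExtension.numberField`, see DfI.lean), a ring homomorphism
`CA → CB` (`exists_emb`) made an algebra. `B = FX N CB (HB d f ψ)`, `A = FX N' CA (HB d f' ψ)` (subfields, with the inclusions as algebras).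
(1) `jF : F → CB`: `r.rL.emb` composed with `CyclotomicField f ℚ → CB` (`exists_emb`, `f ∣ N`). `emb_F`: `z`, `hz`, `hza`, `hact : s_w (jF x) = jF (σ (w mod f) x)`. For `w ∈ HB d f ψ`: `σ (± 1) = 1` (`r.rL.ker`), so `jF x ∈ B` (`mem_FX`): `F → B` (`RingHom.codRestrict`).
(2) `jM : M → CA` with `algebraMap CA CB (jM x) = jF (algebraMap M F x)`: `factor_hom`, and `jF (algebraMap M F x)` is in the range of `CA → CB` (`mem_range_cyc`: `w = 1` mod `N'`, so `w mod f = 1` mod `f'` (`ZMod.unitsMap_comp`), `hact`, `sig_fix`).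
(3) `jM x ∈ A`: for `w ∈ HB d f' ψ` choose `w''` modulo `N` with reduction `w` (`ZMod.unitsMap_surjective`); image of `s_w (jM x)` in `CB` = `s_{w''} (jF ..)` (`act_emb`) `= jF (σ (w'' mod f) (algebraMap M F x)) = jF (algebraMap M F x)` (`sig_fix`, `w'' mod f = ± 1` mod `f'`). So `M → A`.
(4) `x ∈ A`: its image in `CB` is in `B` (`act_emb`, `HB_down`, `mem_FX`). So `A → B`.
(5) `ξ = zeta N ^ f` of order `d` in `CB` (`IsPrimitiveRoot.pow`), `ξA`, `zA ∈ CA` with images `ξ ^ p^(n-m)`, `z ^ p^(n-m)` (`root_range` with `k = d`, `f'`); they are primitive of orders `d` (`p` prime to `d`: `IsPrimitiveRoot.pow_of_coprime`) and `f'` (`IsPrimitiveRoot.pow`),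
    `IsPrimitiveRoot.of_map_of_injective`.
(6) `rB = ⟨r.rL, real_FX _ (neg_one_HB H.Q), ξ, z, _, hz, hza, hH⟩`, `hH`: `HM_FX`, `mem_HB`. `rA`: the same; `hc`: `jM (rK.c a) = zA^a + (zA^a)⁻¹` by the injectivity of `CA → CB`, `r.compat a`, `hza (p^(n-m) * a)`.
(7) `RP2`: `eB`, `eA`, `comm1`: `rfl`; `comm2`: `Subtype.ext`, (2); `cξ`, `cz`: (5).
(8) `δ`: `H.root N' (dvd_mul_right ..) CA`; it is in `A` (`mem_FX`: `ψ = 1` on `HB`); `act_emb` and `ZMod.unitsMap_comp` for the last statement.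
It is allowed (and advisable) to split this into auxiliary lemmas.
-/

set_option autoImplicit false

open NumberField

namespace H11R

open H5SW

section

variable {D : ℤ} {p m n d : ℕ} [Fact p.Prime] [NeZero d] {ψ : (ZMod d)ˣ →* ℤˣ}
    {M F : Type} [Field M] [NumberField M] [Field F] [NumberField F] [Algebra M F]
    {CA CB : Type} [Field CA] [NumberField CA] [Field CB] [NumberField CB] [Algebra CA CB]
    [IsCyclotomicExtension {d * p ^ (m + 1)} ℚ CA] [IsCyclotomicExtension {d * p ^ (n + 1)} ℚ CB]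

/-- `F → CB` exists -/
theorem Em_hom (r : RC (p ^ (n + 1)) F) (C : Type) [Field C] [NumberField C]
    [IsCyclotomicExtension {d * p ^ (n + 1)} ℚ C] : Nonempty (F →+* C) := by
  have hp : p.Prime := Fact.out
  have := r.neZero
  have h0 : NeZero (((p ^ (n + 1) : ℕ) : ℚ)) := ⟨Nat.cast_ne_zero.mpr (NeZero.ne _)⟩
  have hcyc : IsCyclotomicExtension {p ^ (n + 1)} ℚ (CyclotomicField (p ^ (n + 1)) ℚ) :=
    CyclotomicField.isCyclotomicExtension (p ^ (n + 1)) ℚ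
  have hNF : NumberField (CyclotomicField (p ^ (n + 1)) ℚ) := IsCyclotomicExtension.numberField {p ^ (n + 1)} ℚ _
  obtain ⟨i⟩ := r.emb
  obtain ⟨j⟩ := exists_emb (C1 := CyclotomicField (p ^ (n + 1)) ℚ) (C2 := C) (dvd_mul_left (p ^ (n + 1)) d)
  exact ⟨j.comp i⟩

theorem Em_memB (r : RC (p ^ (n + 1)) F) (jF : F →+* CB)
    (hact : ∀ (w : (ZMod (d * p ^ (n + 1)))ˣ) (x : F), (IsCyclotomicExtension.Rat.galEquivZMod (d * p ^ (n + 1)) CB).symm w (jF x) =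
      jF (r.σ (ZMod.unitsMap (dvd_mul_left (p ^ (n + 1)) d) w) x)) (x : F) :
    jF x ∈ FX (d * p ^ (n + 1)) CB (HB d (p ^ (n + 1)) ψ) := by
  rw [mem_FX]
  intro w hw
  rw [mem_HB] at hw
  rw [hact, (r.ker _).2 hw.1, AlgEquiv.one_apply]

theorem Em_comp (hmn : m ≤ n) (hN : d * p ^ (m + 1) ∣ d * p ^ (n + 1)) (w : (ZMod (d * p ^ (n + 1)))ˣ) :
    ZMod.unitsMap (pow_dvd_pow p (Nat.succ_le_succ hmn)) (ZMod.unitsMap (dvd_mul_left (p ^ (n + 1)) d) w) =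
      ZMod.unitsMap (dvd_mul_left (p ^ (m + 1)) d) (ZMod.unitsMap hN w) := by
  have hpd : p ^ (m + 1) ∣ p ^ (n + 1) := pow_dvd_pow p (Nat.succ_le_succ hmn)
  rw [El_comp (dvd_mul_left (p ^ (m + 1)) d) hN (hpd.trans (dvd_mul_left (p ^ (n + 1)) d)),
    El_comp hpd _ (hpd.trans (dvd_mul_left (p ^ (n + 1)) d))]

theorem Em_jM (hp2 : p ≠ 2) (r : RP p m n M F) (hN : d * p ^ (m + 1) ∣ d * p ^ (n + 1)) (jF : F →+* CB)
    (hact : ∀ (w : (ZMod (d * p ^ (n + 1)))ˣ) (x : F), (IsCyclotomicExtension.Rat.galEquivZMod (d * p ^ (n + 1)) CB).symm w (jF x) =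
      jF (r.rL.σ (ZMod.unitsMap (dvd_mul_left (p ^ (n + 1)) d) w) x)) :
    ∃ jM : M →+* CA, ∀ x, algebraMap CA CB (jM x) = jF (algebraMap M F x) := by
  refine factor_hom (algebraMap CA CB) (jF.comp (algebraMap M F)) fun x => ?_
  rw [mem_range_cyc hN]
  intro w hw
  rw [RingHom.comp_apply, hact, sig_fix hp2 r _ ?_ x]
  left
  rw [Em_comp r.hmn hN, hw, map_one]

theorem Em_memA (hp2 : p ≠ 2) (r : RP p m n M F) (hN : d * p ^ (m + 1) ∣ d * p ^ (n + 1)) (jF : F →+* CB)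
    (hact : ∀ (w : (ZMod (d * p ^ (n + 1)))ˣ) (x : F), (IsCyclotomicExtension.Rat.galEquivZMod (d * p ^ (n + 1)) CB).symm w (jF x) =
      jF (r.rL.σ (ZMod.unitsMap (dvd_mul_left (p ^ (n + 1)) d) w) x)) (jM : M →+* CA)
    (hjM : ∀ x, algebraMap CA CB (jM x) = jF (algebraMap M F x)) (x : M) :
    jM x ∈ FX (d * p ^ (m + 1)) CA (HB d (p ^ (m + 1)) ψ) := by
  rw [mem_FX]
  intro w hw
  rw [mem_HB] at hw
  obtain ⟨w', hw'⟩ := ZMod.unitsMap_surjective hN w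
  apply (algebraMap CA CB).injective
  have h1 := act_emb (C1 := CA) (C2 := CB) hN w' (jM x)
  rw [hw'] at h1
  rw [← h1, hjM, hact, sig_fix hp2 r _ ?_ x]
  rw [Em_comp r.hmn hN, hw']
  exact hw.1

theorem Em_down (hmn : m ≤ n) (hN : d * p ^ (m + 1) ∣ d * p ^ (n + 1))
    (x : FX (d * p ^ (m + 1)) CA (HB d (p ^ (m + 1)) ψ)) :
    algebraMap CA CB (x : CA) ∈ FX (d * p ^ (n + 1)) CB (HB d (p ^ (n + 1)) ψ) := by
  rw [mem_FX]
  intro w hw
  rw [act_emb hN w (x : CA)]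
  congr 1
  exact (mem_FX _ (x : CA)).1 x.2 _ (HB_down hmn hN hw)

theorem Em_core (hp2 : p ≠ 2) (hpd : p.Coprime d) (H : CH D d ψ) (r : RP p m n M F)
    (hN : d * p ^ (m + 1) ∣ d * p ^ (n + 1)) :
    ∃ (_ : Algebra M (FX (d * p ^ (m + 1)) CA (HB d (p ^ (m + 1)) ψ))) (_ : Algebra F (FX (d * p ^ (n + 1)) CB (HB d (p ^ (n + 1)) ψ)))
      (_ : Algebra (FX (d * p ^ (m + 1)) CA (HB d (p ^ (m + 1)) ψ)) (FX (d * p ^ (n + 1)) CB (HB d (p ^ (n + 1)) ψ)))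
      (T : RP2 p m n d ψ M F (FX (d * p ^ (m + 1)) CA (HB d (p ^ (m + 1)) ψ)) (FX (d * p ^ (n + 1)) CB (HB d (p ^ (n + 1)) ψ)) CA CB)
      (δ : FX (d * p ^ (m + 1)) CA (HB d (p ^ (m + 1)) ψ)), T.rp = r ∧
        δ ^ 2 = (D : FX (d * p ^ (m + 1)) CA (HB d (p ^ (m + 1)) ψ)) ∧ ∀ w : (ZMod (d * p ^ (n + 1)))ˣ,
        (IsCyclotomicExtension.Rat.galEquivZMod (d * p ^ (n + 1)) CB).symm w
          (algebraMap (FX (d * p ^ (n + 1)) CB (HB d (p ^ (n + 1)) ψ)) CB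
            (algebraMap (FX (d * p ^ (m + 1)) CA (HB d (p ^ (m + 1)) ψ)) (FX (d * p ^ (n + 1)) CB (HB d (p ^ (n + 1)) ψ)) δ)) =
          (((ψ (ZMod.unitsMap (dvd_mul_right d (p ^ (n + 1))) w) : ℤˣ) : ℤ) : CB) *
            algebraMap (FX (d * p ^ (n + 1)) CB (HB d (p ^ (n + 1)) ψ)) CB
              (algebraMap (FX (d * p ^ (m + 1)) CA (HB d (p ^ (m + 1)) ψ)) (FX (d * p ^ (n + 1)) CB (HB d (p ^ (n + 1)) ψ)) δ) := by
  have hp : p.Prime := Fact.out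
  obtain ⟨jF⟩ := Em_hom (d := d) r.rL CB
  obtain ⟨z, hz, hza, hact⟩ := emb_F (d := d) hp2 r.rL jF
  obtain ⟨jM, hjM⟩ := Em_jM (CA := CA) hp2 r hN jF hact
  have hinj : Function.Injective (algebraMap CA CB) := (algebraMap CA CB).injective
  -- roots of unity
  obtain ⟨ξ, hξ⟩ : ∃ ξ : CB, IsPrimitiveRoot ξ d :=
    ⟨_, (IsCyclotomicExtension.zeta_spec (d * p ^ (n + 1)) ℚ CB).pow (NeZero.pos _) (mul_comm d (p ^ (n + 1)))⟩
  have hcop : (p ^ (n - m)).Coprime d := hpd.pow_left _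
  have hξ' : IsPrimitiveRoot (ξ ^ (p ^ (n - m))) d := hξ.pow_of_coprime _ hcop
  have hexp : p ^ (n + 1) = p ^ (n - m) * p ^ (m + 1) := by
    rw [← pow_add]
    congr 1
    have := r.hmn
    omega
  have hz' : IsPrimitiveRoot (z ^ (p ^ (n - m))) (p ^ (m + 1)) := hz.pow (pow_pos hp.pos _) hexp
  obtain ⟨ξA, hξA⟩ := root_range (C1 := CA) (C2 := CB) hN (dvd_mul_right d (p ^ (m + 1))) hξ'.pow_eq_one
  obtain ⟨zA, hzA⟩ := root_range (C1 := CA) (C2 := CB) hN (dvd_mul_left (p ^ (m + 1)) d) hz'.pow_eq_one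
  -- the square root of `D`
  obtain ⟨δ, hδ, hδa⟩ := H.root (d * p ^ (m + 1)) (dvd_mul_right d (p ^ (m + 1))) CA
  have hδA : δ ∈ FX (d * p ^ (m + 1)) CA (HB d (p ^ (m + 1)) ψ) := by
    rw [mem_FX]
    intro w hw
    rw [mem_HB] at hw
    rw [hδa, hw.2]
    simp
  -- the algebras
  let iMA : M →+* FX (d * p ^ (m + 1)) CA (HB d (p ^ (m + 1)) ψ) :=
    RingHom.codRestrict jM (FX (d * p ^ (m + 1)) CA (HB d (p ^ (m + 1)) ψ)) (Em_memA hp2 r hN jF hact jM hjM)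
  let iFB : F →+* FX (d * p ^ (n + 1)) CB (HB d (p ^ (n + 1)) ψ) :=
    RingHom.codRestrict jF (FX (d * p ^ (n + 1)) CB (HB d (p ^ (n + 1)) ψ)) (Em_memB r.rL jF hact)
  let iAB : FX (d * p ^ (m + 1)) CA (HB d (p ^ (m + 1)) ψ) →+* FX (d * p ^ (n + 1)) CB (HB d (p ^ (n + 1)) ψ) :=
    RingHom.codRestrict ((algebraMap CA CB).comp (algebraMap (FX (d * p ^ (m + 1)) CA (HB d (p ^ (m + 1)) ψ)) CA))
      (FX (d * p ^ (n + 1)) CB (HB d (p ^ (n + 1)) ψ)) (Em_down r.hmn hN)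
  letI aMA : Algebra M (FX (d * p ^ (m + 1)) CA (HB d (p ^ (m + 1)) ψ)) := iMA.toAlgebra
  letI aFB : Algebra F (FX (d * p ^ (n + 1)) CB (HB d (p ^ (n + 1)) ψ)) := iFB.toAlgebra
  letI aAB : Algebra (FX (d * p ^ (m + 1)) CA (HB d (p ^ (m + 1)) ψ)) (FX (d * p ^ (n + 1)) CB (HB d (p ^ (n + 1)) ψ)) :=
    iAB.toAlgebra
  have eFB : ∀ x : F, algebraMap (FX (d * p ^ (n + 1)) CB (HB d (p ^ (n + 1)) ψ)) CB (algebraMap F _ x) = jF x := fun x => rfl
  have eMA : ∀ x : M, algebraMap (FX (d * p ^ (m + 1)) CA (HB d (p ^ (m + 1)) ψ)) CA (algebraMap M _ x) = jM x := fun x => rfl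
  have eAB : ∀ x : FX (d * p ^ (m + 1)) CA (HB d (p ^ (m + 1)) ψ),
      algebraMap (FX (d * p ^ (n + 1)) CB (HB d (p ^ (n + 1)) ψ)) CB (algebraMap _ _ x) = algebraMap CA CB (x : CA) := fun x => rfl
  let rB : RB d (p ^ (n + 1)) ψ F (FX (d * p ^ (n + 1)) CB (HB d (p ^ (n + 1)) ψ)) CB :=
    { rF := r.rL
      real := real_FX _ (neg_one_HB H.Q)
      ξ := ξ
      z := z
      hξ := hξ
      hz := hz
      hc := fun a => by rw [eFB]; exact hza a
      hH := fun u => by rw [HM_FX, mem_HB] }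
  let rA : RB d (p ^ (m + 1)) ψ M (FX (d * p ^ (m + 1)) CA (HB d (p ^ (m + 1)) ψ)) CA :=
    { rF := r.rK
      real := real_FX _ (neg_one_HB H.Q)
      ξ := ξA
      z := zA
      hξ := IsPrimitiveRoot.of_map_of_injective (f := algebraMap CA CB) (by rw [hξA]; exact hξ') hinj
      hz := IsPrimitiveRoot.of_map_of_injective (f := algebraMap CA CB) (by rw [hzA]; exact hz') hinj
      hc := fun a => by
        apply hinj
        rw [eMA, hjM, r.compat a, hza, map_add, map_inv₀, map_pow, hzA, ← pow_mul]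
      hH := fun u => by rw [HM_FX, mem_HB] }
  let T : RP2 p m n d ψ M F (FX (d * p ^ (m + 1)) CA (HB d (p ^ (m + 1)) ψ)) (FX (d * p ^ (n + 1)) CB (HB d (p ^ (n + 1)) ψ)) CA CB :=
    { rp := r
      rB := rB
      rA := rA
      eB := rfl
      eA := rfl
      comm1 := fun x => rfl
      comm2 := fun x => Subtype.ext (hjM x)
      cξ := hξA
      cz := hzA }
  refine ⟨aMA, aFB, aAB, T, ⟨δ, hδA⟩, rfl, ?_, ?_⟩
  · apply Subtype.ext
    change δ ^ 2 = _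
    rw [hδ]
    simp
  · intro w
    rw [eAB]
    change (IsCyclotomicExtension.Rat.galEquivZMod (d * p ^ (n + 1)) CB).symm w (algebraMap CA CB δ) = _ * algebraMap CA CB δ
    rw [act_emb hN w δ, hδa, map_mul, map_intCast, El_comp (dvd_mul_right d (p ^ (m + 1))) hN (dvd_mul_right d (p ^ (n + 1)))]

end

theorem exists_RP2 {D : ℤ} {p m n d : ℕ} [Fact p.Prime] [NeZero d] (hp2 : p ≠ 2) (hpd : p.Coprime d) {ψ : (ZMod d)ˣ →* ℤˣ} (H : CH D d ψ)
    {M F : Type} [Field M] [NumberField M] [Field F] [NumberField F] [Algebra M F] (r : RP p m n M F) :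
    ∃ (A B CA CB : Type) (_ : Field A) (_ : NumberField A) (_ : Field B) (_ : NumberField B) (_ : Field CA) (_ : NumberField CA)
      (_ : Field CB) (_ : NumberField CB) (_ : Algebra M A) (_ : Algebra F B) (_ : Algebra A B) (_ : Algebra A CA) (_ : Algebra B CB)
      (_ : Algebra CA CB) (_ : IsCyclotomicExtension {d * p ^ (m + 1)} ℚ CA) (_ : IsCyclotomicExtension {d * p ^ (n + 1)} ℚ CB)
      (T : RP2 p m n d ψ M F A B CA CB) (δ : A), T.rp = r ∧ δ ^ 2 = (D : A) ∧ ∀ w : (ZMod (d * p ^ (n + 1)))ˣ,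
        (IsCyclotomicExtension.Rat.galEquivZMod (d * p ^ (n + 1)) CB).symm w (algebraMap B CB (algebraMap A B δ)) =
          (((ψ (ZMod.unitsMap (dvd_mul_right d (p ^ (n + 1))) w) : ℤˣ) : ℤ) : CB) * algebraMap B CB (algebraMap A B δ) := by
  have hp : p.Prime := Fact.out
  have hN : d * p ^ (m + 1) ∣ d * p ^ (n + 1) := mul_dvd_mul_left d (pow_dvd_pow p (Nat.succ_le_succ r.hmn))
  have hA0 : NeZero (((d * p ^ (m + 1) : ℕ) : ℚ)) := ⟨Nat.cast_ne_zero.mpr (NeZero.ne _)⟩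
  have hB0 : NeZero (((d * p ^ (n + 1) : ℕ) : ℚ)) := ⟨Nat.cast_ne_zero.mpr (NeZero.ne _)⟩
  have hcA : IsCyclotomicExtension {d * p ^ (m + 1)} ℚ (CyclotomicField (d * p ^ (m + 1)) ℚ) :=
    CyclotomicField.isCyclotomicExtension (d * p ^ (m + 1)) ℚ
  have hcB : IsCyclotomicExtension {d * p ^ (n + 1)} ℚ (CyclotomicField (d * p ^ (n + 1)) ℚ) :=
    CyclotomicField.isCyclotomicExtension (d * p ^ (n + 1)) ℚ
  have hnA : NumberField (CyclotomicField (d * p ^ (m + 1)) ℚ) := IsCyclotomicExtension.numberField {d * p ^ (m + 1)} ℚ _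
  have hnB : NumberField (CyclotomicField (d * p ^ (n + 1)) ℚ) := IsCyclotomicExtension.numberField {d * p ^ (n + 1)} ℚ _
  obtain ⟨i⟩ := exists_emb (C1 := CyclotomicField (d * p ^ (m + 1)) ℚ) (C2 := CyclotomicField (d * p ^ (n + 1)) ℚ) hN
  letI aC : Algebra (CyclotomicField (d * p ^ (m + 1)) ℚ) (CyclotomicField (d * p ^ (n + 1)) ℚ) := i.toAlgebra
  obtain ⟨a1, a2, a3, T, δ, h1, h2, h3⟩ := Em_core (CA := CyclotomicField (d * p ^ (m + 1)) ℚ)
    (CB := CyclotomicField (d * p ^ (n + 1)) ℚ) hp2 hpd H r hN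
  exact ⟨_, _, _, _, inferInstance, inferInstance, inferInstance, inferInstance, inferInstance, hnA, inferInstance, hnB,
    a1, a2, a3, inferInstance, inferInstance, aC, hcA, hcB, T, δ, h1, h2, h3⟩

end H11R
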