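import Pool.Agent.H11.T3R.DfH

/-!
ROW Eb (the fields `L` and `M` generate `F`; about 70 lines).

PROOF. `finrank_eq`: `T.norm_compat (2 : L)`: `2 ^ [L:K] = 2 ^ [F:M]` (`Algebra.norm_algebraMap` with `2 = algebraMap 2`), so `[L:K] = [F:M]` (`Nat.pow_right_injective`, cast to a field of characteristic zero).
`tw_inf`: use `L3aux.HH` and `L3aux.card_HH` (Pool/Agent/H5/SW/L3.lean; `F/ℚ` is Galois: `T.rp.rL.gal`). `HL = HH (algebraMap L F)`, `HM`, `HK = HH (algebraMap L F ∘ algebraMap K L)`: `|HL| [L:ℚ] = |HM| [M:ℚ] = |HK| [K:ℚ] = [F:ℚ]`, and `[L:ℚ] = [K:ℚ] [L:K]`,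
`[F:ℚ] = [M:ℚ] [F:M]`, so `|HM| = [F:M] = [L:K]`, `|HK| = |HL| [L:K] = |HL| |HM|`. The map `HL × HM → HK`, `(a, b) ↦ a b` (well defined: `T.comm`) is surjective (`T.gal_split`), hence injective (equal finite cardinalities). If `g` fixes `L` and `M`,
then `(g, g⁻¹)` and `(1, 1)` have the same image, so `g = 1`.
-/

set_option autoImplicit false

open NumberField

namespace H11R

open H5SW

theorem tw_finrank {p m n : ℕ} {K L M F : Type} [Field K] [NumberField K] [Field L] [NumberField L] [Field M]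
    [NumberField M] [Field F] [NumberField F] [Algebra K L] [Algebra M F] [Algebra K M] [Algebra L F] (T : Tw p m n K L M F) :
    Module.finrank K L = Module.finrank M F := by
  have h := T.norm_compat 2
  have h1 : (2 : L) = algebraMap K L 2 := (map_ofNat (algebraMap K L) 2).symm
  have h2 : algebraMap L F 2 = algebraMap M F 2 := by
    rw [map_ofNat (algebraMap L F) 2, map_ofNat (algebraMap M F) 2]
  rw [h2, Algebra.norm_algebraMap, h1, Algebra.norm_algebraMap, map_pow, map_ofNat (algebraMap K M) 2] at h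
  have h3 : ((2 ^ Module.finrank K L : ℕ) : M) = ((2 ^ Module.finrank M F : ℕ) : M) := by
    push_cast
    exact h
  exact Nat.pow_right_injective le_rfl (Nat.cast_injective h3)

private theorem Eb_grp {G : Type} [Group G] [Finite G] (HK HL HM : Subgroup G) (h1 : HL ≤ HK) (h2 : HM ≤ HK)
    (hc : Nat.card HL * Nat.card HM = Nat.card HK) (hs : ∀ g ∈ HK, ∃ a ∈ HL, ∃ b ∈ HM, g = a * b)
    (g : G) (hL : g ∈ HL) (hM : g ∈ HM) : g = 1 := by
  obtain ⟨f, hf⟩ : ∃ f : HL × HM → HK, ∀ q, ((f q : HK) : G) = (q.1 : G) * (q.2 : G) :=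
    ⟨fun q => ⟨(q.1 : G) * (q.2 : G), HK.mul_mem (h1 q.1.2) (h2 q.2.2)⟩, fun q => rfl⟩
  have hsurj : Function.Surjective f := by
    rintro ⟨x, hx⟩
    obtain ⟨a, ha, b, hb, hab⟩ := hs x hx
    refine ⟨(⟨a, ha⟩, ⟨b, hb⟩), Subtype.ext ?_⟩
    rw [hf]
    exact hab.symm
  have hcard : Nat.card (HL × HM) = Nat.card HK := by
    rw [Nat.card_prod, hc]
  have hinj : Function.Injective f := ((Nat.bijective_iff_surjective_and_card f).2 ⟨hsurj, hcard⟩).1
  have h3 : f (⟨g, hL⟩, ⟨g⁻¹, HM.inv_mem hM⟩) = f (1, 1) := by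
    apply Subtype.ext
    rw [hf, hf]
    show g * g⁻¹ = 1 * 1
    rw [mul_inv_cancel, one_mul]
  have h4 := congrArg Prod.fst (hinj h3)
  exact congrArg Subtype.val h4

theorem tw_inf {p m n : ℕ} {K L M F : Type} [Field K] [NumberField K] [Field L] [NumberField L] [Field M]
    [NumberField M] [Field F] [NumberField F] [Algebra K L] [Algebra M F] [Algebra K M] [Algebra L F] (T : Tw p m n K L M F)
    (g : F ≃ₐ[ℚ] F) (h1 : ∀ x : L, g (algebraMap L F x) = algebraMap L F x) (h2 : ∀ x : M, g (algebraMap M F x) = algebraMap M F x) :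
    g = 1 := by
  have hG : IsGalois ℚ F := T.rp.rL.gal
  obtain ⟨φK, hφK⟩ : ∃ φ : K →+* F, φ = (algebraMap L F).comp (algebraMap K L) := ⟨_, rfl⟩
  have cL := L3aux.card_HH (algebraMap L F)
  have cM := L3aux.card_HH (algebraMap M F)
  have cK := L3aux.card_HH φK
  have dL : Module.finrank ℚ K * Module.finrank K L = Module.finrank ℚ L := Module.finrank_mul_finrank ℚ K L
  have dM : Module.finrank ℚ M * Module.finrank M F = Module.finrank ℚ F := Module.finrank_mul_finrank ℚ M F
  have pL : 0 < Module.finrank ℚ L := Module.finrank_pos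
  have pM : 0 < Module.finrank ℚ M := Module.finrank_pos
  have pK : 0 < Module.finrank ℚ K := Module.finrank_pos
  have hfr := tw_finrank T
  have e1 : Nat.card (L3aux.HH (algebraMap M F)) = Module.finrank M F := by
    apply Nat.eq_of_mul_eq_mul_right pM
    rw [cM, ← dM, mul_comm]
  have hc : Nat.card (L3aux.HH (algebraMap L F)) * Nat.card (L3aux.HH (algebraMap M F)) = Nat.card (L3aux.HH φK) := by
    apply Nat.eq_of_mul_eq_mul_right pK
    rw [cK, ← cL, ← dL, e1, ← hfr]
    ring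
  apply Eb_grp (L3aux.HH φK) (L3aux.HH (algebraMap L F)) (L3aux.HH (algebraMap M F)) _ _ hc _ g h1 h2
  · intro a ha x
    rw [hφK]
    exact ha _
  · intro a ha x
    rw [hφK, RingHom.comp_apply, ← T.comm]
    exact ha _
  · intro a ha
    obtain ⟨b, c, hbc, hb, hc'⟩ := T.gal_split a (fun x => by
      have := ha x
      rw [hφK] at this
      exact this)
    exact ⟨b, hb, c, hc', hbc⟩

end H11R
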