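import Mathlib

/-!
ROW Ec (extension of homomorphisms to quadratic extensions; about 70 lines).

PROOF. `D` is not a square in `K` (`hns`), so `s ∉ K` (otherwise `D = s^2` is a square in `K`), so `1, s` are linearly independent over `K` and, the degree being two, a basis: every `x : A0` is `a + b s`, `a`, `b` unique.
`lift_quad`: `pb : PowerBasis K A0` with `pb.gen = s` or directly: `minpoly K s = X ^ 2 - C D` (monic, `aeval = 0`, degree two irreducible as there is no root), `Algebra.adjoin K {s} = ⊤` (dimension), `PowerBasis.lift` with `A` as a `K`-algebra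
through `φ` (`φ.toAlgebra`). Or define `f (a + b s) = φ a + φ b * δ` by hand with the basis and check multiplicativity.
`hom_ext_quad`: `x = a + b s`.
-/

set_option autoImplicit false

namespace H11R

theorem Ec_notmem {K A0 : Type} [Field K] [Field A0] [Algebra K A0] {D : ℤ} {s : A0} (hs : s ^ 2 = (D : A0))
    (hns : ∀ c : K, c ^ 2 ≠ (D : K)) (c : K) : algebraMap K A0 c ≠ s := by
  intro hc
  apply hns c
  apply (algebraMap K A0).injective
  rw [map_pow, hc, hs, map_intCast]

theorem Ec_uniq {K A0 : Type} [Field K] [Field A0] [Algebra K A0] {D : ℤ} {s : A0} (hs : s ^ 2 = (D : A0))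
    (hns : ∀ c : K, c ^ 2 ≠ (D : K)) (a b : K) (h : algebraMap K A0 a + algebraMap K A0 b * s = 0) : a = 0 ∧ b = 0 := by
  have hb : b = 0 := by
    by_contra hb
    apply Ec_notmem hs hns (-a / b)
    have hb' : algebraMap K A0 b ≠ 0 := (map_ne_zero _).2 hb
    rw [map_div₀, map_neg, div_eq_iff hb']
    linear_combination -h
  rw [hb, map_zero, zero_mul, add_zero] at h
  exact ⟨(map_eq_zero _).1 h, hb⟩

theorem Ec_uniq2 {K A0 : Type} [Field K] [Field A0] [Algebra K A0] {D : ℤ} {s : A0} (hs : s ^ 2 = (D : A0))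
    (hns : ∀ c : K, c ^ 2 ≠ (D : K)) {a b a' b' : K}
    (h : algebraMap K A0 a + algebraMap K A0 b * s = algebraMap K A0 a' + algebraMap K A0 b' * s) : a = a' ∧ b = b' := by
  have h1 := Ec_uniq hs hns (a - a') (b - b') (by rw [map_sub, map_sub]; linear_combination h)
  exact ⟨sub_eq_zero.1 h1.1, sub_eq_zero.1 h1.2⟩

theorem quad_repr {K A0 : Type} [Field K] [Field A0] [Algebra K A0] {D : ℤ} {s : A0} (hs : s ^ 2 = (D : A0)) (hdeg : Module.finrank K A0 = 2)
    (hns : ∀ c : K, c ^ 2 ≠ (D : K)) (x : A0) : ∃ a b : K, x = algebraMap K A0 a + algebraMap K A0 b * s := by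
  have hli : LinearIndependent K ![(1 : A0), s] := by
    rw [LinearIndependent.pair_iff]
    intro a b h
    rw [Algebra.smul_def, Algebra.smul_def, mul_one] at h
    exact Ec_uniq hs hns a b h
  let B := basisOfLinearIndependentOfCardEqFinrank hli (by rw [hdeg]; simp)
  have hx := B.sum_repr x
  rw [Fin.sum_univ_two] at hx
  refine ⟨B.repr x 0, B.repr x 1, ?_⟩
  have h0 : B 0 = 1 := by
    simp [B]
  have h1 : B 1 = s := by
    simp [B]
  rw [h0, h1, Algebra.smul_def, Algebra.smul_def, mul_one] at hx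
  exact hx.symm

theorem lift_quad {K A0 A : Type} [Field K] [Field A0] [Field A] [Algebra K A0] {D : ℤ} {s : A0} (hs : s ^ 2 = (D : A0))
    (hdeg : Module.finrank K A0 = 2) (hns : ∀ c : K, c ^ 2 ≠ (D : K)) (φ : K →+* A) {δ : A} (hδ : δ ^ 2 = (D : A)) :
    ∃ f : A0 →+* A, (∀ x : K, f (algebraMap K A0 x) = φ x) ∧ f s = δ := by
  choose a b hab using quad_repr hs hdeg hns
  have key : ∀ (x : A0) (p q : K), x = algebraMap K A0 p + algebraMap K A0 q * s → a x = p ∧ b x = q := by
    intro x p q h
    exact Ec_uniq2 hs hns ((hab x).symm.trans h)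
  refine ⟨{ toFun := fun x => φ (a x) + φ (b x) * δ
            map_one' := ?_
            map_mul' := ?_
            map_zero' := ?_
            map_add' := ?_ }, ?_, ?_⟩
  · obtain ⟨h1, h2⟩ := key 1 1 0 (by simp)
    simp [h1, h2]
  · intro x y
    obtain ⟨h1, h2⟩ := key (x * y) (a x * a y + b x * b y * (D : K)) (a x * b y + b x * a y) (by
      conv_lhs => rw [hab x, hab y]
      simp only [map_add, map_mul, map_intCast]
      linear_combination (algebraMap K A0 (b x) * algebraMap K A0 (b y)) * hs)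
    simp only [h1, h2, map_add, map_mul, map_intCast]
    linear_combination (-φ (b x) * φ (b y)) * hδ
  · obtain ⟨h1, h2⟩ := key 0 0 0 (by simp)
    simp [h1, h2]
  · intro x y
    obtain ⟨h1, h2⟩ := key (x + y) (a x + a y) (b x + b y) (by
      conv_lhs => rw [hab x, hab y]
      simp only [map_add]
      ring)
    simp only [h1, h2, map_add]
    ring
  · intro x
    obtain ⟨h1, h2⟩ := key (algebraMap K A0 x) x 0 (by simp)
    simp [h1, h2]
  · obtain ⟨h1, h2⟩ := key s 0 1 (by simp)
    simp [h1, h2]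

theorem hom_ext_quad {K A0 A : Type} [Field K] [Field A0] [Field A] [Algebra K A0] {D : ℤ} {s : A0} (hs : s ^ 2 = (D : A0))
    (hdeg : Module.finrank K A0 = 2) (hns : ∀ c : K, c ^ 2 ≠ (D : K)) {f g : A0 →+* A}
    (h1 : ∀ x : K, f (algebraMap K A0 x) = g (algebraMap K A0 x)) (h2 : f s = g s) : f = g := by
  ext x
  obtain ⟨a, b, rfl⟩ := quad_repr hs hdeg hns x
  rw [map_add, map_mul, map_add, map_mul, h1, h1, h2]

end H11R
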