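import Pool.Agent.H11.T3R.DfF
import Pool.Agent.H11.T3R.Eb
import Pool.Agent.H11.T3R.Ec

/-!
ROW En (the transfer data; about 190 lines).

PROOF. `δB` = image of `δ` in `B`, `δB^2 = D`. `σ = P.σ = π (1, -1)`.
(1) `σ` is the identity on the image of `F` (`P.actF`, `σ 1 = 1`), and `σ δB = - δB`: choose `w` with `w mod f = 1`, `ψ(w mod d) = -1` (`crt_exists`, `Bf_neg`), `P.act w δB`, `hδ w`, injectivity of `algebraMap B CB`.
(2) `D` is not a square in `F` (if `c^2 = D`, then `algebraMap F B c = ± δB` is fixed by `σ`, so `δB = - δB`, `δB = 0`, `D = 0`, but then `c = 0`..: `D ≠ 0` by `hD`), hence not in `M`, `L`, `K` (they embed in `F`).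
(3) `lift_quad`: `A0 → A` extending `K → M → A` with `s ↦ δ`; `B0 → B` extending `L → F → B` with `algebraMap A0 B0 q.s ↦ δB` (`q.degA`, `q.degB`; note `(algebraMap A0 B0 q.s)^2 = D`). Take them as algebras.
(4) The square `A0 → B0 → B`, `A0 → A → B` commutes (`hom_ext_quad` for `K ⊆ A0`: `q.comm`, `Tw.comm`, `T.comm2`, `hTr : T.rp = Tw.rp`).
(5) `sig`: `hom_ext_quad` for `L ⊆ B0` and the two homomorphisms `x ↦ σ (image x)`, `x ↦ image (q.σ x)` (`q.σL`, `q.σs`, (1)).
(6) `norm_compat`: as in `tower_build` of Pool/Agent/H5/SW/L3.lean (copy the part named norms with `K, L, M, F` replaced by `A0, B0, A, B`; commutativity = (4)). Needed: `B/ℚ` abelian (`gal_of_sub (d * p ^ (n + 1)) B CB`), so `B0/ℚ` is (`IsAbelianGalois.tower_bot ℚ B0 B`);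
    injectivity of `Gal(B/A) → Gal(B0/A0)`: `g` fixing `A` and `B0` is `1`: `g = π (v, 1)` with `v = 1` mod `p^(m+1)` (`P.fixA`), `σ_F v` (`T.rp.rL.σ v`) fixes `L` (`P.actF`, `L → B0`, injectivity of `F → B`) and `M` (as `g` fixes `A`, `T.comm2`), so `σ_F v = 1` (`tw_inf`),
    so `v = ± 1` (`T.rp.rL.ker`), so `π (v, 1) = 1` (`P.ker`). Cardinalities: `[B:A] = p^(n-m)` (`finrank_BA`, Bl.lean), `[F:M] = p^(n-m)` (`RP.finrank hp2`), `[L:K] = [F:M]` (`tw_finrank`), `[B0:A0] = [L:K]` (`[A0:K] [B0:A0] = [B0:K] = [L:K] [B0:L]` in the towers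
    `K ⊆ A0 ⊆ B0`, `K ⊆ L ⊆ B0`, as `ℚ`-dimensions: `Module.finrank_mul_finrank ℚ`, all fields are number fields; `q.degA`, `q.degB`).
(7) `real`: `T.rB.real`, `gal`: `(gal_of_sub ..).toIsGalois`.
It is allowed to split this into auxiliary lemmas.
-/

set_option autoImplicit false
set_option linter.unusedSectionVars false

open NumberField

namespace H11R

open H5SW

theorem En_norm {A0 B0 A B : Type} [Field A0] [NumberField A0] [Field B0] [NumberField B0] [Field A] [NumberField A] [Field B]
    [NumberField B] [Algebra A0 B0] [Algebra A B] [Algebra A0 A] [Algebra B0 B] (hab : IsAbelianGalois ℚ B)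
    (comm : ∀ x : A0, algebraMap A B (algebraMap A0 A x) = algebraMap B0 B (algebraMap A0 B0 x))
    (hinf : ∀ g : B ≃ₐ[ℚ] B, (∀ x : B0, g (algebraMap B0 B x) = algebraMap B0 B x) →
      (∀ x : A, g (algebraMap A B x) = algebraMap A B x) → g = 1)
    (hfr : Module.finrank A0 B0 = Module.finrank A B) (x : B0) :
    algebraMap A0 A (Algebra.norm A0 x) = Algebra.norm A (algebraMap B0 B x) := by
  have hg : IsGalois ℚ B := inferInstance
  have hgAB : IsGalois A B := IsGalois.tower_top_of_isGalois ℚ A B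
  have : IsAbelianGalois ℚ B0 := IsAbelianGalois.tower_bot ℚ B0 B
  have hgL : IsGalois ℚ B0 := inferInstance
  have hgKL : IsGalois A0 B0 := IsGalois.tower_top_of_isGalois ℚ A0 B0
  apply (algebraMap A B).injective
  rw [comm, Algebra.norm_eq_prod_automorphisms, Algebra.norm_eq_prod_automorphisms, map_prod]
  have hres : ∀ h : B ≃ₐ[A] B, ∃ t : B0 ≃ₐ[A0] B0, ∀ y : B0, algebraMap B0 B (t y) = h (algebraMap B0 B y) := by
    intro h
    have hc : ∀ y : B0, algebraMap B0 B ((h.restrictScalars ℚ).restrictNormal B0 y) =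
        h (algebraMap B0 B y) := fun y => AlgEquiv.restrictNormal_commutes (h.restrictScalars ℚ) B0 y
    refine ⟨AlgEquiv.ofRingEquiv (f := ((h.restrictScalars ℚ).restrictNormal B0).toRingEquiv) ?_, ?_⟩
    · intro z
      apply (algebraMap B0 B).injective
      refine (hc _).trans ?_
      rw [← comm]
      exact h.commutes _
    · intro y
      exact hc y
  choose Φ hΦ using hres
  have hinj : Function.Injective Φ := by
    intro a b hab
    have h1 : (b⁻¹ * a).restrictScalars ℚ = 1 := by
      apply hinf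
      · intro y
        have e1 := hΦ a y
        rw [hab, hΦ b y] at e1
        change b.symm (a (algebraMap B0 B y)) = _
        rw [← e1]
        exact b.symm_apply_apply _
      · intro y
        exact (b⁻¹ * a).commutes y
    have h2 : b⁻¹ * a = 1 := by
      ext y
      exact congrArg (fun t : B ≃ₐ[ℚ] B => t y) h1
    have := inv_mul_eq_one.mp h2
    exact this.symm
  have hcard : Nat.card (B0 ≃ₐ[A0] B0) ≤ Nat.card (B ≃ₐ[A] B) := by
    rw [IsGalois.card_aut_eq_finrank, IsGalois.card_aut_eq_finrank, hfr]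
  have hbij : Function.Bijective Φ := hinj.bijective_of_nat_card_le hcard
  symm
  exact Fintype.prod_bijective Φ hbij _ _ (fun h => (hΦ h x).symm)

theorem En_deg {D : ℤ} {K L A0 B0 : Type} [Field K] [NumberField K] [Field L] [NumberField L] [Field A0] [NumberField A0]
    [Field B0] [NumberField B0] [Algebra K L] [Algebra K A0] [Algebra L B0] [Algebra A0 B0] (q : QP D K L A0 B0) :
    Module.finrank A0 B0 = Module.finrank K L := by
  have h1 : Module.finrank ℚ K * Module.finrank K A0 = Module.finrank ℚ A0 := Module.finrank_mul_finrank ℚ K A0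
  have h2 : Module.finrank ℚ A0 * Module.finrank A0 B0 = Module.finrank ℚ B0 := Module.finrank_mul_finrank ℚ A0 B0
  have h3 : Module.finrank ℚ L * Module.finrank L B0 = Module.finrank ℚ B0 := Module.finrank_mul_finrank ℚ L B0
  have h4 : Module.finrank ℚ K * Module.finrank K L = Module.finrank ℚ L := Module.finrank_mul_finrank ℚ K L
  rw [q.degA] at h1
  rw [q.degB] at h3
  have hK : 0 < Module.finrank ℚ K := Module.finrank_pos
  have h5 : Module.finrank ℚ K * 2 * Module.finrank A0 B0 = Module.finrank ℚ K * 2 * Module.finrank K L := by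
    rw [← h1] at h2
    rw [← h4] at h3
    rw [h2, ← h3]
    ring
  exact Nat.eq_of_mul_eq_mul_left (by omega) h5

theorem exists_trT {D : ℤ} (hD : D ≠ 0) {p m n d : ℕ} [Fact p.Prime] [NeZero d] (hp2 : p ≠ 2) (hpd : p.Coprime d) {ψ : (ZMod d)ˣ →* ℤˣ} (Q : QH d ψ)
    {K L M F A0 B0 A B CA CB : Type} [Field K] [NumberField K] [Field L] [NumberField L] [Field M] [NumberField M] [Field F] [NumberField F]
    [Field A0] [NumberField A0] [Field B0] [NumberField B0] [Field A] [NumberField A] [Field B] [NumberField B] [Field CA] [NumberField CA]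
    [Field CB] [NumberField CB] [Algebra K L] [Algebra M F] [Algebra K M] [Algebra L F] [Algebra K A0] [Algebra L B0] [Algebra A0 B0]
    [Algebra M A] [Algebra F B] [Algebra A B] [Algebra A CA] [Algebra B CB]
    [Algebra CA CB] [IsCyclotomicExtension {d * p ^ (m + 1)} ℚ CA] [IsCyclotomicExtension {d * p ^ (n + 1)} ℚ CB]
    (W : Tw p m n K L M F) (q : QP D K L A0 B0) (T : RP2 p m n d ψ M F A B CA CB) (hTr : T.rp = W.rp) (P : PiT T) {δ : A} (hδ2 : δ ^ 2 = (D : A))
    (hδ : ∀ w : (ZMod (d * p ^ (n + 1)))ˣ,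
        (IsCyclotomicExtension.Rat.galEquivZMod (d * p ^ (n + 1)) CB).symm w (algebraMap B CB (algebraMap A B δ)) =
          (((ψ (ZMod.unitsMap (dvd_mul_right d (p ^ (n + 1))) w) : ℤˣ) : ℤ) : CB) * algebraMap B CB (algebraMap A B δ)) :
    ∃ (_ : Algebra A0 A) (_ : Algebra B0 B), TrT A0 B0 A B q.σ P.σ := by
  have hc : d.Coprime (p ^ (n + 1)) := (hpd.symm).pow_right _
  obtain ⟨δB, hδB⟩ : ∃ x : B, x = algebraMap A B δ := ⟨_, rfl⟩
  have hδB2 : δB ^ 2 = (D : B) := by
    rw [hδB, ← map_pow, hδ2, map_intCast]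
  -- the automorphism of `B` over `F`
  have hσF : ∀ x : F, P.σ (algebraMap F B x) = algebraMap F B x := by
    intro x
    have h := P.actF (1, -1) x
    have h1 : T.rp.rL.σ ((1, -1) : (ZMod (p ^ (n + 1)))ˣ × ℤˣ).1 = 1 := map_one _
    rw [h1, AlgEquiv.one_apply] at h
    exact h
  have hσδ : P.σ δB = - δB := by
    obtain ⟨t, ht⟩ := Bf_neg Q
    obtain ⟨w, hw1, hw2⟩ := crt_exists hc t 1
    have h := P.act w δB
    have h' := hδ w
    rw [hw1, ht] at h'
    rw [hw1, hw2, ht, hδB, h'] at h
    apply (algebraMap B CB).injective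
    rw [map_neg, hδB]
    refine h.trans ?_
    rw [Units.val_neg, Units.val_one]
    push_cast
    ring
  have hFns : ∀ c : F, c ^ 2 ≠ (D : F) := by
    intro c hcD
    have h1 : (algebraMap F B c) ^ 2 = δB ^ 2 := by
      rw [← map_pow, hcD, map_intCast, hδB2]
    have h2 : P.σ δB = δB := by
      rcases sq_eq_sq_iff_eq_or_eq_neg.1 h1 with h | h
      · rw [← h, hσF]
      · have : δB = - algebraMap F B c := by rw [h, neg_neg]
        rw [this, map_neg, hσF]
    rw [hσδ] at h2
    have h3 : δB = 0 := by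
      have h4 : (2 : B) * δB = 0 := by linear_combination (-1 : B) * h2
      rcases mul_eq_zero.1 h4 with h5 | h5
      · exact absurd h5 two_ne_zero
      · exact h5
    rw [h3] at hδB2
    have h6 : (D : B) = 0 := by rw [← hδB2]; ring
    exact hD (by exact_mod_cast h6)
  have hLns : ∀ c : L, c ^ 2 ≠ (D : L) := by
    intro c h
    apply hFns (algebraMap L F c)
    rw [← map_pow, h, map_intCast]
  have hKns : ∀ c : K, c ^ 2 ≠ (D : K) := by
    intro c h
    apply hLns (algebraMap K L c)
    rw [← map_pow, h, map_intCast]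
  -- the homomorphisms
  obtain ⟨f1, hf1, hf1s⟩ := lift_quad q.hs q.degA hKns ((algebraMap M A).comp (algebraMap K M)) hδ2
  have hs' : (algebraMap A0 B0 q.s) ^ 2 = (D : B0) := by
    rw [← map_pow, q.hs, map_intCast]
  obtain ⟨f2, hf2, hf2s⟩ := lift_quad hs' q.degB hLns ((algebraMap F B).comp (algebraMap L F)) hδB2
  have hf1' : ∀ x : K, f1 (algebraMap K A0 x) = algebraMap M A (algebraMap K M x) := hf1
  have hf2' : ∀ x : L, f2 (algebraMap L B0 x) = algebraMap F B (algebraMap L F x) := hf2
  have hsq : (algebraMap A B).comp f1 = f2.comp (algebraMap A0 B0) := by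
    refine hom_ext_quad q.hs q.degA hKns ?_ ?_
    · intro x
      rw [RingHom.comp_apply, RingHom.comp_apply, hf1', T.comm2, q.comm, hf2', W.comm]
    · rw [RingHom.comp_apply, RingHom.comp_apply, hf1s, hf2s, hδB]
  have hsg : (P.σ : B →+* B).comp f2 = f2.comp (q.σ : B0 →+* B0) := by
    refine hom_ext_quad hs' q.degB hLns ?_ ?_
    · intro x
      rw [RingHom.comp_apply, RingHom.comp_apply, hf2']
      change P.σ (algebraMap F B (algebraMap L F x)) = f2 (q.σ (algebraMap L B0 x))
      rw [hσF, q.σL, hf2']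
    · rw [RingHom.comp_apply, RingHom.comp_apply, hf2s]
      change P.σ δB = f2 (q.σ (algebraMap A0 B0 q.s))
      rw [hσδ, q.σs, map_neg, hf2s]
  have hab := gal_of_sub (d * p ^ (n + 1)) B CB
  let _ : Algebra A0 A := f1.toAlgebra
  let _ : Algebra B0 B := f2.toAlgebra
  have e1 : ∀ x : A0, algebraMap A0 A x = f1 x := fun _ => rfl
  have e2 : ∀ x : B0, algebraMap B0 B x = f2 x := fun _ => rfl
  refine ⟨f1.toAlgebra, f2.toAlgebra, ⟨?_, ?_, T.rB.real, hab.toIsGalois⟩⟩
  · refine En_norm hab ?_ ?_ ?_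
    · intro x
      rw [e1, e2]
      exact RingHom.congr_fun hsq x
    · intro g hg1 hg2
      obtain ⟨v, hv, hgv⟩ := (P.fixA g).1 hg2
      have hF : ∀ x : F, g (algebraMap F B x) = algebraMap F B (T.rp.rL.σ v x) := by
        intro x
        rw [hgv]
        exact P.actF (v, 1) x
      have h1 : T.rp.rL.σ v = 1 := by
        refine tw_inf W _ ?_ ?_
        · intro x
          apply (algebraMap F B).injective
          rw [← hF, ← hf2', ← e2, hg1]
        · intro x
          apply (algebraMap F B).injective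
          rw [← hF, ← T.comm2, hg2]
      rw [hgv]
      exact (P.ker (v, 1)).2 ⟨rfl, (T.rp.rL.ker v).1 h1⟩
    · rw [En_deg q, tw_finrank W, finrank_BA hpd Q T]
      exact W.rp.finrank hp2
  · intro x
    rw [e2, e2]
    exact RingHom.congr_fun hsg x

end H11R
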