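import Mathlib

/-!
# The group of units generated by the quotients of conjugates of an element (helper11; no row)
-/

set_option autoImplicit false

open NumberField

namespace H11R

/-- the units `± ∏ (g t) ^ θ(g)` with `∑ θ(g) = 0` -/
noncomputable def XU {M : Type} [Field M] [NumberField M] (t : 𝓞 M) (ht : t ≠ 0) : Subgroup (𝓞 M)ˣ where
  carrier := {ε | ∃ (θ : (M ≃ₐ[ℚ] M) → ℤ) (j : ℤ), ∑ g, θ g = 0 ∧
    ((ε : 𝓞 M) : M) = (-1) ^ j * ∏ g : M ≃ₐ[ℚ] M, (g (t : M)) ^ θ g}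
  one_mem' := ⟨0, 0, by simp, by simp⟩
  mul_mem' := by
    rintro a b ⟨θ, i, h1, h2⟩ ⟨η, j, h3, h4⟩
    refine ⟨fun g => θ g + η g, i + j, by rw [Finset.sum_add_distrib, h1, h3, add_zero], ?_⟩
    have hd : ∀ g : M ≃ₐ[ℚ] M, g (t : M) ≠ 0 := fun g => by
      rw [map_ne_zero]
      exact RingOfIntegers.coe_ne_zero_iff.2 ht
    simp only [zpow_add₀ (hd _), Finset.prod_mul_distrib]
    have h5 : (((a * b : (𝓞 M)ˣ) : 𝓞 M) : M) = ((a : 𝓞 M) : M) * ((b : 𝓞 M) : M) := by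
      rw [Units.val_mul]
      exact map_mul (algebraMap (𝓞 M) M) _ _
    rw [zpow_add₀ (by norm_num : (-1 : M) ≠ 0), h5, h2, h4]
    ring
  inv_mem' := by
    rintro a ⟨θ, i, h1, h2⟩
    refine ⟨fun g => - θ g, -i, by rw [Finset.sum_neg_distrib, h1, neg_zero], ?_⟩
    simp only [zpow_neg, Finset.prod_inv_distrib]
    have h3 : (((a⁻¹ : (𝓞 M)ˣ) : 𝓞 M) : M) * ((a : 𝓞 M) : M) = 1 := by
      rw [← map_mul, Units.inv_mul, map_one]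
    rw [eq_inv_of_mul_eq_one_left h3, h2, mul_inv]

theorem mem_XU {M : Type} [Field M] [NumberField M] (t : 𝓞 M) (ht : t ≠ 0) (ε : (𝓞 M)ˣ) :
    ε ∈ XU t ht ↔ ∃ (θ : (M ≃ₐ[ℚ] M) → ℤ) (j : ℤ), ∑ g, θ g = 0 ∧
      ((ε : 𝓞 M) : M) = (-1) ^ j * ∏ g : M ≃ₐ[ℚ] M, (g (t : M)) ^ θ g := Iff.rfl

end H11R
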