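import Pool.Agent.H11.T3R.DfA
import Pool.Agent.H11.T3R.DfX
import Pool.Agent.H55.T3.R0

/-!
# The field `B = F(√d)`: definitions (helper11, MP_78d38b_T3, general D; no row)

`F` is the maximal real subfield of conductor `f = p ^ (n + 1)`, `B = F(√d)`, `ψ` the quadratic character of conductor `d`. `C` is the cyclotomic field of conductor `d f`, `ξ`, `z` primitive roots of unity of orders `d`, `f`.
-/

set_option autoImplicit false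

open NumberField

namespace H11R

open H5SW

/-- `ψ` is an even quadratic primitive character of conductor `d > 1` -/
structure QH (d : ℕ) (ψ : (ZMod d)ˣ →* ℤˣ) : Prop where
  d1 : 1 < d
  even : ψ (-1) = 1
  prim : ∀ q : ℕ, q.Prime → ∀ h : q ∣ d, ∃ u : (ZMod d)ˣ, ZMod.unitsMap (Nat.div_dvd_of_dvd h) u = 1 ∧ ψ u ≠ 1

/-- `ψ` as a complex Dirichlet character -/
noncomputable def psiC {d : ℕ} (ψ : (ZMod d)ˣ →* ℤˣ) : DirichletCharacter ℂ d :=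
  MulChar.ofUnitHom ((Units.map (Int.castRingHom ℂ).toMonoidHom).comp ψ)

theorem psiC_apply {d : ℕ} (ψ : (ZMod d)ˣ →* ℤˣ) (u : (ZMod d)ˣ) : psiC ψ (u : ZMod d) = (((ψ u : ℤˣ) : ℤ) : ℂ) := by
  unfold psiC
  rw [MulChar.ofUnitHom_coe]
  rfl

/-- the data of `B = F(√d)` and its embedding in the cyclotomic field `C` of conductor `d f` -/
structure RB (d f : ℕ) [NeZero d] [NeZero f] (ψ : (ZMod d)ˣ →* ℤˣ) (F B C : Type) [Field F] [NumberField F] [Field B]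
    [NumberField B] [Field C] [NumberField C] [Algebra F B] [Algebra B C] [IsCyclotomicExtension {d * f} ℚ C] where
  rF : RC f F
  real : IsTotallyReal B
  ξ : C
  z : C
  hξ : IsPrimitiveRoot ξ d
  hz : IsPrimitiveRoot z f
  hc : ∀ a : ℕ, algebraMap B C (algebraMap F B (rF.c (a : ZMod f) : F)) = z ^ a + (z ^ a)⁻¹
  hH : ∀ u : (ZMod (d * f))ˣ, u ∈ HM (d * f) B C ↔
    (ZMod.unitsMap (dvd_mul_left f d) u = 1 ∨ ZMod.unitsMap (dvd_mul_left f d) u = -1) ∧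
      ψ (ZMod.unitsMap (dvd_mul_right d f) u) = 1

section

variable {d f : ℕ} {C : Type} [Field C] (ξ z : C)

/-- `(1 - z ^ u) (1 - z ^ (-u))` -/
def dC (u : (ZMod f)ˣ) : C := (1 - z ^ (u : ZMod f).val) * (1 - (z ^ (u : ZMod f).val)⁻¹)

/-- `(1 - ξ ^ t z ^ u) (1 - (ξ ^ t z ^ u)⁻¹)` -/
def aC (t : (ZMod d)ˣ) (u : (ZMod f)ˣ) : C :=
  (1 - ξ ^ (t : ZMod d).val * z ^ (u : ZMod f).val) * (1 - (ξ ^ (t : ZMod d).val * z ^ (u : ZMod f).val)⁻¹)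

/-- `∏_t (1 - ξ ^ t z ^ u) (1 - (ξ ^ t z ^ u)⁻¹) ^ ψ(t)` -/
noncomputable def eC [NeZero d] (ψ : (ZMod d)ˣ →* ℤˣ) (u : (ZMod f)ˣ) : C := ∏ t : (ZMod d)ˣ, aC ξ z t u ^ ((ψ t : ℤˣ) : ℤ)

/-- `∏_t ((1 - ξ ^ t) (1 - ξ ^ (-t))) ^ ψ(t)` -/
noncomputable def kC [NeZero d] (ψ : (ZMod d)ˣ →* ℤˣ) : C := ∏ t : (ZMod d)ˣ, dC ξ t ^ ((ψ t : ℤˣ) : ℤ)

end

/-- the element `(d e)^(p^n) k^(3 ε^n)`, `ε = ψ(p)` -/
noncomputable def tauC {d p n : ℕ} [NeZero d] [Fact p.Prime] (hpd : p.Coprime d) {C : Type} [Field C] (ξ z : C)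
    (ψ : (ZMod d)ˣ →* ℤˣ) : C :=
  (dC (f := p ^ (n + 1)) z 1 * eC (f := p ^ (n + 1)) ξ z ψ 1) ^ (p ^ n) *
    kC ξ ψ ^ (3 * ((ψ (ZMod.unitOfCoprime p hpd) ^ n : ℤˣ) : ℤ))

/-- `log |1 - e(t/d) e(u/f)|` -/
noncomputable def lp (d f : ℕ) (t u : ℕ) : ℝ :=
  Real.log ‖1 - Complex.exp (2 * Real.pi * Complex.I * t / d) * Complex.exp (2 * Real.pi * Complex.I * u / f)‖

/-- `∑_{t, u} ψ(t) χ(u) log |1 - e(t/d) e(u/f)|` -/
noncomputable def LSP {d f : ℕ} [NeZero d] [NeZero f] (ψ : (ZMod d)ˣ →* ℤˣ) (χ : DirichletCharacter ℂ f) : ℂ :=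
  ∑ u : (ZMod f)ˣ, χ (u : ZMod f) * ∑ t : (ZMod d)ˣ, (((ψ t : ℤˣ) : ℤ) : ℂ) * (lp d f (t : ZMod d).val (u : ZMod f).val : ℂ)

/-- `3 p - 3` if `ψ(p) = 1`, `3 p - 5` otherwise -/
def cE {d : ℕ} (p : ℕ) (hpd : p.Coprime d) (ψ : (ZMod d)ˣ →* ℤˣ) : ℕ :=
  if ψ (ZMod.unitOfCoprime p hpd) = 1 then 3 * p - 3 else 3 * p - 5

/-- compatible data for the levels `p ^ (m + 1)` (`M ⊆ A`) and `p ^ (n + 1)` (`F ⊆ B`) -/
structure RP2 (p m n d : ℕ) [Fact p.Prime] [NeZero d] (ψ : (ZMod d)ˣ →* ℤˣ) (M F A B CA CB : Type) [Field M]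
    [NumberField M] [Field F] [NumberField F] [Field A] [NumberField A] [Field B] [NumberField B] [Field CA] [NumberField CA]
    [Field CB] [NumberField CB] [Algebra M F] [Algebra M A] [Algebra F B] [Algebra A B] [Algebra A CA] [Algebra B CB]
    [Algebra CA CB] [IsCyclotomicExtension {d * p ^ (m + 1)} ℚ CA] [IsCyclotomicExtension {d * p ^ (n + 1)} ℚ CB] where
  rp : RP p m n M F
  rB : RB d (p ^ (n + 1)) ψ F B CB
  rA : RB d (p ^ (m + 1)) ψ M A CA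
  eB : rB.rF = rp.rL
  eA : rA.rF = rp.rK
  comm1 : ∀ x : A, algebraMap CA CB (algebraMap A CA x) = algebraMap B CB (algebraMap A B x)
  comm2 : ∀ x : M, algebraMap A B (algebraMap M A x) = algebraMap F B (algebraMap M F x)
  cξ : algebraMap CA CB rA.ξ = rB.ξ ^ (p ^ (n - m))
  cz : algebraMap CA CB rA.z = rB.z ^ (p ^ (n - m))

/-- no new elements of `A ⊆ B` in the minus part for `σ` -/
def NoNewCubeT (A B : Type) [Field A] [NumberField A] [Field B] [NumberField B] [Algebra A B] (σ : B ≃ₐ[ℚ] B) : Prop :=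
  ∀ x : B, x ≠ 0 → (∃ y : B, x * σ x = y ^ 3) →
    (∀ w : IsDedekindDomain.HeightOneSpectrum (𝓞 B), (3 : ℤ) ∣ WithZero.log (w.valuation B x)) →
    (∀ w : IsDedekindDomain.HeightOneSpectrum (𝓞 B), (3 : 𝓞 B) ∈ w.asIdeal →
      ∃ t : B, w.valuation B (x * t ^ 3 - 1) ^ 2 ≤ w.valuation B 27) →
    (∃ y : A, Algebra.norm A x = y ^ 3) → ∃ y : B, x = y ^ 3

/-- twisted non vanishing in characteristic three for `R(x)`: characters of level `p ^ (n + 1)` which are not defined modulo `p ^ (m + 1)`,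
`k0 ≤ m + 1` -/
def NVL (p k0 d : ℕ) [Fact p.Prime] [NeZero d] (ψ : (ZMod d)ˣ →* ℤˣ) (R : (Ω : Type) → [Field Ω] → Ω → Ω) : Prop :=
  ∀ m n : ℕ, ∀ hmn : m ≤ n, k0 ≤ m + 1 → ∀ (Ω : Type) [Field Ω] [CharP Ω 3] (ξ z : Ω), IsPrimitiveRoot ξ d →
    IsPrimitiveRoot z (p ^ (n + 1)) → ∀ χ : (ZMod (p ^ (n + 1)))ˣ →* Ωˣ, χ (-1) = 1 →
      (∃ u, ZMod.unitsMap (pow_dvd_pow p (Nat.succ_le_succ hmn)) u = 1 ∧ χ u ≠ 1) →
        ∑ u : (ZMod (p ^ (n + 1)))ˣ, (χ u : Ω) * ∑ t : (ZMod d)ˣ, (((ψ t : ℤˣ) : ℤ) : Ω) *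
          R Ω (ξ ^ (t : ZMod d).val * z ^ (u : ZMod (p ^ (n + 1))).val) ≠ 0

/-- case (i): `3 ∤ d`, `ψ` even, `R(x) = x / (1 - x)^2` -/
def NVi (p k0 d : ℕ) [Fact p.Prime] [NeZero d] (ψ : (ZMod d)ˣ →* ℤˣ) : Prop :=
  NVL p k0 d ψ (fun _ _ x => x / (1 - x) ^ 2)

/-- case (ii): `3 ∤ d`, `ψ` odd, `R(x) = x / (1 - x)` -/
def NVii (p k0 d : ℕ) [Fact p.Prime] [NeZero d] (ψ : (ZMod d)ˣ →* ℤˣ) : Prop :=
  NVL p k0 d ψ (fun _ _ x => x / (1 - x))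

end H11R
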