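import Pool.Agent.H11.T3R.DfG
import Pool.Agent.H11.T3R.DfI
import Pool.Agent.H11.T3R.Ea
import Pool.Agent.H11.T3R.Em
import Pool.Agent.H11.T3R.En
import Pool.Agent.H46.TS.TY
import Pool.Agent.H55.T3.RT
import Pool.Agent.H55.T3.ZA

/-!
# No new cubes in `L(√D)`, `D > 1` squarefree, `p ∤ D` (helper11; no row)
-/

set_option autoImplicit false

open NumberField

namespace H11R

open H5SW

theorem char_three {D : ℤ} (hsq : Squarefree D) {d : ℕ} [NeZero d] {ψ : (ZMod d)ˣ →* ℤˣ} (H : CH D d ψ) : ¬ 9 ∣ d := by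
  intro h
  have h1 : (9 : ℤ) ∣ 8 * D := (by exact_mod_cast h : (9 : ℤ) ∣ (d : ℤ)).trans H.dvd
  have h2 : (3 : ℤ) * 3 ∣ D := by
    have h3 : IsCoprime (9 : ℤ) 8 := ⟨1, -1, by norm_num⟩
    have h4 := h3.dvd_of_dvd_mul_left h1
    norm_num
    exact h4
  have h5 := hsq 3 h2
  exact absurd h5 (by decide)

theorem char_coprime {D : ℤ} {p : ℕ} [Fact p.Prime] (hp5 : 5 ≤ p) (hpD : ¬ (p : ℤ) ∣ D) {d : ℕ} [NeZero d] {ψ : (ZMod d)ˣ →* ℤˣ}
    (H : CH D d ψ) : p.Coprime d := by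
  rw [Nat.Prime.coprime_iff_not_dvd Fact.out]
  intro h
  have h1 : (p : ℤ) ∣ 8 * D := (by exact_mod_cast h : (p : ℤ) ∣ (d : ℤ)).trans H.dvd
  have hp : Prime (p : ℤ) := Nat.prime_iff_prime_int.1 Fact.out
  rcases hp.dvd_or_dvd h1 with h2 | h2
  · have h3 : p ∣ 8 := by exact_mod_cast h2
    have h4 : p ∣ 2 := Nat.Prime.dvd_of_dvd_pow (Fact.out : p.Prime) (by simpa using h3 : p ∣ 2 ^ 3)
    have h5 := Nat.le_of_dvd (by norm_num) h4
    omega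
  · exact hpD h2

theorem nv3_mono {p k k' : ℕ} [Fact p.Prime] (h : H55T3.NV3 p k) (hk : k ≤ k') : H55T3.NV3 p k' :=
  fun j hj => h j (le_trans hk hj)

theorem nvl_mono {p k k' d : ℕ} [Fact p.Prime] [NeZero d] {ψ : (ZMod d)ˣ →* ℤˣ} {R : (Ω : Type) → [Field Ω] → Ω → Ω} (h : NVL p k d ψ R)
    (hk : k ≤ k') : NVL p k' d ψ R :=
  fun m n hmn hm => h m n hmn (le_trans hk hm)

/-- the constant for `(A, B)` -/
theorem exists_k0 {D : ℤ} (hsq : Squarefree D) {p : ℕ} [Fact p.Prime] (hp5 : 5 ≤ p) (hpD : ¬ (p : ℤ) ∣ D) {d : ℕ} [NeZero d]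
    {ψ : (ZMod d)ˣ →* ℤˣ} (H : CH D d ψ) : ∃ k0 : ℕ, H55T3.NV3 p k0 ∧
      ∀ (m n : ℕ), k0 ≤ m + 1 → ∀ (M F A B CA CB : Type) [Field M] [NumberField M] [Field F] [NumberField F] [Field A] [NumberField A]
        [Field B] [NumberField B] [Field CA] [NumberField CA] [Field CB] [NumberField CB] [Algebra M F] [Algebra M A] [Algebra F B]
        [Algebra A B] [Algebra A CA] [Algebra B CB] [Algebra CA CB] [IsCyclotomicExtension {d * p ^ (m + 1)} ℚ CA]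
        [IsCyclotomicExtension {d * p ^ (n + 1)} ℚ CB] (T : RP2 p m n d ψ M F A B CA CB) (P : PiT T), NoNewCubeT A B P.σ := by
  have hpd := char_coprime hp5 hpD H
  obtain ⟨k1, h1⟩ := H55T3.sinnott3 (p := p) hp5
  by_cases h3 : 3 ∣ d
  · obtain ⟨d0, rfl⟩ := h3
    have h9 := char_three hsq H
    have h30 : Nat.Coprime 3 d0 := by
      rw [Nat.Prime.coprime_iff_not_dvd Nat.prime_three]
      rintro ⟨c, rfl⟩
      exact h9 ⟨c, by ring⟩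
    have hd0 : NeZero d0 := ⟨fun h => (NeZero.ne (3 * d0)) (by rw [h, mul_zero])⟩
    have h3d : ¬ 3 ∣ d0 := (Nat.Prime.coprime_iff_not_dvd Nat.prime_three).1 h30
    obtain ⟨k2, h2⟩ := H46TS.nvii hp5 (Nat.Coprime.coprime_mul_left_right hpd) h3d (psi0 h30 ψ) (psi0_odd h30 H.Q)
    refine ⟨max k1 k2, nv3_mono h1 (le_max_left _ _), ?_⟩
    intro m n hm M F A B CA CB _ _ _ _ _ _ _ _ _ _ _ _ _ _ _ _ _ _ _ _ _ T P
    exact noNewCubeT_ii hp5 hpd h30 H.Q T P (nv3_mono h1 (le_max_left _ _)) (nvl_mono h2 (le_max_right _ _)) hm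
  · obtain ⟨k2, h2⟩ := H46TS.nvi hp5 hpd h3 ψ H.Q.even
    refine ⟨max k1 k2, nv3_mono h1 (le_max_left _ _), ?_⟩
    intro m n hm M F A B CA CB _ _ _ _ _ _ _ _ _ _ _ _ _ _ _ _ _ _ _ _ _ T P
    exact noNewCubeT_i hp5 hpd h3 H.Q T P (nv3_mono h1 (le_max_left _ _)) (nvl_mono h2 (le_max_right _ _)) hm

/-- Main theorem of the real side: `D > 1` squarefree, `p ∤ D`, `p ≥ 5`. -/
theorem noNewT_main {D : ℤ} (hD : 1 < D) (hsq : Squarefree D) {p : ℕ} [Fact p.Prime] (hp5 : 5 ≤ p) (hpD : ¬ (p : ℤ) ∣ D) :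
    ∃ N0 : ℕ, ∀ (K L A0 B0 : Type) [Field K] [NumberField K] [Field L] [NumberField L] [Field A0] [NumberField A0] [Field B0] [NumberField B0]
      [Algebra K L] [Algebra K A0] [Algebra L B0] [Algebra A0 B0] (_ : IsR p L) (i : ℕ) (_ : Module.finrank K L = p ^ i)
      (_ : p ^ N0 ∣ Module.finrank ℚ K) (q : QP D K L A0 B0), NoNewCubeT A0 B0 q.σ := by
  have hp2 : p ≠ 2 := by omega
  obtain ⟨d, hdz, ψ, H⟩ := exists_char hD hsq
  have hpd := char_coprime hp5 hpD H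
  obtain ⟨k0, hS, hk⟩ := exists_k0 hsq hp5 hpD H
  refine ⟨k0, ?_⟩
  intro K L A0 B0 _ _ _ _ _ _ _ _ _ _ _ _ hL i hi hN q
  obtain ⟨n, M, F, _, _, _, _, _, _, _, ⟨W⟩⟩ := exists_tower (p := p) hp2 hL hi
  obtain ⟨A, B, CA, CB, _, _, _, _, _, _, _, _, _, _, _, _, _, _, _, _, T, δ, hTr, hδ2, hδ⟩ := exists_RP2 hp2 hpd H W.rp
  obtain ⟨P⟩ := exists_PiT hpd H.Q T
  obtain ⟨_, _, hT⟩ := exists_trT (by omega : D ≠ 0) hp2 hpd H.Q W q T hTr P hδ2 hδ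
  refine noNewCubeT_down hT (hk _ _ ?_ M F A B CA CB T P)
  have h1 : k0 ≤ padicValNat p (Module.finrank ℚ K) := (padicValNat_dvd_iff_le Module.finrank_pos.ne').1 hN
  omega

end H11R
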