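import Pool.Agent.H11.T3R.DfA

/-!
ROW Aa (inertia group of a prime in a cyclotomic field; about 130 lines).

`N = q ^ v * N'`, `q` a prime not dividing `N'`, `Q` a prime ideal of the ring of integers of the `N`-th cyclotomic field `C` above `q`. Its inertia group is the group of the `g` with `g ≡ 1 mod N'`.

PROOF. `I` = inertia group, `J = {g | κ g ∈ IQ h}`, `κ = galEquivZMod N C`.
(1) `I ≤ J`: let `ζ` be a primitive `N`-th root of unity (`zeta_spec`), `ζ' = hζ.toInteger ^ (q ^ v)`, a primitive `N'`-th root of unity of `𝓞 C` (`IsPrimitiveRoot.pow`). Its image in `𝓞 C ⧸ Q` is a primitive `N'`-th root of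
    unity: `IsPrimitiveRoot.idealQuotient_mk` (the absolute norm of `Q` is a power of `q`, prime to `N'`), exactly as in the proof of `IsCyclotomicExtension.Rat.mem_zpowers_galEquivZMod_of_mem_stabilizer`
    (Mathlib/NumberTheory/NumberField/Cyclotomic/Galois.lean, `h₀`, `pow_inertiaDeg`). `g • ζ' = ζ' ^ (κ g).val.val` (`galEquivZMod_smul_of_pow_eq`, `ζ' ^ N = 1`). If `g ∈ I` then `g • ζ' - ζ' ∈ Q`, so the images agree,
    so `(κ g).val.val ≡ 1 mod N'` (`pow_inj_mod`), that is `ZMod.unitsMap h (κ g) = 1`.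
(2) cardinalities: `Nat.card I = ramificationIdxIn (span {q}) (𝓞 C)` (`Ideal.card_inertia_eq_ramificationIdxIn`; the residue field is finite, so perfect: copy the instances from the proof of `WTA.spb`, Pool/Agent/H73/WT/Spb.lean)
    `= φ(q ^ v)`: for `v = 0` it is `1` (`IsCyclotomicExtension.Rat.ramificationIdxIn_eq_of_not_dvd`), for `v = k + 1` it is `q ^ k * (q - 1)` (`ramificationIdxIn_eq`). `Nat.card (IQ h) = φ(N) / φ(N') = φ(q ^ v)`:
    `ZMod.unitsMap h` is surjective (`ZMod.unitsMap_surjective`), `card_units_eq_totient`, `Nat.totient_mul` (`q ^ v`, `N'` coprime).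
    A finite set contained in one of the same cardinality is equal to it (`Set.eq_of_subset_of_card_le` or `Subgroup.eq_of_le_of_card_ge`).
-/

set_option autoImplicit false

open NumberField Ideal
open scoped Pointwise

namespace H11R

/-- the order of the kernel of `(ZMod N)ˣ → (ZMod N')ˣ` for `N = q ^ v * N'` -/
theorem card_IQ {N N' v q : ℕ} [NeZero N] [NeZero N'] (hq : q.Prime) (hN : N = q ^ v * N') (hqN : ¬ q ∣ N') (h : N' ∣ N) :
    Nat.card (IQ h) = (q ^ v).totient := by
  have h1 := Subgroup.card_mul_index (ZMod.unitsMap h).ker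
  rw [Subgroup.index_ker, MonoidHom.range_eq_top.2 (ZMod.unitsMap_surjective h), Subgroup.card_top,
    Nat.card_eq_fintype_card (α := (ZMod N')ˣ), Nat.card_eq_fintype_card (α := (ZMod N)ˣ),
    ZMod.card_units_eq_totient, ZMod.card_units_eq_totient] at h1
  have h2 : (q ^ v).Coprime N' := Nat.Coprime.pow_left _ ((Nat.Prime.coprime_iff_not_dvd hq).2 hqN)
  have h3 : N.totient = (q ^ v).totient * N'.totient := by
    rw [hN, Nat.totient_mul h2]
  rw [h3] at h1
  exact Nat.eq_of_mul_eq_mul_right (Nat.totient_pos.2 (NeZero.pos N')) h1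

theorem ramIn_cyc {N N' v q : ℕ} [NeZero N] [NeZero N'] (hq : q.Prime) (hN : N = q ^ v * N') (hqN : ¬ q ∣ N')
    (C : Type) [Field C] [NumberField C] [IsCyclotomicExtension {N} ℚ C] :
    (span {(q : ℤ)}).ramificationIdxIn (𝓞 C) = (q ^ v).totient := by
  have : Fact q.Prime := ⟨hq⟩
  rcases v with _ | k
  · rw [pow_zero, one_mul] at hN
    rw [pow_zero, Nat.totient_one]
    have hqN2 : ¬ q ∣ N := by rwa [hN]
    exact IsCyclotomicExtension.Rat.ramificationIdxIn_eq_of_not_dvd q C hqN2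
  · rw [Nat.totient_prime_pow_succ hq]
    exact IsCyclotomicExtension.Rat.ramificationIdxIn_eq N C hN hqN

theorem mem_inertia_iff {N N' v q : ℕ} [NeZero N] [NeZero N'] (hq : q.Prime) (hN : N = q ^ v * N') (hqN : ¬ q ∣ N') (h : N' ∣ N)
    (C : Type) [Field C] [NumberField C] [IsCyclotomicExtension {N} ℚ C] (Q : Ideal (𝓞 C)) [Q.IsPrime]
    [Q.LiesOver (span {(q : ℤ)})] (g : Gal(C/ℚ)) :
    g ∈ Q.inertia Gal(C/ℚ) ↔ IsCyclotomicExtension.Rat.galEquivZMod N C g ∈ IQ h := by
  classical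
  have : Fact q.Prime := ⟨hq⟩
  have hG : IsGalois ℚ C := IsCyclotomicExtension.isGalois {N} ℚ C
  have hq0 : span {(q : ℤ)} ≠ ⊥ := by
    rw [Ne, Ideal.span_singleton_eq_bot]
    exact_mod_cast hq.ne_zero
  have hQ0 : Q ≠ ⊥ := ne_bot_of_liesOver_of_ne_bot hq0 Q
  have : Q.IsMaximal := Ring.DimensionLEOne.maximalOfPrime hQ0 inferInstance
  have : (span {(q : ℤ)}).IsPrime := by
    rw [Ideal.span_singleton_prime (by exact_mod_cast hq.ne_zero)]
    exact Nat.prime_iff_prime_int.mp hq
  have : (span {(q : ℤ)}).IsMaximal := Ring.DimensionLEOne.maximalOfPrime hq0 inferInstance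
  have : Finite (ℤ ⧸ span {(q : ℤ)}) := Ring.HasFiniteQuotients.finiteQuotient hq0
  have : Finite (span {(q : ℤ)}).ResidueField := by
    have := (span {(q : ℤ)}).bijective_algebraMap_quotient_residueField
    exact Finite.of_surjective _ this.surjective
  -- step 1
  have hle : Q.inertia Gal(C/ℚ) ≤
      (IQ h).comap (IsCyclotomicExtension.Rat.galEquivZMod N C).toMonoidHom := by
    intro g hg
    rw [Subgroup.mem_comap, mem_IQ]
    have hζ := IsCyclotomicExtension.zeta_spec N ℚ C
    have hz : IsPrimitiveRoot (hζ.toInteger ^ (q ^ v)) N' :=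
      hζ.toInteger_isPrimitiveRoot.pow (NeZero.pos N) hN
    have h₀ : IsPrimitiveRoot (Ideal.Quotient.mk Q (hζ.toInteger ^ (q ^ v))) N' := by
      refine hz.idealQuotient_mk
        (by simpa using IsMaximal.ne_top inferInstance) ?_
      rw [← pow_inertiaDeg q]
      exact Nat.Coprime.pow_left _ ((Nat.Prime.coprime_iff_not_dvd hq).2 hqN)
    have h₁ : g • (hζ.toInteger ^ (q ^ v)) - (hζ.toInteger ^ (q ^ v)) ∈ Q := hg _
    have h₂ : (hζ.toInteger ^ (q ^ v)) ^ N = 1 := by
      rw [← pow_mul, mul_comm, pow_mul, hζ.toInteger_isPrimitiveRoot.pow_eq_one, one_pow]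
    rw [IsCyclotomicExtension.Rat.galEquivZMod_smul_of_pow_eq N C g h₂, ← Ideal.Quotient.eq,
      map_pow] at h₁
    have h₃ : (Ideal.Quotient.mk Q (hζ.toInteger ^ (q ^ v))) ^
          (IsCyclotomicExtension.Rat.galEquivZMod N C g).val.val =
        (Ideal.Quotient.mk Q (hζ.toInteger ^ (q ^ v))) ^ 1 := by
      rw [h₁, pow_one]
    rw [(h₀.isOfFinOrder (NeZero.ne _)).pow_inj_mod, ← h₀.eq_orderOf] at h₃
    have h₄ := (ZMod.natCast_eq_natCast_iff' _ _ N').2 h₃
    apply Units.ext
    rw [ZMod.unitsMap_def]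
    have h₅ : ((IsCyclotomicExtension.Rat.galEquivZMod N C g).val.val : ZMod N') =
        ZMod.castHom h (ZMod N') (IsCyclotomicExtension.Rat.galEquivZMod N C g).val := by
      rw [ZMod.castHom_apply, ZMod.natCast_val]
    rw [h₅, Nat.cast_one] at h₄
    exact h₄
  have hcard : Nat.card ((IQ h).comap (IsCyclotomicExtension.Rat.galEquivZMod N C).toMonoidHom) =
      Nat.card (Q.inertia Gal(C/ℚ)) := by
    rw [Ideal.card_inertia_eq_ramificationIdxIn (G := Gal(C/ℚ)) (span {(q : ℤ)}) Q,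
      ramIn_cyc hq hN hqN C, ← card_IQ hq hN hqN h]
    exact Nat.card_congr (Equiv.subtypeEquiv (IsCyclotomicExtension.Rat.galEquivZMod N C).toEquiv
      (fun a => Iff.rfl))
  have heq : Q.inertia Gal(C/ℚ) =
      (IQ h).comap (IsCyclotomicExtension.Rat.galEquivZMod N C).toMonoidHom :=
    Subgroup.eq_of_le_of_card_ge hle hcard.le
  rw [heq, Subgroup.mem_comap]
  rfl

end H11R
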