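import Pool.Agent.H11.T3R.Aa

/-!
ROW Ab (decomposition group of a prime in a cyclotomic field; about 130 lines).

`N = q ^ v * N'`, `q` a prime not dividing `N'`, `Q` a prime of `C` (the `N`-th cyclotomic field) above `q`. Its decomposition group is the group of the `g` such that `g mod N'` is a power of `q`.

PROOF. (1) If `g • Q = Q` then `κ g ∈ DQ h q hc`: copy the proof of `IsCyclotomicExtension.Rat.mem_zpowers_galEquivZMod_of_mem_stabilizer` (Mathlib/NumberTheory/NumberField/Cyclotomic/Galois.lean) with the primitive `N'`-th root of unity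
    `ζ' = ζ ^ (q ^ v)` in place of the `N`-th root (the residue field automorphism is `x ↦ x ^ (q ^ i)`; the image of `ζ'` modulo `Q` is a primitive `N'`-th root of unity; `g • ζ' = ζ' ^ (κ g).val.val`): so
    `(κ g).val.val ≡ q ^ i mod N'`.
(2) cardinalities: `Nat.card (stabilizer) = e f` (`Ideal.card_stabilizer_eq`; instances as in `WTA.spb` of Pool/Agent/H73/WT/Spb.lean), `e = φ(q ^ v)` (`ramIn_cyc`), `f = orderOf (q : ZMod N')`
    (`IsCyclotomicExtension.Rat.inertiaDegIn_eq_of_not_dvd` for `v = 0`, `inertiaDegIn_eq` for `v = k + 1`). `Nat.card (DQ h q hc) = Nat.card (IQ h) * orderOf (unitOfCoprime q hc)`: the inverse image of a subgroup under a surjective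
    homomorphism (`ZMod.unitsMap_surjective`) with kernel `IQ h` (`Subgroup.card_comap_of_surjective`-like: or `DQ` is the disjoint union of `o` cosets of `IQ`; e.g. apply `Subgroup.card_eq_card_quotient_mul_card_subgroup` /
    `MonoidHom` first isomorphism theorem to the surjection `DQ → zpowers`), `card_IQ`.
-/

set_option autoImplicit false

open NumberField Ideal
open scoped Pointwise

namespace H11R

theorem card_DQ {N N' v q : ℕ} [NeZero N] [NeZero N'] (hq : q.Prime) (hN : N = q ^ v * N') (hqN : ¬ q ∣ N') (h : N' ∣ N)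
    (hc : q.Coprime N') : Nat.card (DQ h q hc) = (q ^ v).totient * orderOf (ZMod.unitOfCoprime q hc) := by
  have h1 := Subgroup.card_mul_index (DQ h q hc)
  have h2 : (DQ h q hc).index = (Subgroup.zpowers (ZMod.unitOfCoprime q hc)).index :=
    Subgroup.index_comap_of_surjective _ (ZMod.unitsMap_surjective h)
  have h3 := Subgroup.card_mul_index (Subgroup.zpowers (ZMod.unitOfCoprime q hc))
  have h4 := Subgroup.card_mul_index (IQ h)
  have h5 : (IQ h).index = Nat.card (ZMod N')ˣ := by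
    unfold IQ
    rw [Subgroup.index_ker, MonoidHom.range_eq_top.2 (ZMod.unitsMap_surjective h)]
    exact Nat.card_congr Subgroup.topEquiv.toEquiv
  rw [h2, ← h4, h5, ← h3, card_IQ hq hN hqN h, Nat.card_zpowers, ← mul_assoc] at h1
  exact Nat.eq_of_mul_eq_mul_right (Nat.pos_of_ne_zero Subgroup.index_ne_zero_of_finite) h1

theorem Ab_order {N' q : ℕ} (hc : q.Coprime N') :
    orderOf (ZMod.unitOfCoprime q hc) = orderOf (q : ZMod N') := by
  rw [← orderOf_injective _ Units.coeHom_injective, Units.coeHom_apply, ZMod.coe_unitOfCoprime]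

theorem inertiaIn_cyc {N N' v q : ℕ} [NeZero N] [NeZero N'] (hq : q.Prime) (hN : N = q ^ v * N') (hqN : ¬ q ∣ N')
    (hc : q.Coprime N') (C : Type) [Field C] [NumberField C] [IsCyclotomicExtension {N} ℚ C] :
    (span {(q : ℤ)}).inertiaDegIn (𝓞 C) = orderOf (ZMod.unitOfCoprime q hc) := by
  have hfact : Fact q.Prime := ⟨hq⟩
  rw [Ab_order hc]
  rcases v with _ | k
  · rw [pow_zero, one_mul] at hN
    subst hN
    exact IsCyclotomicExtension.Rat.inertiaDegIn_eq_of_not_dvd q C hqN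
  · exact IsCyclotomicExtension.Rat.inertiaDegIn_eq N C hN hqN

section

attribute [local instance] Ideal.Quotient.field

theorem Ab_le {N N' v q : ℕ} [NeZero N] [NeZero N'] (hq : q.Prime) (hN : N = q ^ v * N')
    (h : N' ∣ N) (hc : q.Coprime N') (C : Type) [Field C] [NumberField C]
    [IsCyclotomicExtension {N} ℚ C]
    (Q : Ideal (𝓞 C)) [Q.IsMaximal] [Q.LiesOver (span {(q : ℤ)})] (hQ0 : Q ≠ ⊥) (g : Gal(C/ℚ))
    (hg : g ∈ MulAction.stabilizer Gal(C/ℚ) Q) :
    IsCyclotomicExtension.Rat.galEquivZMod N C g ∈ DQ h q hc := by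
  have hfact : Fact q.Prime := ⟨hq⟩
  have hζ := IsCyclotomicExtension.zeta_spec N ℚ C
  have hζ' : IsPrimitiveRoot (hζ.toInteger ^ (q ^ v)) N' :=
    hζ.toInteger_isPrimitiveRoot.pow (NeZero.pos N) hN
  obtain ⟨ξ, hξ⟩ : ∃ ξ, ξ = hζ.toInteger ^ (q ^ v) := ⟨_, rfl⟩
  rw [← hξ] at hζ'
  have hξN : ξ ^ N = 1 := (hζ'.pow_eq_one_iff_dvd N).2 h
  let τ := IsFractionRing.stabilizerHom Gal(C/ℚ) (Ideal.span {(q : ℤ)}) Q
     (ℤ ⧸ span {(q : ℤ)}) (𝓞 C ⧸ Q) ⟨g, hg⟩
  have : CharP (ℤ ⧸ span {(q : ℤ)}) q := ringChar.of_eq <| Int.ringChar_idealQuot q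
  have : Finite (𝓞 C ⧸ Q) := Ring.HasFiniteQuotients.finiteQuotient hQ0
  obtain ⟨i, hi⟩ := FiniteField.exists_forall_apply_eq_pow (ℤ ⧸ span {(q : ℤ)}) q (𝓞 C ⧸ Q) τ
  have h₀ : IsPrimitiveRoot (Ideal.Quotient.mk Q ξ) N' := by
    refine hζ'.idealQuotient_mk (by simpa using IsMaximal.ne_top inferInstance) ?_
    rw [← pow_inertiaDeg q]
    exact Nat.Coprime.pow_left _ hc
  have h₁ := IsFractionRing.stabilizerHom_apply_apply_mk Gal(C/ℚ) (Ideal.span {(q : ℤ)}) Q
      (ℤ ⧸ span {(q : ℤ)}) (𝓞 C ⧸ Q) ⟨g, hg⟩ ξ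
  simp only [Algebra.algebraMap_self, RingHomCompTriple.comp_apply] at h₁
  specialize hi (Ideal.Quotient.mk Q ξ)
  rw [h₁, Int.card_ideal_quot, IsCyclotomicExtension.Rat.galEquivZMod_smul_of_pow_eq N C _
    hξN, map_pow, (h₀.isOfFinOrder (NeZero.ne _)).pow_inj_mod,
    ← h₀.eq_orderOf, ← ZMod.natCast_eq_natCast_iff'] at hi
  rw [mem_DQ]
  refine ⟨(i : ℤ), ?_⟩
  change ZMod.unitOfCoprime q hc ^ (i : ℤ) = _
  rw [zpow_natCast]
  apply Units.ext
  rw [Units.val_pow_eq_pow_val, ZMod.coe_unitOfCoprime, ← Nat.cast_pow, ← hi,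
    ZMod.natCast_val]
  rfl

end

theorem mem_stabilizer_iff {N N' v q : ℕ} [NeZero N] [NeZero N'] (hq : q.Prime) (hN : N = q ^ v * N') (hqN : ¬ q ∣ N')
    (h : N' ∣ N) (hc : q.Coprime N') (C : Type) [Field C] [NumberField C] [IsCyclotomicExtension {N} ℚ C]
    (Q : Ideal (𝓞 C)) [Q.IsPrime] [Q.LiesOver (span {(q : ℤ)})] (g : Gal(C/ℚ)) :
    g ∈ MulAction.stabilizer Gal(C/ℚ) Q ↔ IsCyclotomicExtension.Rat.galEquivZMod N C g ∈ DQ h q hc := by
  have hfact : Fact q.Prime := ⟨hq⟩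
  have hG : IsGalois ℚ C := IsCyclotomicExtension.isGalois {N} ℚ C
  have hq0 : span {(q : ℤ)} ≠ ⊥ := by
    rw [Ne, Ideal.span_singleton_eq_bot]
    exact_mod_cast hq.ne_zero
  have hQ0 : Q ≠ ⊥ := ne_bot_of_liesOver_of_ne_bot hq0 Q
  have hmax : Q.IsMaximal := Ring.DimensionLEOne.maximalOfPrime hQ0 inferInstance
  have hle : (MulAction.stabilizer Gal(C/ℚ) Q).map
      (IsCyclotomicExtension.Rat.galEquivZMod N C).toMonoidHom ≤ DQ h q hc := by
    rintro _ ⟨σ, hσ, rfl⟩
    exact Ab_le hq hN h hc C Q hQ0 σ hσ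
  have hcard : Nat.card (MulAction.stabilizer Gal(C/ℚ) Q) = Nat.card (DQ h q hc) := by
    rw [Ideal.card_stabilizer_eq (span {(q : ℤ)}), ramIn_cyc hq hN hqN C,
      inertiaIn_cyc hq hN hqN hc C, card_DQ hq hN hqN h hc]
  have heq : (MulAction.stabilizer Gal(C/ℚ) Q).map
      (IsCyclotomicExtension.Rat.galEquivZMod N C).toMonoidHom = DQ h q hc := by
    apply Subgroup.eq_of_le_of_card_ge hle
    rw [← hcard]
    apply le_of_eq
    exact (Subgroup.card_map_of_injective
      (f := (IsCyclotomicExtension.Rat.galEquivZMod N C).toMonoidHom)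
      (IsCyclotomicExtension.Rat.galEquivZMod N C).injective).symm
  rw [← heq]
  constructor
  · intro hg
    exact ⟨g, hg, rfl⟩
  · rintro ⟨σ, hσ, hσ2⟩
    have h1 : σ = g := (IsCyclotomicExtension.Rat.galEquivZMod N C).injective hσ2
    rw [← h1]
    exact hσ

end H11R
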