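import Pool.Agent.H11.T3R.Ab

/-!
ROW Ac (ramification index and inertia degree in an abelian field; about 150 lines).

`M ⊆ C` (`Algebra M C`), `C` the `N`-th cyclotomic field, `N = q ^ v * N'`, `q` prime, `q ∤ N'`. `H = HM N M C`, `I = IQ h`, `D = DQ h q hc`. Then `e_M |I ∩ H| = |I|` and `e_M f_M |D ∩ H| = |D|`.

PROOF. `C/ℚ` is abelian Galois (`IsCyclotomicExtension.isAbelianGalois {N} ℚ C`), so is `M/ℚ` (`IsAbelianGalois.tower_bot`), `C/M` is Galois. Choose a prime `P` of `𝓞 M` above `(q)` (`nonempty_primesOver`) and a prime `Q` of `𝓞 C` above `P`.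
`ramificationIdxIn_mul_ramificationIdxIn`, `inertiaDegIn_mul_inertiaDegIn` (Mathlib/NumberTheory/RamificationInertia/Galois.lean, used in Pool/Agent/H73/WT/Spa.lean, `spa_q`): `e_M * e' = e_C`, `f_M * f' = f_C` with
`e' = P.ramificationIdxIn (𝓞 C)`, `f' = P.inertiaDegIn (𝓞 C)`. `Ideal.card_inertia_eq_ramificationIdxIn` and `Ideal.card_stabilizer_eq` for `Gal(C/M)` and `P`, and for `Gal(C/ℚ)` and `(q)`:
`|inertia Gal(C/M) Q| = e'`, `|stabilizer Gal(C/M) Q| = e' f'`, `|inertia Gal(C/ℚ) Q| = e_C`, `|stabilizer Gal(C/ℚ) Q| = e_C f_C` (finiteness of residue fields: see `WTA.spb`).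
The injective map `Gal(C/M) → (ZMod N)ˣ`, `σ ↦ κ (σ.restrictScalars ℚ)`, has the image `H` (an element `g` of `Gal(C/ℚ)` fixing the image of `M` comes from `Gal(C/M)`), it maps `inertia Gal(C/M) Q` onto `I ∩ H` (`mem_inertia_iff`; the
actions of `σ` and of `σ.restrictScalars ℚ` on `𝓞 C` are the same, see `WTA.spb_stab`) and the stabilizer onto `D ∩ H` (`mem_stabilizer_iff`). So `e' = |I ∩ H|`, `e' f' = |D ∩ H|`, `e_C = |I|`, `e_C f_C = |D|`.
-/

set_option autoImplicit false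

open NumberField Ideal
open scoped Pointwise

namespace H11R

theorem gal_of_sub (N : ℕ) [NeZero N] (M C : Type) [Field M] [NumberField M] [Field C] [NumberField C] [Algebra M C]
    [IsCyclotomicExtension {N} ℚ C] : IsAbelianGalois ℚ M := by
  have : IsAbelianGalois ℚ C := IsCyclotomicExtension.isAbelianGalois {N} ℚ C
  exact IsAbelianGalois.tower_bot ℚ M C

theorem card_sub_Ac (N : ℕ) [NeZero N] (M C : Type) [Field M] [NumberField M] [Field C] [NumberField C] [Algebra M C]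
    [IsCyclotomicExtension {N} ℚ C] (S : Subgroup Gal(C/M)) (K : Subgroup (ZMod N)ˣ)
    (hSK : ∀ σ : Gal(C/M), σ ∈ S ↔ IsCyclotomicExtension.Rat.galEquivZMod N C (σ.restrictScalars ℚ) ∈ K) :
    Nat.card S = Nat.card (K ⊓ HM N M C : Subgroup (ZMod N)ˣ) := by
  have hm : ∀ σ : S, IsCyclotomicExtension.Rat.galEquivZMod N C (σ.1.restrictScalars ℚ) ∈
      (K ⊓ HM N M C : Subgroup (ZMod N)ˣ) := by
    intro σ
    refine Subgroup.mem_inf.2 ⟨(hSK σ.1).1 σ.2, ?_⟩
    rw [mem_HM]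
    intro x
    rw [MulEquiv.symm_apply_apply]
    exact σ.1.commutes x
  apply Nat.card_congr
  refine Equiv.ofBijective (fun σ => ⟨IsCyclotomicExtension.Rat.galEquivZMod N C (σ.1.restrictScalars ℚ), hm σ⟩) ⟨?_, ?_⟩
  · intro σ τ h
    have h1 := congrArg Subtype.val h
    have h2 := (IsCyclotomicExtension.Rat.galEquivZMod N C).injective h1
    apply Subtype.ext
    exact AlgEquiv.restrictScalars_injective ℚ h2
  · rintro ⟨u, hu⟩
    obtain ⟨hu1, hu2⟩ := Subgroup.mem_inf.1 hu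
    rw [mem_HM] at hu2
    let g := (IsCyclotomicExtension.Rat.galEquivZMod N C).symm u
    let σ : Gal(C/M) := AlgEquiv.ofRingEquiv (f := g.toRingEquiv) (fun x => hu2 x)
    have hσ : σ.restrictScalars ℚ = g := AlgEquiv.ext fun x => rfl
    have hk : IsCyclotomicExtension.Rat.galEquivZMod N C (σ.restrictScalars ℚ) = u := by
      rw [hσ]; exact MulEquiv.apply_symm_apply _ u
    exact ⟨⟨σ, (hSK σ).2 (by rw [hk]; exact hu1)⟩, Subtype.ext hk⟩

theorem inertia_res_Ac {M C : Type} [Field M] [NumberField M] [Field C] [NumberField C] [Algebra M C]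
    (σ : Gal(C/M)) (Q : Ideal (𝓞 C)) :
    σ ∈ Q.inertia Gal(C/M) ↔ σ.restrictScalars ℚ ∈ Q.inertia Gal(C/ℚ) := by
  have hs : ∀ x : 𝓞 C, σ • x = (σ.restrictScalars ℚ) • x := fun x => by
    apply RingOfIntegers.ext
    rfl
  constructor
  · intro h x
    have := h x
    rwa [hs] at this
  · intro h x
    have := h x
    rwa [← hs] at this

theorem exists_primes_Ac {q : ℕ} (hq : q.Prime) (M C : Type) [Field M] [NumberField M] [Field C] [NumberField C]
    [Algebra M C] (hMC : IsGalois M C) (hC : IsGalois ℚ C) (hM : IsGalois ℚ M) :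
    ∃ Q : Ideal (𝓞 C), Q.IsPrime ∧ Q.LiesOver (span {(q : ℤ)}) ∧
      (span {(q : ℤ)}).ramificationIdxIn (𝓞 M) * Nat.card (Q.inertia Gal(C/M)) = Nat.card (Q.inertia Gal(C/ℚ)) ∧
      (span {(q : ℤ)}).ramificationIdxIn (𝓞 M) * (span {(q : ℤ)}).inertiaDegIn (𝓞 M) *
        Nat.card (MulAction.stabilizer Gal(C/M) Q) = Nat.card (MulAction.stabilizer Gal(C/ℚ) Q) := by
  have : Fact q.Prime := ⟨hq⟩
  have hpp : (span {(q : ℤ)}).IsPrime := by
    rw [Ideal.span_singleton_prime (by exact_mod_cast hq.ne_zero)]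
    exact Nat.prime_iff_prime_int.1 hq
  obtain ⟨⟨P, _, _⟩⟩ := (span {(q : ℤ)}).nonempty_primesOver (S := 𝓞 M)
  obtain ⟨⟨Q, hQ1, hQ2⟩⟩ := P.nonempty_primesOver (S := 𝓞 C)
  have : Q.LiesOver (span {(q : ℤ)}) := LiesOver.trans Q P _
  have hq0 : span {(q : ℤ)} ≠ ⊥ := by
    rw [Ne, Ideal.span_singleton_eq_bot]
    exact_mod_cast hq.ne_zero
  have hP0 : P ≠ ⊥ := ne_bot_of_liesOver_of_ne_bot hq0 P
  have hQ0 : Q ≠ ⊥ := ne_bot_of_liesOver_of_ne_bot hP0 Q
  have : NeZero P := ⟨hP0⟩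
  have : P.IsMaximal := Ring.DimensionLEOne.maximalOfPrime hP0 inferInstance
  have : NeZero Q := ⟨hQ0⟩
  have : Q.IsMaximal := Ring.DimensionLEOne.maximalOfPrime (NeZero.ne Q) inferInstance
  have : Finite (𝓞 M ⧸ P) := Ring.HasFiniteQuotients.finiteQuotient hP0
  have : Finite P.ResidueField := by
    have := P.bijective_algebraMap_quotient_residueField
    exact Finite.of_surjective _ this.surjective
  have : (span {(q : ℤ)}).IsMaximal := Ring.DimensionLEOne.maximalOfPrime hq0 inferInstance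
  have : Finite (ℤ ⧸ span {(q : ℤ)}) := Ring.HasFiniteQuotients.finiteQuotient hq0
  have : Finite (span {(q : ℤ)}).ResidueField := by
    have := (span {(q : ℤ)}).bijective_algebraMap_quotient_residueField
    exact Finite.of_surjective _ this.surjective
  refine ⟨Q, hQ1, inferInstance, ?_, ?_⟩
  · rw [Ideal.card_inertia_eq_ramificationIdxIn (G := Gal(C/M)) P Q,
      Ideal.card_inertia_eq_ramificationIdxIn (G := Gal(C/ℚ)) (span {(q : ℤ)}) Q]
    exact ramificationIdxIn_mul_ramificationIdxIn (p := span {(q : ℤ)}) P Gal(M/ℚ) (𝓞 C) Gal(C/ℚ) Gal(C/M)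
  · rw [Ideal.card_stabilizer_eq (G := Gal(C/M)) P Q,
      Ideal.card_stabilizer_eq (G := Gal(C/ℚ)) (span {(q : ℤ)}) Q,
      ← ramificationIdxIn_mul_ramificationIdxIn (p := span {(q : ℤ)}) P Gal(M/ℚ) (𝓞 C) Gal(C/ℚ) Gal(C/M),
      ← inertiaDegIn_mul_inertiaDegIn (span {(q : ℤ)}) P Gal(M/ℚ) (𝓞 C) Gal(C/ℚ) Gal(C/M)]
    ring

theorem ram_M {N N' v q : ℕ} [NeZero N] [NeZero N'] (hq : q.Prime) (hN : N = q ^ v * N') (hqN : ¬ q ∣ N') (h : N' ∣ N)
    (M C : Type) [Field M] [NumberField M] [Field C] [NumberField C] [Algebra M C] [IsCyclotomicExtension {N} ℚ C] :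
    (span {(q : ℤ)}).ramificationIdxIn (𝓞 M) * Nat.card (IQ h ⊓ HM N M C : Subgroup (ZMod N)ˣ) = Nat.card (IQ h) := by
  have hgC : IsAbelianGalois ℚ C := IsCyclotomicExtension.isAbelianGalois {N} ℚ C
  have hgM : IsAbelianGalois ℚ M := gal_of_sub N M C
  have hgMC : IsAbelianGalois M C := IsAbelianGalois.tower_top ℚ M C
  obtain ⟨Q, hQ1, hQ2, h1, h2⟩ := exists_primes_Ac hq M C inferInstance inferInstance inferInstance
  have h3 : Nat.card (Q.inertia Gal(C/M)) = Nat.card (IQ h ⊓ HM N M C : Subgroup (ZMod N)ˣ) := by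
    apply card_sub_Ac N M C (Q.inertia Gal(C/M)) (IQ h)
    intro σ
    rw [inertia_res_Ac σ Q]
    exact mem_inertia_iff hq hN hqN h C Q (σ.restrictScalars ℚ)
  have h4 : Nat.card (Q.inertia Gal(C/ℚ)) = Nat.card (IQ h) :=
    Nat.card_congr (Equiv.subtypeEquiv (IsCyclotomicExtension.Rat.galEquivZMod N C).toEquiv
      (fun g => mem_inertia_iff hq hN hqN h C Q g))
  rw [← h3, ← h4]
  exact h1

theorem ram_inert_M {N N' v q : ℕ} [NeZero N] [NeZero N'] (hq : q.Prime) (hN : N = q ^ v * N') (hqN : ¬ q ∣ N') (h : N' ∣ N)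
    (hc : q.Coprime N')
    (M C : Type) [Field M] [NumberField M] [Field C] [NumberField C] [Algebra M C] [IsCyclotomicExtension {N} ℚ C] :
    (span {(q : ℤ)}).ramificationIdxIn (𝓞 M) * (span {(q : ℤ)}).inertiaDegIn (𝓞 M) *
      Nat.card (DQ h q hc ⊓ HM N M C : Subgroup (ZMod N)ˣ) = Nat.card (DQ h q hc) := by
  have hgC : IsAbelianGalois ℚ C := IsCyclotomicExtension.isAbelianGalois {N} ℚ C
  have hgM : IsAbelianGalois ℚ M := gal_of_sub N M C
  have hgMC : IsAbelianGalois M C := IsAbelianGalois.tower_top ℚ M C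
  obtain ⟨Q, hQ1, hQ2, h1, h2⟩ := exists_primes_Ac hq M C inferInstance inferInstance inferInstance
  have h3 : Nat.card (MulAction.stabilizer Gal(C/M) Q) = Nat.card (DQ h q hc ⊓ HM N M C : Subgroup (ZMod N)ˣ) := by
    apply card_sub_Ac N M C (MulAction.stabilizer Gal(C/M) Q) (DQ h q hc)
    intro σ
    rw [WTA.spb_stab σ Q]
    exact mem_stabilizer_iff hq hN hqN h hc C Q (σ.restrictScalars ℚ)
  have h4 : Nat.card (MulAction.stabilizer Gal(C/ℚ) Q) = Nat.card (DQ h q hc) :=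
    Nat.card_congr (Equiv.subtypeEquiv (IsCyclotomicExtension.Rat.galEquivZMod N C).toEquiv
      (fun g => mem_stabilizer_iff hq hN hqN h hc C Q g))
  rw [← h3, ← h4]
  exact h2

theorem card_HM (N : ℕ) [NeZero N] (M C : Type) [Field M] [NumberField M] [Field C] [NumberField C] [Algebra M C]
    [IsCyclotomicExtension {N} ℚ C] : Nat.card (HM N M C) * Module.finrank ℚ M = Nat.card (ZMod N)ˣ := by
  have hgC : IsAbelianGalois ℚ C := IsCyclotomicExtension.isAbelianGalois {N} ℚ C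
  have hgMC : IsAbelianGalois M C := IsAbelianGalois.tower_top ℚ M C
  have h1 : Nat.card (⊤ : Subgroup Gal(C/M)) = Nat.card ((⊤ : Subgroup (ZMod N)ˣ) ⊓ HM N M C : Subgroup (ZMod N)ˣ) :=
    card_sub_Ac N M C ⊤ ⊤ (fun σ => by simp)
  rw [top_inf_eq, Subgroup.card_top, IsGalois.card_aut_eq_finrank] at h1
  rw [← h1, mul_comm, Module.finrank_mul_finrank ℚ M C, ← IsGalois.card_aut_eq_finrank ℚ C]
  exact Nat.card_congr (IsCyclotomicExtension.Rat.galEquivZMod N C).toEquiv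

end H11R
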