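import Pool.Agent.H11.T3R.Ac

/-!
ROW Ad (splitting of primes in an abelian field; about 140 lines).

PROOF. `G = (ZMod N)ˣ`, `H`, `I`, `D` as in row Ac, `J = I ⊔ H`. For subgroups of a finite commutative group `|A ⊔ B| |A ⊓ B| = |A| |B|` (`Subgroup.card_mul_eq_card_inf_mul_card_sup`-like; or the second isomorphism theorem
`QuotientGroup.quotientInfEquivProdNormalQuotient`, or `Subgroup.relIndex` identities `Subgroup.relIndex_sup_right`; prove a small lemma `card_sup_mul_card_inf`).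
(a) `g (e f) = |Gal(M/ℚ)| = [M : ℚ]` (`ncard_primesOver_mul_ramificationIdxIn_mul_inertiaDegIn`, `IsGalois.card_aut_eq_finrank`), `[M : ℚ] |H| = |G|` (`card_HM`), `e |I ⊓ H| = |I|` (`ram_M`). So
    `g f |J| |I ⊓ H| = g f |I| |H| = g f e |I ⊓ H| |H| = |G| |I ⊓ H|`, and `g f |J| = |G|`, `g f = J.index`.
(b) Let `o` be the order of the class of `Fr` in `G ⧸ J`; `Fr ^ k ∈ J ↔ o ∣ k` (`orderOf_dvd_iff_pow_eq_one`, `QuotientGroup.eq_one_iff`). Claim `f = o`. `D` is generated by `I` and `Fr` (if `unitsMap u = q ^ i` then `u * Fr ^ (-i) ∈ I`), so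
    `D ⊔ H = J ⊔ zpowers Fr` and `|D ⊔ H| = o |J|` (the quotient `(D ⊔ H) ⧸ J` is cyclic generated by the class of `Fr`: e.g. `Subgroup.map (QuotientGroup.mk' J) (zpowers Fr) = zpowers (Fr : G ⧸ J)` has `o` elements and the
    cardinality of a comap along the surjection `mk' J`). On the other hand `|D ⊔ H| |D ⊓ H| = |D| |H|` and `e f |D ⊓ H| = |D|`, `|J| |I ⊓ H| = |I| |H|`, `e |I ⊓ H| = |I|`:
    `|D ⊔ H| |D ⊓ H| = e f |D ⊓ H| |H|` gives `|D ⊔ H| = e f |H|`, `|J| = e |H|`, so `o e |H| = e f |H|`, `o = f`.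
-/

set_option autoImplicit false

open NumberField Ideal

namespace H11R

theorem card_relIndex_Ad {G : Type*} [Group G] {A B : Subgroup G} (hAB : A ≤ B) :
    Nat.card A * A.relIndex B = Nat.card B := by
  rw [← Subgroup.relIndex_bot_left, ← Subgroup.relIndex_bot_left, Subgroup.relIndex_mul_relIndex _ _ _ bot_le hAB]

theorem card_sup_Ad {G : Type*} [CommGroup G] (A B : Subgroup G) :
    Nat.card (A ⊔ B : Subgroup G) * Nat.card (A ⊓ B : Subgroup G) = Nat.card A * Nat.card B := by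
  have h1 : Nat.card B * B.relIndex (A ⊔ B) = Nat.card (A ⊔ B : Subgroup G) := card_relIndex_Ad le_sup_right
  have h2 : Nat.card (A ⊓ B : Subgroup G) * (A ⊓ B).relIndex A = Nat.card A := card_relIndex_Ad inf_le_left
  rw [Subgroup.relIndex_sup_right] at h1
  rw [Subgroup.inf_relIndex_left] at h2
  rw [← h1, ← h2]
  ring

variable {N N' v q : ℕ} [NeZero N] [NeZero N'] (hq : q.Prime) (hN : N = q ^ v * N') (hqN : ¬ q ∣ N') (h : N' ∣ N)
    (hc : q.Coprime N')
    (M C : Type) [Field M] [NumberField M] [Field C] [NumberField C] [Algebra M C] [IsCyclotomicExtension {N} ℚ C]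

include hq hN hqN in
theorem split_index : ((span {(q : ℤ)}).primesOver (𝓞 M)).ncard * (span {(q : ℤ)}).inertiaDegIn (𝓞 M) =
    (IQ h ⊔ HM N M C : Subgroup (ZMod N)ˣ).index := by
  have hgM : IsAbelianGalois ℚ M := gal_of_sub N M C
  have hpp : (span {(q : ℤ)}).IsPrime := by
    rw [Ideal.span_singleton_prime (by exact_mod_cast hq.ne_zero)]
    exact Nat.prime_iff_prime_int.1 hq
  have hq0 : span {(q : ℤ)} ≠ ⊥ := by
    rw [Ne, Ideal.span_singleton_eq_bot]
    exact_mod_cast hq.ne_zero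
  have hmax : (span {(q : ℤ)}).IsMaximal := Ring.DimensionLEOne.maximalOfPrime hq0 inferInstance
  have h1 := ncard_primesOver_mul_ramificationIdxIn_mul_inertiaDegIn (span {(q : ℤ)}) (𝓞 M) Gal(M/ℚ)
  rw [IsGalois.card_aut_eq_finrank] at h1
  have h2 := card_HM N M C
  have h3 := ram_M hq hN hqN h M C
  have h4 := card_sup_Ad (IQ h) (HM N M C)
  have h5 := Subgroup.card_mul_index (IQ h ⊔ HM N M C)
  have hJ : 0 < Nat.card (IQ h ⊔ HM N M C : Subgroup (ZMod N)ˣ) := Nat.card_pos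
  have hI : 0 < Nat.card (IQ h ⊓ HM N M C : Subgroup (ZMod N)ˣ) := Nat.card_pos
  set g := ((span {(q : ℤ)}).primesOver (𝓞 M)).ncard
  set e := (span {(q : ℤ)}).ramificationIdxIn (𝓞 M)
  set f := (span {(q : ℤ)}).inertiaDegIn (𝓞 M)
  apply Nat.eq_of_mul_eq_mul_left hJ
  rw [h5, ← h2, ← h1]
  apply Nat.eq_of_mul_eq_mul_right hI
  calc Nat.card (IQ h ⊔ HM N M C : Subgroup (ZMod N)ˣ) * (g * f) * Nat.card (IQ h ⊓ HM N M C : Subgroup (ZMod N)ˣ)
      = g * f * (Nat.card (IQ h ⊔ HM N M C : Subgroup (ZMod N)ˣ) * Nat.card (IQ h ⊓ HM N M C : Subgroup (ZMod N)ˣ)) := by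
        ring
    _ = Nat.card (HM N M C) * (g * (e * f)) * Nat.card (IQ h ⊓ HM N M C : Subgroup (ZMod N)ˣ) := by
        rw [h4, ← h3]
        ring

include hq hN hqN in
theorem split_dvd (Fr : (ZMod N)ˣ) (hFr : ZMod.unitsMap h Fr = ZMod.unitOfCoprime q hc) (k : ℕ) :
    (span {(q : ℤ)}).inertiaDegIn (𝓞 M) ∣ k ↔ Fr ^ k ∈ (IQ h ⊔ HM N M C : Subgroup (ZMod N)ˣ) := by
  have hr := ram_M hq hN hqN h M C
  have hri := ram_inert_M hq hN hqN h hc M C
  have hDH : DQ h q hc ⊔ HM N M C = IQ h ⊔ HM N M C ⊔ Subgroup.zpowers Fr := by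
    apply le_antisymm
    · apply sup_le
      · intro u hu
        obtain ⟨i, hi⟩ := Subgroup.mem_zpowers_iff.1 ((mem_DQ h q hc u).1 hu)
        have h1 : u * Fr ^ (-i) ∈ IQ h := by
          rw [mem_IQ, map_mul, map_zpow, hFr, ← hi, ← zpow_add]
          simp
        have h2 : u = (u * Fr ^ (-i)) * Fr ^ i := by
          rw [mul_assoc, ← zpow_add]
          simp
        rw [h2]
        exact Subgroup.mul_mem_sup (Subgroup.mem_sup_left h1) (Subgroup.zpow_mem _ (Subgroup.mem_zpowers Fr) i)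
      · exact le_trans le_sup_right le_sup_left
    · apply sup_le
      · exact sup_le_sup_right (IQ_le_DQ h q hc) _
      · rw [Subgroup.zpowers_le]
        apply Subgroup.mem_sup_left
        rw [mem_DQ, hFr]
        exact Subgroup.mem_zpowers _
  have ho : (IQ h ⊔ HM N M C).relIndex (Subgroup.zpowers Fr) =
      orderOf (QuotientGroup.mk' (IQ h ⊔ HM N M C) Fr) := by
    have h1 := Subgroup.relIndex_ker (K := Subgroup.zpowers Fr) (QuotientGroup.mk' (IQ h ⊔ HM N M C))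
    rw [QuotientGroup.ker_mk', MonoidHom.map_zpowers, Nat.card_zpowers] at h1
    exact h1
  have hcJ : Nat.card (DQ h q hc ⊔ HM N M C : Subgroup (ZMod N)ˣ) =
      Nat.card (IQ h ⊔ HM N M C : Subgroup (ZMod N)ˣ) * orderOf (QuotientGroup.mk' (IQ h ⊔ HM N M C) Fr) := by
    rw [hDH, ← ho, ← Subgroup.relIndex_sup_left (Subgroup.zpowers Fr) (IQ h ⊔ HM N M C),
      card_relIndex_Ad le_sup_left]
  have h1 := card_sup_Ad (DQ h q hc) (HM N M C)
  have h2 := card_sup_Ad (IQ h) (HM N M C)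
  have hJ : 0 < Nat.card (HM N M C) := Nat.card_pos
  have hI : 0 < Nat.card (IQ h ⊓ HM N M C : Subgroup (ZMod N)ˣ) := Nat.card_pos
  have hD : 0 < Nat.card (DQ h q hc ⊓ HM N M C : Subgroup (ZMod N)ˣ) := Nat.card_pos
  have hIQ : 0 < Nat.card (IQ h) := Nat.card_pos
  have he : 0 < (span {(q : ℤ)}).ramificationIdxIn (𝓞 M) := by
    apply Nat.pos_of_ne_zero
    intro h0
    rw [h0, zero_mul] at hr
    omega
  have h3 : Nat.card (DQ h q hc ⊔ HM N M C : Subgroup (ZMod N)ˣ) =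
      (span {(q : ℤ)}).ramificationIdxIn (𝓞 M) * (span {(q : ℤ)}).inertiaDegIn (𝓞 M) * Nat.card (HM N M C) := by
    apply Nat.eq_of_mul_eq_mul_right hD
    rw [h1, ← hri]
    ring
  have h4 : Nat.card (IQ h ⊔ HM N M C : Subgroup (ZMod N)ˣ) =
      (span {(q : ℤ)}).ramificationIdxIn (𝓞 M) * Nat.card (HM N M C) := by
    apply Nat.eq_of_mul_eq_mul_right hI
    rw [h2, ← hr]
    ring
  have h5 : (span {(q : ℤ)}).inertiaDegIn (𝓞 M) = orderOf (QuotientGroup.mk' (IQ h ⊔ HM N M C) Fr) := by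
    rw [h3, h4] at hcJ
    apply Nat.eq_of_mul_eq_mul_left (Nat.mul_pos he hJ)
    calc _ = (span {(q : ℤ)}).ramificationIdxIn (𝓞 M) * (span {(q : ℤ)}).inertiaDegIn (𝓞 M) *
          Nat.card (HM N M C) := by ring
      _ = _ := hcJ
  rw [h5, orderOf_dvd_iff_pow_eq_one, ← map_pow, QuotientGroup.mk'_apply, QuotientGroup.eq_one_iff]

end H11R
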