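import Pool.Agent.H11.T3R.DfA

/-!
ROW Ae (primitive characters at prime powers, orthogonality; about 160 lines).

`N = q ^ v * N'`, `q` prime, `q ∤ N'`.

PROOF. `prim_of_triv`: `χ` is trivial on the kernel of `unitsMap`, so it factors through `N'` (`DirichletCharacter.factorsThrough_iff_ker_unitsMap`), so `χ.conductor ∣ N'` (`mem_conductorSet_iff_conductor_dvd`). `χ = changeLevel _ χ.primitiveCharacter`
(`changeLevel_primitiveCharacter`), `changeLevel_eq_cast_of_dvd`: `χ (Fr ^ k) = χ.primitiveCharacter (cast (Fr ^ k))`, and the cast of `Fr ^ k` modulo the conductor is the image of `q ^ k`, as `Fr ≡ q mod N'` and the conductor divides `N'`.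
`prim_of_ntriv`: if `q` did not divide the conductor `c` then `c ∣ q ^ v N'` and `c` is prime to `q`, so `c ∣ N'`, `χ` factors through `N'` and is trivial on the kernel. So `q ∣ c`, `q ^ k` (`k > 0`) is not a unit modulo `c`, the value is `0`.
`triv_iff`: the two together (`q ∣ χ.conductor ↔ χ` non trivial on `IQ h`).
`sum_prim`: by the first two, the sum is `∑ χ (Fr ^ k)` over the `χ ∈ XM` trivial on `IQ h`, that is over the characters which are trivial on `J = IQ h ⊔ HM` (a character is trivial on `A ⊔ B` iff it is trivial on `A` and on `B`).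
General fact: for a subgroup `J` of `(ZMod N)ˣ` and `g`: `∑_{χ trivial on J} χ g = J.index` if `g ∈ J` and `0` otherwise. The number of these characters is `J.index`: `MulChar.card_subgroupOrderIsoSubgroupMulChar` with
`MulChar.mem_subgroupOrderIsoSubgroupMulChar_iff` (`ℂ` has enough roots of unity). If `g ∉ J` there is a character `χ₀` trivial on `J` with `χ₀ g ≠ 1` (`mem_subgroupOrderIsoSubgroupMulChar_symm_iff`: the order isomorphism is bijective, `J` is
the common kernel); multiplication by `χ₀` permutes the characters trivial on `J`, so the sum `S` satisfies `χ₀ g * S = S`, `S = 0`.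
-/

set_option autoImplicit false

open NumberField

namespace H11R

theorem Ae_ft {N N' : ℕ} [NeZero N] (h : N' ∣ N)
    (χ : DirichletCharacter ℂ N) (ht : ∀ u ∈ IQ h, χ (u : ZMod N) = 1) : χ.conductor ∣ N' := by
  rw [← DirichletCharacter.mem_conductorSet_iff_conductor_dvd χ h, DirichletCharacter.mem_conductorSet_iff,
    DirichletCharacter.factorsThrough_iff_ker_unitsMap h]
  intro x hx
  rw [MonoidHom.mem_ker, Units.ext_iff, MulChar.coe_toUnitHom, Units.val_one]
  exact ht x hx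

theorem Ae_ft2 {N N' : ℕ} [NeZero N] (h : N' ∣ N)
    (χ : DirichletCharacter ℂ N) (hc : χ.conductor ∣ N') : ∀ u ∈ IQ h, χ (u : ZMod N) = 1 := by
  rw [← DirichletCharacter.mem_conductorSet_iff_conductor_dvd χ h, DirichletCharacter.mem_conductorSet_iff,
    DirichletCharacter.factorsThrough_iff_ker_unitsMap h] at hc
  intro x hx
  have h1 := hc hx
  rw [MonoidHom.mem_ker, Units.ext_iff, MulChar.coe_toUnitHom, Units.val_one] at h1
  exact h1

theorem prim_of_triv {N N' v q : ℕ} [NeZero N] [NeZero N'] (hq : q.Prime) (hN : N = q ^ v * N') (hqN : ¬ q ∣ N') (h : N' ∣ N)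
    (hc : q.Coprime N') (χ : DirichletCharacter ℂ N) (ht : ∀ u ∈ IQ h, χ (u : ZMod N) = 1) (Fr : (ZMod N)ˣ)
    (hFr : ZMod.unitsMap h Fr = ZMod.unitOfCoprime q hc) (k : ℕ) :
    χ.primitiveCharacter ((q ^ k : ℕ) : ZMod χ.conductor) = χ ((Fr ^ k : (ZMod N)ˣ) : ZMod N) := by
  have hcond := Ae_ft h χ ht
  have h1 : χ ((Fr ^ k : (ZMod N)ˣ) : ZMod N) =
      DirichletCharacter.changeLevel χ.conductor_dvd_level χ.primitiveCharacter ((Fr ^ k : (ZMod N)ˣ) : ZMod N) := by
    rw [DirichletCharacter.changeLevel_primitiveCharacter]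
  rw [h1, DirichletCharacter.changeLevel_eq_cast_of_dvd, ← ZMod.unitsMap_val χ.conductor_dvd_level,
    ← ZMod.unitsMap_comp hcond h, MonoidHom.comp_apply, map_pow, hFr, map_pow, Units.val_pow_eq_pow_val,
    ZMod.unitsMap_val, ZMod.coe_unitOfCoprime, ZMod.cast_natCast hcond, Nat.cast_pow]

theorem triv_iff {N N' v q : ℕ} [NeZero N] [NeZero N'] (hq : q.Prime) (hN : N = q ^ v * N') (hqN : ¬ q ∣ N') (h : N' ∣ N)
    (χ : DirichletCharacter ℂ N) : (∀ u ∈ IQ h, χ (u : ZMod N) = 1) ↔ ¬ q ∣ χ.conductor := by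
  constructor
  · intro ht hqc
    exact hqN (hqc.trans (Ae_ft h χ ht))
  · intro hqc
    refine Ae_ft2 h χ ?_
    have h1 : χ.conductor ∣ q ^ v * N' := hN ▸ χ.conductor_dvd_level
    refine Nat.Coprime.dvd_of_dvd_mul_left ?_ h1
    exact ((Nat.Prime.coprime_iff_not_dvd hq).2 hqc).symm.pow_right v

theorem prim_of_ntriv {N N' v q : ℕ} [NeZero N] [NeZero N'] (hq : q.Prime) (hN : N = q ^ v * N') (hqN : ¬ q ∣ N') (h : N' ∣ N)
    (χ : DirichletCharacter ℂ N) (ht : ¬ ∀ u ∈ IQ h, χ (u : ZMod N) = 1) (k : ℕ) (hk : 0 < k) :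
    χ.primitiveCharacter ((q ^ k : ℕ) : ZMod χ.conductor) = 0 := by
  have hqc : q ∣ χ.conductor := by
    by_contra hcon
    exact ht ((triv_iff hq hN hqN h χ).2 hcon)
  apply MulChar.map_nonunit
  rw [ZMod.isUnit_iff_coprime]
  intro hcop
  have h2 : q ∣ Nat.gcd (q ^ k) χ.conductor := Nat.dvd_gcd (dvd_pow_self q hk.ne') hqc
  rw [hcop] at h2
  exact hq.one_lt.ne' (Nat.dvd_one.1 h2)

open Classical in
theorem sum_triv {N : ℕ} [NeZero N] (J : Subgroup (ZMod N)ˣ) (g : (ZMod N)ˣ) :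
    ∑ χ ∈ Finset.univ.filter (fun χ : DirichletCharacter ℂ N => ∀ u ∈ J, χ (u : ZMod N) = 1), χ (g : ZMod N) =
      if g ∈ J then (J.index : ℂ) else 0 := by
  split_ifs with hg
  · have h0 : ∀ χ ∈ Finset.univ.filter (fun χ : DirichletCharacter ℂ N => ∀ u ∈ J, χ (u : ZMod N) = 1), χ (g : ZMod N) = 1 :=
      fun χ hχ => (Finset.mem_filter.1 hχ).2 g hg
    rw [Finset.sum_congr rfl h0, Finset.sum_const, nsmul_eq_mul, mul_one]
    congr 1
    have h1 := MulChar.card_subgroupOrderIsoSubgroupMulChar (M := ZMod N) (R := ℂ) (H := J)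
    rw [← Subgroup.index] at h1
    rw [← h1, Nat.card_eq_fintype_card, Fintype.card_subtype]
    congr 1
    ext χ
    simp
  · have h1 : ∃ χ₀ : DirichletCharacter ℂ N, (∀ u ∈ J, χ₀ (u : ZMod N) = 1) ∧ χ₀ (g : ZMod N) ≠ 1 := by
      by_contra hcon
      push Not at hcon
      apply hg
      have h2 : g ∈ (MulChar.subgroupOrderIsoSubgroupMulChar (ZMod N) ℂ).symm
          (OrderDual.toDual (MulChar.subgroupOrderIsoSubgroupMulChar (ZMod N) ℂ J).ofDual) := by
        rw [MulChar.mem_subgroupOrderIsoSubgroupMulChar_symm_iff]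
        intro χ hχ
        rw [MulChar.mem_subgroupOrderIsoSubgroupMulChar_iff] at hχ
        exact hcon χ hχ
      rwa [OrderDual.toDual_ofDual, OrderIso.symm_apply_apply] at h2
    obtain ⟨χ₀, h3, h4⟩ := h1
    set S := ∑ χ ∈ Finset.univ.filter (fun χ : DirichletCharacter ℂ N => ∀ u ∈ J, χ (u : ZMod N) = 1), χ (g : ZMod N) with hS
    have h5 : χ₀ (g : ZMod N) * S = S := by
      rw [hS, Finset.mul_sum]
      refine Finset.sum_bij' (fun χ _ => χ₀ * χ) (fun χ _ => χ₀⁻¹ * χ) ?_ ?_ ?_ ?_ ?_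
      · intro χ hχ
        simp only [Finset.mem_filter, Finset.mem_univ, true_and] at hχ ⊢
        intro u hu
        rw [MulChar.mul_apply, h3 u hu, hχ u hu, one_mul]
      · intro χ hχ
        simp only [Finset.mem_filter, Finset.mem_univ, true_and] at hχ ⊢
        intro u hu
        rw [MulChar.mul_apply, hχ u hu, mul_one, MulChar.inv_apply_eq_inv', h3 u hu, inv_one]
      · intro χ _
        simp
      · intro χ _
        simp
      · intro χ _
        rw [MulChar.mul_apply]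
    have h6 : (χ₀ (g : ZMod N) - 1) * S = 0 := by rw [sub_mul, one_mul, h5, sub_self]
    rcases mul_eq_zero.1 h6 with h7 | h7
    · exact absurd (sub_eq_zero.1 h7) h4
    · exact h7

open Classical in
theorem sum_prim {N N' v q : ℕ} [NeZero N] [NeZero N'] (hq : q.Prime) (hN : N = q ^ v * N') (hqN : ¬ q ∣ N') (h : N' ∣ N)
    (hc : q.Coprime N') (M C : Type) [Field M] [NumberField M] [Field C] [NumberField C] [Algebra M C]
    [IsCyclotomicExtension {N} ℚ C] (Fr : (ZMod N)ˣ)
    (hFr : ZMod.unitsMap h Fr = ZMod.unitOfCoprime q hc) (k : ℕ) (hk : 0 < k) :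
    ∑ χ ∈ XM N M C, χ.primitiveCharacter ((q ^ k : ℕ) : ZMod χ.conductor) =
      if Fr ^ k ∈ (IQ h ⊔ HM N M C : Subgroup (ZMod N)ˣ) then ((IQ h ⊔ HM N M C : Subgroup (ZMod N)ˣ).index : ℂ) else 0 := by
  rw [← sum_triv]
  have h1 : Finset.univ.filter (fun χ : DirichletCharacter ℂ N => ∀ u ∈ (IQ h ⊔ HM N M C : Subgroup (ZMod N)ˣ), χ (u : ZMod N) = 1) =
      (XM N M C).filter (fun χ => ∀ u ∈ IQ h, χ (u : ZMod N) = 1) := by
    ext χ
    simp only [Finset.mem_filter, Finset.mem_univ, true_and, mem_XM]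
    constructor
    · intro hu
      exact ⟨fun u hu1 => hu u (Subgroup.mem_sup_right hu1), fun u hu1 => hu u (Subgroup.mem_sup_left hu1)⟩
    · rintro ⟨ha, hb⟩ u hu
      obtain ⟨y, hy, z, hz, rfl⟩ := Subgroup.mem_sup.1 hu
      rw [Units.val_mul, map_mul, hb y hy, ha z hz, one_mul]
  rw [h1, Finset.sum_filter]
  refine Finset.sum_congr rfl ?_
  intro χ _
  split_ifs with h2
  · exact prim_of_triv hq hN hqN h hc χ h2 Fr hFr k
  · exact prim_of_ntriv hq hN hqN h χ h2 k hk

end H11R
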