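import Pool.Agent.H11.T3R.Ad
import Pool.Agent.H11.T3R.Ae

/-!
ROW Af (the von Mangoldt function of an abelian field; about 110 lines).

PROOF. As `WTA.eql` (Pool/Agent/H73/WT/Eql.lean). If `m` is not a prime power both sides vanish (`WTA.lam_npp`, `ArithmeticFunction.vonMangoldt_eq_zero_iff`). Let `m = q ^ k`, `k > 0`. Write `N = q ^ v * N'` with `q ∤ N'`
(`Nat.exists_eq_pow_mul_and_not_dvd`), `N' ≠ 0`; `ZMod.unitsMap` is surjective (`ZMod.unitsMap_surjective`), choose `Fr` above `unitOfCoprime q hc`. `M/ℚ` is Galois (`gal_of_sub N M C`). `WTA.lam_pp M q hq k hk`: `LamK M (q ^ k)` is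
`g f log q` if `f ∣ k` and `0` otherwise. `split_dvd`, `split_index`, `sum_prim` give the claim; `Λ (q ^ k) = log q` (`vonMangoldt_apply_pow`, `vonMangoldt_apply_prime`).
-/

set_option autoImplicit false

open NumberField Ideal

namespace H11R

theorem lam_eq (N : ℕ) [NeZero N] (M C : Type) [Field M] [NumberField M] [Field C] [NumberField C] [Algebra M C]
    [IsCyclotomicExtension {N} ℚ C] (m : ℕ) (hm : m ≠ 0) :
    (H17PIT.LamK M m : ℂ) = (ArithmeticFunction.vonMangoldt m : ℂ) *
      ∑ χ ∈ XM N M C, χ.primitiveCharacter (m : ZMod χ.conductor) := by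
  have hab : IsAbelianGalois ℚ M := gal_of_sub N M C
  have hgal : IsGalois ℚ M := hab.toIsGalois
  by_cases hpp : IsPrimePow m
  · obtain ⟨q, k, hq, hk, rfl⟩ := (isPrimePow_nat_iff m).mp hpp
    have hL : (ArithmeticFunction.vonMangoldt (q ^ k) : ℝ) = Real.log q := by
      rw [ArithmeticFunction.vonMangoldt_apply_pow hk.ne',
        ArithmeticFunction.vonMangoldt_apply_prime hq]
    obtain ⟨v, N', hqN, hN⟩ := Nat.exists_eq_pow_mul_and_not_dvd (NeZero.ne N) q hq.ne_one
    have hN'0 : N' ≠ 0 := by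
      rintro rfl
      exact hqN (dvd_zero q)
    have hN' : NeZero N' := ⟨hN'0⟩
    have h : N' ∣ N := ⟨q ^ v, by rw [hN, mul_comm]⟩
    have hc : q.Coprime N' := (Nat.Prime.coprime_iff_not_dvd hq).mpr hqN
    obtain ⟨Fr, hFr⟩ := ZMod.unitsMap_surjective h (ZMod.unitOfCoprime q hc)
    have h1 := WTA.lam_pp M q hq k hk
    have h2 := split_index hq hN hqN h M C
    have h3 := split_dvd hq hN hqN h hc M C Fr hFr k
    have h4 := sum_prim hq hN hqN h hc M C Fr hFr k hk
    rw [hL, h4, h1]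
    by_cases hd : (span {(q : ℤ)}).inertiaDegIn (𝓞 M) ∣ k
    · rw [if_pos hd, if_pos (h3.mp hd), h2]
      push_cast
      ring
    · rw [if_neg hd, if_neg (fun h => hd (h3.mpr h))]
      simp
  · rw [WTA.lam_npp M m hpp hm, ArithmeticFunction.vonMangoldt_eq_zero_iff.mpr hpp]
    simp

end H11R
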