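import Pool.Agent.H11.T3R.Af
import Pool.Agent.H73.WT.Ser

/-!
ROW Ag (the Dedekind zeta function of an abelian field; about 120 lines).

PROOF. Adapt `WTA.ser` (Pool/Agent/H73/WT/Ser.lean; its lemmas `ser_prod_one`, `ser_LS`, `ser_conv`, `WTA.rec_prod`, `WTA.rec_uniq`, `WTA.idl`, `WTA.aK_one` are public): here the index set is `XM N M C` itself (no `Option`),
`u χ = toArithmeticFunction (fun m => χ.primitiveCharacter m)`, `L χ = toArithmeticFunction (fun m => χ.primitiveCharacter m * Λ m)`; `lam_eq` replaces `eql`. For `1 < Re s`: `LFunction_eq_LSeries`, `LSeriesSummable_of_one_lt_re`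
(the level `χ.conductor` is not `0`: `conductor_ne_zero`; provide the instance `NeZero χ.conductor` where it is needed).
-/

set_option autoImplicit false

open NumberField Ideal

namespace H11R

theorem zeta_eq (N : ℕ) [NeZero N] (M C : Type) [Field M] [NumberField M] [Field C] [NumberField C] [Algebra M C]
    [IsCyclotomicExtension {N} ℚ C] {s : ℂ} (hs : 1 < s.re) :
    dedekindZeta M s = ∏ χ ∈ XM N M C, LSeries (fun m : ℕ => χ.primitiveCharacter (m : ZMod χ.conductor)) s := by
  classical
  have hinst : ∀ χ : DirichletCharacter ℂ N, NeZero χ.conductor := fun χ => ⟨fun h => DirichletCharacter.conductor_ne_zero χ h⟩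
  set S := XM N M C with hS
  let u : DirichletCharacter ℂ N → ArithmeticFunction ℂ := fun χ =>
    toArithmeticFunction (fun m : ℕ => χ.primitiveCharacter (m : ZMod χ.conductor))
  let L : DirichletCharacter ℂ N → ArithmeticFunction ℂ := fun χ =>
    toArithmeticFunction (fun m : ℕ => χ.primitiveCharacter (m : ZMod χ.conductor) *
      (ArithmeticFunction.vonMangoldt m : ℂ))
  have hrec : ∀ m : ℕ, ((∑ i ∈ S, L i) * ∏ i ∈ S, u i) m =
      (∏ i ∈ S, u i) m * (Real.log m : ℂ) := by
    intro m
    refine WTA.rec_prod S u L ?_ m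
    intro χ _ k
    exact WTA.ser_conv χ.primitiveCharacter k
  have hLam : ∀ m : ℕ, m ≠ 0 → (∑ i ∈ S, L i) m = (H17PIT.LamK M m : ℂ) := by
    intro m hm
    rw [lam_eq N M C m hm]
    have h1 : ∀ S : Finset (DirichletCharacter ℂ N), (∑ i ∈ S, L i) m = ∑ i ∈ S, L i m := by
      intro S
      induction S using Finset.induction_on with
      | empty => simp
      | insert a s ha ih => rw [Finset.sum_insert ha, Finset.sum_insert ha, ← ih]; rfl
    rw [h1 S, Finset.mul_sum]
    refine Finset.sum_congr rfl (fun χ _ => ?_)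
    simp only [L, toArithmeticFunction, ArithmeticFunction.coe_mk, hm, if_false]
    exact mul_comm _ _
  have hone : (∏ i ∈ S, u i) 1 = 1 := by
    refine WTA.ser_prod_one S u ?_
    intro χ _
    simp [u, toArithmeticFunction]
  have huniq : ∀ m : ℕ, 1 ≤ m → (H17PIT.aK M m : ℂ) = (∏ i ∈ S, u i) m := by
    refine WTA.rec_uniq (a := fun m => (H17PIT.aK M m : ℂ)) (b := fun m => (∏ i ∈ S, u i) m)
      (Λ := fun m => (H17PIT.LamK M m : ℂ)) ?_ hone ?_ ?_ ?_
    · simp [WTA.aK_one]
    · have := lam_eq N M C 1 one_ne_zero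
      simpa using this
    · intro m hm
      have h := WTA.idl M m hm
      have h3 := congrArg (fun x : ℝ => (x : ℂ)) h
      push_cast at h3
      simpa using h3
    · intro m hm
      rw [← hrec m, ArithmeticFunction.mul_apply]
      refine Finset.sum_congr rfl (fun x hx => ?_)
      have hx0 : x.1 ≠ 0 := (Nat.ne_zero_of_mem_divisorsAntidiagonal hx).1
      rw [hLam x.1 hx0]
  have hsum : ∀ i ∈ S, LSeriesSummable (u i) s := by
    intro χ _
    have h1 : LSeriesSummable (fun m : ℕ => χ.primitiveCharacter (m : ZMod χ.conductor)) s :=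
      DirichletCharacter.LSeriesSummable_of_one_lt_re χ.primitiveCharacter hs
    refine (LSeriesSummable_congr s ?_).mpr h1
    intro k hk
    simp [u, toArithmeticFunction, hk]
  have hser := (WTA.ser_LS S u s hsum).2
  have h4 : dedekindZeta M s = LSeries (⇑(∏ i ∈ S, u i)) s := by
    refine LSeries_congr ?_ s
    intro k hk
    exact huniq k (Nat.one_le_iff_ne_zero.mpr hk)
  rw [h4, hser]
  refine Finset.prod_congr rfl (fun χ _ => ?_)
  refine LSeries_congr ?_ s
  intro k hk
  simp [u, toArithmeticFunction, hk]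

end H11R
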