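import Pool.Agent.H11.T3R.Ag

/-!
ROW Ah (the class number formula of a real abelian field; about 130 lines).

`LF1 χ = L(1, primitive character of χ)`.

PROOF. Adapt `WTA.fab_res`, `WTA.fab` (Pool/Agent/H73/WT/Fab.lean). `1 ∈ XM`; the trivial character gives the Riemann zeta function: for `χ = 1` the conductor is `1` (`DirichletCharacter.conductor_one`), all values of the primitive character are `1`
(`ZMod` of conductor `1` is trivial, `MulChar.one_apply`; use `primitiveCharacter_one`), so its `LSeries` is `riemannZeta s` (`LSeries_one_eq_riemannZeta`). For `χ ≠ 1`: the primitive character is `≠ 1` (otherwise `χ = changeLevel 1 = 1`), and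
its `LSeries` at `s > 1` is `LFunction s`, which is continuous at `1` (`DirichletCharacter.differentiable_LFunction`). Multiply by `s - 1` and let `s → 1+`.
`class_formula`: take norms; `dedekindZeta_residue_def`, `WTA.fab_torsion`, totally real, exactly as in `WTA.fab`.
-/

set_option autoImplicit false

open NumberField Ideal

namespace H11R

private theorem Ah_one (N : ℕ) [NeZero N] {s : ℂ} (hs : 1 < s.re) :
    LSeries (fun m : ℕ => (1 : DirichletCharacter ℂ N).primitiveCharacter
      (m : ZMod (1 : DirichletCharacter ℂ N).conductor)) s = riemannZeta s := by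
  have h1 : (fun m : ℕ => (1 : DirichletCharacter ℂ N).primitiveCharacter
      (m : ZMod (1 : DirichletCharacter ℂ N).conductor)) = 1 := by
    funext m
    haveI : Subsingleton (ZMod (1 : DirichletCharacter ℂ N).conductor) := by
      rw [DirichletCharacter.conductor_one]
      infer_instance
    rw [DirichletCharacter.primitiveCharacter_one, MulChar.one_apply (isUnit_of_subsingleton _)]
    rfl
  rw [h1]
  exact LSeries_one_eq_riemannZeta hs

private theorem Ah_hmap : Filter.Tendsto (fun s : ℝ => (s : ℂ)) (nhdsWithin 1 (Set.Ioi 1))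
    (nhdsWithin 1 {(1 : ℂ)}ᶜ) := by
  refine tendsto_nhdsWithin_iff.2 ⟨?_, ?_⟩
  · have h3 : Filter.Tendsto (fun s : ℝ => (s : ℂ)) (nhds 1) (nhds ((1 : ℝ) : ℂ)) :=
      Complex.continuous_ofReal.tendsto 1
    rw [Complex.ofReal_one] at h3
    exact h3.mono_left nhdsWithin_le_nhds
  · filter_upwards [self_mem_nhdsWithin] with s hs
    intro h4
    have h5 : (s : ℂ) = 1 := h4
    have h6 : s = 1 := by exact_mod_cast h5
    have h7 : (1 : ℝ) < s := hs
    linarith

private theorem Ah_lim {N : ℕ} [NeZero N] (χ : DirichletCharacter ℂ N) (hχ : χ ≠ 1) :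
    Filter.Tendsto (fun s : ℝ =>
      LSeries (fun m : ℕ => χ.primitiveCharacter (m : ZMod χ.conductor)) (s : ℂ))
      (nhdsWithin 1 (Set.Ioi 1)) (nhds (LF1 χ)) := by
  haveI : NeZero χ.conductor := ⟨χ.conductor_ne_zero⟩
  have hp : χ.primitiveCharacter ≠ 1 := by
    intro h
    apply hχ
    rw [← χ.changeLevel_primitiveCharacter, h, map_one]
  have h3 := (DirichletCharacter.differentiable_LFunction hp).continuous.tendsto (1 : ℂ)
  have h4 := h3.comp (Ah_hmap.mono_right nhdsWithin_le_nhds)
  have h5 : LF1 χ = χ.primitiveCharacter.LFunction 1 := rfl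
  rw [h5]
  refine h4.congr' ?_
  filter_upwards [self_mem_nhdsWithin] with s hs
  have h7 : (1 : ℝ) < s := hs
  exact DirichletCharacter.LFunction_eq_LSeries _ (by rw [Complex.ofReal_re]; exact h7)

theorem residue_eq (N : ℕ) [NeZero N] (M C : Type) [Field M] [NumberField M] [Field C] [NumberField C] [Algebra M C]
    [IsCyclotomicExtension {N} ℚ C] :
    (dedekindZeta_residue M : ℂ) = ∏ χ ∈ (XM N M C).erase 1, LF1 χ := by
  have h1 := tendsto_sub_one_mul_dedekindZeta_nhdsGT M
  have hz : Filter.Tendsto (fun s : ℝ => ((s : ℂ) - 1) * riemannZeta (s : ℂ))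
      (nhdsWithin 1 (Set.Ioi 1)) (nhds 1) := riemannZeta_residue_one.comp Ah_hmap
  have hL : Filter.Tendsto (fun s : ℝ => ∏ χ ∈ (XM N M C).erase 1,
      LSeries (fun m : ℕ => χ.primitiveCharacter (m : ZMod χ.conductor)) (s : ℂ))
      (nhdsWithin 1 (Set.Ioi 1)) (nhds (∏ χ ∈ (XM N M C).erase 1, LF1 χ)) := by
    refine tendsto_finsetProd _ fun χ hχ => ?_
    exact Ah_lim χ (Finset.ne_of_mem_erase hχ)
  have h2' := hz.mul hL
  rw [one_mul] at h2'
  refine tendsto_nhds_unique h1 (h2'.congr' ?_)
  filter_upwards [self_mem_nhdsWithin] with s hs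
  have h7 : (1 : ℝ) < s := hs
  have h8 : 1 < (s : ℂ).re := by rw [Complex.ofReal_re]; exact h7
  have h9 : (1 : DirichletCharacter ℂ N) ∈ XM N M C := by
    rw [mem_XM]
    intro u _
    exact MulChar.one_apply_coe u
  rw [zeta_eq N M C h8, ← Finset.mul_prod_erase _ _ h9, Ah_one N h8]
  ring

theorem class_formula (N : ℕ) [NeZero N] (M C : Type) [Field M] [NumberField M] [Field C] [NumberField C] [Algebra M C]
    [IsCyclotomicExtension {N} ℚ C] [IsTotallyReal M] :
    2 ^ (Module.finrank ℚ M - 1) * (classNumber M : ℝ) * Units.regulator M =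
    Real.sqrt |(discr M : ℝ)| * ∏ χ ∈ (XM N M C).erase 1, ‖LF1 χ‖ := by
  have h1 := residue_eq N M C
  have h3 : dedekindZeta_residue M = ∏ χ ∈ (XM N M C).erase 1, ‖LF1 χ‖ := by
    have h4 := congrArg norm h1
    rw [norm_prod, Complex.norm_real, Real.norm_of_nonneg (dedekindZeta_residue_pos M).le] at h4
    exact h4
  have hd : 0 < Real.sqrt |(discr M : ℝ)| :=
    Real.sqrt_pos_of_pos (abs_pos.mpr (Int.cast_ne_zero.mpr (discr_ne_zero M)))
  have h7 : dedekindZeta_residue M * Real.sqrt |(discr M : ℝ)| =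
      2 ^ (Module.finrank ℚ M - 1) * (classNumber M : ℝ) * Units.regulator M := by
    have h8 : 0 < Module.finrank ℚ M := Module.finrank_pos
    obtain ⟨r, hr⟩ := Nat.exists_eq_succ_of_ne_zero h8.ne'
    rw [dedekindZeta_residue_def, WTA.fab_torsion M, IsTotallyReal.nrComplexPlaces_eq_zero,
      ← IsTotallyReal.finrank M, hr]
    simp only [Nat.succ_eq_add_one, Nat.add_sub_cancel, pow_zero, mul_one, Nat.cast_ofNat, pow_succ]
    field_simp
  rw [← h3, ← h7]
  ring

end H11R
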