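import Pool.Agent.H11.T3R.DfA

/-!
ROW Ai (sums of logarithms and `L(1, χ)`, imprimitive levels; about 170 lines).

PROOF. `ls_level`: `N₀ ∣ N` have the same prime divisors (`hr`). Adapt `WTA.dre` (Pool/Agent/H73/WT/Dre.lean; its auxiliary lemmas are private: copy them, they are general): with `m = N / N₀`, `N = m * N₀`;
`changeLevel χ (k) = χ (k)` for every natural number `k` (both vanish if `k` is not prime to `N₀`, equivalently to `N`, by `hr`; otherwise `changeLevel_eq_cast_of_dvd`), `LS` as a sum over `range N` (`Dre_LS`), split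
`range (m * N₀)` (`Dre_range`), `Dre_lg m N₀ b` for `b` prime to `N₀` (`¬ N₀ ∣ b` as `N₀ ≠ 1`: if `N₀ = 1` then `N = 1` by `hr` and there is nothing to prove; or treat `χ ≠ 1`).
`lf_prim`: `χ₀` primitive modulo `N₀ ∣ N`, even, `≠ 1`. The conductor of `changeLevel h χ₀` is `N₀` (`conductor_changeLevel`), and its primitive character is `χ₀` up to the equality of the levels (`primitiveCharacter_changeLevel_apply`;
to avoid casts: `obtain ⟨c, ψ, hc, ..⟩`, generalise the conductor and `subst`, as in `WTA.lvl` of Pool/Agent/H73/WT/Lvl.lean). So `LF1 (changeLevel h χ₀) = χ₀.LFunction 1` and `WTA.plo` gives the claim.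
`lf_eq`: `χ = changeLevel _ χ₀`, `χ₀ = χ.primitiveCharacter` of level `χ.conductor`, even and `≠ 1` like `χ`: `lf_prim` and `ls_level`.
-/

set_option autoImplicit false

open NumberField Ideal

namespace H11R

private theorem Ai_range (m d : ℕ) (g : ℕ → ℂ) : ∑ k ∈ Finset.range (m * d), g k =
    ∑ b ∈ Finset.range d, ∑ i ∈ Finset.range m, g (b + d * i) := by
  rw [← Fin.sum_univ_eq_sum_range, ← finProdFinEquiv.sum_comp, Fintype.sum_prod_type,
    Finset.sum_comm, ← Fin.sum_univ_eq_sum_range (fun b ↦ ∑ i ∈ Finset.range m, g (b + d * i))]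
  refine Finset.sum_congr rfl (fun b _ ↦ ?_)
  rw [← Fin.sum_univ_eq_sum_range (fun i ↦ g (b + d * i))]
  rfl

/-- the sum `LS` as a sum over residues -/
private theorem Ai_LS {N : ℕ} [NeZero N] (χ : DirichletCharacter ℂ N) :
    WTA.LS χ = ∑ k ∈ Finset.range N, χ (k : ZMod N) * (WTA.lg N k : ℂ) := by
  have h1 : WTA.LS χ = ∑ x : ZMod N, χ x * (WTA.lg N x.val : ℂ) := by
    unfold WTA.LS
    refine Finset.sum_of_injOn (fun a : (ZMod N)ˣ ↦ (a : ZMod N)) ?_ ?_ ?_ ?_
    · intro a _ b _ h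
      exact Units.ext h
    · intro a _
      simp
    · intro x _ hx
      have hu : ¬ IsUnit x := by
        intro hx'
        apply hx
        obtain ⟨u, rfl⟩ := hx'
        exact ⟨u, by simp, rfl⟩
      rw [MulChar.map_nonunit χ hu, zero_mul]
    · intro a _
      rfl
  rw [h1]
  symm
  refine Finset.sum_nbij' (fun k ↦ (k : ZMod N)) (fun x ↦ x.val) ?_ ?_ ?_ ?_ ?_
  · intro k _
    exact Finset.mem_univ _
  · intro x _
    exact Finset.mem_range.mpr (ZMod.val_lt x)
  · intro k hk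
    exact ZMod.val_cast_of_lt (Finset.mem_range.mp hk)
  · intro x _
    exact ZMod.natCast_zmod_val x
  · intro k hk
    rw [ZMod.val_cast_of_lt (Finset.mem_range.mp hk)]

private theorem Ai_image {m : ℕ} (hm : 0 < m) {ω : ℂ} (hω : IsPrimitiveRoot ω m) :
    Polynomial.nthRootsFinset m (1 : ℂ) = (Finset.range m).image (fun i ↦ ω ^ i) := by
  symm
  apply Finset.eq_of_subset_of_card_le
  · intro z hz
    obtain ⟨i, _, rfl⟩ := Finset.mem_image.mp hz
    rw [Polynomial.mem_nthRootsFinset hm, ← pow_mul, mul_comm, pow_mul, hω.pow_eq_one, one_pow]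
  · rw [hω.card_nthRootsFinset, Finset.card_image_of_injOn, Finset.card_range]
    intro i hi k hk h
    exact hω.pow_inj (Finset.mem_range.mp (Finset.mem_coe.mp hi))
      (Finset.mem_range.mp (Finset.mem_coe.mp hk)) h

private theorem Ai_prod {m : ℕ} (hm : 0 < m) {ω : ℂ} (hω : IsPrimitiveRoot ω m) (x : ℂ) :
    ∏ i ∈ Finset.range m, (1 - x * ω ^ i) = 1 - x ^ m := by
  have h := hω.pow_sub_pow_eq_prod_sub_mul 1 x hm
  rw [one_pow, Ai_image hm hω, Finset.prod_image] at h
  · rw [h]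
    refine Finset.prod_congr rfl (fun i _ ↦ ?_)
    ring
  · intro i hi k hk h
    exact hω.pow_inj (Finset.mem_range.mp (Finset.mem_coe.mp hi))
      (Finset.mem_range.mp (Finset.mem_coe.mp hk)) h

private theorem Ai_lg (m d b : ℕ) (hm : 0 < m) (hd : 0 < d) (hb : ¬ d ∣ b) :
    ∑ i ∈ Finset.range m, WTA.lg (m * d) (b + d * i) = WTA.lg d b := by
  have hmC : (m : ℂ) ≠ 0 := by exact_mod_cast hm.ne'
  have hdC : (d : ℂ) ≠ 0 := by exact_mod_cast hd.ne'
  have hω := Complex.isPrimitiveRoot_exp m hm.ne'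
  set ω : ℂ := Complex.exp (2 * Real.pi * Complex.I / m) with hωd
  set x : ℂ := Complex.exp (2 * Real.pi * Complex.I * b / ((m * d : ℕ) : ℂ)) with hx
  have hterm : ∀ i : ℕ, Complex.exp (2 * Real.pi * Complex.I * ((b + d * i : ℕ) : ℂ) /
      ((m * d : ℕ) : ℂ)) = x * ω ^ i := by
    intro i
    rw [hx, hωd, ← Complex.exp_nat_mul, ← Complex.exp_add]
    congr 1
    push_cast
    field_simp
  have hxm : x ^ m = Complex.exp (2 * Real.pi * Complex.I * b / d) := by
    rw [hx, ← Complex.exp_nat_mul]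
    congr 1
    push_cast
    field_simp
  have hne : x ^ m ≠ 1 := by
    rw [hxm]
    intro h
    rw [Complex.exp_eq_one_iff] at h
    obtain ⟨n, hn⟩ := h
    have hpi : (2 * Real.pi * Complex.I : ℂ) ≠ 0 := Complex.two_pi_I_ne_zero
    have h1 : (b : ℂ) = n * d := by
      have h2 : (2 * Real.pi * Complex.I : ℂ) * b = (2 * Real.pi * Complex.I : ℂ) * (n * d) := by
        field_simp at hn
        linear_combination (2 * Real.pi * Complex.I) * hn
      exact mul_left_cancel₀ hpi h2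
    have h3 : (b : ℤ) = n * d := by exact_mod_cast h1
    apply hb
    have : (d : ℤ) ∣ (b : ℤ) := ⟨n, by rw [h3]; ring⟩
    exact_mod_cast this
  have hprod := Ai_prod hm hω x
  unfold WTA.lg
  rw [← hxm, ← hprod, norm_prod, Real.log_prod]
  · refine Finset.sum_congr rfl (fun i _ ↦ ?_)
    rw [hterm i]
  · intro i hi h0
    have h1 : 1 - x * ω ^ i = 0 := norm_eq_zero.mp h0
    have h2 : (1 : ℂ) - x ^ m = 0 := by
      rw [← hprod]
      exact Finset.prod_eq_zero hi h1
    exact hne (sub_eq_zero.mp h2).symm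


private theorem Ai_ch {N₀ N : ℕ} [NeZero N₀] [NeZero N] (h : N₀ ∣ N) (hr : ∀ q : ℕ, q.Prime → q ∣ N → q ∣ N₀)
    (χ : DirichletCharacter ℂ N₀) (k : ℕ) :
    (DirichletCharacter.changeLevel h χ : DirichletCharacter ℂ N) (k : ZMod N) = χ (k : ZMod N₀) := by
  by_cases hk : Nat.Coprime k N
  · have h2 := DirichletCharacter.changeLevel_eq_cast_of_dvd χ h (ZMod.unitOfCoprime k hk)
    rw [ZMod.coe_unitOfCoprime, ZMod.cast_natCast h] at h2
    exact h2
  · have h1 : ¬ IsUnit (k : ZMod N) := by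
      rw [ZMod.isUnit_iff_coprime]
      exact hk
    have h2 : ¬ IsUnit (k : ZMod N₀) := by
      rw [ZMod.isUnit_iff_coprime]
      intro hc
      apply hk
      refine Nat.Coprime.symm ?_
      refine Nat.coprime_of_dvd ?_
      intro q hq hqN hqk
      have h3 : q ∣ N₀ := hr q hq hqN
      have h4 : q ∣ Nat.gcd k N₀ := Nat.dvd_gcd hqk h3
      rw [hc] at h4
      exact hq.one_lt.ne' (Nat.dvd_one.mp h4)
    rw [MulChar.map_nonunit _ h1, MulChar.map_nonunit _ h2]

theorem ls_level {N₀ N : ℕ} [NeZero N₀] [NeZero N] (h : N₀ ∣ N) (hr : ∀ q : ℕ, q.Prime → q ∣ N → q ∣ N₀)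
    (χ : DirichletCharacter ℂ N₀) : WTA.LS (DirichletCharacter.changeLevel h χ) = WTA.LS χ := by
  have hN₀ : 0 < N₀ := Nat.pos_of_ne_zero (NeZero.ne N₀)
  have hN : 0 < N := Nat.pos_of_ne_zero (NeZero.ne N)
  rw [Ai_LS, Ai_LS]
  obtain ⟨m, hm⟩ := h
  have hf : N = m * N₀ := by rw [hm, mul_comm]
  have hm0 : 0 < m := by
    rcases Nat.eq_zero_or_pos m with h0 | h0
    · rw [h0, zero_mul] at hf
      omega
    · exact h0
  by_cases h1 : N₀ = 1
  · have hN1 : N = 1 := by
      by_contra hne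
      obtain ⟨q, hq, hqN⟩ := Nat.exists_prime_and_dvd hne
      have h2 := hr q hq hqN
      rw [h1] at h2
      exact hq.one_lt.ne' (Nat.dvd_one.mp h2)
    rw [Finset.sum_congr rfl (fun k _ ↦ by rw [Ai_ch ⟨m, hm⟩ hr χ k])]
    have hm1 : m = 1 := by
      rw [hN1, h1] at hf
      omega
    have e : N = N₀ := by rw [hN1, h1]
    have : ∀ k : ℕ, WTA.lg N k = WTA.lg N₀ k := fun k ↦ by rw [e]
    rw [e]
  have h1' : ∑ k ∈ Finset.range N,
      (DirichletCharacter.changeLevel ⟨m, hm⟩ χ : DirichletCharacter ℂ N) (k : ZMod N) * (WTA.lg N k : ℂ) =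
      ∑ k ∈ Finset.range (m * N₀), χ (k : ZMod N₀) * (WTA.lg (m * N₀) k : ℂ) := by
    rw [← hf]
    exact Finset.sum_congr rfl (fun k _ ↦ by rw [Ai_ch ⟨m, hm⟩ hr χ k])
  rw [h1', Ai_range]
  refine Finset.sum_congr rfl (fun b _ ↦ ?_)
  by_cases hb : Nat.Coprime b N₀
  · have hnd : ¬ N₀ ∣ b := by
      intro h
      have h3 : N₀ ∣ Nat.gcd b N₀ := Nat.dvd_gcd h (dvd_refl _)
      rw [hb] at h3
      exact h1 (Nat.dvd_one.mp h3)
    rw [← Ai_lg m N₀ b hm0 hN₀ hnd]
    push_cast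
    rw [Finset.mul_sum]
    refine Finset.sum_congr rfl (fun i _ ↦ ?_)
    congr 2
    have h0 : (N₀ : ZMod N₀) = 0 := ZMod.natCast_self N₀
    rw [h0]
    ring
  · have h2 : ∀ c : ℕ, ¬ IsUnit ((b + N₀ * c : ℕ) : ZMod N₀) := by
      intro c
      rw [ZMod.isUnit_iff_coprime]
      intro h
      apply hb
      simpa using h
    have h5 : χ (b : ZMod N₀) = 0 := by
      have := MulChar.map_nonunit χ (h2 0)
      simpa using this
    rw [h5, zero_mul]
    refine Finset.sum_eq_zero (fun i _ ↦ ?_)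
    rw [MulChar.map_nonunit χ (h2 i), zero_mul]

private theorem Ai_LF {N c : ℕ} [NeZero N] [NeZero c] (χ : DirichletCharacter ℂ N) (ψ : DirichletCharacter ℂ c)
    (hc : χ.conductor = c) (hd : c ∣ N) (hχ : χ = DirichletCharacter.changeLevel hd ψ) :
    LF1 χ = ψ.LFunction 1 := by
  subst hc
  have h1 : χ.primitiveCharacter = ψ := by
    apply DirichletCharacter.changeLevel_injective hd
    rw [← hχ]
    exact χ.changeLevel_primitiveCharacter
  unfold LF1
  rw [← h1]

theorem lf_prim {N₀ N : ℕ} [NeZero N₀] [NeZero N] (h : N₀ ∣ N) (χ₀ : DirichletCharacter ℂ N₀) (hp : χ₀.IsPrimitive)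
    (he : χ₀.Even) (h1 : χ₀ ≠ 1) :
    ‖LF1 (DirichletCharacter.changeLevel h χ₀)‖ * Real.sqrt N₀ = ‖WTA.LS χ₀‖ := by
  have hc : (DirichletCharacter.changeLevel h χ₀ : DirichletCharacter ℂ N).conductor = N₀ := by
    rw [DirichletCharacter.conductor_changeLevel]
    exact hp
  rw [Ai_LF (DirichletCharacter.changeLevel h χ₀) χ₀ hc h rfl]
  exact WTA.plo hp h1 he

theorem lf_eq {N : ℕ} [NeZero N] (χ : DirichletCharacter ℂ N) (he : χ.Even) (h1 : χ ≠ 1)
    (hr : ∀ q : ℕ, q.Prime → q ∣ N → q ∣ χ.conductor) :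
    ‖LF1 χ‖ * Real.sqrt χ.conductor = ‖WTA.LS χ‖ := by
  obtain ⟨c, hc, ψ, hχ, hψ, hcond⟩ : ∃ c, ∃ h : c ∣ N, ∃ ψ : DirichletCharacter ℂ c,
      χ = DirichletCharacter.changeLevel h ψ ∧ ψ.IsPrimitive ∧ χ.conductor = c :=
    ⟨χ.conductor, χ.conductor_dvd_level, χ.primitiveCharacter,
      χ.changeLevel_primitiveCharacter.symm, χ.primitiveCharacter_isPrimitive, rfl⟩
  have : NeZero c := ⟨by rw [← hcond]; exact χ.conductor_ne_zero⟩
  have hψ1 : ψ ≠ 1 := by
    intro h
    rw [h, DirichletCharacter.changeLevel_one] at hχ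
    exact h1 hχ
  have hψe : ψ.Even := by
    unfold DirichletCharacter.Even at he ⊢
    have h3 := DirichletCharacter.changeLevel_eq_cast_of_dvd ψ hc (-1 : (ZMod N)ˣ)
    rw [← hχ] at h3
    rw [Units.val_neg, Units.val_one, he, ZMod.cast_neg hc, ZMod.cast_one hc] at h3
    exact h3.symm
  rw [hcond] at hr ⊢
  have h4 := lf_prim hc ψ hψ hψe hψ1
  rw [← ls_level hc hr ψ, ← hχ] at h4
  exact h4

end H11R
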