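import Mathlib

/-!
ROW Aj (the infinite places of a totally real Galois field; about 70 lines).

PROOF. For `g : M ≃ₐ[ℚ] M` let `w g = InfinitePlace.mk ((Complex.ofRealHom.comp φ).comp g)`; `w g x = ‖(φ (g x) : ℂ)‖ = |φ (g x)|` (`InfinitePlace.mk` / `InfinitePlace.coe_apply`, `Complex.norm_real`).
Injective: `InfinitePlace.mk_eq_iff`: `mk ψ = mk ψ'` iff `ψ = ψ'` or `conj ψ = ψ'`, and the embeddings considered are real, so in both cases `φ (g x) = φ (g' x)` for all `x`, `g = g'` (`φ` injective).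
Surjective: `M/ℚ` is Galois, so every complex embedding is `φ ∘ g` for some `g`: `InfinitePlace.ComplexEmbedding.exists_comp_symm_eq_of_comp_eq` as in `H86CN.Plc_V_surj` (Pool/Agent/H86/CN/Plc.lean).
-/

set_option autoImplicit false

open NumberField

namespace H11R

theorem places_real (M : Type) [Field M] [NumberField M] [IsGalois ℚ M] (φ : M →+* ℝ) :
    ∃ e : (M ≃ₐ[ℚ] M) ≃ InfinitePlace M, ∀ (g : M ≃ₐ[ℚ] M) (x : M), e g x = |φ (g x)| := by
  let ψ : M →+* ℂ := Complex.ofRealHom.comp φ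
  let w : (M ≃ₐ[ℚ] M) → InfinitePlace M := fun g =>
    InfinitePlace.mk (ψ.comp (g : M ≃ₐ[ℚ] M).toRingEquiv.toRingHom)
  have hval : ∀ (g : M ≃ₐ[ℚ] M) (x : M),
      (ψ.comp (g : M ≃ₐ[ℚ] M).toRingEquiv.toRingHom) x = ((φ (g x) : ℝ) : ℂ) :=
    fun g x => rfl
  have hw : ∀ (g : M ≃ₐ[ℚ] M) (x : M), w g x = |φ (g x)| := by
    intro g x
    change ‖(ψ.comp (g : M ≃ₐ[ℚ] M).toRingEquiv.toRingHom) x‖ = |φ (g x)|
    rw [hval, Complex.norm_real, Real.norm_eq_abs]
  have hinj : Function.Injective w := by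
    intro a b hab
    have key : ∀ x, φ (a x) = φ (b x) := by
      intro x
      rcases InfinitePlace.mk_eq_iff.1 hab with h | h
      · have h1 := RingHom.congr_fun h x
        rw [hval, hval] at h1
        exact_mod_cast h1
      · have h1 := RingHom.congr_fun h x
        rw [ComplexEmbedding.conjugate_coe_eq, hval, hval, Complex.conj_ofReal] at h1
        exact_mod_cast h1
    ext x
    exact φ.injective (key x)
  have hsurj : Function.Surjective w := by
    intro v
    obtain ⟨σ, hσ⟩ := InfinitePlace.ComplexEmbedding.exists_comp_symm_eq_of_comp_eq (k := ℚ) ψ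
      v.embedding (Subsingleton.elim _ _)
    refine ⟨σ.symm, ?_⟩
    have : ψ.comp (σ.symm).toRingEquiv.toRingHom = v.embedding := hσ
    change InfinitePlace.mk (ψ.comp (σ.symm).toRingEquiv.toRingHom) = v
    rw [this, InfinitePlace.mk_embedding]
  exact ⟨Equiv.ofBijective w ⟨hinj, hsurj⟩, fun g x => hw g x⟩

end H11R
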