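import Pool.Agent.H11.T3R.Aj
import Pool.Agent.H86.CN.GrD

/-!
ROW Ak (the regulator of the conjugates of an element; about 100 lines).

`M` totally real, `M/ℚ` abelian Galois, `t ≠ 0` an element such that all `g t / t` are units `ξ g` (`g t = ξ g * t`). The regulator of the family of the `ξ g`, `g ≠ 1`, is `∏_{ψ ≠ 1} |∑_g ψ(g) log |φ(g t)||`.

PROOF. Adapt `H86CN.reg` (Pool/Agent/H86/CN/Reg.lean) with `G = M ≃ₐ[ℚ] M` (a local `CommGroup` instance from `hcomm`: `{ (inferInstance : Group (M ≃ₐ[ℚ] M)) with mul_comm := hcomm }`) instead of `Qf f`, `g(u) = Real.log |φ (u t)|`, the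
places `e` of `places_real`: for `u, b ∈ G`: `b (ξ u) = b (u t) / b t`, so `Real.log (e b (ξ u)) = g (b * u) - g b` (`φ` injective, nothing is `0`). `mult = 1` since `M` is totally real. `grD` gives the determinant
(the sum `∑ x, ψ x * g x` there is the one of the statement). Watch the two group structures: `grD` is used for the `CommGroup` instance whose `Group` is the given one, so the characters `G →* ℂˣ` are the same.
-/

set_option autoImplicit false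

open NumberField

namespace H11R

open Classical in
private theorem Ak_reg {G : Type} [CommGroup G] [Fintype G] [Fintype (G →* ℂˣ)] (g : G → ℝ)
    (F : Type) [Field F] [NumberField F] [IsTotallyReal F] (e : G ≃ InfinitePlace F)
    (ξ : G → (𝓞 F)ˣ)
    (hlog : ∀ u b : G, Real.log (e b ((ξ u : 𝓞 F) : F)) = g (b * u) - g b) :
    ∃ fam : Fin (Units.rank F) → (𝓞 F)ˣ, (∀ i, ∃ u, fam i = ξ u) ∧
      (∀ u : G, u ≠ 1 → ∃ i, fam i = ξ u) ∧
      Units.regOfFamily fam =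
        ∏ ψ ∈ Finset.univ.filter (fun ψ : G →* ℂˣ => ψ ≠ 1),
          ‖∑ q, ((ψ q : ℂˣ) : ℂ) * (g q : ℂ)‖ := by
  have hcard : Fintype.card {w : InfinitePlace F // w ≠ e 1} = Units.rank F := by
    rw [Fintype.card_subtype_compl, Fintype.card_subtype_eq]
    rfl
  obtain ⟨E⟩ : Nonempty ({w : InfinitePlace F // w ≠ e 1} ≃ Fin (Units.rank F)) :=
    ⟨Fintype.equivFinOfCardEq hcard⟩
  have hm : ∀ w : InfinitePlace F, w.mult = 1 := fun w =>
    InfinitePlace.mult_isReal ⟨w, IsTotallyReal.isReal w⟩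
  have hent : ∀ q q' : G, ((e q').mult : ℝ) * Real.log (e q' ((ξ q : 𝓞 F) : F)) =
      g (q' * q) - g q' := by
    intro q q'
    rw [hm, Nat.cast_one, one_mul]
    exact hlog q q'
  obtain ⟨fam, hfam⟩ : ∃ fam : Fin (Units.rank F) → (𝓞 F)ˣ,
      ∀ i, fam i = ξ (e.symm (E.symm i).val) :=
    ⟨fun i => ξ (e.symm (E.symm i).val), fun i => rfl⟩
  refine ⟨fam, fun i => ⟨_, hfam i⟩, ?_, ?_⟩
  · intro u hu
    have h1 : e u ≠ e 1 := fun h => hu (e.injective h)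
    refine ⟨E ⟨e u, h1⟩, ?_⟩
    rw [hfam, Equiv.symm_apply_apply, Equiv.symm_apply_apply]
  · obtain ⟨ε, hε⟩ : ∃ ε : {q : G // q ≠ 1} ≃ {w : InfinitePlace F // w ≠ e 1},
        ∀ q, (ε q).val = e q.val :=
      ⟨e.subtypeEquiv fun q => by rw [ne_eq, ne_eq, e.injective.eq_iff], fun q => rfl⟩
    have h1 := Units.regOfFamily_eq_det fam (e 1) E
    obtain ⟨MM, hMM⟩ : ∃ MM : Matrix {w : InfinitePlace F // w ≠ e 1}
        {w : InfinitePlace F // w ≠ e 1} ℝ,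
      MM = Matrix.of (fun i w : {w : InfinitePlace F // w ≠ e 1} =>
        (w.val.mult : ℝ) * Real.log (w.val (fam (E i) : F))) := ⟨_, rfl⟩
    rw [← hMM] at h1
    have h2 : MM.submatrix ε ε =
        Matrix.of (fun (u b : {x : G // x ≠ 1}) => g ((b : G) * u) - g b) := by
      ext u b
      rw [hMM, Matrix.submatrix_apply, Matrix.of_apply, Matrix.of_apply, hfam,
        Equiv.symm_apply_apply, hε, hε, Equiv.symm_apply_apply]
      exact hent u.val b.val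
    obtain ⟨N, hN⟩ : ∃ N : Matrix {x : G // x ≠ 1} {x : G // x ≠ 1} ℝ,
      N = Matrix.of (fun (u b : {x : G // x ≠ 1}) => g ((b : G) * u) - g b) := ⟨_, rfl⟩
    have h3 := Matrix.det_submatrix_equiv_self ε MM
    have h4 := H86CN.grD g
    rw [h2, ← hN] at h3
    rw [← hN] at h4
    rw [h1, ← h3, ← h4]

open Classical in
theorem reg_conj (M : Type) [Field M] [NumberField M] [IsTotallyReal M] [IsGalois ℚ M]
    (hcomm : ∀ g h : M ≃ₐ[ℚ] M, g * h = h * g) (φ : M →+* ℝ) (t : M) (ht : t ≠ 0) (ξ : (M ≃ₐ[ℚ] M) → (𝓞 M)ˣ)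
    (hξ : ∀ g : M ≃ₐ[ℚ] M, g t = ((ξ g : 𝓞 M) : M) * t) [Fintype ((M ≃ₐ[ℚ] M) →* ℂˣ)] :
    ∃ fam : Fin (Units.rank M) → (𝓞 M)ˣ, (∀ i, ∃ u, fam i = ξ u) ∧ (∀ u, u ≠ 1 → ∃ i, fam i = ξ u) ∧
      Units.regOfFamily fam =
        ∏ ψ ∈ Finset.univ.filter (fun ψ : (M ≃ₐ[ℚ] M) →* ℂˣ => ψ ≠ 1),
          ‖∑ g, ((ψ g : ℂˣ) : ℂ) * (Real.log |φ (g t)| : ℂ)‖ := by
  let _ : CommGroup (M ≃ₐ[ℚ] M) :=
    { (inferInstance : Group (M ≃ₐ[ℚ] M)) with mul_comm := hcomm }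
  obtain ⟨e, he⟩ := places_real M φ
  refine Ak_reg (G := M ≃ₐ[ℚ] M) (fun g => Real.log |φ (g t)|) M e ξ ?_
  intro u b
  have hφ : ∀ g : M ≃ₐ[ℚ] M, φ (g t) ≠ 0 := fun g => by
    rw [Ne, map_eq_zero, map_eq_zero_iff g g.injective]
    exact ht
  have h1 : b (u t) = b ((ξ u : 𝓞 M) : M) * b t := by
    rw [hξ u, map_mul]
  have h2 : (b * u) t = b (u t) := rfl
  rw [he, h2, h1, map_mul, abs_mul, Real.log_mul]
  · ring
  · intro h
    have h3 := hφ (b * u)
    rw [h2, h1, map_mul, abs_eq_zero.1 h, zero_mul] at h3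
    exact h3 rfl
  · exact abs_ne_zero.2 (hφ b)

end H11R
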