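import Pool.Agent.H11.T3R.DfX
import Pool.Agent.H11.T3R.Ak
import Pool.Agent.H73.WT.Fab

/-!
ROW Al (the index of the group generated by the conjugates of an element; about 120 lines).

PROOF. Take `fam` from `reg_conj`, `ξ` chosen from `hu`. Claim: `XU t ht = closure (range fam) ⊔ torsion`. Then `NumberField.Units.regOfFamily_div_regulator` (see `H86CN.idx`, Pool/Agent/H86/CN/Idx.lean, for the use) gives
`index * regulator = regOfFamily fam`, and `Units.regulator_pos`.
`⊇`: `ξ u ∈ XU`: `θ = single u 1 - single 1 1` (`g = 1`: `1 t = t`); torsion: `WTA.fab_torsion` (order two) so a torsion unit is `± 1`: take `θ = 0`, `j = 0, 1`.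
`⊆`: let `ε = (-1)^j ∏ (g t)^θ g`, `∑ θ = 0`. Since `g t = ξ g * t`, `∏ (g t)^θ g = (∏ (ξ g)^θ g) t^(∑ θ) = ∏ (ξ g)^θ g` in `M`, so `ε = (-1)^j ∏_g (ξ g)^θ g` in the units (`RingOfIntegers` coercion injective), `ξ 1 = 1`, each `ξ g`, `g ≠ 1`,
is some `fam i`; `(-1)^j` is torsion (`neg_one_mem_torsion` or `Units.torsion` membership).
-/

set_option autoImplicit false

open NumberField

namespace H11R

private theorem Al_zpow_sum {ι M : Type} [Field M] (x : M) (hx : x ≠ 0) (θ : ι → ℤ)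
    (s : Finset ι) : ∏ g ∈ s, x ^ θ g = x ^ (∑ g ∈ s, θ g) := by
  classical
  induction s using Finset.induction_on with
  | empty => simp
  | insert a s ha ih =>
    rw [Finset.prod_insert ha, Finset.sum_insert ha, ih, zpow_add₀ hx]

private theorem Al_pm {M : Type} [Field M] [NumberField M] (v : (𝓞 M)ˣ) (h : v ^ 2 = 1) :
    ((v : 𝓞 M) : M) = 1 ∨ ((v : 𝓞 M) : M) = -1 := by
  have h1 : ((v : 𝓞 M) : M) ^ 2 = 1 := by
    have h2 := congrArg (fun x : (𝓞 M)ˣ => ((x : 𝓞 M) : M)) h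
    simpa using h2
  exact sq_eq_one_iff_of_ne_zero_or h1
where
  sq_eq_one_iff_of_ne_zero_or {x : M} (h : x ^ 2 = 1) : x = 1 ∨ x = -1 := by
    have h1 : (x - 1) * (x + 1) = 0 := by linear_combination h
    rcases mul_eq_zero.1 h1 with h2 | h2
    · exact Or.inl (sub_eq_zero.1 h2)
    · exact Or.inr (eq_neg_of_add_eq_zero_left h2)

private theorem Al_tor {M : Type} [Field M] [NumberField M] [IsTotallyReal M] (v : (𝓞 M)ˣ)
    (h : v ∈ Units.torsion M) : v ^ 2 = 1 := by
  have h1 : (⟨v, h⟩ : Units.torsion M) ^ Nat.card (Units.torsion M) = 1 := pow_card_eq_one'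
  have h2 : Nat.card (Units.torsion M) = 2 := WTA.fab_torsion M
  rw [h2] at h1
  exact congrArg Subtype.val h1

private theorem Al_negone (M : Type) [Field M] [NumberField M] :
    (-1 : (𝓞 M)ˣ) ∈ Units.torsion M := by
  rw [Units.torsion, CommGroup.mem_torsion, isOfFinOrder_iff_pow_eq_one]
  exact ⟨2, by norm_num, by rw [neg_one_sq]⟩

open Classical in
theorem index_conj (M : Type) [Field M] [NumberField M] [IsTotallyReal M] [IsGalois ℚ M]
    (hcomm : ∀ g h : M ≃ₐ[ℚ] M, g * h = h * g) (φ : M →+* ℝ) (t : 𝓞 M) (ht : t ≠ 0)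
    (hu : ∀ g : M ≃ₐ[ℚ] M, ∃ ξ : (𝓞 M)ˣ, g (t : M) = ((ξ : 𝓞 M) : M) * (t : M)) [Fintype ((M ≃ₐ[ℚ] M) →* ℂˣ)] :
    ((XU t ht).index : ℝ) * Units.regulator M =
        ∏ ψ ∈ Finset.univ.filter (fun ψ : (M ≃ₐ[ℚ] M) →* ℂˣ => ψ ≠ 1),
          ‖∑ g, ((ψ g : ℂˣ) : ℂ) * (Real.log |φ (g (t : M))| : ℂ)‖ := by
  choose ξ hξ using hu
  have ht' : (t : M) ≠ 0 := RingOfIntegers.coe_ne_zero_iff.2 ht
  obtain ⟨fam, h1, h2, h3⟩ := reg_conj M hcomm φ (t : M) ht' ξ hξ
  have hd : ∀ g : M ≃ₐ[ℚ] M, g (t : M) ≠ 0 := fun g => by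
    rw [map_ne_zero]
    exact ht'
  obtain ⟨c, hc⟩ : ∃ c : (𝓞 M)ˣ →* M, ∀ v, c v = ((v : 𝓞 M) : M) :=
    ⟨((algebraMap (𝓞 M) M : 𝓞 M →+* M) : 𝓞 M →* M).comp (Units.coeHom (𝓞 M)), fun v => rfl⟩
  have hinj : ∀ v w : (𝓞 M)ˣ, c v = c w → v = w := by
    intro v w h
    rw [hc, hc] at h
    exact Units.ext (RingOfIntegers.ext h)
  have hcn : c (-1) = -1 := by
    rw [hc]
    simp
  have hxi1 : ξ 1 = 1 := by
    apply hinj
    have e := hξ 1
    rw [← hc] at e
    rw [map_one]
    apply mul_right_cancel₀ ht'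
    rw [← e, one_mul]
    rfl
  have key : XU t ht = Subgroup.closure (Set.range fam) ⊔ Units.torsion M := by
    set T := Subgroup.closure (Set.range fam) ⊔ Units.torsion M with hT
    have hTt : Units.torsion M ≤ T := le_sup_right
    have hTf : ∀ i, fam i ∈ T := fun i =>
      (le_sup_left : Subgroup.closure (Set.range fam) ≤ T) (Subgroup.subset_closure ⟨i, rfl⟩)
    have hxT : ∀ g, ξ g ∈ T := by
      intro g
      by_cases hg : g = 1
      · rw [hg, hxi1]
        exact T.one_mem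
      · obtain ⟨i, hi⟩ := h2 g hg
        rw [← hi]
        exact hTf i
    apply le_antisymm
    · intro ε hε
      rw [mem_XU] at hε
      obtain ⟨θ, j, hθ, he⟩ := hε
      have e1 : ε = (-1) ^ j * ∏ g, ξ g ^ θ g := by
        apply hinj
        rw [map_mul, map_zpow, map_prod, hcn, hc, he]
        congr 1
        have e2 : ∀ g : M ≃ₐ[ℚ] M, (g (t : M)) ^ θ g = c (ξ g ^ θ g) * (t : M) ^ θ g := by
          intro g
          rw [hξ g, mul_zpow, map_zpow, hc]
        rw [Finset.prod_congr rfl fun g _ => e2 g, Finset.prod_mul_distrib,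
          Al_zpow_sum (t : M) ht' θ, hθ, zpow_zero, mul_one]
      rw [e1]
      exact T.mul_mem (T.zpow_mem (hTt (Al_negone M)) j)
        (T.prod_mem fun g _ => T.zpow_mem (hxT g) _)
    · rw [hT, sup_le_iff]
      constructor
      · rw [Subgroup.closure_le]
        rintro _ ⟨i, rfl⟩
        obtain ⟨u, hu⟩ := h1 i
        show fam i ∈ XU t ht
        rw [mem_XU]
        refine ⟨fun g => (if g = u then 1 else 0) - (if g = 1 then 1 else 0), 0, ?_, ?_⟩
        · rw [Finset.sum_sub_distrib]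
          simp
        · rw [zpow_zero, one_mul]
          simp only [zpow_sub₀ (hd _), Finset.prod_div_distrib]
          rw [Finset.prod_eq_single u (fun b _ hb => by rw [if_neg hb, zpow_zero])
            (fun h => absurd (Finset.mem_univ _) h),
            Finset.prod_eq_single (1 : M ≃ₐ[ℚ] M) (fun b _ hb => by rw [if_neg hb, zpow_zero])
            (fun h => absurd (Finset.mem_univ _) h), if_pos rfl, if_pos rfl, zpow_one, zpow_one,
            hu, hξ u]
          have e3 : (1 : M ≃ₐ[ℚ] M) (t : M) = (t : M) := rfl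
          rw [e3, mul_div_cancel_right₀ _ ht']
      · intro v hv
        rw [mem_XU]
        rcases Al_pm v (Al_tor v hv) with h | h
        · exact ⟨0, 0, by simp, by simp [h]⟩
        · exact ⟨0, 1, by simp, by simp [h]⟩
  rw [← h3, key, ← Units.regOfFamily_div_regulator, div_mul_cancel₀]
  exact (Units.regulator_pos M).ne'

end H11R
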