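import Pool.Agent.H11.T3R.Ac

/-!
ROW Am (characters of the Galois group of an abelian field and Dirichlet characters; about 150 lines).

`M ⊆ C`, `κ = galEquivZMod N C`, `s_u = κ.symm u`. `Φ : C → ℂ`, `φ : M → ℝ` its restriction to `M`.

PROOF. `M/ℚ` is Galois (`gal_of_sub`). Let `π : (ZMod N)ˣ →* (M ≃ₐ[ℚ] M)`, `π u = (s_u).restrictNormal M` (`AlgEquiv.restrictNormalHom`, composed with `κ.symm`): surjective (`AlgEquiv.restrictNormalHom_surjective`), kernel `HM N M C`
(`AlgEquiv.restrictNormal_commutes`: `algebraMap (π u x) = s_u (algebraMap x)`). The homomorphisms `ψ : (M ≃ₐ[ℚ] M) →* ℂˣ` correspond to the `χ ∈ XM`: `χ = MulChar.ofUnitHom (ψ.comp π)`, bijectively, `ψ = 1 ↔ χ = 1`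
(`ψ ↦ ψ.comp π` is injective as `π` is surjective; if `χ` is trivial on `HM` then `χ.toUnitHom` factors through `π`: `QuotientGroup.lift`, or `MonoidHom.liftOfSurjective`). Compare with `H86CN.qch` (Pool/Agent/H86/CN/QCh.lean).
For `χ ↔ ψ`: `∑_u χ(u) log ‖Φ (s_u (t))‖ = ∑_u ψ(π u) log |φ (π u t)| = |HM| ∑_g ψ(g) log |φ (g t)|` since every fibre of `π` has `|HM|` elements (`MonoidHom.card_fiber_eq_of_mem_range` or `Finset.sum_fiberwise`). Take norms and the product
(`Finset.prod_bij`); the number of factors is `[M:ℚ] - 1`: the number of the `ψ` is `|Gal(M/ℚ)|` (`CommGroup.card_monoidHom_of_hasEnoughRootsOfUnity` for the commutative group `M ≃ₐ[ℚ] M`; or count the `χ`: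
`MulChar.card_subgroupOrderIsoSubgroupMulChar` and `card_HM`).
-/

set_option autoImplicit false

open NumberField

namespace H11R

section

variable (N : ℕ) [NeZero N] (M C : Type) [Field M] [NumberField M] [Field C] [NumberField C] [Algebra M C]
  [IsCyclotomicExtension {N} ℚ C]

/-- the restriction homomorphism from the units modulo `N` to the Galois group of `M` -/
theorem exists_Am_pi : ∃ π : (ZMod N)ˣ →* (M ≃ₐ[ℚ] M), Function.Surjective π ∧
    (∀ (u : (ZMod N)ˣ) (x : M), algebraMap M C (π u x) =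
      (IsCyclotomicExtension.Rat.galEquivZMod N C).symm u (algebraMap M C x)) ∧ π.ker = HM N M C := by
  have : IsAbelianGalois ℚ M := gal_of_sub N M C
  have : IsAbelianGalois ℚ C := IsCyclotomicExtension.isAbelianGalois {N} ℚ C
  have hc : ∀ (u : (ZMod N)ˣ) (x : M), algebraMap M C
      (((AlgEquiv.restrictNormalHom M).comp (IsCyclotomicExtension.Rat.galEquivZMod N C).symm.toMonoidHom) u x) =
      (IsCyclotomicExtension.Rat.galEquivZMod N C).symm u (algebraMap M C x) := by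
    intro u x
    exact AlgEquiv.restrictNormal_commutes _ M x
  refine ⟨(AlgEquiv.restrictNormalHom M).comp (IsCyclotomicExtension.Rat.galEquivZMod N C).symm.toMonoidHom, ?_, hc, ?_⟩
  · intro g
    obtain ⟨s, hs⟩ := AlgEquiv.restrictNormalHom_surjective (F := ℚ) (K₁ := M) C g
    refine ⟨IsCyclotomicExtension.Rat.galEquivZMod N C s, ?_⟩
    rw [MonoidHom.comp_apply]
    have h2 : (IsCyclotomicExtension.Rat.galEquivZMod N C).symm.toMonoidHom (IsCyclotomicExtension.Rat.galEquivZMod N C s) = s :=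
      MulEquiv.symm_apply_apply _ _
    rw [h2, hs]
  · ext u
    rw [MonoidHom.mem_ker, mem_HM]
    constructor
    · intro h x
      rw [← hc u x, h]
      rfl
    · intro h
      apply AlgEquiv.ext
      intro x
      apply (algebraMap M C).injective
      rw [hc u x, h x]
      rfl

end

open Classical in
theorem Am_fib {G H : Type} [Group G] [Fintype G] [Group H] [Fintype H] (π : G →* H) (hπ : Function.Surjective π) (F : H → ℂ) :
    ∑ a : G, F (π a) = (Nat.card π.ker : ℂ) * ∑ q, F q := by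
  rw [← Finset.sum_fiberwise Finset.univ (fun a : G => π a), Finset.mul_sum]
  refine Finset.sum_congr rfl fun q _ => ?_
  rw [Finset.sum_congr rfl (g := fun _ => F q) (fun a ha => by rw [(Finset.mem_filter.1 ha).2]), Finset.sum_const, nsmul_eq_mul]
  congr 1
  have h1 := MonoidHom.card_fiber_eq_of_mem_range π (x := q) (y := 1) (hπ q) (hπ 1)
  have h3 : (Finset.univ.filter (fun a : G => π a = q)).card = Nat.card π.ker := by
    have h4 : (Finset.univ.filter (fun a : G => π a = q)).card = (Finset.univ.filter (fun a : G => π a = 1)).card := by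
      rw [← h1]
    rw [h4, Nat.card_eq_fintype_card, Fintype.card_subtype]
    congr 1
    ext a
    rw [Finset.mem_filter, Finset.mem_filter, MonoidHom.mem_ker]
  exact_mod_cast h3

open Classical in
theorem prod_XM (N : ℕ) [NeZero N] (M C : Type) [Field M] [NumberField M] [Field C] [NumberField C] [Algebra M C]
    [IsCyclotomicExtension {N} ℚ C] (Φ : C →+* ℂ) (φ : M →+* ℝ) (hφ : ∀ x : M, ((φ x : ℝ) : ℂ) = Φ (algebraMap M C x))
    (t : M) [Fintype ((M ≃ₐ[ℚ] M) →* ℂˣ)] :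
    (∏ ψ ∈ Finset.univ.filter (fun ψ : (M ≃ₐ[ℚ] M) →* ℂˣ => ψ ≠ 1),
      ‖∑ g, ((ψ g : ℂˣ) : ℂ) * (Real.log |φ (g t)| : ℂ)‖) * (Nat.card (HM N M C) : ℝ) ^ (Module.finrank ℚ M - 1) =
    ∏ χ ∈ (XM N M C).erase 1, ‖∑ u : (ZMod N)ˣ, χ (u : ZMod N) *
      (Real.log ‖Φ ((IsCyclotomicExtension.Rat.galEquivZMod N C).symm u (algebraMap M C t))‖ : ℂ)‖ := by
  obtain ⟨π, hπ, hc, hker⟩ := exists_Am_pi N M C
  have hab : IsAbelianGalois ℚ M := gal_of_sub N M C
  have hcomm : ∀ a b : M ≃ₐ[ℚ] M, a * b = b * a := fun a b => by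
    obtain ⟨u, rfl⟩ := hπ a
    obtain ⟨v, rfl⟩ := hπ b
    rw [← map_mul, mul_comm, map_mul]
  have hcard : (Finset.univ.filter (fun ψ : (M ≃ₐ[ℚ] M) →* ℂˣ => ψ ≠ 1)).card = Module.finrank ℚ M - 1 := by
    rw [Finset.filter_ne', Finset.card_erase_of_mem (Finset.mem_univ _), Finset.card_univ]
    congr 1
    let _ : CommGroup (M ≃ₐ[ℚ] M) := { (inferInstance : Group (M ≃ₐ[ℚ] M)) with mul_comm := hcomm }
    have h0 : Monoid.exponent (M ≃ₐ[ℚ] M) ≠ 0 := Monoid.exponent_ne_zero_of_finite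
    have : NeZero (Monoid.exponent (M ≃ₐ[ℚ] M)) := ⟨h0⟩
    have h1 := CommGroup.card_monoidHom_of_hasEnoughRootsOfUnity (M ≃ₐ[ℚ] M) ℂ
    rw [← IsGalois.card_aut_eq_finrank ℚ M, ← h1, Nat.card_eq_fintype_card]
  rw [← hcard, ← Finset.prod_const, ← Finset.prod_mul_distrib]
  refine Finset.prod_bij (fun ψ _ => (MulChar.ofUnitHom (ψ.comp π) : DirichletCharacter ℂ N)) ?_ ?_ ?_ ?_
  · intro ψ hψ
    rw [Finset.mem_filter] at hψ
    rw [Finset.mem_erase, mem_XM]
    refine ⟨fun h => hψ.2 ?_, fun u hu => ?_⟩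
    · ext g
      obtain ⟨u, rfl⟩ := hπ g
      have h2 := congrArg (fun χ : DirichletCharacter ℂ N => χ (u : ZMod N)) h
      simp only [MulChar.ofUnitHom_coe, MulChar.one_apply_coe, MonoidHom.comp_apply] at h2
      rw [h2]
      simp
    · rw [← hker, MonoidHom.mem_ker] at hu
      rw [MulChar.ofUnitHom_coe, MonoidHom.comp_apply, hu, map_one, Units.val_one]
  · intro ψ _ φ' _ h
    rw [MulChar.ofUnitHom_eq, MulChar.ofUnitHom_eq] at h
    exact (MonoidHom.cancel_right hπ).1 (MulChar.equivToUnitHom.symm.injective h)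
  · intro χ hχ
    rw [Finset.mem_erase, mem_XM] at hχ
    have hk : π.ker ≤ χ.toUnitHom.ker := by
      intro u hu
      rw [hker] at hu
      rw [MonoidHom.mem_ker, ← Units.val_inj, MulChar.coe_toUnitHom, Units.val_one]
      exact hχ.2 u hu
    have hcomp : (MonoidHom.liftOfSurjective π hπ ⟨χ.toUnitHom, hk⟩).comp π = χ.toUnitHom :=
      MonoidHom.liftOfRightInverse_comp π _ _ ⟨χ.toUnitHom, hk⟩
    have hχ2 : (MulChar.ofUnitHom χ.toUnitHom : DirichletCharacter ℂ N) = χ := by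
      rw [MulChar.ofUnitHom_eq, MulChar.toUnitHom_eq, Equiv.symm_apply_apply]
    refine ⟨MonoidHom.liftOfSurjective π hπ ⟨χ.toUnitHom, hk⟩, ?_, ?_⟩
    · rw [Finset.mem_filter]
      refine ⟨Finset.mem_univ _, fun h => hχ.1 ?_⟩
      rw [← hχ2, ← hcomp, h]
      ext a
      rw [MulChar.ofUnitHom_coe]
      simp
    · change (MulChar.ofUnitHom ((MonoidHom.liftOfSurjective π hπ ⟨χ.toUnitHom, hk⟩).comp π) : DirichletCharacter ℂ N) = χ
      rw [hcomp, hχ2]
  · intro ψ _
    have h := Am_fib π hπ (fun g => ((ψ g : ℂˣ) : ℂ) * (Real.log |φ (g t)| : ℂ))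
    have h2 : ∑ u : (ZMod N)ˣ, (MulChar.ofUnitHom (ψ.comp π) : DirichletCharacter ℂ N) (u : ZMod N) *
        (Real.log ‖Φ ((IsCyclotomicExtension.Rat.galEquivZMod N C).symm u (algebraMap M C t))‖ : ℂ) =
        ∑ a : (ZMod N)ˣ, ((ψ (π a) : ℂˣ) : ℂ) * (Real.log |φ (π a t)| : ℂ) := by
      refine Finset.sum_congr rfl fun u _ => ?_
      rw [MulChar.ofUnitHom_coe, MonoidHom.comp_apply, ← hc u t, ← hφ, Complex.norm_real, Real.norm_eq_abs]
    rw [h2, h, norm_mul, hker, Complex.norm_natCast, mul_comm]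

end H11R
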