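import Pool.Agent.H11.T3R.Ah
import Pool.Agent.H11.T3R.Al
import Pool.Agent.H11.T3R.Am

/-!
ROW An (class number and index, general form; about 90 lines).

PROOF. `M/ℚ` is abelian Galois (`gal_of_sub`; `hcomm` from it, `mul_comm` of `IsMulCommutative`/the structure of `IsAbelianGalois`). `φ : M → ℝ`: the composite `Φ ∘ algebraMap` is a real embedding since `M` is totally real
(`NumberField.InfinitePlace` / `ComplexEmbedding.IsReal.embedding`; `ComplexEmbedding.IsReal.coe_embedding_apply`). `[Fintype ((M ≃ₐ[ℚ] M) →* ℂˣ)]`: `Fintype.ofFinite` with `H86CN.Asm_fin` (Pool/Agent/H86/CN/Asm.lean, for a commutative group) or a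
direct argument. `index_conj`: `index * R = P`, `prod_XM`: `P * |H|^(r-1) = ∏ ‖∑_u ..‖ = ∏ κ χ * ∏ ‖LF1 χ‖ * ∏ √(conductor)` (`hκ`), `class_formula`: `2^(r-1) h R = √|d| ∏ ‖LF1 χ‖`. Multiply the first two by `√|d|`, substitute, cancel
`R > 0` (`Units.regulator_pos`).
-/

set_option autoImplicit false

open NumberField

namespace H11R

private theorem An_fin (G : Type) [Group G] [Finite G] : Finite (G →* ℂˣ) := by
  have : NeZero (Nat.card G) := ⟨Nat.card_pos.ne'⟩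
  refine Finite.of_injective (fun ψ : G →* ℂˣ => fun g : G => (⟨ψ g, by
    rw [mem_rootsOfUnity, ← map_pow, pow_card_eq_one', map_one]⟩ : rootsOfUnity (Nat.card G) ℂ)) ?_
  intro ψ ψ' h
  refine MonoidHom.ext fun g => ?_
  exact congrArg Subtype.val (congrFun h g)

open Classical in
theorem index_formula (N : ℕ) [NeZero N] (M C : Type) [Field M] [NumberField M] [Field C] [NumberField C] [Algebra M C]
    [IsCyclotomicExtension {N} ℚ C] [IsTotallyReal M] (Φ : C →+* ℂ) (t : 𝓞 M) (ht : t ≠ 0)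
    (hu : ∀ g : M ≃ₐ[ℚ] M, ∃ ξ : (𝓞 M)ˣ, g (t : M) = ((ξ : 𝓞 M) : M) * (t : M))
    (κ : DirichletCharacter ℂ N → ℝ)
    (hκ : ∀ χ ∈ (XM N M C).erase 1, ‖∑ u : (ZMod N)ˣ, χ (u : ZMod N) *
      (Real.log ‖Φ ((IsCyclotomicExtension.Rat.galEquivZMod N C).symm u (algebraMap M C (t : M)))‖ : ℂ)‖ =
        κ χ * (‖LF1 χ‖ * Real.sqrt χ.conductor)) :
    ((XU t ht).index : ℝ) * (Nat.card (HM N M C) : ℝ) ^ (Module.finrank ℚ M - 1) * Real.sqrt |(discr M : ℝ)| =
      2 ^ (Module.finrank ℚ M - 1) * (classNumber M : ℝ) * (∏ χ ∈ (XM N M C).erase 1, κ χ) *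
        ∏ χ ∈ (XM N M C).erase 1, Real.sqrt χ.conductor := by
  haveI hab : IsAbelianGalois ℚ M := gal_of_sub N M C
  haveI : IsGalois ℚ M := inferInstance
  have hcomm : ∀ g h : M ≃ₐ[ℚ] M, g * h = h * g := fun g h => mul_comm' g h
  have hreal : ComplexEmbedding.IsReal (Φ.comp (algebraMap M C)) :=
    IsTotallyReal.complexEmbedding_isReal _
  set φ : M →+* ℝ := hreal.embedding with hφd
  have hφ : ∀ x : M, ((φ x : ℝ) : ℂ) = Φ (algebraMap M C x) := by
    intro x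
    rw [hφd, ComplexEmbedding.IsReal.coe_embedding_apply]
    rfl
  haveI := An_fin (M ≃ₐ[ℚ] M)
  letI : Fintype ((M ≃ₐ[ℚ] M) →* ℂˣ) := Fintype.ofFinite _
  have h1 := index_conj M hcomm φ t ht hu
  have h2 := prod_XM N M C Φ φ hφ (t : M)
  have h3 := class_formula N M C
  have h4 : ∏ χ ∈ (XM N M C).erase 1, ‖∑ u : (ZMod N)ˣ, χ (u : ZMod N) *
      (Real.log ‖Φ ((IsCyclotomicExtension.Rat.galEquivZMod N C).symm u (algebraMap M C (t : M)))‖ : ℂ)‖ =
      (∏ χ ∈ (XM N M C).erase 1, κ χ) * ((∏ χ ∈ (XM N M C).erase 1, ‖LF1 χ‖) *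
        ∏ χ ∈ (XM N M C).erase 1, Real.sqrt χ.conductor) := by
    rw [← Finset.prod_mul_distrib, ← Finset.prod_mul_distrib]
    exact Finset.prod_congr rfl hκ
  have hR : Units.regulator M ≠ 0 := (Units.regulator_pos M).ne'
  apply mul_right_cancel₀ hR
  rw [h4] at h2
  rw [← h1] at h2
  linear_combination (Real.sqrt |(discr M : ℝ)|) * h2 -
    ((∏ χ ∈ (XM N M C).erase 1, κ χ) * ∏ χ ∈ (XM N M C).erase 1, Real.sqrt χ.conductor) * h3

end H11R
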