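import Pool.Agent.H11.T3R.DfB

/-!
ROW Ba (the Galois action on the elements `dC`, `eC`, `kC`; about 110 lines).

`s_w = (galEquivZMod (d * f) C).symm w`, `w_d`, `w_f` the images of `w` modulo `d` and `f`.

PROOF. `act_root`: for `x ^ (d f) = 1`: `s_w x = x ^ w.val` (`IsCyclotomicExtension.Rat.galEquivZMod_apply_of_pow_eq`), and for a root of unity `x` with `x ^ k = 1`, `k ∣ d f`, `x ^ w.val = x ^ (unitsMap w).val` since `w.val ≡ (unitsMap w).val mod k`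
(`ZMod.unitsMap_def`/`ZMod.castHom`, `ZMod.natCast_eq_natCast_iff'`, `pow_mod_orderOf` or `pow_eq_pow_mod`).
`act_dC`: `s_w (z ^ u.val) = z ^ (w_f.val * u.val) = z ^ (w_f * u).val` (`ZMod.val_mul`, exponent modulo `f`); `map_inv₀`.
`act_eC`: `s_w` maps `aC t u` to `aC (w_d t) (w_f u)`, so the product becomes `∏_t aC (w_d t) (w_f u) ^ ψ(t) = ∏_t aC t (w_f u) ^ ψ(w_d⁻¹ t)` (`Equiv.mulLeft`, `Finset.prod_equiv`), `ψ(w_d⁻¹ t) = ψ(w_d) ψ(t)` as `ψ(w_d) = ± 1` is its own inverse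
(`Int.units_inv_eq_self`), `zpow_mul`, `Finset.prod_zpow`. `act_kC` in the same way with `dC ξ t`.
`eC_neg`: `aC (-t) (-u) = aC t u` (`ξ ^ (-t).val z ^ (-u).val = (ξ ^ t.val z ^ u.val)⁻¹`; `(ZMod.neg_val)`), substitute `t → -t`, `ψ(-t) = ψ(t)`. `dC_neg` likewise.
-/

set_option autoImplicit false

open NumberField

namespace H11R

variable {d f : ℕ} [NeZero d] [NeZero f] {C : Type} [Field C] [NumberField C] [IsCyclotomicExtension {d * f} ℚ C] {ξ z : C}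

omit [NumberField C] [IsCyclotomicExtension {d * f} ℚ C] [NeZero d] [NeZero f] in
theorem Ba_mod {k : ℕ} (x : C) (hx : x ^ k = 1) (N : ℕ) : x ^ (N % k) = x ^ N := by
  conv_rhs => rw [← Nat.div_add_mod N k, pow_add, pow_mul, hx, one_pow, one_mul]

omit [NumberField C] [IsCyclotomicExtension {d * f} ℚ C] [NeZero d] [NeZero f] in
theorem Ba_neg {k : ℕ} [NeZero k] (x : C) (hx : x ^ k = 1) (u : ZMod k) :
    x ^ (-u).val = (x ^ u.val)⁻¹ := by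
  by_cases hu : u = 0
  · subst hu
    rw [neg_zero, ZMod.val_zero, pow_zero, inv_one]
  · rw [ZMod.neg_val, if_neg hu]
    have h2 := u.val_lt
    apply eq_inv_of_mul_eq_one_left
    rw [← pow_add, Nat.sub_add_cancel h2.le, hx]

omit [NumberField C] [IsCyclotomicExtension {d * f} ℚ C] [NeZero d] [NeZero f] in
theorem Ba_swap (x : C) : (1 - x⁻¹) * (1 - x⁻¹⁻¹) = (1 - x) * (1 - x⁻¹) := by
  rw [inv_inv, mul_comm]

theorem act_root {k : ℕ} [NeZero k] (hk : k ∣ d * f) (x : C) (hx : x ^ k = 1) (w : (ZMod (d * f))ˣ) :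
    (IsCyclotomicExtension.Rat.galEquivZMod (d * f) C).symm w x = x ^ ((ZMod.unitsMap hk w : (ZMod k)ˣ) : ZMod k).val := by
  have hx' : x ^ (d * f) = 1 := by
    obtain ⟨c, hc⟩ := hk
    rw [hc, pow_mul, hx, one_pow]
  rw [IsCyclotomicExtension.Rat.galEquivZMod_apply_of_pow_eq (d * f) C _ hx', MulEquiv.apply_symm_apply,
    ZMod.unitsMap_val, ZMod.cast_eq_val, ZMod.val_natCast, Ba_mod x hx]

theorem Ba_pow {k : ℕ} [NeZero k] (hk : k ∣ d * f) (x : C) (hx : x ^ k = 1) (w : (ZMod (d * f))ˣ)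
    (u : (ZMod k)ˣ) : (IsCyclotomicExtension.Rat.galEquivZMod (d * f) C).symm w (x ^ (u : ZMod k).val) =
      x ^ ((ZMod.unitsMap hk w * u : (ZMod k)ˣ) : ZMod k).val := by
  rw [map_pow, act_root hk x hx, ← pow_mul, Units.val_mul, ZMod.val_mul, Ba_mod x hx]

theorem Ba_dC {k : ℕ} [NeZero k] (hk : k ∣ d * f) (x : C) (hx : x ^ k = 1) (w : (ZMod (d * f))ˣ)
    (u : (ZMod k)ˣ) : (IsCyclotomicExtension.Rat.galEquivZMod (d * f) C).symm w (dC x u) =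
      dC x (ZMod.unitsMap hk w * u) := by
  unfold dC
  rw [map_mul, map_sub, map_sub, map_one, map_inv₀, Ba_pow hk x hx]

theorem Ba_aC (hξ : IsPrimitiveRoot ξ d) (hz : IsPrimitiveRoot z f) (w : (ZMod (d * f))ˣ)
    (t : (ZMod d)ˣ) (u : (ZMod f)ˣ) :
    (IsCyclotomicExtension.Rat.galEquivZMod (d * f) C).symm w (aC ξ z t u) =
      aC ξ z (ZMod.unitsMap (dvd_mul_right d f) w * t) (ZMod.unitsMap (dvd_mul_left f d) w * u) := by
  unfold aC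
  rw [map_mul, map_sub, map_sub, map_one, map_inv₀, map_mul, Ba_pow (dvd_mul_right d f) ξ hξ.pow_eq_one,
    Ba_pow (dvd_mul_left f d) z hz.pow_eq_one]

omit [NumberField C] [IsCyclotomicExtension {d * f} ℚ C] [NeZero f] in
theorem Ba_shift (ψ : (ZMod d)ˣ →* ℤˣ) (a : (ZMod d)ˣ) (F : (ZMod d)ˣ → C) :
    ∏ t : (ZMod d)ˣ, F (a * t) ^ ((ψ t : ℤˣ) : ℤ) = (∏ t : (ZMod d)ˣ, F t ^ ((ψ t : ℤˣ) : ℤ)) ^ ((ψ a : ℤˣ) : ℤ) := by
  rw [← Finset.prod_zpow, ← Equiv.prod_comp (Equiv.mulLeft a)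
    (fun t => (F t ^ ((ψ t : ℤˣ) : ℤ)) ^ ((ψ a : ℤˣ) : ℤ))]
  refine Finset.prod_congr rfl fun t _ => ?_
  simp only [Equiv.coe_mulLeft]
  rw [← zpow_mul, map_mul, ← Units.val_mul, mul_comm (ψ a) (ψ t), mul_assoc,
    Int.units_mul_self, mul_one]

theorem act_dC (hz : IsPrimitiveRoot z f) (w : (ZMod (d * f))ˣ) (u : (ZMod f)ˣ) :
    (IsCyclotomicExtension.Rat.galEquivZMod (d * f) C).symm w (dC z u) = dC z (ZMod.unitsMap (dvd_mul_left f d) w * u) := by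
  exact Ba_dC (dvd_mul_left f d) z hz.pow_eq_one w u

theorem act_dCξ (hξ : IsPrimitiveRoot ξ d) (w : (ZMod (d * f))ˣ) (t : (ZMod d)ˣ) :
    (IsCyclotomicExtension.Rat.galEquivZMod (d * f) C).symm w (dC ξ t) = dC ξ (ZMod.unitsMap (dvd_mul_right d f) w * t) := by
  exact Ba_dC (dvd_mul_right d f) ξ hξ.pow_eq_one w t

theorem act_eC (hξ : IsPrimitiveRoot ξ d) (hz : IsPrimitiveRoot z f) (ψ : (ZMod d)ˣ →* ℤˣ) (w : (ZMod (d * f))ˣ) (u : (ZMod f)ˣ) :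
    (IsCyclotomicExtension.Rat.galEquivZMod (d * f) C).symm w (eC ξ z ψ u) =
      eC ξ z ψ (ZMod.unitsMap (dvd_mul_left f d) w * u) ^ ((ψ (ZMod.unitsMap (dvd_mul_right d f) w) : ℤˣ) : ℤ) := by
  unfold eC
  rw [map_prod, ← Ba_shift ψ (ZMod.unitsMap (dvd_mul_right d f) w)
    (fun t => aC ξ z t (ZMod.unitsMap (dvd_mul_left f d) w * u))]
  refine Finset.prod_congr rfl fun t _ => ?_
  rw [map_zpow₀, Ba_aC hξ hz]

theorem act_kC (hξ : IsPrimitiveRoot ξ d) (ψ : (ZMod d)ˣ →* ℤˣ) (w : (ZMod (d * f))ˣ) :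
    (IsCyclotomicExtension.Rat.galEquivZMod (d * f) C).symm w (kC ξ ψ) =
      kC ξ ψ ^ ((ψ (ZMod.unitsMap (dvd_mul_right d f) w) : ℤˣ) : ℤ) := by
  unfold kC
  rw [map_prod, ← Ba_shift ψ (ZMod.unitsMap (dvd_mul_right d f) w) (fun t => dC ξ t)]
  refine Finset.prod_congr rfl fun t _ => ?_
  rw [map_zpow₀, act_dCξ hξ]

omit [NumberField C] [IsCyclotomicExtension {d * f} ℚ C] in
theorem dC_neg (hz : IsPrimitiveRoot z f) (u : (ZMod f)ˣ) : dC z (-u) = dC z u := by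
  unfold dC
  rw [Units.val_neg, Ba_neg z hz.pow_eq_one, Ba_swap]

omit [NumberField C] [IsCyclotomicExtension {d * f} ℚ C] in
theorem eC_neg (hξ : IsPrimitiveRoot ξ d) (hz : IsPrimitiveRoot z f) (ψ : (ZMod d)ˣ →* ℤˣ) (he : ψ (-1) = 1) (u : (ZMod f)ˣ) :
    eC ξ z ψ (-u) = eC ξ z ψ u := by
  unfold eC
  rw [← Equiv.prod_comp (Equiv.neg (ZMod d)ˣ)]
  refine Finset.prod_congr rfl fun t _ => ?_
  have h1 : ψ (-t) = ψ t := by
    rw [← neg_one_mul t, map_mul, he, one_mul]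
  rw [Equiv.neg_apply, h1]
  congr 1
  unfold aC
  rw [Units.val_neg, Units.val_neg, Ba_neg z hz.pow_eq_one, Ba_neg ξ hξ.pow_eq_one, ← mul_inv, Ba_swap]

end H11R
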