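import Pool.Agent.H11.T3R.DfB

/-!
ROW Bb (units of the cyclotomic field; about 150 lines).

PROOF. `f = p^(n+1)`, `p ∤ d`, `d > 1`.
`sum_psi`: `∑_t ψ(t) = 0` since `ψ ≠ 1` (`QH.prim` for a prime factor of `d`, `QH.d1`): choose `t₀` with `ψ(t₀) = -1`, then the sum is its own negative.
`unit_one_sub`: if `y ∈ C` has order `k` (primitive `k`-th root of unity) and `k` is not a prime power, `k > 1`, then `1 - y` is a unit of `𝓞 C`: `IsPrimitiveRoot` facts: `Polynomial.eval_one_cyclotomic_not_prime_pow`: `cyclotomic k ℤ` takes the value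
`1` at `1`, and `cyclotomic k = ∏ (X - y')` over the primitive `k`-th roots (`cyclotomic_eq_prod_X_sub_primitiveRoots`, `Polynomial.cyclotomic'`) over the domain `𝓞 C` (`hy.toInteger`), so `1 = ∏ (1 - y')` and `1 - y` divides `1`.
`unit_aC`: `ξ ^ t z ^ u` is a primitive root of order `d f` (`IsPrimitiveRoot.pow_of_coprime`, product of roots of coprime orders: `IsPrimitiveRoot.mul_of_coprime` or `orderOf_mul_eq_mul_orderOf_of_coprime`), `d f` is not a prime power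
(`p ∣ d f` and a prime factor of `d`, `≠ p`, divides `d f`); the same for the inverse. Units of `𝓞 C` form a group: `aC = unit * unit`. `unit_eC`: product of integral powers.
`unit_ratio`: for a primitive `k`-th root `y` and `u` prime to `k`: `(1 - y ^ u) = (1 - y) * unit` (`k > 1`: `IsPrimitiveRoot.geom_sum_isUnit` for `k ≥ 2`, see `H86CN.xi` in Pool/Agent/H86/CN/Xi.lean, or the associated elements in Mathlib,
`IsPrimitiveRoot.associated_sub_one_pow_sub_one_of_coprime`), and for the inverse. So `dC y u = dC y 1 * unit` for every `u` (`k > 1`).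
`unit_kC`: `kC = ∏ (dC ξ 1 * v_t) ^ ψ(t) = (dC ξ 1) ^ (∑ ψ(t)) * ∏ v_t ^ ψ(t) = unit`, as `∑ ψ = 0`, `dC ξ 1 ≠ 0`.
-/

set_option autoImplicit false

open NumberField

namespace H11R

section aux

variable {C : Type} [Field C] [NumberField C]

/-- `x` is a unit of the ring of integers -/
def Bb_U (x : C) : Prop := ∃ v : (𝓞 C)ˣ, ((v : 𝓞 C) : C) = x

theorem Bb_of {x : C} (h0 : x ≠ 0) (h : IsIntegral ℤ x) (h' : IsIntegral ℤ x⁻¹) : Bb_U x := by
  refine ⟨⟨⟨x, h⟩, ⟨x⁻¹, h'⟩, ?_, ?_⟩, rfl⟩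
  · apply RingOfIntegers.ext
    exact mul_inv_cancel₀ h0
  · apply RingOfIntegers.ext
    exact inv_mul_cancel₀ h0

theorem Bb_ne {x : C} (h : Bb_U x) : x ≠ 0 := by
  obtain ⟨v, rfl⟩ := h
  exact RingOfIntegers.coe_ne_zero_iff.2 v.ne_zero

theorem Bb_int {x : C} (h : Bb_U x) : IsIntegral ℤ x := by
  obtain ⟨v, rfl⟩ := h
  exact RingOfIntegers.isIntegral_coe _

theorem Bb_inv {x : C} (h : Bb_U x) : Bb_U x⁻¹ := by
  obtain ⟨v, rfl⟩ := h
  refine ⟨v⁻¹, ?_⟩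
  apply eq_inv_of_mul_eq_one_left
  change algebraMap (𝓞 C) C _ * algebraMap (𝓞 C) C _ = 1
  rw [← map_mul, Units.inv_mul, map_one]

theorem Bb_mul {x y : C} (h : Bb_U x) (h' : Bb_U y) : Bb_U (x * y) := by
  obtain ⟨v, rfl⟩ := h
  obtain ⟨w, rfl⟩ := h'
  refine ⟨v * w, ?_⟩
  change algebraMap (𝓞 C) C _ = algebraMap (𝓞 C) C _ * algebraMap (𝓞 C) C _
  rw [← map_mul, Units.val_mul]

theorem Bb_one : Bb_U (1 : C) := ⟨1, by
  change algebraMap (𝓞 C) C _ = 1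
  rw [Units.val_one, map_one]⟩

theorem Bb_zpow {x : C} (h : Bb_U x) (e : ℤˣ) : Bb_U (x ^ (e : ℤ)) := by
  rcases Int.units_eq_one_or e with rfl | rfl
  · rw [Units.val_one, zpow_one]
    exact h
  · rw [Units.val_neg, Units.val_one, zpow_neg, zpow_one]
    exact Bb_inv h

theorem Bb_prod {ι : Type*} (s : Finset ι) (f : ι → C) (h : ∀ i ∈ s, Bb_U (f i)) :
    Bb_U (∏ i ∈ s, f i) := by
  classical
  induction s using Finset.induction_on with
  | empty =>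
    rw [Finset.prod_empty]
    exact Bb_one
  | insert a s ha ih =>
    rw [Finset.prod_insert ha]
    exact Bb_mul (h a (Finset.mem_insert_self _ _))
      (ih fun i hi => h i (Finset.mem_insert_of_mem hi))

theorem Bb_pint {k : ℕ} (hk : 0 < k) {y : C} (hy : IsPrimitiveRoot y k) : IsIntegral ℤ y :=
  hy.isIntegral hk

theorem Bb_coe_one {k : ℕ} (hk : 1 < k) : ((1 : (ZMod k)ˣ) : ZMod k).val = 1 := by
  have : Fact (1 < k) := ⟨hk⟩
  rw [Units.val_one]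
  exact ZMod.val_one k

theorem Bb_geo {k : ℕ} (hk : 1 < k) {y : C} (hy : IsPrimitiveRoot y k) {a : ℕ}
    (ha : a.Coprime k) : ∃ v, Bb_U v ∧ 1 - y ^ a = v * (1 - y) := by
  have hk0 : NeZero k := ⟨by omega⟩
  have hy' : IsPrimitiveRoot hy.toInteger k := hy.toInteger_isPrimitiveRoot
  obtain ⟨g, hg⟩ := hy'.geom_sum_isUnit (by omega : 2 ≤ k) ha
  refine ⟨((g : 𝓞 C) : C), ⟨g, rfl⟩, ?_⟩
  have hgK : ((g : 𝓞 C) : C) = ∑ i ∈ Finset.range a, y ^ i := by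
    rw [hg]
    push_cast
    rfl
  rw [hgK]
  have := geom_sum_mul y a
  linear_combination this

end aux

theorem sum_psi {d : ℕ} [NeZero d] {ψ : (ZMod d)ˣ →* ℤˣ} (Q : QH d ψ) : ∑ t : (ZMod d)ˣ, ((ψ t : ℤˣ) : ℤ) = 0 := by
  obtain ⟨q, hq, hqd⟩ := Nat.exists_prime_and_dvd (n := d) (by have := Q.d1; omega)
  obtain ⟨u, -, hu⟩ := Q.prim q hq hqd
  refine sum_hom_units_eq_zero ((Units.coeHom ℤ).comp ψ) ?_
  intro h
  apply hu
  have h1 := DFunLike.congr_fun h u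
  apply Units.ext
  exact h1

variable {C : Type} [Field C] [NumberField C]

theorem unit_one_sub {k : ℕ} (hk : 1 < k) (hk' : ¬ IsPrimePow k) {y : C} (hy : IsPrimitiveRoot y k) :
    ∃ v : (𝓞 C)ˣ, ((v : 𝓞 C) : C) = 1 - y := by
  have hk0 : 0 < k := by omega
  have h1 : Polynomial.eval 1 (Polynomial.cyclotomic k C) = 1 := by
    apply Polynomial.eval_one_cyclotomic_not_prime_pow
    intro p hp j hj
    apply hk'
    rw [isPrimePow_nat_iff]
    refine ⟨p, j, hp, ?_, hj⟩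
    rcases Nat.eq_zero_or_pos j with h0 | h0
    · rw [h0, pow_zero] at hj
      omega
    · exact h0
  rw [Polynomial.cyclotomic_eq_prod_X_sub_primitiveRoots hy, Polynomial.eval_prod] at h1
  simp only [Polynomial.eval_sub, Polynomial.eval_X, Polynomial.eval_C] at h1
  classical
  rw [← Finset.mul_prod_erase _ _ ((mem_primitiveRoots hk0).2 hy)] at h1
  have hne : (1 : C) - y ≠ 0 := left_ne_zero_of_mul_eq_one h1
  apply Bb_of hne (isIntegral_one.sub (Bb_pint hk0 hy))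
  rw [← eq_inv_of_mul_eq_one_right h1]
  apply IsIntegral.prod
  intro μ hμ
  exact isIntegral_one.sub (Bb_pint hk0 ((mem_primitiveRoots hk0).1 (Finset.mem_erase.1 hμ).2))

theorem unit_ratio {k : ℕ} [NeZero k] (hk : 1 < k) {y : C} (hy : IsPrimitiveRoot y k) (u : (ZMod k)ˣ) :
    ∃ v : (𝓞 C)ˣ, dC y u = ((v : 𝓞 C) : C) * dC y (1 : (ZMod k)ˣ) := by
  have ha : (u : ZMod k).val.Coprime k := ZMod.val_coe_unit_coprime u
  obtain ⟨v1, h1, e1⟩ := Bb_geo hk hy ha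
  obtain ⟨v2, h2, e2⟩ := Bb_geo hk hy.inv ha
  obtain ⟨w, hw⟩ := Bb_mul h1 h2
  refine ⟨w, ?_⟩
  rw [hw]
  unfold dC
  rw [Bb_coe_one hk, pow_one, e1, ← inv_pow, e2]
  ring

theorem int_dC {k : ℕ} [NeZero k] (hk : 1 < k) {y : C} (hy : IsPrimitiveRoot y k) (u : (ZMod k)ˣ) :
    dC y u ≠ 0 ∧ ∃ x : 𝓞 C, ((x : 𝓞 C) : C) = dC y u := by
  have hk0 : 0 < k := by omega
  have ha : (u : ZMod k).val.Coprime k := ZMod.val_coe_unit_coprime u
  have h1 := hy.pow_of_coprime _ ha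
  have h2 := h1.inv
  have i1 : IsIntegral ℤ (dC y u) :=
    (isIntegral_one.sub (Bb_pint hk0 h1)).mul (isIntegral_one.sub (Bb_pint hk0 h2))
  refine ⟨?_, ⟨dC y u, i1⟩, rfl⟩
  unfold dC
  refine mul_ne_zero ?_ ?_
  · exact sub_ne_zero.2 (h1.ne_one hk).symm
  · exact sub_ne_zero.2 (h2.ne_one hk).symm

theorem unit_aC {d p n : ℕ} [NeZero d] [Fact p.Prime] (hpd : p.Coprime d) (hd : 1 < d) {ξ z : C} (hξ : IsPrimitiveRoot ξ d)
    (hz : IsPrimitiveRoot z (p ^ (n + 1))) (t : (ZMod d)ˣ) (u : (ZMod (p ^ (n + 1)))ˣ) :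
    ∃ v : (𝓞 C)ˣ, ((v : 𝓞 C) : C) = aC ξ z t u := by
  have hp : p.Prime := Fact.out
  have hf : 0 < p ^ (n + 1) := pow_pos hp.pos _
  have ht : (t : ZMod d).val.Coprime d := ZMod.val_coe_unit_coprime t
  have hu : (u : ZMod (p ^ (n + 1))).val.Coprime (p ^ (n + 1)) := ZMod.val_coe_unit_coprime u
  have h1 := hξ.pow_of_coprime _ ht
  have h2 := hz.pow_of_coprime _ hu
  have hcop : d.Coprime (p ^ (n + 1)) := (hpd.symm).pow_right _
  have h3 : IsPrimitiveRoot (ξ ^ (t : ZMod d).val * z ^ (u : ZMod (p ^ (n + 1))).val)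
      (d * p ^ (n + 1)) := by
    rw [IsPrimitiveRoot.iff_orderOf,
      (Commute.all _ _).orderOf_mul_eq_mul_orderOf_of_coprime (by
        rw [← h1.eq_orderOf, ← h2.eq_orderOf]
        exact hcop), ← h1.eq_orderOf, ← h2.eq_orderOf]
  have hk : 1 < d * p ^ (n + 1) := lt_of_lt_of_le hd (Nat.le_mul_of_pos_right d hf)
  have hk' : ¬ IsPrimePow (d * p ^ (n + 1)) := by
    intro h
    rw [isPrimePow_nat_iff] at h
    obtain ⟨r, j, hr, _, hj⟩ := h
    obtain ⟨q, hq, hqd⟩ := Nat.exists_prime_and_dvd (n := d) (by omega)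
    have e1 : p = r := by
      have h4 : p ∣ r ^ j := by
        rw [hj]
        exact dvd_mul_of_dvd_right (dvd_pow_self p (Nat.succ_ne_zero n)) d
      exact (Nat.prime_dvd_prime_iff_eq hp hr).1 (hp.dvd_of_dvd_pow h4)
    have e2 : q = r := by
      have h4 : q ∣ r ^ j := by
        rw [hj]
        exact dvd_mul_of_dvd_left hqd _
      exact (Nat.prime_dvd_prime_iff_eq hq hr).1 (hq.dvd_of_dvd_pow h4)
    rw [← e1] at e2
    rw [e2] at hqd
    exact hp.one_lt.ne' (Nat.Coprime.eq_one_of_dvd hpd hqd)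
  exact Bb_mul (unit_one_sub hk hk' h3) (unit_one_sub hk hk' h3.inv)

theorem unit_eC {d p n : ℕ} [NeZero d] [Fact p.Prime] (hpd : p.Coprime d) (hd : 1 < d) {ξ z : C} (hξ : IsPrimitiveRoot ξ d)
    (hz : IsPrimitiveRoot z (p ^ (n + 1))) (ψ : (ZMod d)ˣ →* ℤˣ) (u : (ZMod (p ^ (n + 1)))ˣ) :
    ∃ v : (𝓞 C)ˣ, ((v : 𝓞 C) : C) = eC ξ z ψ u := by
  exact Bb_prod _ _ fun t _ => Bb_zpow (unit_aC hpd hd hξ hz t u) (ψ t)

theorem unit_kC {d : ℕ} [NeZero d] {ψ : (ZMod d)ˣ →* ℤˣ} (Q : QH d ψ) {ξ : C} (hξ : IsPrimitiveRoot ξ d) :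
    ∃ v : (𝓞 C)ˣ, ((v : 𝓞 C) : C) = kC ξ ψ := by
  have hd := Q.d1
  have h0 := (int_dC hd hξ (1 : (ZMod d)ˣ)).1
  choose v hv using fun t : (ZMod d)ˣ => unit_ratio hd hξ t
  have e : kC ξ ψ = ∏ t : (ZMod d)ˣ, (((v t : 𝓞 C) : C)) ^ ((ψ t : ℤˣ) : ℤ) := by
    unfold kC
    have e1 : ∀ t : (ZMod d)ˣ, dC ξ t ^ ((ψ t : ℤˣ) : ℤ) =
        (((v t : 𝓞 C) : C)) ^ ((ψ t : ℤˣ) : ℤ) * (dC ξ (1 : (ZMod d)ˣ)) ^ ((ψ t : ℤˣ) : ℤ) := by
      intro t
      rw [hv t, mul_zpow]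
    rw [Finset.prod_congr rfl (fun t _ => e1 t), Finset.prod_mul_distrib]
    have e2 : ∀ s : Finset (ZMod d)ˣ, ∏ t ∈ s, (dC ξ (1 : (ZMod d)ˣ)) ^ ((ψ t : ℤˣ) : ℤ) =
        (dC ξ (1 : (ZMod d)ˣ)) ^ (∑ t ∈ s, ((ψ t : ℤˣ) : ℤ)) := by
      classical
      intro s
      induction s using Finset.induction_on with
      | empty => rw [Finset.prod_empty, Finset.sum_empty, zpow_zero]
      | insert a s ha ih => rw [Finset.prod_insert ha, Finset.sum_insert ha, ih, zpow_add₀ h0]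
    rw [e2, sum_psi Q, zpow_zero, mul_one]
  rw [e]
  exact Bb_prod _ _ fun t _ => Bb_zpow ⟨v t, rfl⟩ (ψ t)

end H11R
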