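import Pool.Agent.H11.T3R.Ba
import Pool.Agent.H11.T3R.Bb

/-!
ROW Bc (the element `τ` of `𝓞 B`; about 120 lines).

PROOF. (1) `tauC` is fixed by all `s_w`, `w ∈ HM (d f) B C`: `r.hH`: `w_f = ± 1`, `ψ(w_d) = 1`; `act_dC`, `dC_neg`, `act_eC`, `eC_neg`, `act_kC`. `C/B` is Galois (`IsCyclotomicExtension.isGalois`, `IsGalois.tower_top_of_isGalois ℚ B C`), every
    `g : C ≃ₐ[B] C` is `s_w` for `w = κ (g.restrictScalars ℚ) ∈ HM` (`g` fixes the image of `B`). So `tauC` is in the image of `B` (`IsGalois.mem_range_algebraMap_iff_fixed`, see `H5SW` L2/L3b for the use), `tauC = algebraMap B C t`.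
(2) `tauC` is integral: `dC z 1` is integral, `eC` and `kC` are units (`int_dC`, `unit_eC`, `unit_kC`), integral powers of units are integral; `t` is integral over `ℤ` as its image is (`isIntegral_algebraMap_iff`).
    `t ≠ 0`: `int_dC`, units.
(3) for `g ∈ Gal(B/ℚ)` choose an extension `s_w` to `C` (`AlgEquiv.restrictNormalHom_surjective`, or `AlgEquiv.liftNormal`; `B/ℚ` is normal): `algebraMap (g t) = s_w tauC`, and `s_w tauC / tauC = (dC z w_f / dC z 1)^(p^n) * unit` is a unit of `𝓞 C`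
    (`unit_ratio`). So `g t / t ∈ B` and its inverse are integral: a unit of `𝓞 B` (integrality descends by injectivity of `algebraMap B C`).
`act_tau`: the formula for `s_w tauC` from (1) for all `w`.
-/

set_option autoImplicit false

open NumberField H5SW

namespace H11R

variable {d p n : ℕ} [NeZero d] [Fact p.Prime] {ψ : (ZMod d)ˣ →* ℤˣ} {F B C : Type} [Field F] [NumberField F] [Field B]
    [NumberField B] [Field C] [NumberField C] [Algebra F B] [Algebra B C] [IsCyclotomicExtension {d * p ^ (n + 1)} ℚ C]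

omit [NumberField F] [NumberField B] [Field F] [Algebra F B] [Field B] [Algebra B C] in
theorem act_tau (hpd : p.Coprime d) {ξ z : C} (hξ : IsPrimitiveRoot ξ d) (hz : IsPrimitiveRoot z (p ^ (n + 1)))
    (w : (ZMod (d * p ^ (n + 1)))ˣ) :
    (IsCyclotomicExtension.Rat.galEquivZMod (d * p ^ (n + 1)) C).symm w (tauC (n := n) hpd ξ z ψ) =
      dC z (ZMod.unitsMap (dvd_mul_left (p ^ (n + 1)) d) w) ^ (p ^ n) *
      (eC ξ z ψ (ZMod.unitsMap (dvd_mul_left (p ^ (n + 1)) d) w) ^ (p ^ n) *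
        kC ξ ψ ^ (3 * ((ψ (ZMod.unitOfCoprime p hpd) ^ n : ℤˣ) : ℤ))) ^
        ((ψ (ZMod.unitsMap (dvd_mul_right d (p ^ (n + 1))) w) : ℤˣ) : ℤ) := by
  unfold tauC
  rw [map_mul, map_pow, map_mul, map_zpow₀, act_dC hz w 1, act_eC hξ hz ψ w 1, act_kC hξ ψ w,
    mul_one, mul_pow, mul_zpow, ← zpow_natCast (eC ξ z ψ _ ^ _) (p ^ n), ← zpow_mul,
    ← zpow_natCast (eC ξ z ψ _) (p ^ n), ← zpow_mul, ← zpow_mul, ← zpow_mul, mul_assoc]
  congr 1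
  congr 1
  · congr 1
    ring
  · congr 1
    ring

private lemma Bc_coe_mul (x y : 𝓞 C) : ((x * y : 𝓞 C) : C) = (x : C) * (y : C) :=
  map_mul (algebraMap (𝓞 C) C) x y

private lemma Bc_coe_pow (x : 𝓞 C) (k : ℕ) : ((x ^ k : 𝓞 C) : C) = (x : C) ^ k :=
  map_pow (algebraMap (𝓞 C) C) x k

private lemma Bc_coe_zpow (v : (𝓞 C)ˣ) (k : ℤ) :
    (((v ^ k : (𝓞 C)ˣ) : 𝓞 C) : C) = ((v : 𝓞 C) : C) ^ k := by
  have h1 : Units.map (algebraMap (𝓞 C) C).toMonoidHom (v ^ k) =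
      (Units.map (algebraMap (𝓞 C) C).toMonoidHom v) ^ k := map_zpow _ v k
  have h2 := congrArg (fun u : Cˣ => (u : C)) h1
  rw [Units.val_zpow_eq_zpow_val] at h2
  exact h2

private lemma Bc_coe_inv (v : (𝓞 C)ˣ) :
    (((v⁻¹ : (𝓞 C)ˣ) : 𝓞 C) : C) = (((v : 𝓞 C) : C))⁻¹ := by
  have h1 := Bc_coe_zpow v (-1)
  rw [zpow_neg_one, zpow_neg_one] at h1
  exact h1

private lemma Bc_fix (hpd : p.Coprime d) (Q : QH d ψ) (r : RB d (p ^ (n + 1)) ψ F B C)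
    (w : (ZMod (d * p ^ (n + 1)))ˣ) (hw : w ∈ HM (d * p ^ (n + 1)) B C) :
    (IsCyclotomicExtension.Rat.galEquivZMod (d * p ^ (n + 1)) C).symm w
      (tauC (n := n) hpd r.ξ r.z ψ) = tauC (n := n) hpd r.ξ r.z ψ := by
  obtain ⟨h1, h2⟩ := (r.hH w).1 hw
  have h3 : dC r.z (ZMod.unitsMap (dvd_mul_left (p ^ (n + 1)) d) w) =
      dC r.z (1 : (ZMod (p ^ (n + 1)))ˣ) := by
    rcases h1 with h1 | h1
    · rw [h1]
    · rw [h1]
      exact dC_neg r.hz 1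
  have h4 : eC r.ξ r.z ψ (ZMod.unitsMap (dvd_mul_left (p ^ (n + 1)) d) w) =
      eC r.ξ r.z ψ (1 : (ZMod (p ^ (n + 1)))ˣ) := by
    rcases h1 with h1 | h1
    · rw [h1]
    · rw [h1]
      exact eC_neg r.hξ r.hz ψ Q.even 1
  rw [act_tau hpd r.hξ r.hz w, h3, h4, h2]
  unfold tauC
  rw [Units.val_one, zpow_one, mul_pow, mul_assoc]

theorem exists_tau (hpd : p.Coprime d) (Q : QH d ψ) (r : RB d (p ^ (n + 1)) ψ F B C) :
    ∃ t : 𝓞 B, t ≠ 0 ∧ algebraMap B C (t : B) = tauC (n := n) hpd r.ξ r.z ψ ∧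
      ∀ g : B ≃ₐ[ℚ] B, ∃ η : (𝓞 B)ˣ, g (t : B) = ((η : 𝓞 B) : B) * (t : B) := by
  have hG : IsGalois ℚ C := IsCyclotomicExtension.isGalois {d * p ^ (n + 1)} ℚ C
  have hG2 : IsGalois B C := IsGalois.tower_top_of_isGalois ℚ B C
  have hfd : FiniteDimensional B C := FiniteDimensional.right ℚ B C
  have hf1 : 1 < p ^ (n + 1) := Nat.one_lt_pow (Nat.succ_ne_zero n) (Fact.out : p.Prime).one_lt
  have hinj : Function.Injective (algebraMap B C) := (algebraMap B C).injective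
  -- the element lies in B
  have hrange : tauC (n := n) hpd r.ξ r.z ψ ∈ Set.range (algebraMap B C) := by
    rw [IsGalois.mem_range_algebraMap_iff_fixed]
    intro g
    have h1 : (IsCyclotomicExtension.Rat.galEquivZMod (d * p ^ (n + 1)) C).symm
        (IsCyclotomicExtension.Rat.galEquivZMod (d * p ^ (n + 1)) C (g.restrictScalars ℚ)) =
        g.restrictScalars ℚ := MulEquiv.symm_apply_apply _ _
    have h2 := Bc_fix hpd Q r
      (IsCyclotomicExtension.Rat.galEquivZMod (d * p ^ (n + 1)) C (g.restrictScalars ℚ))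
      ((mem_HM _ _ _ _).2 fun x => by
        rw [h1]
        exact g.commutes x)
    rw [h1] at h2
    exact h2
  obtain ⟨t₀, ht₀⟩ := hrange
  obtain ⟨hd0, x₁, hx₁⟩ := int_dC hf1 r.hz (1 : (ZMod (p ^ (n + 1)))ˣ)
  obtain ⟨v₁, hv₁⟩ := unit_eC hpd Q.d1 r.hξ r.hz ψ (1 : (ZMod (p ^ (n + 1)))ˣ)
  obtain ⟨v₂, hv₂⟩ := unit_kC Q r.hξ
  have hun : ∀ v : (𝓞 C)ˣ, ((v : 𝓞 C) : C) ≠ 0 := fun v =>
    RingOfIntegers.coe_ne_zero_iff.2 v.ne_zero
  have htau : tauC (n := n) hpd r.ξ r.z ψ =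
      (((x₁ * (v₁ : 𝓞 C)) ^ (p ^ n) *
        ((v₂ ^ (3 * ((ψ (ZMod.unitOfCoprime p hpd) ^ n : ℤˣ) : ℤ)) : (𝓞 C)ˣ) : 𝓞 C) : 𝓞 C) : C) := by
    unfold tauC
    rw [Bc_coe_mul, Bc_coe_pow, Bc_coe_mul, Bc_coe_zpow, hx₁, hv₁, hv₂]
  have htne : tauC (n := n) hpd r.ξ r.z ψ ≠ 0 := by
    unfold tauC
    rw [← hv₁, ← hv₂]
    exact mul_ne_zero (pow_ne_zero _ (mul_ne_zero hd0 (hun v₁))) (zpow_ne_zero _ (hun v₂))
  have hint : IsIntegral ℤ t₀ := by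
    rw [← isIntegral_algebraMap_iff (A := B) (B := C) hinj, ht₀, htau]
    exact RingOfIntegers.isIntegral_coe _
  have ht0 : t₀ ≠ 0 := by
    rintro rfl
    rw [map_zero] at ht₀
    exact htne ht₀.symm
  refine ⟨⟨t₀, hint⟩, ?_, ht₀, ?_⟩
  · intro h
    exact ht0 (congrArg (fun x : 𝓞 B => (x : B)) h)
  · intro g
    set w := IsCyclotomicExtension.Rat.galEquivZMod (d * p ^ (n + 1)) C (g.liftNormal C) with hw
    have h1 : (IsCyclotomicExtension.Rat.galEquivZMod (d * p ^ (n + 1)) C).symm w =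
        g.liftNormal C := MulEquiv.symm_apply_apply _ _
    have h2 : algebraMap B C (g t₀) = (IsCyclotomicExtension.Rat.galEquivZMod
        (d * p ^ (n + 1)) C).symm w (tauC (n := n) hpd r.ξ r.z ψ) := by
      rw [h1, ← ht₀]
      exact (g.liftNormal_commutes C t₀).symm
    rw [act_tau hpd r.hξ r.hz w] at h2
    obtain ⟨v₃, hv₃⟩ := unit_ratio hf1 r.hz (ZMod.unitsMap (dvd_mul_left (p ^ (n + 1)) d) w)
    obtain ⟨v₄, hv₄⟩ := unit_eC hpd Q.d1 r.hξ r.hz ψ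
      (ZMod.unitsMap (dvd_mul_left (p ^ (n + 1)) d) w)
    set k := (3 * ((ψ (ZMod.unitOfCoprime p hpd) ^ n : ℤˣ) : ℤ)) with hk
    set e := ((ψ (ZMod.unitsMap (dvd_mul_right d (p ^ (n + 1))) w) : ℤˣ) : ℤ) with he
    -- the unit
    obtain ⟨U, hU⟩ : ∃ U : (𝓞 C)ˣ, algebraMap B C (g t₀) =
        ((U : 𝓞 C) : C) * algebraMap B C t₀ := by
      refine ⟨v₃ ^ (p ^ n) * (v₄ ^ (p ^ n) * v₂ ^ k) ^ e * (v₁ ^ (p ^ n) * v₂ ^ k)⁻¹, ?_⟩
      have hA : (((v₁ ^ (p ^ n) * v₂ ^ k : (𝓞 C)ˣ) : 𝓞 C) : C) =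
          eC r.ξ r.z ψ (1 : (ZMod (p ^ (n + 1)))ˣ) ^ (p ^ n) * kC r.ξ ψ ^ k := by
        rw [Units.val_mul, Bc_coe_mul, Units.val_pow_eq_pow_val, Bc_coe_pow, Bc_coe_zpow, hv₁, hv₂]
      have hB : (((v₄ ^ (p ^ n) * v₂ ^ k : (𝓞 C)ˣ) : 𝓞 C) : C) =
          eC r.ξ r.z ψ (ZMod.unitsMap (dvd_mul_left (p ^ (n + 1)) d) w) ^ (p ^ n) *
            kC r.ξ ψ ^ k := by
        rw [Units.val_mul, Bc_coe_mul, Units.val_pow_eq_pow_val, Bc_coe_pow, Bc_coe_zpow, hv₄, hv₂]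
      have hT : algebraMap B C t₀ = dC r.z (1 : (ZMod (p ^ (n + 1)))ˣ) ^ (p ^ n) *
          (((v₁ ^ (p ^ n) * v₂ ^ k : (𝓞 C)ˣ) : 𝓞 C) : C) := by
        rw [hA, ht₀]
        unfold tauC
        rw [mul_pow, mul_assoc]
      rw [hT, h2, Units.val_mul, Units.val_mul, Bc_coe_mul, Bc_coe_mul, Bc_coe_inv, Bc_coe_zpow,
        hB, Units.val_pow_eq_pow_val, Bc_coe_pow, hv₃, mul_pow]
      have h5 := hun (v₁ ^ (p ^ n) * v₂ ^ k)
      field_simp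
    have ht0C : algebraMap B C t₀ ≠ 0 := by
      rw [ht₀]
      exact htne
    have hy : algebraMap B C (g t₀ * t₀⁻¹) = ((U : 𝓞 C) : C) := by
      rw [map_mul, map_inv₀, hU, mul_assoc, mul_inv_cancel₀ ht0C, mul_one]
    have hyi : algebraMap B C (g t₀ * t₀⁻¹)⁻¹ = (((U⁻¹ : (𝓞 C)ˣ) : 𝓞 C) : C) := by
      rw [map_inv₀, hy, Bc_coe_inv]
    have i1 : IsIntegral ℤ (g t₀ * t₀⁻¹) := by
      rw [← isIntegral_algebraMap_iff (A := B) (B := C) hinj, hy]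
      exact RingOfIntegers.isIntegral_coe _
    have i2 : IsIntegral ℤ (g t₀ * t₀⁻¹)⁻¹ := by
      rw [← isIntegral_algebraMap_iff (A := B) (B := C) hinj, hyi]
      exact RingOfIntegers.isIntegral_coe _
    have hg0 : g t₀ ≠ 0 := by
      rw [Ne, map_eq_zero]
      exact ht0
    have hne : g t₀ * t₀⁻¹ ≠ 0 := mul_ne_zero hg0 (inv_ne_zero ht0)
    refine ⟨⟨⟨g t₀ * t₀⁻¹, i1⟩, ⟨(g t₀ * t₀⁻¹)⁻¹, i2⟩, ?_, ?_⟩, ?_⟩
    · apply RingOfIntegers.coe_injective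
      rw [map_mul, map_one]
      exact mul_inv_cancel₀ hne
    · apply RingOfIntegers.coe_injective
      rw [map_mul, map_one]
      exact inv_mul_cancel₀ hne
    · change g t₀ = g t₀ * t₀⁻¹ * t₀
      rw [mul_assoc, inv_mul_cancel₀ ht0, mul_one]

end H11R
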