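import Pool.Agent.H11.T3R.DfB
import Pool.Agent.H86.CN.Asm

/-!
ROW Bd (a complex embedding with `ξ ↦ e(1/d)`, `z ↦ e(1/f)`; about 70 lines).

PROOF. `ζ = ξ z` is a primitive root of order `d f` (coprime orders). Let `j = d + f`, prime to `d f`; `k` with `k j ≡ 1 mod d f`. `ζ ^ k` is a primitive root of order `d f`, so by `H86CN.emb'` there is `Φ` with `Φ (ζ ^ k) = e(1/(d f))`, hence
`Φ ζ = Φ (ζ ^ k) ^ j = e(j/(d f)) = e(1/f + 1/d)` (`ζ ^ (k j) = ζ`). Choose `a` with `a ≡ 1 mod d`, `a ≡ 0 mod f` (`Nat.chineseRemainder`): `ζ ^ a = ξ ^ a z ^ a = ξ`, so `Φ ξ = e(a (d + f)/(d f)) = e(a/f + a/d) = e(1/d)` (`f ∣ a`, `d ∣ a - 1`;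
`Complex.exp_eq_exp_iff_exists_int` or write `a = f a'`, `a = 1 + d a''`). In the same way `Φ z = e(1/f)` (or: `z = ζ ξ⁻¹`, `Φ z = e(1/f + 1/d) e(1/d)⁻¹ = e(1/f)`).
-/

set_option autoImplicit false

open NumberField

namespace H11R

theorem emb2 {d f : ℕ} [NeZero d] [NeZero f] (hdf : d.Coprime f) (C : Type) [Field C] [NumberField C]
    [IsCyclotomicExtension {d * f} ℚ C] {ξ z : C} (hξ : IsPrimitiveRoot ξ d) (hz : IsPrimitiveRoot z f) :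
    ∃ Φ : C →+* ℂ, Φ ξ = Complex.exp (2 * Real.pi * Complex.I / d) ∧ Φ z = Complex.exp (2 * Real.pi * Complex.I / f) := by
  have hne : NeZero (d * f) := ⟨Nat.mul_ne_zero (NeZero.ne d) (NeZero.ne f)⟩
  obtain ⟨x, -, hx⟩ := (hξ.pow_of_coprime f hdf.symm).eq_pow_of_pow_eq_one hξ.pow_eq_one
  obtain ⟨y, -, hy⟩ := (hz.pow_of_coprime d hdf).eq_pow_of_pow_eq_one hz.pow_eq_one
  obtain ⟨η, hη⟩ : ∃ η : C, η = ξ ^ x * z ^ y := ⟨_, rfl⟩
  have h1 : η ^ f = ξ := by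
    rw [hη, mul_pow, ← pow_mul, ← pow_mul, mul_comm x f, mul_comm y f, pow_mul, pow_mul, hx,
      hz.pow_eq_one, one_pow, mul_one]
  have h2 : η ^ d = z := by
    rw [hη, mul_pow, ← pow_mul, ← pow_mul, mul_comm x d, mul_comm y d, pow_mul, pow_mul, hy,
      hξ.pow_eq_one, one_pow, one_mul]
  have h3 : IsPrimitiveRoot η (d * f) := by
    refine ⟨?_, fun m hm => ?_⟩
    · rw [mul_comm, pow_mul, h1, hξ.pow_eq_one]
    · refine Nat.Coprime.mul_dvd_of_dvd_of_dvd hdf (hξ.dvd_of_pow_eq_one m ?_)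
        (hz.dvd_of_pow_eq_one m ?_)
      · rw [← h1, ← pow_mul, mul_comm, pow_mul, hm, one_pow]
      · rw [← h2, ← pow_mul, mul_comm, pow_mul, hm, one_pow]
  obtain ⟨Φ, hΦ⟩ := H86CN.emb' (d * f) C η h3
  have hd0 : (d : ℂ) ≠ 0 := by exact_mod_cast NeZero.ne d
  have hf0 : (f : ℂ) ≠ 0 := by exact_mod_cast NeZero.ne f
  refine ⟨Φ, ?_, ?_⟩
  · rw [← h1, map_pow, hΦ, ← Complex.exp_nat_mul]
    congr 1
    push_cast
    field_simp
  · rw [← h2, map_pow, hΦ, ← Complex.exp_nat_mul]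
    congr 1
    push_cast
    field_simp

end H11R
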