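import Pool.Agent.H11.T3R.Bc

/-!
ROW Be (absolute values of the conjugates of `τ`; about 110 lines).

PROOF. `Φ ξ = e(1/d)`, `Φ z = e(1/f)`. For a complex number `y` of absolute value one `(1 - y)(1 - y⁻¹) = (1 - y)(1 - conj y) = |1 - y|^2`. So `log ‖Φ (dC z u)‖ = 2 lg f u.val` (`WTA.lg f a = log ‖1 - e(a/f)‖`),
`log ‖Φ (dC ξ t)‖ = 2 lg d t.val`, `log ‖Φ (aC t u)‖ = 2 lp d f t.val u.val` (`Φ (ξ ^ t z ^ u) = e(t/d) e(u/f)`). `log_eC`, `log_kC`: logarithm of a product of powers (`Real.log_prod`, `Real.log_zpow`, factors not zero: `unit_aC`, `int_dC`;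
`map_prod`, `map_zpow₀`, `norm_prod`, `norm_zpow`). `log_tau`: `act_tau` and these (all factors are non zero).
-/

set_option autoImplicit false

open NumberField H5SW

namespace H11R

private theorem be_sq (y : ℂ) (hy : ‖y‖ = 1) : Real.log ‖(1 - y) * (1 - y⁻¹)‖ = 2 * Real.log ‖1 - y‖ := by
  have hy0 : y ≠ 0 := by
    intro h
    rw [h, norm_zero] at hy
    exact zero_ne_one hy
  have h1 : (1 - y⁻¹) = -((1 - y) * y⁻¹) := by
    field_simp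
    ring
  rw [h1, norm_mul, norm_neg, norm_mul, norm_inv, hy, inv_one, mul_one, ← pow_two, Real.log_pow]
  norm_num

private theorem be_norm (a b : ℕ) : ‖Complex.exp (2 * Real.pi * Complex.I * a / b)‖ = 1 := by
  have h : (2 * Real.pi * Complex.I * a / b : ℂ) = ((2 * Real.pi * a / b : ℝ) : ℂ) * Complex.I := by
    push_cast
    ring
  rw [h]
  exact Complex.norm_exp_ofReal_mul_I _

private theorem be_pow {C : Type} [Field C] {z : C} (Φ : C →+* ℂ) {f : ℕ}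
    (hΦ : Φ z = Complex.exp (2 * Real.pi * Complex.I / f)) (a : ℕ) :
    Φ (z ^ a) = Complex.exp (2 * Real.pi * Complex.I * a / f) := by
  rw [map_pow, hΦ, ← Complex.exp_nat_mul]
  congr 1
  ring

theorem log_dC {f : ℕ} [NeZero f] {C : Type} [Field C] {z : C} (Φ : C →+* ℂ)
    (hΦ : Φ z = Complex.exp (2 * Real.pi * Complex.I / f)) (u : (ZMod f)ˣ) :
    Real.log ‖Φ (dC z u)‖ = 2 * WTA.lg f (u : ZMod f).val := by
  unfold dC WTA.lg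
  rw [map_mul, map_sub, map_sub, map_inv₀, map_one, be_pow Φ hΦ, be_sq _ (be_norm _ _)]

private theorem be_aC {d f : ℕ} [NeZero d] [NeZero f] {C : Type} [Field C] {ξ z : C} (Φ : C →+* ℂ)
    (h1 : Φ ξ = Complex.exp (2 * Real.pi * Complex.I / d)) (h2 : Φ z = Complex.exp (2 * Real.pi * Complex.I / f))
    (t : (ZMod d)ˣ) (u : (ZMod f)ˣ) :
    Real.log ‖Φ (aC ξ z t u)‖ = 2 * lp d f (t : ZMod d).val (u : ZMod f).val := by
  unfold aC lp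
  rw [map_mul, map_sub, map_sub, map_inv₀, map_one, map_mul, be_pow Φ h1, be_pow Φ h2, be_sq]
  rw [norm_mul, be_norm, be_norm, mul_one]

private theorem be_prod {ι : Type} [Fintype ι] (f : ι → ℂ) (hf : ∀ i, f i ≠ 0) (e : ι → ℤ) :
    Real.log ‖∏ i, f i ^ e i‖ = ∑ i, (e i : ℝ) * Real.log ‖f i‖ := by
  rw [norm_prod, Real.log_prod]
  · refine Finset.sum_congr rfl fun i _ => ?_
    rw [norm_zpow, Real.log_zpow]
  · intro i _
    exact norm_ne_zero_iff.2 (zpow_ne_zero _ (hf i))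

theorem log_eC {d p n : ℕ} [NeZero d] [Fact p.Prime] (hpd : p.Coprime d) (hd : 1 < d) {C : Type} [Field C] [NumberField C]
    {ξ z : C}
    (hξ : IsPrimitiveRoot ξ d) (hz : IsPrimitiveRoot z (p ^ (n + 1))) (Φ : C →+* ℂ)
    (h1 : Φ ξ = Complex.exp (2 * Real.pi * Complex.I / d)) (h2 : Φ z = Complex.exp (2 * Real.pi * Complex.I / (p ^ (n + 1) : ℕ)))
    (ψ : (ZMod d)ˣ →* ℤˣ) (u : (ZMod (p ^ (n + 1)))ˣ) :
    Real.log ‖Φ (eC ξ z ψ u)‖ =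
      2 * ∑ t : (ZMod d)ˣ, (((ψ t : ℤˣ) : ℤ) : ℝ) * lp d (p ^ (n + 1)) (t : ZMod d).val (u : ZMod (p ^ (n + 1))).val := by
  unfold eC
  rw [map_prod]
  have h3 : ∀ t : (ZMod d)ˣ, Φ (aC ξ z t u) ≠ 0 := by
    intro t
    obtain ⟨v, hv⟩ := unit_aC hpd hd hξ hz t u
    rw [← hv]
    apply (map_ne_zero Φ).2
    have h4 : ((v : 𝓞 C) : C) ≠ 0 := by
      intro h5
      exact v.ne_zero (RingOfIntegers.coe_eq_zero_iff.1 h5)
    exact h4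
  have h6 : ∏ t : (ZMod d)ˣ, Φ (aC ξ z t u ^ ((ψ t : ℤˣ) : ℤ)) = ∏ t : (ZMod d)ˣ, Φ (aC ξ z t u) ^ ((ψ t : ℤˣ) : ℤ) :=
    Finset.prod_congr rfl fun t _ => map_zpow₀ Φ _ _
  rw [h6, be_prod _ h3, Finset.mul_sum]
  refine Finset.sum_congr rfl fun t _ => ?_
  rw [be_aC Φ h1 h2]
  ring

theorem log_kC {d : ℕ} [NeZero d] {ψ : (ZMod d)ˣ →* ℤˣ} (hd : 1 < d) {C : Type} [Field C] [NumberField C] {ξ : C}
    (hξ : IsPrimitiveRoot ξ d) (Φ : C →+* ℂ) (h1 : Φ ξ = Complex.exp (2 * Real.pi * Complex.I / d)) :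
    Real.log ‖Φ (kC ξ ψ)‖ = 2 * ∑ t : (ZMod d)ˣ, (((ψ t : ℤˣ) : ℤ) : ℝ) * WTA.lg d (t : ZMod d).val := by
  unfold kC
  rw [map_prod]
  have h3 : ∀ t : (ZMod d)ˣ, Φ (dC ξ t) ≠ 0 := fun t => (map_ne_zero Φ).2 (int_dC hd hξ t).1
  have h6 : ∏ t : (ZMod d)ˣ, Φ (dC ξ t ^ ((ψ t : ℤˣ) : ℤ)) = ∏ t : (ZMod d)ˣ, Φ (dC ξ t) ^ ((ψ t : ℤˣ) : ℤ) :=
    Finset.prod_congr rfl fun t _ => map_zpow₀ Φ _ _
  rw [h6, be_prod _ h3, Finset.mul_sum]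
  refine Finset.sum_congr rfl fun t _ => ?_
  rw [log_dC Φ h1]
  ring

theorem log_tau {d p n : ℕ} [NeZero d] [Fact p.Prime] (hpd : p.Coprime d) (hd : 1 < d) {C : Type} [Field C] [NumberField C]
    [IsCyclotomicExtension {d * p ^ (n + 1)} ℚ C] {ξ z : C}
    (hξ : IsPrimitiveRoot ξ d) (hz : IsPrimitiveRoot z (p ^ (n + 1))) (Φ : C →+* ℂ)
    (h1 : Φ ξ = Complex.exp (2 * Real.pi * Complex.I / d)) (h2 : Φ z = Complex.exp (2 * Real.pi * Complex.I / (p ^ (n + 1) : ℕ)))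
    {ψ : (ZMod d)ˣ →* ℤˣ} (Q : QH d ψ) (w : (ZMod (d * p ^ (n + 1)))ˣ) :
    Real.log ‖Φ ((IsCyclotomicExtension.Rat.galEquivZMod (d * p ^ (n + 1)) C).symm w (tauC (n := n) hpd ξ z ψ))‖ =
      2 * p ^ n * WTA.lg (p ^ (n + 1)) ((ZMod.unitsMap (dvd_mul_left (p ^ (n + 1)) d) w : (ZMod (p ^ (n + 1)))ˣ) : ZMod (p ^ (n + 1))).val +
      (((ψ (ZMod.unitsMap (dvd_mul_right d (p ^ (n + 1))) w) : ℤˣ) : ℤ) : ℝ) *
        (2 * p ^ n * ∑ t : (ZMod d)ˣ, (((ψ t : ℤˣ) : ℤ) : ℝ) * lp d (p ^ (n + 1)) (t : ZMod d).val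
          ((ZMod.unitsMap (dvd_mul_left (p ^ (n + 1)) d) w : (ZMod (p ^ (n + 1)))ˣ) : ZMod (p ^ (n + 1))).val +
        6 * (((ψ (ZMod.unitOfCoprime p hpd) ^ n : ℤˣ) : ℤ) : ℝ) * ∑ t : (ZMod d)ˣ, (((ψ t : ℤˣ) : ℤ) : ℝ) * WTA.lg d (t : ZMod d).val) := by
  have hp := (Fact.out : p.Prime)
  have hf : 1 < p ^ (n + 1) := Nat.one_lt_pow (Nat.succ_ne_zero n) hp.one_lt
  rw [act_tau hpd hξ hz w]
  set a := ZMod.unitsMap (dvd_mul_left (p ^ (n + 1)) d) w with ha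
  set b := ((ψ (ZMod.unitsMap (dvd_mul_right d (p ^ (n + 1))) w) : ℤˣ) : ℤ) with hb
  set e := ((ψ (ZMod.unitOfCoprime p hpd) ^ n : ℤˣ) : ℤ) with he
  have hco : ∀ v : (𝓞 C)ˣ, Φ ((v : 𝓞 C) : C) ≠ 0 := by
    intro v
    apply (map_ne_zero Φ).2
    intro h5
    exact v.ne_zero (RingOfIntegers.coe_eq_zero_iff.1 h5)
  have hD : Φ (dC z a) ≠ 0 := (map_ne_zero Φ).2 (int_dC hf hz a).1
  have hE : Φ (eC ξ z ψ a) ≠ 0 := by
    obtain ⟨v, hv⟩ := unit_eC hpd hd hξ hz ψ a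
    rw [← hv]
    exact hco v
  have hK : Φ (kC ξ ψ) ≠ 0 := by
    obtain ⟨v, hv⟩ := unit_kC Q hξ
    rw [← hv]
    exact hco v
  have hLD := log_dC Φ h2 a
  have hLE := log_eC hpd hd hξ hz Φ h1 h2 ψ a
  have hLK := log_kC (ψ := ψ) hd hξ Φ h1
  have hD' := norm_ne_zero_iff.2 hD
  have hE' := norm_ne_zero_iff.2 hE
  have hK' := norm_ne_zero_iff.2 hK
  rw [map_mul, map_pow, map_zpow₀, map_mul, map_pow, map_zpow₀, norm_mul, norm_pow, norm_zpow, norm_mul, norm_pow,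
    norm_zpow, Real.log_mul (pow_ne_zero _ hD') (zpow_ne_zero _ (mul_ne_zero (pow_ne_zero _ hE') (zpow_ne_zero _ hK'))),
    Real.log_pow, Real.log_zpow, Real.log_mul (pow_ne_zero _ hE') (zpow_ne_zero _ hK'), Real.log_pow, Real.log_zpow,
    hLD, hLE, hLK]
  push_cast
  ring

end H11R
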