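import Pool.Agent.H11.T3R.DfB

/-!
ROW Bf (the characters of `B`; about 130 lines).

PROOF. Write `w = (t, u)` for the element of `(ZMod (d f))ˣ` with `unitsMap w = t mod d`, `= u mod f` (Chinese remainder theorem, `d`, `f` coprime: `ZMod.chineseRemainder`, `Units.mapEquiv`, `MulEquiv.prodUnits`; the two reductions are jointly
injective and surjective: `crt_exists`, `crt_ext` below). Let `χ ∈ XM`. It is trivial on the `(t, u)` with `ψ(t) = 1`, `u = ± 1` (`r.hH`). Choose `t₁` with `ψ(t₁) = -1` (`QH`), `c = χ(t₁, 1)`, `c ^ 2 = χ(t₁ ^ 2, 1) = 1`. So `χ(t, 1) = 1` for all `t`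
(if `c = 1`) or `χ(t, 1) = ψ(t)` for all `t` (if `c = -1`). Put `χ_f(u) = χ(1, u)` (a homomorphism on `(ZMod f)ˣ`, so a Dirichlet character by `MulChar.ofUnitHom`), even as `(1, -1)` acts trivially.
`χ(t, u) = χ(t, 1) χ(1, u)`, so on units `χ = changeLevel χ_f` or `changeLevel χ_f * changeLevel (psiC ψ)` (`MulChar.ext`, `changeLevel_eq_cast_of_dvd`, `ZMod.unitsMap_val`/cast).
`prod_units`: the sum over `(ZMod (d f))ˣ` of `g (w_d) (w_f)` is the double sum.
-/

set_option autoImplicit false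

open NumberField H5SW

namespace H11R

theorem Bf_fst {d f : ℕ} (hdf : d.Coprime f) (x : ZMod (d * f)) :
    (ZMod.chineseRemainder hdf x).1 = ZMod.castHom (dvd_mul_right d f) (ZMod d) x := by
  have h : (RingHom.fst (ZMod d) (ZMod f)).comp (ZMod.chineseRemainder hdf).toRingHom =
      ZMod.castHom (dvd_mul_right d f) (ZMod d) := Subsingleton.elim _ _
  exact RingHom.congr_fun h x

theorem Bf_snd {d f : ℕ} (hdf : d.Coprime f) (x : ZMod (d * f)) :
    (ZMod.chineseRemainder hdf x).2 = ZMod.castHom (dvd_mul_left f d) (ZMod f) x := by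
  have h : (RingHom.snd (ZMod d) (ZMod f)).comp (ZMod.chineseRemainder hdf).toRingHom =
      ZMod.castHom (dvd_mul_left f d) (ZMod f) := Subsingleton.elim _ _
  exact RingHom.congr_fun h x

theorem crt_exists {d f : ℕ} (hdf : d.Coprime f) (t : (ZMod d)ˣ) (u : (ZMod f)ˣ) :
    ∃ w : (ZMod (d * f))ˣ, ZMod.unitsMap (dvd_mul_right d f) w = t ∧ ZMod.unitsMap (dvd_mul_left f d) w = u := by
  refine ⟨Units.map (ZMod.chineseRemainder hdf).symm.toRingHom.toMonoidHom
    (MulEquiv.prodUnits.symm (t, u)), ?_, ?_⟩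
  · apply Units.ext
    change ZMod.castHom (dvd_mul_right d f) (ZMod d)
      ((ZMod.chineseRemainder hdf).symm ((t : ZMod d), (u : ZMod f))) = (t : ZMod d)
    rw [← Bf_fst hdf, RingEquiv.apply_symm_apply]
  · apply Units.ext
    change ZMod.castHom (dvd_mul_left f d) (ZMod f)
      ((ZMod.chineseRemainder hdf).symm ((t : ZMod d), (u : ZMod f))) = (u : ZMod f)
    rw [← Bf_snd hdf, RingEquiv.apply_symm_apply]

theorem crt_ext {d f : ℕ} (hdf : d.Coprime f) {w w' : (ZMod (d * f))ˣ}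
    (h1 : ZMod.unitsMap (dvd_mul_right d f) w = ZMod.unitsMap (dvd_mul_right d f) w')
    (h2 : ZMod.unitsMap (dvd_mul_left f d) w = ZMod.unitsMap (dvd_mul_left f d) w') : w = w' := by
  apply Units.ext
  apply (ZMod.chineseRemainder hdf).injective
  apply Prod.ext
  · rw [Bf_fst, Bf_fst]
    exact congrArg (fun x : (ZMod d)ˣ => (x : ZMod d)) h1
  · rw [Bf_snd, Bf_snd]
    exact congrArg (fun x : (ZMod f)ˣ => (x : ZMod f)) h2

/-- the isomorphism of the Chinese remainder theorem -/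
noncomputable def BfE {d f : ℕ} (hdf : d.Coprime f) : (ZMod (d * f))ˣ ≃* (ZMod d)ˣ × (ZMod f)ˣ :=
  MulEquiv.ofBijective
    ((ZMod.unitsMap (dvd_mul_right d f)).prod (ZMod.unitsMap (dvd_mul_left f d)))
    ⟨fun w w' h => crt_ext hdf (congrArg Prod.fst h) (congrArg Prod.snd h), fun q => by
      obtain ⟨w, h1, h2⟩ := crt_exists hdf q.1 q.2
      exact ⟨w, Prod.ext h1 h2⟩⟩

theorem BfE_apply {d f : ℕ} (hdf : d.Coprime f) (w : (ZMod (d * f))ˣ) :
    BfE hdf w = (ZMod.unitsMap (dvd_mul_right d f) w, ZMod.unitsMap (dvd_mul_left f d) w) := rfl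

theorem BfE_symm {d f : ℕ} (hdf : d.Coprime f) (q : (ZMod d)ˣ × (ZMod f)ˣ) :
    ZMod.unitsMap (dvd_mul_right d f) ((BfE hdf).symm q) = q.1 ∧
      ZMod.unitsMap (dvd_mul_left f d) ((BfE hdf).symm q) = q.2 := by
  have h := BfE_apply hdf ((BfE hdf).symm q)
  rw [MulEquiv.apply_symm_apply] at h
  exact ⟨(congrArg Prod.fst h).symm, (congrArg Prod.snd h).symm⟩

theorem sum_crt {d f : ℕ} [NeZero d] [NeZero f] (hdf : d.Coprime f) {A : Type} [AddCommMonoid A] (g : (ZMod d)ˣ → (ZMod f)ˣ → A) :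
    ∑ w : (ZMod (d * f))ˣ, g (ZMod.unitsMap (dvd_mul_right d f) w) (ZMod.unitsMap (dvd_mul_left f d) w) =
      ∑ t : (ZMod d)ˣ, ∑ u : (ZMod f)ˣ, g t u := by
  rw [← Fintype.sum_prod_type (f := fun q : (ZMod d)ˣ × (ZMod f)ˣ => g q.1 q.2),
    ← Equiv.sum_comp (BfE hdf).toEquiv]
  rfl

theorem Bf_neg {d : ℕ} {ψ : (ZMod d)ˣ →* ℤˣ} (Q : QH d ψ) : ∃ t : (ZMod d)ˣ, ψ t = -1 := by
  obtain ⟨q, hq, hqd⟩ := Nat.exists_prime_and_dvd (Nat.ne_of_gt Q.d1)
  obtain ⟨u, -, hu⟩ := Q.prim q hq hqd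
  exact ⟨u, (Int.units_eq_one_or (ψ u)).resolve_left hu⟩

theorem XM_cases {d f : ℕ} [NeZero d] [NeZero f] (hdf : d.Coprime f) {ψ : (ZMod d)ˣ →* ℤˣ} (Q : QH d ψ) {F B C : Type} [Field F]
    [NumberField F] [Field B] [NumberField B] [Field C] [NumberField C] [Algebra F B] [Algebra B C]
    [IsCyclotomicExtension {d * f} ℚ C] (r : RB d f ψ F B C) {χ : DirichletCharacter ℂ (d * f)} (hχ : χ ∈ XM (d * f) B C) :
    ∃ χf : DirichletCharacter ℂ f, χf.Even ∧ (χ = DirichletCharacter.changeLevel (dvd_mul_left f d) χf ∨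
      χ = DirichletCharacter.changeLevel (dvd_mul_left f d) χf * DirichletCharacter.changeLevel (dvd_mul_right d f) (psiC ψ)) := by
  rw [mem_XM] at hχ
  obtain ⟨X, hX⟩ : ∃ X : (ZMod (d * f))ˣ →* ℂˣ, ∀ w : (ZMod (d * f))ˣ, ((X w : ℂˣ) : ℂ) =
      χ (w : ZMod (d * f)) := ⟨χ.toUnitHom, fun w => MulChar.coe_toUnitHom χ w⟩
  obtain ⟨a, ha⟩ : ∃ a : (ZMod d)ˣ →* ℂˣ, ∀ t, a t = X ((BfE hdf).symm (t, 1)) :=
    ⟨X.comp ((BfE hdf).symm.toMonoidHom.comp (MonoidHom.inl _ _)), fun t => rfl⟩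
  obtain ⟨b, hb⟩ : ∃ b : (ZMod f)ˣ →* ℂˣ, ∀ u, b u = X ((BfE hdf).symm (1, u)) :=
    ⟨X.comp ((BfE hdf).symm.toMonoidHom.comp (MonoidHom.inr _ _)), fun u => rfl⟩
  have hab : ∀ w : (ZMod (d * f))ˣ, X w = a (ZMod.unitsMap (dvd_mul_right d f) w) *
      b (ZMod.unitsMap (dvd_mul_left f d) w) := by
    intro w
    rw [ha, hb, ← map_mul, ← map_mul]
    congr 1
    rw [Prod.mk_mul_mk, mul_one, one_mul, ← BfE_apply hdf, MulEquiv.symm_apply_apply]
  have hker : ∀ w : (ZMod (d * f))ˣ, (ZMod.unitsMap (dvd_mul_left f d) w = 1 ∨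
      ZMod.unitsMap (dvd_mul_left f d) w = -1) → ψ (ZMod.unitsMap (dvd_mul_right d f) w) = 1 →
      X w = 1 := by
    intro w h1 h2
    apply Units.ext
    rw [hX, hχ w ((r.hH w).2 ⟨h1, h2⟩), Units.val_one]
  have hb1 : b (-1) = 1 := by
    rw [hb]
    apply hker
    · right
      exact (BfE_symm hdf _).2
    · rw [(BfE_symm hdf _).1, map_one]
  have ha1 : ∀ t, ψ t = 1 → a t = 1 := by
    intro t ht
    rw [ha]
    apply hker
    · left
      exact (BfE_symm hdf _).2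
    · rw [(BfE_symm hdf _).1, ht]
  obtain ⟨t₁, ht₁⟩ := Bf_neg Q
  have hc2 : a t₁ * a t₁ = 1 := by
    rw [← map_mul]
    apply ha1
    rw [map_mul, ht₁]
    rfl
  have ha2 : ∀ t, ψ t = -1 → a t = a t₁ := by
    intro t ht
    have h1 : a t * a t₁ = 1 := by
      rw [← map_mul]
      apply ha1
      rw [map_mul, ht, ht₁]
      rfl
    rw [← hc2] at h1
    exact mul_right_cancel h1
  have hca : a t₁ = 1 ∨ a t₁ = -1 := by
    have h1 : ((a t₁ : ℂˣ) : ℂ) * ((a t₁ : ℂˣ) : ℂ) = 1 := by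
      rw [← Units.val_mul, hc2, Units.val_one]
    rcases mul_self_eq_one_iff.1 h1 with h2 | h2
    · left
      apply Units.ext
      rw [h2, Units.val_one]
    · right
      apply Units.ext
      rw [h2, Units.val_neg, Units.val_one]
  refine ⟨MulChar.ofUnitHom b, ?_, ?_⟩
  · show MulChar.ofUnitHom b (-1) = 1
    have h1 : (-1 : ZMod f) = (((-1 : (ZMod f)ˣ)) : ZMod f) := by
      rw [Units.val_neg, Units.val_one]
    rw [h1, MulChar.ofUnitHom_coe, hb1, Units.val_one]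
  · have hlf : ∀ w : (ZMod (d * f))ˣ, DirichletCharacter.changeLevel (dvd_mul_left f d)
        (MulChar.ofUnitHom b : DirichletCharacter ℂ f) (w : ZMod (d * f)) =
        ((b (ZMod.unitsMap (dvd_mul_left f d) w) : ℂˣ) : ℂ) := by
      intro w
      rw [DirichletCharacter.changeLevel_eq_cast_of_dvd, ← ZMod.unitsMap_val (dvd_mul_left f d),
        MulChar.ofUnitHom_coe]
    have hlp : ∀ w : (ZMod (d * f))ˣ, DirichletCharacter.changeLevel (dvd_mul_right d f)
        (psiC ψ) (w : ZMod (d * f)) =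
        (((ψ (ZMod.unitsMap (dvd_mul_right d f) w) : ℤˣ) : ℤ) : ℂ) := by
      intro w
      rw [DirichletCharacter.changeLevel_eq_cast_of_dvd, ← ZMod.unitsMap_val (dvd_mul_right d f),
        psiC_apply]
    rcases hca with hc | hc
    · left
      refine MulChar.ext fun w => ?_
      rw [hlf, ← hX, hab]
      have h1 : a (ZMod.unitsMap (dvd_mul_right d f) w) = 1 := by
        rcases Int.units_eq_one_or (ψ (ZMod.unitsMap (dvd_mul_right d f) w)) with h2 | h2
        · exact ha1 _ h2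
        · rw [ha2 _ h2, hc]
      rw [h1, one_mul]
    · right
      refine MulChar.ext fun w => ?_
      rw [MulChar.mul_apply, hlf, hlp, ← hX, hab, Units.val_mul, mul_comm]
      congr 1
      rcases Int.units_eq_one_or (ψ (ZMod.unitsMap (dvd_mul_right d f) w)) with h2 | h2
      · rw [ha1 _ h2, h2]
        simp
      · rw [ha2 _ h2, hc, h2]
        simp

/-- the order of the group of `B` and its degree -/
theorem card_HM_B {d f : ℕ} [NeZero d] [NeZero f] (hdf : d.Coprime f) (hf : 2 < f) {ψ : (ZMod d)ˣ →* ℤˣ} (Q : QH d ψ) {F B C : Type} [Field F]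
    [NumberField F] [Field B] [NumberField B] [Field C] [NumberField C] [Algebra F B] [Algebra B C]
    [IsCyclotomicExtension {d * f} ℚ C] (r : RB d f ψ F B C) : Nat.card (HM (d * f) B C) = d.totient := by
  classical
  obtain ⟨t₁, ht₁⟩ := Bf_neg Q
  have : Fact (2 < f) := ⟨hf⟩
  have hne : (-1 : (ZMod f)ˣ) ≠ 1 := by
    intro h
    apply ZMod.neg_one_ne_one (n := f)
    have h1 := congrArg (fun x : (ZMod f)ˣ => (x : ZMod f)) h
    simpa using h1
  have hone : (-1 : ℤˣ) ≠ 1 := by decide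
  rw [← ZMod.card_units_eq_totient, ← Nat.card_eq_fintype_card]
  refine Nat.card_eq_of_bijective (fun w : HM (d * f) B C =>
    if ZMod.unitsMap (dvd_mul_left f d) (w : (ZMod (d * f))ˣ) = 1 then
      ZMod.unitsMap (dvd_mul_right d f) (w : (ZMod (d * f))ˣ)
    else ZMod.unitsMap (dvd_mul_right d f) (w : (ZMod (d * f))ˣ) * t₁) ⟨?_, ?_⟩
  · rintro ⟨w, hw⟩ ⟨w', hw'⟩ h
    apply Subtype.ext
    show w = w'
    obtain ⟨h1, h2⟩ := (r.hH w).1 hw
    obtain ⟨h1', h2'⟩ := (r.hH w').1 hw'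
    simp only at h
    by_cases c : ZMod.unitsMap (dvd_mul_left f d) w = 1
    · rw [if_pos c] at h
      by_cases c' : ZMod.unitsMap (dvd_mul_left f d) w' = 1
      · rw [if_pos c'] at h
        exact crt_ext hdf h (by rw [c, c'])
      · exfalso
        rw [if_neg c'] at h
        rw [h, map_mul, h2', ht₁, one_mul] at h2
        exact hone h2
    · rw [if_neg c] at h
      by_cases c' : ZMod.unitsMap (dvd_mul_left f d) w' = 1
      · exfalso
        rw [if_pos c'] at h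
        rw [← h, map_mul, h2, ht₁, one_mul] at h2'
        exact hone h2'
      · rw [if_neg c'] at h
        exact crt_ext hdf (mul_right_cancel h)
          (by rw [h1.resolve_left c, h1'.resolve_left c'])
  · intro t
    rcases Int.units_eq_one_or (ψ t) with ht | ht
    · obtain ⟨w, h1, h2⟩ := crt_exists hdf t 1
      refine ⟨⟨w, (r.hH w).2 ⟨Or.inl h2, by rw [h1, ht]⟩⟩, ?_⟩
      simp only
      rw [if_pos h2, h1]
    · obtain ⟨w, h1, h2⟩ := crt_exists hdf (t * t₁⁻¹) (-1)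
      refine ⟨⟨w, (r.hH w).2 ⟨Or.inr h2, ?_⟩⟩, ?_⟩
      · rw [h1, map_mul, map_inv, ht, ht₁]
        rfl
      · simp only
        rw [if_neg (by rw [h2]; exact hne), h1, inv_mul_cancel_right]

end H11R
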