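import Pool.Agent.H11.T3R.Bf
import Pool.Agent.H73.WT.Dre

/-!
ROW Bg (the double sums `LSP`; about 170 lines).

PROOF. `lsp_norm`: the character `θ = changeLevel χ * changeLevel (psiC ψ)` modulo `N = d f`. `WTA.LS θ = ∑_w θ(w) log |1 - e(w/N)|`. For `w ∈ (ZMod N)ˣ` let `t' = w_d f⁻¹ ∈ (ZMod d)ˣ`, `u' = w_f d⁻¹ ∈ (ZMod f)ˣ`: then
`w.val ≡ t'.val f + u'.val d mod d f`, so `e(w/N) = e(t'/d) e(u'/f)` and `lg N w.val = lp d f t'.val u'.val`. `θ(w) = ψ(w_d) χ(w_f) = ψ(f) ψ(t') χ(d) χ(u')`. `sum_crt` and the substitution `(w_d, w_f) → (t', u')` give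
`LS θ = ψ(f) χ(d) LSP ψ χ`, and `|ψ(f) χ(d)| = 1`.
`lsp_one`: `f = p^(n+1)`. `∑_{u ∈ (ZMod f)ˣ} log |1 - x e(u/f)| = log |1 - x^f| - log |1 - x^(f/p)|` for `x = e(t/d)`, `t` prime to `d`, `d > 1`, `p ∤ d` (so `x^f ≠ 1`): the sum over all `u < f` is `log |1 - x^f|`
(`∏_{u<f} (1 - x ζ^u) = 1 - x^f`, see `Dre_prod`, private in Pool/Agent/H73/WT/Dre.lean: copy), the sum over the multiples `p u'`, `u' < f/p`, is `log |1 - x^(f/p)|`. `x^f = e(t f/d)`: so `∑_u lp = lg d (t f mod d) - lg d (t f/p mod d)`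
and `∑_t ψ(t) (..) = (ψ(f) - ψ(f/p)) LS (psiC ψ)` by the substitutions `t → t f⁻¹`, `t → t (f/p)⁻¹`; `ψ(f) = ε^(n+1)`, `ψ(f/p) = ε^n`. (`lg d a` depends only on `a mod d`.)
`real_psi`: `LS (psiC ψ)` is the real number `∑ ψ(t) lg d t.val`.
-/

set_option autoImplicit false

open NumberField H5SW

namespace H11R

/-- `e(a/N)` -/
private noncomputable def Bg_e (N a : ℕ) : ℂ := Complex.exp (2 * Real.pi * Complex.I * a / N)

private theorem Bg_lg (N a : ℕ) : WTA.lg N a = Real.log ‖1 - Bg_e N a‖ := rfl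

private theorem Bg_lp (d f t u : ℕ) : lp d f t u = Real.log ‖1 - Bg_e d t * Bg_e f u‖ := rfl

private theorem Bg_e_pow (N a k : ℕ) : Bg_e N a ^ k = Bg_e N (a * k) := by
  unfold Bg_e
  rw [← Complex.exp_nat_mul]
  congr 1
  push_cast
  ring

private theorem Bg_e_add (N a b : ℕ) : Bg_e N (a + b) = Bg_e N a * Bg_e N b := by
  unfold Bg_e
  rw [← Complex.exp_add]
  congr 1
  push_cast
  ring

private theorem Bg_e_one_iff {N : ℕ} (hN : 0 < N) (a : ℕ) : Bg_e N a = 1 ↔ N ∣ a := by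
  have h := Complex.isPrimitiveRoot_exp N hN.ne'
  have h1 : Bg_e N a = Complex.exp (2 * Real.pi * Complex.I / N) ^ a := by
    unfold Bg_e
    rw [← Complex.exp_nat_mul]
    congr 1
    ring
  rw [h1]
  exact h.pow_eq_one_iff_dvd a

private theorem Bg_e_prim {N : ℕ} (hN : 0 < N) : IsPrimitiveRoot (Bg_e N 1) N := by
  have h := Complex.isPrimitiveRoot_exp N hN.ne'
  have h1 : Bg_e N 1 = Complex.exp (2 * Real.pi * Complex.I / N) := by
    unfold Bg_e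
    congr 1
    push_cast
    ring
  rw [h1]
  exact h

private theorem Bg_e_mul (N M a : ℕ) (hM : 0 < M) : Bg_e (N * M) (a * M) = Bg_e N a := by
  unfold Bg_e
  have hMC : (M : ℂ) ≠ 0 := by exact_mod_cast hM.ne'
  congr 1
  push_cast
  rw [← mul_assoc, mul_div_mul_right _ _ hMC]

private theorem Bg_e_mod {N : ℕ} (hN : 0 < N) {a b : ℕ} (h : a ≡ b [MOD N]) : Bg_e N a = Bg_e N b := by
  have h0 : Bg_e N N = 1 := (Bg_e_one_iff hN N).2 dvd_rfl
  have h1 : ∀ c : ℕ, Bg_e N c = Bg_e N (c % N) := by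
    intro c
    conv_lhs => rw [← Nat.mod_add_div c N]
    rw [Bg_e_add, ← Bg_e_pow, h0, one_pow, mul_one]
  rw [h1 a, h1 b, h]

private theorem Bg_crt {d f : ℕ} [NeZero d] [NeZero f] (hdf : d.Coprime f) (w : (ZMod (d * f))ˣ) :
    WTA.lg (d * f) (w : ZMod (d * f)).val =
      lp d f (((ZMod.unitsMap (dvd_mul_right d f) w * (ZMod.unitOfCoprime f hdf.symm)⁻¹ : (ZMod d)ˣ) : ZMod d)).val
        (((ZMod.unitsMap (dvd_mul_left f d) w * (ZMod.unitOfCoprime d hdf)⁻¹ : (ZMod f)ˣ) : ZMod f)).val := by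
  have hd : 0 < d := Nat.pos_of_ne_zero (NeZero.ne d)
  have hf : 0 < f := Nat.pos_of_ne_zero (NeZero.ne f)
  set t : (ZMod d)ˣ := ZMod.unitsMap (dvd_mul_right d f) w * (ZMod.unitOfCoprime f hdf.symm)⁻¹ with ht
  set u : (ZMod f)ˣ := ZMod.unitsMap (dvd_mul_left f d) w * (ZMod.unitOfCoprime d hdf)⁻¹ with hu
  have ht' : t * ZMod.unitOfCoprime f hdf.symm = ZMod.unitsMap (dvd_mul_right d f) w := by
    rw [ht, inv_mul_cancel_right]
  have hu' : u * ZMod.unitOfCoprime d hdf = ZMod.unitsMap (dvd_mul_left f d) w := by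
    rw [hu, inv_mul_cancel_right]
  have h1 : (w : ZMod (d * f)).val ≡ (t : ZMod d).val * f + (u : ZMod f).val * d [MOD d * f] := by
    rw [← Nat.modEq_and_modEq_iff_modEq_mul hdf]
    constructor
    · rw [← ZMod.natCast_eq_natCast_iff]
      push_cast
      rw [ZMod.natCast_self, mul_zero, add_zero, ZMod.natCast_zmod_val]
      have h2 := congrArg (fun z : (ZMod d)ˣ => (z : ZMod d)) ht'
      simp only [Units.val_mul, ZMod.coe_unitOfCoprime, ZMod.unitsMap_val] at h2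
      rw [h2, ZMod.natCast_val]
    · rw [← ZMod.natCast_eq_natCast_iff]
      push_cast
      rw [ZMod.natCast_self, mul_zero, zero_add, ZMod.natCast_zmod_val]
      have h2 := congrArg (fun z : (ZMod f)ˣ => (z : ZMod f)) hu'
      simp only [Units.val_mul, ZMod.coe_unitOfCoprime, ZMod.unitsMap_val] at h2
      rw [h2, ZMod.natCast_val]
  have h3 : Bg_e f (u : ZMod f).val = Bg_e (d * f) ((u : ZMod f).val * d) := by
    rw [mul_comm d f, Bg_e_mul f d _ hd]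
  rw [Bg_lg, Bg_lp, Bg_e_mod (Nat.mul_pos hd hf) h1, Bg_e_add, Bg_e_mul d f _ hf, h3]

private theorem Bg_int_norm (s : ℤˣ) : ‖(((s : ℤˣ) : ℤ) : ℂ)‖ = 1 := by
  rcases Int.units_eq_one_or s with h | h <;> rw [h] <;> simp

theorem lsp_norm {d f : ℕ} [NeZero d] [NeZero f] (hdf : d.Coprime f) (ψ : (ZMod d)ˣ →* ℤˣ) (χ : DirichletCharacter ℂ f) :
    ‖WTA.LS (DirichletCharacter.changeLevel (dvd_mul_left f d) χ * DirichletCharacter.changeLevel (dvd_mul_right d f) (psiC ψ))‖ =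
      ‖LSP ψ χ‖ := by
  set F := ZMod.unitOfCoprime f hdf.symm with hF
  set D := ZMod.unitOfCoprime d hdf with hD
  let G : (ZMod d)ˣ → (ZMod f)ˣ → ℂ := fun t u =>
    χ (u : ZMod f) * (((ψ t : ℤˣ) : ℤ) : ℂ) *
      (lp d f ((t * F⁻¹ : (ZMod d)ˣ) : ZMod d).val ((u * D⁻¹ : (ZMod f)ˣ) : ZMod f).val : ℂ)
  have h1 : WTA.LS (DirichletCharacter.changeLevel (dvd_mul_left f d) χ * DirichletCharacter.changeLevel (dvd_mul_right d f) (psiC ψ)) =
      ∑ w : (ZMod (d * f))ˣ, G (ZMod.unitsMap (dvd_mul_right d f) w) (ZMod.unitsMap (dvd_mul_left f d) w) := by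
    unfold WTA.LS
    apply Finset.sum_congr rfl
    intro w _
    rw [Bg_crt hdf w, MulChar.mul_apply, DirichletCharacter.changeLevel_eq_cast_of_dvd,
      DirichletCharacter.changeLevel_eq_cast_of_dvd, ← ZMod.unitsMap_val, ← ZMod.unitsMap_val, psiC_apply]
  rw [h1, sum_crt hdf G]
  have h2 : ∑ t : (ZMod d)ˣ, ∑ u : (ZMod f)ˣ, χ (u : ZMod f) * (((ψ t : ℤˣ) : ℤ) : ℂ) *
          (lp d f ((t * F⁻¹ : (ZMod d)ˣ) : ZMod d).val ((u * D⁻¹ : (ZMod f)ˣ) : ZMod f).val : ℂ) =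
      (χ (D : ZMod f) * (((ψ F : ℤˣ) : ℤ) : ℂ)) * LSP ψ χ := by
    rw [← Equiv.sum_comp (Equiv.mulRight F)]
    unfold LSP
    rw [Finset.sum_comm, ← Equiv.sum_comp (Equiv.mulRight D), Finset.mul_sum]
    apply Finset.sum_congr rfl
    intro u _
    rw [Finset.mul_sum, Finset.mul_sum]
    apply Finset.sum_congr rfl
    intro t _
    simp only [Equiv.coe_mulRight, mul_inv_cancel_right, map_mul, Units.val_mul, Int.cast_mul]
    ring
  change ‖∑ t : (ZMod d)ˣ, ∑ u : (ZMod f)ˣ, χ (u : ZMod f) * (((ψ t : ℤˣ) : ℤ) : ℂ) *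
          (lp d f ((t * F⁻¹ : (ZMod d)ˣ) : ZMod d).val ((u * D⁻¹ : (ZMod f)ˣ) : ZMod f).val : ℂ)‖ = _
  rw [h2, norm_mul, norm_mul, DirichletCharacter.unit_norm_eq_one, Bg_int_norm, one_mul, one_mul]

theorem real_psi {d : ℕ} [NeZero d] (ψ : (ZMod d)ˣ →* ℤˣ) :
    WTA.LS (psiC ψ) = ((∑ t : (ZMod d)ˣ, (((ψ t : ℤˣ) : ℤ) : ℝ) * WTA.lg d (t : ZMod d).val : ℝ) : ℂ) := by
  unfold WTA.LS
  rw [Complex.ofReal_sum]
  apply Finset.sum_congr rfl
  intro t _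
  rw [psiC_apply, Complex.ofReal_mul, Complex.ofReal_intCast]

private theorem Bg_image {m : ℕ} (hm : 0 < m) {ω : ℂ} (hω : IsPrimitiveRoot ω m) :
    Polynomial.nthRootsFinset m (1 : ℂ) = (Finset.range m).image (fun i ↦ ω ^ i) := by
  symm
  apply Finset.eq_of_subset_of_card_le
  · intro z hz
    obtain ⟨i, _, rfl⟩ := Finset.mem_image.mp hz
    rw [Polynomial.mem_nthRootsFinset hm, ← pow_mul, mul_comm, pow_mul, hω.pow_eq_one, one_pow]
  · rw [hω.card_nthRootsFinset, Finset.card_image_of_injOn, Finset.card_range]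
    intro i hi k hk h
    exact hω.pow_inj (Finset.mem_range.mp (Finset.mem_coe.mp hi))
      (Finset.mem_range.mp (Finset.mem_coe.mp hk)) h

private theorem Bg_prod {m : ℕ} (hm : 0 < m) {ω : ℂ} (hω : IsPrimitiveRoot ω m) (x : ℂ) :
    ∏ i ∈ Finset.range m, (1 - x * ω ^ i) = 1 - x ^ m := by
  have h := hω.pow_sub_pow_eq_prod_sub_mul 1 x hm
  rw [one_pow, Bg_image hm hω, Finset.prod_image] at h
  · rw [h]
    refine Finset.prod_congr rfl (fun i _ ↦ ?_)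
    ring
  · intro i hi k hk h
    exact hω.pow_inj (Finset.mem_range.mp (Finset.mem_coe.mp hi))
      (Finset.mem_range.mp (Finset.mem_coe.mp hk)) h

private theorem Bg_log {m : ℕ} (hm : 0 < m) {ω : ℂ} (hω : IsPrimitiveRoot ω m) {x : ℂ} (hx : x ^ m ≠ 1) :
    ∑ i ∈ Finset.range m, Real.log ‖1 - x * ω ^ i‖ = Real.log ‖1 - x ^ m‖ := by
  have hprod := Bg_prod hm hω x
  rw [← hprod, norm_prod, Real.log_prod]
  intro i hi h0
  have h1 : 1 - x * ω ^ i = 0 := norm_eq_zero.mp h0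
  have h2 : (1 : ℂ) - x ^ m = 0 := by
    rw [← hprod]
    exact Finset.prod_eq_zero hi h1
  exact hx (sub_eq_zero.mp h2).symm

private theorem Bg_units {p n : ℕ} (hp : p.Prime) [NeZero (p ^ (n + 1))] (g : ℕ → ℝ) :
    ∑ u : (ZMod (p ^ (n + 1)))ˣ, g (u : ZMod (p ^ (n + 1))).val =
      ∑ k ∈ Finset.range (p ^ (n + 1)), g k - ∑ j ∈ Finset.range (p ^ n), g (p * j) := by
  have h1 : ∑ j ∈ Finset.range (p ^ n), g (p * j) =
      ∑ k ∈ (Finset.range (p ^ (n + 1))).filter (fun k => p ∣ k), g k := by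
    refine Finset.sum_nbij' (fun j => p * j) (fun k => k / p) ?_ ?_ ?_ ?_ ?_
    · intro j hj
      rw [Finset.mem_range] at hj
      rw [Finset.mem_filter, Finset.mem_range, pow_succ, mul_comm (p ^ n) p]
      exact ⟨Nat.mul_lt_mul_of_pos_left hj hp.pos, dvd_mul_right p j⟩
    · intro k hk
      rw [Finset.mem_filter, Finset.mem_range, pow_succ] at hk
      rw [Finset.mem_range, Nat.div_lt_iff_lt_mul hp.pos]
      exact hk.1
    · intro j _
      exact Nat.mul_div_cancel_left j hp.pos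
    · intro k hk
      rw [Finset.mem_filter] at hk
      exact Nat.mul_div_cancel' hk.2
    · intro j _
      rfl
  have h2 : ∑ u : (ZMod (p ^ (n + 1)))ˣ, g (u : ZMod (p ^ (n + 1))).val =
      ∑ k ∈ (Finset.range (p ^ (n + 1))).filter (fun k => ¬ p ∣ k), g k := by
    refine Finset.sum_bij (fun u _ => (u : ZMod (p ^ (n + 1))).val) ?_ ?_ ?_ ?_
    · intro u _
      rw [Finset.mem_filter, Finset.mem_range]
      refine ⟨ZMod.val_lt _, ?_⟩
      have h3 := ZMod.val_coe_unit_coprime u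
      intro h4
      have h5 : p ∣ p ^ (n + 1) := dvd_pow_self p (Nat.succ_ne_zero n)
      have h6 := Nat.dvd_gcd h4 h5
      rw [h3] at h6
      exact hp.one_lt.ne' (Nat.dvd_one.mp h6)
    · intro u _ v _ h
      exact Units.ext (ZMod.val_injective _ h)
    · intro k hk
      rw [Finset.mem_filter, Finset.mem_range] at hk
      have h3 : Nat.Coprime k (p ^ (n + 1)) :=
        Nat.Coprime.pow_right _ ((Nat.Prime.coprime_iff_not_dvd hp).2 hk.2).symm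
      refine ⟨ZMod.unitOfCoprime k h3, Finset.mem_univ _, ?_⟩
      rw [ZMod.coe_unitOfCoprime, ZMod.val_cast_of_lt hk.1]
    · intro u _
      rfl
  rw [h1, h2, eq_sub_iff_add_eq, add_comm]
  exact Finset.sum_filter_add_sum_filter_not _ _ _

private theorem Bg_inner {d p n : ℕ} [NeZero d] (hp : p.Prime) [NeZero (p ^ (n + 1))] (hpd : p.Coprime d) (hd : 1 < d)
    (t : (ZMod d)ˣ) :
    ∑ u : (ZMod (p ^ (n + 1)))ˣ, lp d (p ^ (n + 1)) (t : ZMod d).val (u : ZMod (p ^ (n + 1))).val =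
      WTA.lg d ((t * ZMod.unitOfCoprime p hpd ^ (n + 1) : (ZMod d)ˣ) : ZMod d).val -
        WTA.lg d ((t * ZMod.unitOfCoprime p hpd ^ n : (ZMod d)ˣ) : ZMod d).val := by
  have hd0 : 0 < d := Nat.pos_of_ne_zero (NeZero.ne d)
  have hf0 : 0 < p ^ (n + 1) := pow_pos hp.pos _
  set x := Bg_e d (t : ZMod d).val with hx
  have hω : IsPrimitiveRoot (Bg_e (p ^ (n + 1)) 1) (p ^ (n + 1)) := Bg_e_prim hf0
  have hωp : IsPrimitiveRoot (Bg_e (p ^ (n + 1)) 1 ^ p) (p ^ n) :=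
    hω.pow hf0 (by rw [pow_succ, mul_comm])
  have hxk : ∀ k : ℕ, x ^ (p ^ k) = Bg_e d ((t * ZMod.unitOfCoprime p hpd ^ k : (ZMod d)ˣ) : ZMod d).val := by
    intro k
    rw [hx, Bg_e_pow]
    apply Bg_e_mod hd0
    rw [← ZMod.natCast_eq_natCast_iff]
    push_cast
    rw [ZMod.natCast_zmod_val, ZMod.natCast_zmod_val, ZMod.coe_unitOfCoprime]
  have hxne : ∀ k : ℕ, x ^ (p ^ k) ≠ 1 := by
    intro k h
    rw [hxk k, Bg_e_one_iff hd0] at h
    have h3 := ZMod.val_coe_unit_coprime (t * ZMod.unitOfCoprime p hpd ^ k)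
    have h4 := Nat.Coprime.eq_one_of_dvd h3.symm h
    omega
  have hlp : ∀ k : ℕ, lp d (p ^ (n + 1)) (t : ZMod d).val k = Real.log ‖1 - x * Bg_e (p ^ (n + 1)) 1 ^ k‖ := by
    intro k
    rw [Bg_lp, Bg_e_pow, one_mul]
  rw [Bg_units hp (fun k => lp d (p ^ (n + 1)) (t : ZMod d).val k)]
  simp only [hlp, pow_mul]
  rw [Bg_log hf0 hω (hxne (n + 1)), Bg_log (pow_pos hp.pos n) hωp (hxne n), Bg_lg, Bg_lg, hxk, hxk]

private theorem Bg_sub {d : ℕ} [NeZero d] (ψ : (ZMod d)ˣ →* ℤˣ) (P : (ZMod d)ˣ) (k : ℕ) :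
    ∑ t : (ZMod d)ˣ, (((ψ t : ℤˣ) : ℤ) : ℂ) * (WTA.lg d ((t * P ^ k : (ZMod d)ˣ) : ZMod d).val : ℂ) =
      (((ψ P ^ k : ℤˣ) : ℤ) : ℂ) * WTA.LS (psiC ψ) := by
  have h1 : ∀ s : ℤˣ, s⁻¹ = s := fun s => Int.units_inv_eq_self s
  unfold WTA.LS
  rw [← Equiv.sum_comp (Equiv.mulRight (P ^ k)⁻¹), Finset.mul_sum]
  apply Finset.sum_congr rfl
  intro t _
  simp only [Equiv.coe_mulRight, inv_mul_cancel_right, map_mul, map_inv, map_pow, h1, Units.val_mul, Int.cast_mul,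
    psiC_apply]
  ring

theorem lsp_one {d p n : ℕ} [NeZero d] [Fact p.Prime] (hpd : p.Coprime d) (hd : 1 < d) (ψ : (ZMod d)ˣ →* ℤˣ) :
    LSP ψ (1 : DirichletCharacter ℂ (p ^ (n + 1))) =
      (((ψ (ZMod.unitOfCoprime p hpd) ^ n : ℤˣ) : ℤ) : ℂ) * ((((ψ (ZMod.unitOfCoprime p hpd) : ℤˣ) : ℤ) : ℂ) - 1) *
        WTA.LS (psiC ψ) := by
  have hp : p.Prime := Fact.out
  have h1 : LSP ψ (1 : DirichletCharacter ℂ (p ^ (n + 1))) =
      ∑ t : (ZMod d)ˣ, ((((ψ t : ℤˣ) : ℤ) : ℂ) *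
          (WTA.lg d ((t * ZMod.unitOfCoprime p hpd ^ (n + 1) : (ZMod d)ˣ) : ZMod d).val : ℂ) -
        (((ψ t : ℤˣ) : ℤ) : ℂ) * (WTA.lg d ((t * ZMod.unitOfCoprime p hpd ^ n : (ZMod d)ˣ) : ZMod d).val : ℂ)) := by
    unfold LSP
    simp only [MulChar.one_apply_coe, one_mul]
    rw [Finset.sum_comm]
    apply Finset.sum_congr rfl
    intro t _
    rw [← Finset.mul_sum, ← Complex.ofReal_sum, Bg_inner hp hpd hd t, Complex.ofReal_sub, mul_sub]
  rw [h1, Finset.sum_sub_distrib, Bg_sub, Bg_sub, pow_succ, Units.val_mul, Int.cast_mul]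
  ring

end H11R
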