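import Pool.Agent.H11.T3R.Bf
import Pool.Agent.H11.T3R.Ae
import Pool.Agent.H11.T3R.Ai

/-!
ROW Bh0 (the complex character `psiC ψ`, conductors; about 150 lines).

PROOF. `psiC_prim`: the conductor `c` of `psiC ψ` divides `d`; if `c ≠ d` there is a prime `q` with `q ∣ d`, `c ∣ d / q`, so `psiC ψ` factors through `d / q` (`FactorsThrough.mono`), contradiction with `QH.prim` (`factorsThrough_iff_ker_unitsMap`).
`psiC_even`, `psiC_ne`: from `QH` (`psiC_apply`, `sum_psi`-like: a prime factor of `d` and `QH.prim` give `u` with `ψ u ≠ 1`).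
`lf_change`: `‖LF1 (changeLevel h χ)‖ = ‖LF1 χ‖` for `χ` even, `≠ 1`: both are `‖LS χ₀‖ / √c`, `χ₀` the primitive character of `χ`, `c` its level (`lf_prim` twice, `changeLevel_trans`, `changeLevel_primitiveCharacter`); the level of the primitive character
is not zero, it is even and `≠ 1` like `χ`.
`cond_B`: `χ = changeLevel χ_f * changeLevel (psiC ψ)` with `χ_f ≠ 1`, `N = d p^(n+1)`: by `triv_iff` it is enough to find for a prime `q ∣ N` some `w ∈ IQ` (`w ≡ 1` modulo the part `N'` of `N` prime to `q`) with `χ(w) ≠ 1`. For `q = p`: `N' = d`,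
`w = (1, u)` (`crt_exists`) with `χ_f(u) ≠ 1`. For `q ∣ d`: `d = q^v d'`, `N' = d' p^(n+1)`, `w = (t, 1)` with `t ≡ 1 mod d / q` and `ψ(t) ≠ 1` (`QH.prim`); `d' ∣ d / q` since `v ≥ 1`; `w ≡ 1 mod d'` and `mod p^(n+1)`, so `mod N'`.
-/

set_option autoImplicit false

open NumberField H5SW

namespace H11R

theorem Bh0_psi {d : ℕ} (ψ : (ZMod d)ˣ →* ℤˣ) {u : (ZMod d)ˣ} (h : psiC ψ (u : ZMod d) = 1) : ψ u = 1 := by
  rw [psiC_apply] at h
  apply Units.ext
  rw [Units.val_one]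
  exact_mod_cast h

theorem Bh0_cl {N' N : ℕ} [NeZero N] (h : N' ∣ N) (χ : DirichletCharacter ℂ N') (u : (ZMod N)ˣ) :
    DirichletCharacter.changeLevel h χ (u : ZMod N) = χ (ZMod.unitsMap h u : ZMod N') := by
  rw [DirichletCharacter.changeLevel_eq_cast_of_dvd, ← ZMod.unitsMap_val h]

theorem Bh0_um {a b c : ℕ} (h1 : a ∣ b) (h2 : b ∣ c) (h3 : a ∣ c) (u : (ZMod c)ˣ) :
    ZMod.unitsMap h1 (ZMod.unitsMap h2 u) = ZMod.unitsMap h3 u := by
  rw [← MonoidHom.comp_apply, ZMod.unitsMap_comp]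

theorem psiC_prim {d : ℕ} [NeZero d] {ψ : (ZMod d)ˣ →* ℤˣ} (Q : QH d ψ) : (psiC ψ).IsPrimitive := by
  by_contra hne
  obtain ⟨m, hm⟩ := (psiC ψ).conductor_dvd_level
  have hd : 0 < d := Nat.pos_of_ne_zero (NeZero.ne d)
  have hm1 : m ≠ 1 := by
    rintro rfl
    apply hne
    rw [mul_one] at hm
    exact hm.symm
  obtain ⟨q, hq, hqm⟩ := Nat.exists_prime_and_dvd hm1
  obtain ⟨k, hk⟩ := hqm
  have hqd : q ∣ d := ⟨(psiC ψ).conductor * k, by
    refine hm.trans ?_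
    rw [hk]
    ring⟩
  have hdiv : (psiC ψ).conductor ∣ d / q := by
    refine ⟨k, ?_⟩
    apply Nat.div_eq_of_eq_mul_left hq.pos
    rw [mul_assoc, mul_comm k q, ← hk]
    exact hm
  obtain ⟨u, hu1, hu2⟩ := Q.prim q hq hqd
  exact hu2 (Bh0_psi ψ (Ae_ft2 (Nat.div_dvd_of_dvd hqd) (psiC ψ) hdiv u hu1))

theorem psiC_even {d : ℕ} [NeZero d] {ψ : (ZMod d)ˣ →* ℤˣ} (Q : QH d ψ) : (psiC ψ).Even := by
  show psiC ψ (-1) = 1
  have e : (-1 : ZMod d) = ((-1 : (ZMod d)ˣ) : ZMod d) := by rw [Units.val_neg, Units.val_one]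
  rw [e, psiC_apply, Q.even, Units.val_one, Int.cast_one]

theorem psiC_ne {d : ℕ} [NeZero d] {ψ : (ZMod d)ˣ →* ℤˣ} (Q : QH d ψ) : psiC ψ ≠ 1 := by
  intro h
  obtain ⟨q, hq, hqd⟩ := Nat.exists_prime_and_dvd Q.d1.ne'
  obtain ⟨u, -, hu2⟩ := Q.prim q hq hqd
  apply hu2
  apply Bh0_psi
  rw [h, MulChar.one_apply_coe]

theorem lf_change {N₀ N : ℕ} [NeZero N₀] [NeZero N] (h : N₀ ∣ N) (χ : DirichletCharacter ℂ N₀) (he : χ.Even) (h1 : χ ≠ 1) :
    ‖LF1 (DirichletCharacter.changeLevel h χ)‖ = ‖LF1 χ‖ := by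
  obtain ⟨c, hc, ψ, hχ, hψ⟩ : ∃ c, ∃ h : c ∣ N₀, ∃ ψ : DirichletCharacter ℂ c,
      χ = DirichletCharacter.changeLevel h ψ ∧ ψ.IsPrimitive :=
    ⟨χ.conductor, χ.conductor_dvd_level, χ.primitiveCharacter,
      χ.changeLevel_primitiveCharacter.symm, χ.primitiveCharacter_isPrimitive⟩
  have : NeZero c := ⟨fun h0 => NeZero.ne N₀ (Nat.eq_zero_of_zero_dvd (h0 ▸ hc))⟩
  have hne : ψ ≠ 1 := by
    rintro rfl
    exact h1 (by rw [hχ, map_one])
  have hev : ψ.Even := by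
    have h2 : χ (-1) = 1 := he
    have e : (-1 : ZMod N₀) = ((-1 : (ZMod N₀)ˣ) : ZMod N₀) := by rw [Units.val_neg, Units.val_one]
    rw [hχ, e, Bh0_cl, ZMod.unitsMap_val, Units.val_neg, Units.val_one, ZMod.cast_neg hc,
      ZMod.cast_one hc] at h2
    exact h2
  have e1 := lf_prim hc ψ hψ hev hne
  have e2 := lf_prim (hc.trans h) ψ hψ hev hne
  rw [DirichletCharacter.changeLevel_trans ψ hc h, ← hχ] at e2
  rw [← hχ] at e1
  have hs : Real.sqrt c ≠ 0 := by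
    rw [Real.sqrt_ne_zero']
    exact_mod_cast Nat.pos_of_ne_zero (NeZero.ne c)
  exact mul_right_cancel₀ hs (e2.trans e1.symm)

theorem cond_B {d p n : ℕ} [NeZero d] [Fact p.Prime] (hpd : p.Coprime d) {ψ : (ZMod d)ˣ →* ℤˣ} (Q : QH d ψ)
    (χf : DirichletCharacter ℂ (p ^ (n + 1))) (h1 : χf ≠ 1) (q : ℕ) (hq : q.Prime) (hqN : q ∣ d * p ^ (n + 1)) :
    q ∣ (DirichletCharacter.changeLevel (dvd_mul_left (p ^ (n + 1)) d) χf *
      DirichletCharacter.changeLevel (dvd_mul_right d (p ^ (n + 1))) (psiC ψ)).conductor := by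
  have hp : p.Prime := Fact.out
  have hd : 0 < d := Nat.pos_of_ne_zero (NeZero.ne d)
  have : NeZero (d * p ^ (n + 1)) := ⟨mul_ne_zero hd.ne' (pow_ne_zero _ hp.ne_zero)⟩
  have hdf : d.Coprime (p ^ (n + 1)) := (hpd.symm).pow_right _
  by_contra hcon
  have hev : ∀ w : (ZMod (d * p ^ (n + 1)))ˣ, (DirichletCharacter.changeLevel (dvd_mul_left (p ^ (n + 1)) d) χf *
      DirichletCharacter.changeLevel (dvd_mul_right d (p ^ (n + 1))) (psiC ψ)) (w : ZMod (d * p ^ (n + 1))) =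
      χf (ZMod.unitsMap (dvd_mul_left (p ^ (n + 1)) d) w : ZMod (p ^ (n + 1))) *
        psiC ψ (ZMod.unitsMap (dvd_mul_right d (p ^ (n + 1))) w : ZMod d) := by
    intro w
    rw [MulChar.mul_apply, Bh0_cl, Bh0_cl]
  by_cases hqp : q = p
  · subst hqp
    have hqd : ¬ q ∣ d := (Nat.Prime.coprime_iff_not_dvd hq).1 hpd
    have ht := (triv_iff (N := d * q ^ (n + 1)) (N' := d) (v := n + 1) hq (mul_comm _ _) hqd
      (dvd_mul_right d (q ^ (n + 1))) _).2 hcon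
    obtain ⟨u, hu⟩ := (MulChar.ne_one_iff).1 h1
    obtain ⟨w, hw1, hw2⟩ := crt_exists hdf 1 u
    have h2 := ht w hw1
    rw [hev, hw1, hw2, Units.val_one, map_one, mul_one] at h2
    exact hu h2
  · have hqd : q ∣ d := by
      rcases (Nat.Prime.dvd_mul hq).1 hqN with h | h
      · exact h
      · exact absurd ((Nat.prime_dvd_prime_iff_eq hq hp).1 (hq.dvd_of_dvd_pow h)) hqp
    obtain ⟨v, d', hqd', hdd'⟩ := Nat.exists_eq_pow_mul_and_not_dvd hd.ne' q hq.ne_one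
    have hd'0 : d' ≠ 0 := by
      rintro rfl
      exact hqd' (dvd_zero q)
    have : NeZero (d' * p ^ (n + 1)) := ⟨mul_ne_zero hd'0 (pow_ne_zero _ hp.ne_zero)⟩
    have hd'd : d' ∣ d := ⟨q ^ v, by rw [mul_comm]; exact hdd'⟩
    have hqN' : ¬ q ∣ d' * p ^ (n + 1) := by
      intro h
      rcases (Nat.Prime.dvd_mul hq).1 h with h | h
      · exact hqd' h
      · exact hqp ((Nat.prime_dvd_prime_iff_eq hq hp).1 (hq.dvd_of_dvd_pow h))
    have hN : d * p ^ (n + 1) = q ^ v * (d' * p ^ (n + 1)) := by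
      rw [← mul_assoc, ← hdd']
    have hNN : d' * p ^ (n + 1) ∣ d * p ^ (n + 1) := ⟨q ^ v, by rw [hN, mul_comm]⟩
    have ht := (triv_iff (N := d * p ^ (n + 1)) (N' := d' * p ^ (n + 1)) (v := v) hq hN hqN' hNN _).2 hcon
    obtain ⟨t, ht1, ht2⟩ := Q.prim q hq hqd
    obtain ⟨w, hw1, hw2⟩ := crt_exists hdf t 1
    have hd'q : d' ∣ d / q := by
      cases v with
      | zero =>
        exfalso
        rw [pow_zero, one_mul] at hdd'
        exact hqd' (hdd' ▸ hqd)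
      | succ v =>
        refine ⟨q ^ v, ?_⟩
        apply Nat.div_eq_of_eq_mul_left hq.pos
        conv_lhs => rw [hdd']
        ring
    have hwI : w ∈ IQ hNN := by
      rw [mem_IQ]
      apply crt_ext (d := d') (f := p ^ (n + 1)) (Nat.Coprime.coprime_dvd_left hd'd hdf)
      · rw [Bh0_um _ _ (hd'd.trans (dvd_mul_right d (p ^ (n + 1)))), map_one,
          ← Bh0_um hd'd (dvd_mul_right d (p ^ (n + 1))), hw1,
          ← Bh0_um hd'q (Nat.div_dvd_of_dvd hqd), ht1, map_one]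
      · rw [Bh0_um _ _ (dvd_mul_left (p ^ (n + 1)) d), map_one, hw2]
    have h2 := ht w hwI
    rw [hev, hw1, hw2, Units.val_one, map_one, one_mul] at h2
    exact ht2 (Bh0_psi ψ h2)

end H11R
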