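import Pool.Agent.H11.T3R.Be
import Pool.Agent.H11.T3R.Bg
import Pool.Agent.H11.T3R.Bh0

/-!
ROW BhB (the sums over the characters of `B`, second type; about 150 lines).

`N = d f`, `f = p^(n+1)`, `S(χ) = ∑_w χ(w) log |Φ(s_w τ)|`, `χ = changeLevel χ_f * changeLevel (psiC ψ)`.

PROOF. `sum_B`: by `log_tau` the summand is `ψ(w_d) χ_f(w_f) (2 p^n lg f w_f + ψ(w_d) (2 p^n ∑_t ψ(t) lp + 6 ε^n ∑_t ψ(t) lg d t))`; `sum_crt`, `∑_t ψ(t) = 0` (`sum_psi`), `ψ(t)^2 = 1`, `∑_t 1 = φ(d)`, `real_psi`: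
`S(χ) = φ(d) (2 p^n LSP ψ χ_f + 6 ε^n (∑_u χ_f(u)) LS (psiC ψ))`.
`kap_B1` (`χ_f ≠ 1`): `∑_u χ_f(u) = 0` (`MulChar.sum_eq_zero_of_ne_one`; sum over the units = sum over all of `ZMod f`; or by a translation), `lsp_norm`, and `lf_eq` for `χ`: `χ` is even (value at `-1`: `χ_f(-1) ψ(-1) = 1`), `χ ≠ 1` (its conductor is
divisible by `p`, `cond_B`, so it is not `1`), and every prime `q ∣ N` divides its conductor (`cond_B`).
`kap_B2` (`χ_f = 1`): `changeLevel 1 = 1`, `χ = changeLevel (psiC ψ)`, `∑_u 1 = φ(f) = p^n (p - 1)`, `lsp_one`: `S(χ) = 2 φ(d) p^n ε^n ((ε - 1) + 3 (p - 1)) LS (psiC ψ)`, and `(ε - 1) + 3 (p - 1)` is `3 p - 3` for `ε = 1`, `3 p - 5` for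
`ε = -1` (`Int.units_eq_one_or`; natural subtraction: `p ≥ 2`); `lf_prim` for `psiC ψ` (`psiC_prim`, `psiC_even`, `psiC_ne`), `conductor = d` (`conductor_changeLevel`, `psiC_prim`).
-/

set_option autoImplicit false

open NumberField H5SW

namespace H11R

theorem BhB_ch {d f : ℕ} [NeZero d] [NeZero f] (χf : DirichletCharacter ℂ f) (ψ : (ZMod d)ˣ →* ℤˣ)
    (w : (ZMod (d * f))ˣ) :
    (DirichletCharacter.changeLevel (dvd_mul_left f d) χf *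
        DirichletCharacter.changeLevel (dvd_mul_right d f) (psiC ψ)) (w : ZMod (d * f)) =
      χf ((ZMod.unitsMap (dvd_mul_left f d) w : (ZMod f)ˣ) : ZMod f) *
        (((ψ (ZMod.unitsMap (dvd_mul_right d f) w) : ℤˣ) : ℤ) : ℂ) := by
  rw [MulChar.mul_apply, DirichletCharacter.changeLevel_eq_cast_of_dvd,
    DirichletCharacter.changeLevel_eq_cast_of_dvd, ← ZMod.unitsMap_val (dvd_mul_left f d),
    ← ZMod.unitsMap_val (dvd_mul_right d f), psiC_apply]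

theorem BhB_sum_one {p n : ℕ} [Fact p.Prime] :
    ∑ u : (ZMod (p ^ (n + 1)))ˣ, (1 : DirichletCharacter ℂ (p ^ (n + 1))) (u : ZMod (p ^ (n + 1))) =
      (p : ℂ) ^ n * ((p : ℂ) - 1) := by
  have h1 : ∀ u : (ZMod (p ^ (n + 1)))ˣ,
      (1 : DirichletCharacter ℂ (p ^ (n + 1))) (u : ZMod (p ^ (n + 1))) = 1 := fun u =>
    MulChar.one_apply_coe u
  have hp : 1 ≤ p := (Fact.out : p.Prime).one_lt.le
  rw [Finset.sum_congr rfl (fun u _ => h1 u), Finset.sum_const, Finset.card_univ,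
    ZMod.card_units_eq_totient, Nat.totient_prime_pow_succ Fact.out, nsmul_eq_mul, mul_one]
  push_cast [Nat.cast_sub hp]
  ring

theorem BhB_sum_zero {f : ℕ} [NeZero f] {χf : DirichletCharacter ℂ f} (h0 : χf ≠ 1) :
    ∑ u : (ZMod f)ˣ, χf (u : ZMod f) = 0 := by
  have h1 : ∃ t : (ZMod f)ˣ, χf (t : ZMod f) ≠ 1 := by
    by_contra h
    push Not at h
    apply h0
    ext t
    rw [h t, MulChar.one_apply_coe]
  obtain ⟨t, ht⟩ := h1
  set S := ∑ u : (ZMod f)ˣ, χf (u : ZMod f) with hS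
  have h2 : χf (t : ZMod f) * S = S := by
    rw [hS, Finset.mul_sum]
    refine Fintype.sum_equiv (Equiv.mulLeft t) _ _ (fun u => ?_)
    rw [Equiv.coe_mulLeft, Units.val_mul, map_mul]
  have h3 : (χf (t : ZMod f) - 1) * S = 0 := by rw [sub_mul, one_mul, h2, sub_self]
  rcases mul_eq_zero.1 h3 with h4 | h4
  · exact absurd (sub_eq_zero.1 h4) ht
  · exact h4

variable {d p n : ℕ} [NeZero d] [Fact p.Prime] (hpd : p.Coprime d) {ψ : (ZMod d)ˣ →* ℤˣ} (Q : QH d ψ)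
    {C : Type} [Field C] [NumberField C] [IsCyclotomicExtension {d * p ^ (n + 1)} ℚ C] {ξ z : C}
    (hξ : IsPrimitiveRoot ξ d) (hz : IsPrimitiveRoot z (p ^ (n + 1))) (Φ : C →+* ℂ)
    (h1 : Φ ξ = Complex.exp (2 * Real.pi * Complex.I / d)) (h2 : Φ z = Complex.exp (2 * Real.pi * Complex.I / (p ^ (n + 1) : ℕ)))

include Q hξ hz h1 h2 in
theorem sum_B (χf : DirichletCharacter ℂ (p ^ (n + 1))) :
    ∑ w : (ZMod (d * p ^ (n + 1)))ˣ, (DirichletCharacter.changeLevel (dvd_mul_left (p ^ (n + 1)) d) χf *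
        DirichletCharacter.changeLevel (dvd_mul_right d (p ^ (n + 1))) (psiC ψ)) (w : ZMod (d * p ^ (n + 1))) *
      (Real.log ‖Φ ((IsCyclotomicExtension.Rat.galEquivZMod (d * p ^ (n + 1)) C).symm w (tauC (n := n) hpd ξ z ψ))‖ : ℂ) =
    d.totient * (2 * p ^ n * LSP ψ χf + 6 * (((ψ (ZMod.unitOfCoprime p hpd) ^ n : ℤˣ) : ℤ) : ℂ) *
      (∑ u : (ZMod (p ^ (n + 1)))ˣ, χf (u : ZMod (p ^ (n + 1)))) * WTA.LS (psiC ψ)) := by
  have hdf : d.Coprime (p ^ (n + 1)) := hpd.symm.pow_right (n + 1)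
  set ε : ℤ := ((ψ (ZMod.unitOfCoprime p hpd) ^ n : ℤˣ) : ℤ) with hε
  set Kr : ℝ := ∑ t : (ZMod d)ˣ, (((ψ t : ℤˣ) : ℤ) : ℝ) * WTA.lg d (t : ZMod d).val with hK
  set A : (ZMod (p ^ (n + 1)))ˣ → ℝ := fun u => ∑ t : (ZMod d)ˣ, (((ψ t : ℤˣ) : ℤ) : ℝ) *
    lp d (p ^ (n + 1)) (t : ZMod d).val (u : ZMod (p ^ (n + 1))).val with hA
  set g : (ZMod d)ˣ → (ZMod (p ^ (n + 1)))ˣ → ℂ := fun t u =>
    χf (u : ZMod (p ^ (n + 1))) * (((ψ t : ℤˣ) : ℤ) : ℂ) *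
      ((2 * p ^ n * WTA.lg (p ^ (n + 1)) (u : ZMod (p ^ (n + 1))).val +
        (((ψ t : ℤˣ) : ℤ) : ℝ) * (2 * p ^ n * A u + 6 * (ε : ℝ) * Kr) : ℝ) : ℂ) with hg
  have e1 : ∀ w : (ZMod (d * p ^ (n + 1)))ˣ,
      (DirichletCharacter.changeLevel (dvd_mul_left (p ^ (n + 1)) d) χf *
        DirichletCharacter.changeLevel (dvd_mul_right d (p ^ (n + 1))) (psiC ψ)) (w : ZMod (d * p ^ (n + 1))) *
      (Real.log ‖Φ ((IsCyclotomicExtension.Rat.galEquivZMod (d * p ^ (n + 1)) C).symm w (tauC (n := n) hpd ξ z ψ))‖ : ℂ) =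
      g (ZMod.unitsMap (dvd_mul_right d (p ^ (n + 1))) w)
        (ZMod.unitsMap (dvd_mul_left (p ^ (n + 1)) d) w) := by
    intro w
    rw [BhB_ch, log_tau hpd Q.d1 hξ hz Φ h1 h2 Q w]
  rw [Finset.sum_congr rfl (fun w _ => e1 w), sum_crt hdf g, Finset.sum_comm]
  have hψ0 : ∑ t : (ZMod d)ˣ, (((ψ t : ℤˣ) : ℤ) : ℂ) = 0 := by
    have := sum_psi Q
    exact_mod_cast congrArg (fun x : ℤ => (x : ℂ)) this
  have hψ2 : ∑ t : (ZMod d)ˣ, (((ψ t : ℤˣ) : ℤ) : ℂ) * (((ψ t : ℤˣ) : ℤ) : ℂ) = d.totient := by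
    have h3 : ∀ t : (ZMod d)ˣ, (((ψ t : ℤˣ) : ℤ) : ℂ) * (((ψ t : ℤˣ) : ℤ) : ℂ) = 1 := by
      intro t
      rcases Int.units_eq_one_or (ψ t) with h | h <;> rw [h] <;> norm_num
    rw [Finset.sum_congr rfl (fun t _ => h3 t), Finset.sum_const, Finset.card_univ,
      ZMod.card_units_eq_totient, nsmul_eq_mul, mul_one]
  have e2 : ∀ u : (ZMod (p ^ (n + 1)))ˣ, ∑ t : (ZMod d)ˣ, g t u =
      d.totient * (χf (u : ZMod (p ^ (n + 1))) * (2 * p ^ n * (A u : ℂ) + 6 * (ε : ℂ) * (Kr : ℂ))) := by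
    intro u
    have e3 : ∀ t : (ZMod d)ˣ, g t u =
        (χf (u : ZMod (p ^ (n + 1))) * (2 * p ^ n * (WTA.lg (p ^ (n + 1)) (u : ZMod (p ^ (n + 1))).val : ℂ))) *
          (((ψ t : ℤˣ) : ℤ) : ℂ) +
        (χf (u : ZMod (p ^ (n + 1))) * (2 * p ^ n * (A u : ℂ) + 6 * (ε : ℂ) * (Kr : ℂ))) *
          ((((ψ t : ℤˣ) : ℤ) : ℂ) * (((ψ t : ℤˣ) : ℤ) : ℂ)) := by
      intro t
      rw [hg]
      push_cast
      ring
    rw [Finset.sum_congr rfl (fun t _ => e3 t), Finset.sum_add_distrib, ← Finset.mul_sum,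
      ← Finset.mul_sum, hψ0, hψ2]
    ring
  rw [Finset.sum_congr rfl (fun u _ => e2 u), ← Finset.mul_sum]
  congr 1
  rw [real_psi, LSP, ← hK, Finset.mul_sum]
  have e4 : ∀ u : (ZMod (p ^ (n + 1)))ˣ,
      χf (u : ZMod (p ^ (n + 1))) * (2 * p ^ n * (A u : ℂ) + 6 * (ε : ℂ) * (Kr : ℂ)) =
      2 * p ^ n * (χf (u : ZMod (p ^ (n + 1))) * ∑ t : (ZMod d)ˣ, (((ψ t : ℤˣ) : ℤ) : ℂ) *
        (lp d (p ^ (n + 1)) (t : ZMod d).val (u : ZMod (p ^ (n + 1))).val : ℂ)) +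
      6 * (ε : ℂ) * (Kr : ℂ) * χf (u : ZMod (p ^ (n + 1))) := by
    intro u
    rw [hA]
    push_cast
    ring
  rw [Finset.sum_congr rfl (fun u _ => e4 u), Finset.sum_add_distrib]
  congr 1
  rw [← Finset.mul_sum]
  ring

include Q hξ hz h1 h2 in
theorem kap_B1 (χf : DirichletCharacter ℂ (p ^ (n + 1))) (he : χf.Even) (h0 : χf ≠ 1) (χ : DirichletCharacter ℂ (d * p ^ (n + 1)))
    (hχ : χ = DirichletCharacter.changeLevel (dvd_mul_left (p ^ (n + 1)) d) χf *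
        DirichletCharacter.changeLevel (dvd_mul_right d (p ^ (n + 1))) (psiC ψ)) :
    ‖∑ w : (ZMod (d * p ^ (n + 1)))ˣ, χ (w : ZMod (d * p ^ (n + 1))) *
      (Real.log ‖Φ ((IsCyclotomicExtension.Rat.galEquivZMod (d * p ^ (n + 1)) C).symm w (tauC (n := n) hpd ξ z ψ))‖ : ℂ)‖ =
        2 * d.totient * p ^ n * (‖LF1 χ‖ * Real.sqrt χ.conductor) := by
  have hp : p.Prime := Fact.out
  have hdf : d.Coprime (p ^ (n + 1)) := hpd.symm.pow_right (n + 1)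
  have hcon : ∀ q : ℕ, q.Prime → q ∣ d * p ^ (n + 1) → q ∣ χ.conductor := by
    intro q hq hqN
    rw [hχ]
    exact cond_B hpd Q χf h0 q hq hqN
  have hev : χ.Even := by
    unfold DirichletCharacter.Even
    have h3 := BhB_ch χf ψ (-1 : (ZMod (d * p ^ (n + 1)))ˣ)
    rw [← hχ, Units.val_neg, Units.val_one] at h3
    rw [h3]
    have h4 : ZMod.unitsMap (dvd_mul_left (p ^ (n + 1)) d) (-1) = -1 := by
      ext
      rw [ZMod.unitsMap_val, Units.val_neg, Units.val_one, Units.val_neg, Units.val_one,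
        ZMod.cast_neg (dvd_mul_left (p ^ (n + 1)) d), ZMod.cast_one (dvd_mul_left (p ^ (n + 1)) d)]
    have h5 : ZMod.unitsMap (dvd_mul_right d (p ^ (n + 1))) (-1) = -1 := by
      ext
      rw [ZMod.unitsMap_val, Units.val_neg, Units.val_one, Units.val_neg, Units.val_one,
        ZMod.cast_neg (dvd_mul_right d (p ^ (n + 1))), ZMod.cast_one (dvd_mul_right d (p ^ (n + 1)))]
    rw [h4, h5, Q.even, Units.val_neg, Units.val_one]
    have h6 : χf (-1) = 1 := he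
    rw [h6]
    norm_num
  have hne : χ ≠ 1 := by
    intro h3
    have h4 := hcon p hp ((dvd_pow_self p (Nat.succ_ne_zero n)).mul_left d)
    rw [h3, DirichletCharacter.conductor_one] at h4
    exact hp.one_lt.ne' (Nat.dvd_one.1 h4)
  have h3 := sum_B hpd Q hξ hz Φ h1 h2 χf
  rw [← hχ, BhB_sum_zero h0, mul_zero, zero_mul, add_zero] at h3
  rw [h3, lf_eq χ hev hne hcon, hχ, lsp_norm hdf ψ χf, norm_mul, norm_mul, norm_mul, norm_pow,
    Complex.norm_natCast, Complex.norm_natCast, Complex.norm_ofNat]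
  ring

include Q hξ hz h1 h2 in
theorem kap_B2 (χ : DirichletCharacter ℂ (d * p ^ (n + 1)))
    (hχ : χ = DirichletCharacter.changeLevel (dvd_mul_right d (p ^ (n + 1))) (psiC ψ)) :
    ‖∑ w : (ZMod (d * p ^ (n + 1)))ˣ, χ (w : ZMod (d * p ^ (n + 1))) *
      (Real.log ‖Φ ((IsCyclotomicExtension.Rat.galEquivZMod (d * p ^ (n + 1)) C).symm w (tauC (n := n) hpd ξ z ψ))‖ : ℂ)‖ =
        2 * d.totient * p ^ n * cE p hpd ψ * (‖LF1 χ‖ * Real.sqrt χ.conductor) := by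
  have hp : p.Prime := Fact.out
  have h3 := sum_B hpd Q hξ hz Φ h1 h2 (1 : DirichletCharacter ℂ (p ^ (n + 1)))
  rw [DirichletCharacter.changeLevel_one, one_mul, ← hχ, BhB_sum_one, lsp_one hpd Q.d1 ψ] at h3
  have hcon : χ.conductor = d := by
    rw [hχ, DirichletCharacter.conductor_changeLevel]
    exact psiC_prim Q
  have h4 : ‖LF1 χ‖ * Real.sqrt d = ‖WTA.LS (psiC ψ)‖ := by
    rw [hχ]
    exact lf_prim (dvd_mul_right d (p ^ (n + 1))) (psiC ψ) (psiC_prim Q) (psiC_even Q) (psiC_ne Q)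
  rw [hcon, h4, h3]
  set e : ℤˣ := ψ (ZMod.unitOfCoprime p hpd) with he
  have hcE : (cE p hpd ψ : ℂ) = (((e : ℤˣ) : ℤ) : ℂ) - 1 + 3 * ((p : ℂ) - 1) := by
    have hp2 := hp.two_le
    unfold cE
    rw [← he]
    rcases Int.units_eq_one_or e with h | h
    · rw [if_pos h, h, Nat.cast_sub (by omega)]
      push_cast
      ring
    · rw [if_neg (by rw [h]; decide), h, Nat.cast_sub (by omega)]
      push_cast
      ring
  have e1 : (d.totient : ℂ) * (2 * (p : ℂ) ^ n * ((((e ^ n : ℤˣ) : ℤ) : ℂ) * ((((e : ℤˣ) : ℤ) : ℂ) - 1) * WTA.LS (psiC ψ)) +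
      6 * (((e ^ n : ℤˣ) : ℤ) : ℂ) * ((p : ℂ) ^ n * ((p : ℂ) - 1)) * WTA.LS (psiC ψ)) =
      2 * d.totient * (p : ℂ) ^ n * (cE p hpd ψ : ℂ) * (((e ^ n : ℤˣ) : ℤ) : ℂ) * WTA.LS (psiC ψ) := by
    rw [hcE]
    ring
  have e2 : ‖(((e ^ n : ℤˣ) : ℤ) : ℂ)‖ = 1 := by
    rcases Int.units_eq_one_or (e ^ n) with h | h <;> rw [h] <;> norm_num
  rw [e1, norm_mul, norm_mul, norm_mul, norm_mul, norm_mul, norm_pow, e2, Complex.norm_natCast,
    Complex.norm_natCast, Complex.norm_natCast, Complex.norm_ofNat]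
  ring

end H11R
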