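import Pool.Agent.H11.T3R.BhA
import Pool.Agent.H11.T3R.BhB

/-! The factors of proportionality for the characters of `B` (no row). -/

set_option autoImplicit false

open NumberField H5SW

namespace H11R

open Classical in
/-- the factor of proportionality -/
noncomputable def kap {d : ℕ} (p n : ℕ) (hpd : p.Coprime d) (ψ : (ZMod d)ˣ →* ℤˣ) (χ : DirichletCharacter ℂ (d * p ^ (n + 1))) : ℝ :=
  2 * d.totient * p ^ n * (if χ = DirichletCharacter.changeLevel (dvd_mul_right d (p ^ (n + 1))) (psiC ψ) then (cE p hpd ψ : ℝ) else 1)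

theorem kap_eq {d p n : ℕ} [NeZero d] [Fact p.Prime] (hpd : p.Coprime d) {ψ : (ZMod d)ˣ →* ℤˣ} (Q : QH d ψ)
    {F B C : Type} [Field F] [NumberField F] [Field B] [NumberField B] [Field C] [NumberField C] [Algebra F B] [Algebra B C]
    [IsCyclotomicExtension {d * p ^ (n + 1)} ℚ C] (r : RB d (p ^ (n + 1)) ψ F B C) (Φ : C →+* ℂ)
    (h1 : Φ r.ξ = Complex.exp (2 * Real.pi * Complex.I / d)) (h2 : Φ r.z = Complex.exp (2 * Real.pi * Complex.I / (p ^ (n + 1) : ℕ)))
    (χ : DirichletCharacter ℂ (d * p ^ (n + 1))) (hχ : χ ∈ (XM (d * p ^ (n + 1)) B C).erase 1) :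
    ‖∑ w : (ZMod (d * p ^ (n + 1)))ˣ, χ (w : ZMod (d * p ^ (n + 1))) *
      (Real.log ‖Φ ((IsCyclotomicExtension.Rat.galEquivZMod (d * p ^ (n + 1)) C).symm w (tauC (n := n) hpd r.ξ r.z ψ))‖ : ℂ)‖ =
        kap p n hpd ψ χ * (‖LF1 χ‖ * Real.sqrt χ.conductor) := by
  classical
  have hdf : d.Coprime (p ^ (n + 1)) := (Nat.Coprime.pow_left _ hpd).symm
  obtain ⟨hne, hX⟩ := Finset.mem_erase.1 hχ
  obtain ⟨χf, he, h | h⟩ := XM_cases hdf Q r hX
  · have h0 : χf ≠ 1 := by
      rintro rfl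
      apply hne
      rw [h, map_one]
    have hk : χ ≠ DirichletCharacter.changeLevel (dvd_mul_right d (p ^ (n + 1))) (psiC ψ) := by
      intro hk
      have hc : χ.conductor ∣ p ^ (n + 1) := by
        rw [h, DirichletCharacter.conductor_changeLevel]
        exact DirichletCharacter.conductor_dvd_level _
      rw [hk, DirichletCharacter.conductor_changeLevel, psiC_prim Q] at hc
      have h2 := Nat.dvd_gcd (dvd_refl d) hc
      rw [hdf] at h2
      have := Q.d1
      have := Nat.dvd_one.1 h2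
      omega
    rw [kap_A hpd Q r.hξ r.hz Φ h1 h2 χf he h0 χ h, kap, if_neg hk, mul_one]
  · by_cases h0 : χf = 1
    · rw [h0, map_one, one_mul] at h
      rw [kap_B2 hpd Q r.hξ r.hz Φ h1 h2 χ h, kap, if_pos h]
    · have hk : χ ≠ DirichletCharacter.changeLevel (dvd_mul_right d (p ^ (n + 1))) (psiC ψ) := by
        intro hk
        rw [h] at hk
        have h3 := mul_eq_right.1 hk
        exact h0 ((DirichletCharacter.changeLevel_eq_one_iff _).1 h3)
      rw [kap_B1 hpd Q r.hξ r.hz Φ h1 h2 χf he h0 χ h, kap, if_neg hk, mul_one]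

end H11R
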