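import Pool.Agent.H11.T3R.Be
import Pool.Agent.H11.T3R.Bg
import Pool.Agent.H11.T3R.Bh0

/-!
ROW BhA (the sums over the characters of `B`, first type; about 90 lines).

`N = d f`, `f = p^(n+1)`, `S(χ) = ∑_w χ(w) log |Φ(s_w τ)|`. Claim: `|S(χ)| = 2 φ(d) p^n |LF1 χ| √(conductor χ)` for `χ = changeLevel χ_f`, `χ_f ≠ 1` even.

PROOF. `χ(w) = χ_f(w_f)` (`changeLevel_eq_cast_of_dvd`, cast of a unit = `unitsMap`). By `log_tau` the summand is `χ_f(w_f) (2 p^n lg f w_f + ψ(w_d) G(w_f))`; `sum_crt` and `∑_t ψ(t) = 0` (`sum_psi`), `∑_t 1 = φ(d)` (`ZMod.card_units_eq_totient`):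
`S(χ) = 2 φ(d) p^n LS χ_f`. `lf_eq` for `χ_f` (every prime dividing `p^(n+1)` is `p`, and it divides the conductor, a divisor of `p^(n+1)` different from `1`: `eq_one_iff_conductor_eq_one`, `Nat.dvd_prime_pow`), `lf_change`, `conductor_changeLevel`.
-/

set_option autoImplicit false

open NumberField H5SW

namespace H11R

theorem BhA_pr {p n : ℕ} [Fact p.Prime] (χf : DirichletCharacter ℂ (p ^ (n + 1))) (h0 : χf ≠ 1) :
    ∀ q : ℕ, q.Prime → q ∣ p ^ (n + 1) → q ∣ χf.conductor := by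
  intro q hq hqp
  have hp : p.Prime := Fact.out
  have e : q = p := (Nat.prime_dvd_prime_iff_eq hq hp).1 (hq.dvd_of_dvd_pow hqp)
  rw [e]
  obtain ⟨k, -, hk⟩ := (Nat.dvd_prime_pow hp).1 χf.conductor_dvd_level
  have hk0 : k ≠ 0 := by
    rintro rfl
    rw [pow_zero] at hk
    exact h0 (χf.eq_one_iff_conductor_eq_one.2 hk)
  rw [hk]
  exact dvd_pow_self p hk0

theorem kap_A {d p n : ℕ} [NeZero d] [Fact p.Prime] (hpd : p.Coprime d) {ψ : (ZMod d)ˣ →* ℤˣ} (Q : QH d ψ)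
    {C : Type} [Field C] [NumberField C] [IsCyclotomicExtension {d * p ^ (n + 1)} ℚ C] {ξ z : C}
    (hξ : IsPrimitiveRoot ξ d) (hz : IsPrimitiveRoot z (p ^ (n + 1))) (Φ : C →+* ℂ)
    (h1 : Φ ξ = Complex.exp (2 * Real.pi * Complex.I / d)) (h2 : Φ z = Complex.exp (2 * Real.pi * Complex.I / (p ^ (n + 1) : ℕ)))
    (χf : DirichletCharacter ℂ (p ^ (n + 1))) (he : χf.Even) (h0 : χf ≠ 1) (χ : DirichletCharacter ℂ (d * p ^ (n + 1)))
    (hχ : χ = DirichletCharacter.changeLevel (dvd_mul_left (p ^ (n + 1)) d) χf) :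
    ‖∑ w : (ZMod (d * p ^ (n + 1)))ˣ, χ (w : ZMod (d * p ^ (n + 1))) *
      (Real.log ‖Φ ((IsCyclotomicExtension.Rat.galEquivZMod (d * p ^ (n + 1)) C).symm w (tauC (n := n) hpd ξ z ψ))‖ : ℂ)‖ =
        2 * d.totient * p ^ n * (‖LF1 χ‖ * Real.sqrt χ.conductor) := by
  have hp : p.Prime := Fact.out
  have hdf : d.Coprime (p ^ (n + 1)) := hpd.symm.pow_right _
  obtain ⟨K, hK⟩ : ∃ K : (ZMod (p ^ (n + 1)))ˣ → ℝ, K = fun u : (ZMod (p ^ (n + 1)))ˣ => (2 * p ^ n * ∑ t : (ZMod d)ˣ, (((ψ t : ℤˣ) : ℤ) : ℝ) *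
      lp d (p ^ (n + 1)) (t : ZMod d).val (u : ZMod (p ^ (n + 1))).val +
        6 * (((ψ (ZMod.unitOfCoprime p hpd) ^ n : ℤˣ) : ℤ) : ℝ) * ∑ t : (ZMod d)ˣ, (((ψ t : ℤˣ) : ℤ) : ℝ) *
          WTA.lg d (t : ZMod d).val) := ⟨_, rfl⟩
  obtain ⟨G, hG⟩ : ∃ G : (ZMod d)ˣ → (ZMod (p ^ (n + 1)))ˣ → ℂ, G = fun (t : (ZMod d)ˣ) (u : (ZMod (p ^ (n + 1)))ˣ) => χf (u : ZMod (p ^ (n + 1))) *
      ((2 * p ^ n * WTA.lg (p ^ (n + 1)) (u : ZMod (p ^ (n + 1))).val + (((ψ t : ℤˣ) : ℤ) : ℝ) * K u : ℝ) : ℂ) := ⟨_, rfl⟩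
  have e1 : ∑ w : (ZMod (d * p ^ (n + 1)))ˣ, χ (w : ZMod (d * p ^ (n + 1))) *
      (Real.log ‖Φ ((IsCyclotomicExtension.Rat.galEquivZMod (d * p ^ (n + 1)) C).symm w (tauC (n := n) hpd ξ z ψ))‖ : ℂ) =
      ∑ w : (ZMod (d * p ^ (n + 1)))ˣ, G (ZMod.unitsMap (dvd_mul_right d (p ^ (n + 1))) w)
        (ZMod.unitsMap (dvd_mul_left (p ^ (n + 1)) d) w) := by
    refine Finset.sum_congr rfl fun w _ => ?_
    rw [hχ, Bh0_cl, log_tau hpd Q.d1 hξ hz Φ h1 h2 Q w, hG, hK]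
  have e2 : ∑ t : (ZMod d)ˣ, ∑ u : (ZMod (p ^ (n + 1)))ˣ, G t u = 2 * d.totient * p ^ n * WTA.LS χf := by
    rw [Finset.sum_comm]
    unfold WTA.LS
    rw [Finset.mul_sum]
    refine Finset.sum_congr rfl fun u _ => ?_
    have hs : (∑ t : (ZMod d)ˣ, (((ψ t : ℤˣ) : ℤ) : ℂ)) = 0 := by
      have := sum_psi Q
      exact_mod_cast this
    have hc : (∑ _t : (ZMod d)ˣ, (1 : ℂ)) = d.totient := by
      rw [Finset.sum_const, nsmul_eq_mul, mul_one, Finset.card_univ, ZMod.card_units_eq_totient]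
    have e3 : ∀ t : (ZMod d)ˣ, G t u = (χf (u : ZMod (p ^ (n + 1))) * (2 * p ^ n *
        (WTA.lg (p ^ (n + 1)) (u : ZMod (p ^ (n + 1))).val : ℂ))) * 1 +
        (χf (u : ZMod (p ^ (n + 1))) * (K u : ℂ)) * (((ψ t : ℤˣ) : ℤ) : ℂ) := by
      intro t
      rw [hG]
      push_cast
      ring
    rw [Finset.sum_congr rfl fun t _ => e3 t, Finset.sum_add_distrib, ← Finset.mul_sum, ← Finset.mul_sum, hs, hc]
    ring
  rw [e1, sum_crt hdf G, e2, norm_mul, ← lf_eq χf he h0 (BhA_pr χf h0), hχ, lf_change _ χf he h0,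
    DirichletCharacter.conductor_changeLevel, norm_mul, norm_mul, norm_pow, Complex.norm_natCast, Complex.norm_natCast,
    Complex.norm_ofNat]

end H11R
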