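import Pool.Agent.H11.T3R.DfB

/-!
ROW Bi (discriminant and conductors prime to three; about 70 lines).

PROOF. `discr M` divides `discr C` (`NumberField.discr_dvd_discr`); `|discr C|` divides `N ^ φ(N)` (`IsCyclotomicExtension.Rat.natAbs_discr`: it is `N ^ φ(N) / ..`, and the quotient divides the dividend: `Nat.div_dvd_of_dvd` needs the divisibility; use
`Nat.div_mul_cancel`-free argument: the product divides `N ^ φ(N)` because otherwise .. : for each prime `q ∣ N`, `q ^ (φ(N)/(q-1)) ∣ N ^ φ(N)` and these are pairwise coprime, `Finset.prod_coprime_dvd`), so it is prime to `3` if `3 ∤ N`.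
Alternatively: `3` is unramified in `C` (`IsCyclotomicExtension.Rat` unramified lemmas, `NumberField.not_dvd_discr_iff_forall_liesOver`, `ramificationIdx_eq_of_not_dvd`).
Conductors divide `N` (`conductor_dvd_level`), so they and their product are prime to `3`.
-/

set_option autoImplicit false

open NumberField H5SW

namespace H11R

private lemma Bi_dvd (N : ℕ) :
    (∏ p ∈ N.primeFactors, p ^ (N.totient / (p - 1))) ∣ N ^ N.totient := by
  apply Finset.prod_dvd_of_isRelPrime
  · intro p hp q hq hpq
    have hp' := Nat.prime_of_mem_primeFactors (Finset.mem_coe.mp hp)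
    have hq' := Nat.prime_of_mem_primeFactors (Finset.mem_coe.mp hq)
    change IsRelPrime (p ^ (N.totient / (p - 1))) (q ^ (N.totient / (q - 1)))
    rw [← Nat.coprime_iff_isRelPrime]
    exact Nat.Coprime.pow _ _ ((Nat.coprime_primes hp' hq').mpr hpq)
  · intro p hp
    exact (pow_dvd_pow p (Nat.div_le_self _ _)).trans
      (pow_dvd_pow_of_dvd (Nat.dvd_of_mem_primeFactors hp) _)

theorem discr_three (N : ℕ) [NeZero N] (h3 : ¬ 3 ∣ N) (M C : Type) [Field M] [NumberField M] [Field C] [NumberField C] [Algebra M C]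
    [IsCyclotomicExtension {N} ℚ C] : ¬ 3 ∣ (discr M).natAbs := by
  intro h
  have h1 : (discr M).natAbs ∣ (discr C).natAbs :=
    Int.natAbs_dvd_natAbs.mpr (NumberField.discr_dvd_discr M C)
  have h2 := h.trans h1
  rw [IsCyclotomicExtension.Rat.natAbs_discr N C] at h2
  have h4 : 3 ∣ N ^ N.totient := h2.trans (Nat.div_dvd_of_dvd (Bi_dvd N))
  exact h3 (Nat.prime_three.dvd_of_dvd_pow h4)

theorem cond_three (N : ℕ) [NeZero N] (h3 : ¬ 3 ∣ N) (S : Finset (DirichletCharacter ℂ N)) : ¬ 3 ∣ ∏ χ ∈ S, χ.conductor := by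
  intro h
  obtain ⟨χ, _, hχ⟩ := (Nat.prime_three.prime.dvd_finsetProd_iff _).mp h
  exact h3 (hχ.trans χ.conductor_dvd_level)

end H11R
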