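import Pool.Agent.H11.T3R.Bf
import Pool.Agent.H11.T3R.Ac
import Pool.Agent.H11.T3R.Ae

/-!
ROW Bj (discriminant and conductors of `B` at three when `3` divides `d` exactly; about 190 lines).

`d = 3 d'`, `3 ∤ d'`, `N = d p^(n+1)`, `N' = d' p^(n+1)`, `D = [B : ℚ]`, `r = D / 2`. Claim: both `v_3(discr B)` and `v_3(∏_{χ ∈ XM, χ ≠ 1} conductor χ)` are `D / 2`.

PROOF. Let `I = IQ` be the kernel of `(ZMod N)ˣ → (ZMod N')ˣ` (order `2`), `H = HM N B C`; `ψ` is non trivial on `I` (`QH.prim` for `q = 3`), so `I ∩ H = 1` and `e = e_B(3) = 2` (`ram_M`: `e * |I ∩ H| = |I|`, `card_IQ`).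
(1) conductors: `χ.conductor ∣ N`, `9 ∤ N`, so `v_3(conductor) ≤ 1`, and it is `1` iff `χ` is non trivial on `I` (`triv_iff`). The characters of `XM` (a group of order `D`: `sum_triv` at `g = 1` with `J = H`, or the count by
    `card_subgroupOrderIsoSubgroupMulChar`) which are trivial on `I` are those trivial on `I ⊔ H`, of index `D / 2` in `(ZMod N)ˣ` (`|I ⊔ H| = 2 |H|`), so there are `D / 2` of them (`sum_triv` at `g = 1`), and `D - D / 2 = D / 2` others
    (`χ = 1` is trivial on `I` and does not count).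
(2) `v_3(discr B) ≤ D / 2`: `natAbs_discr_eq_absNorm_differentIdeal_mul_natAbs_discr_pow`: `(discr B)^[C:B]` divides `discr C`, `v_3(discr C) = φ(N) - φ(N)/2 = φ(N)/2` (`IsCyclotomicExtension.Rat.natAbs_discr`, `v_3(N) = 1`), `[C:B] D = φ(N)`.
(3) `v_3(discr B) ≥ D / 2`: `(3) = (∏ P)^2` in `𝓞 B` (all ramification indices are `e = 2`, `ramificationIdxIn`), so every prime `P` above `3` divides the different (`pow_sub_one_dvd_differentIdeal ℤ P 2`, with `P ^ 2 ∣ (3)`), their product `R` (coprime)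
    divides it, `R ^ 2 = (3)`, so `absNorm R ^ 2 = 3 ^ D`, `absNorm R = 3 ^ (D/2)` divides `absNorm (differentIdeal) = |discr B|` (`absNorm_differentIdeal`).
    Simpler: let `R` be an ideal with `R ^ 2 = (3)`; show `R ∣ differentIdeal` by comparing multiplicities at each prime.
-/

set_option autoImplicit false

open NumberField H5SW

namespace H11R

theorem Bj_N {d p n : ℕ} [Fact p.Prime] (hp5 : 5 ≤ p) (h3 : 3 ∣ d) (h9 : ¬ 9 ∣ d) :
    d * p ^ (n + 1) = 3 ^ 1 * (d / 3 * p ^ (n + 1)) ∧ ¬ 3 ∣ d / 3 * p ^ (n + 1) := by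
  obtain ⟨e, rfl⟩ := h3
  have h : 3 * e / 3 = e := Nat.mul_div_cancel_left e (by norm_num)
  rw [h]
  refine ⟨by ring, ?_⟩
  intro hd
  rcases (Nat.Prime.dvd_mul Nat.prime_three).1 hd with h1 | h1
  · exact h9 (by obtain ⟨k, rfl⟩ := h1; exact ⟨k, by ring⟩)
  · have h2 := Nat.prime_three.dvd_of_dvd_pow h1
    have h4 := (Nat.prime_dvd_prime_iff_eq Nat.prime_three Fact.out).1 h2
    omega

theorem Bj_ne {d p n : ℕ} [NeZero d] [Fact p.Prime] (h3 : 3 ∣ d) : NeZero (d / 3 * p ^ (n + 1)) := by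
  refine ⟨mul_ne_zero ?_ (pow_ne_zero _ (Fact.out : p.Prime).ne_zero)⟩
  have h1 : 0 < d / 3 := Nat.div_pos (Nat.le_of_dvd (NeZero.pos d) h3) (by norm_num)
  exact h1.ne'

theorem Bj_inf {d p n : ℕ} [NeZero d] [Fact p.Prime] (hp5 : 5 ≤ p) (hpd : p.Coprime d) (h3 : 3 ∣ d) (h9 : ¬ 9 ∣ d)
    {ψ : (ZMod d)ˣ →* ℤˣ} (Q : QH d ψ)
    {F B C : Type} [Field F] [NumberField F] [Field B] [NumberField B] [Field C] [NumberField C] [Algebra F B] [Algebra B C]
    [IsCyclotomicExtension {d * p ^ (n + 1)} ℚ C] (r : RB d (p ^ (n + 1)) ψ F B C)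
    (h : d / 3 * p ^ (n + 1) ∣ d * p ^ (n + 1)) :
    Nat.card (IQ h) = 2 ∧ IQ h ⊓ HM (d * p ^ (n + 1)) B C = ⊥ := by
  have hN := Bj_N (n := n) hp5 h3 h9
  have := Bj_ne (p := p) (n := n) h3
  have hI : Nat.card (IQ h) = 2 := by
    rw [card_IQ Nat.prime_three hN.1 hN.2 h]
    decide
  refine ⟨hI, ?_⟩
  have hdf : d.Coprime (p ^ (n + 1)) := (hpd.symm).pow_right _
  have hdf' : (d / 3).Coprime (p ^ (n + 1)) := Nat.Coprime.coprime_dvd_left (Nat.div_dvd_of_dvd h3) hdf
  obtain ⟨u, hu1, hu2⟩ := Q.prim 3 Nat.prime_three h3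
  obtain ⟨w, hw1, hw2⟩ := crt_exists (d := d) (f := p ^ (n + 1)) hdf u 1
  have hwI : w ∈ IQ h := by
    rw [mem_IQ]
    apply crt_ext (d := d / 3) (f := p ^ (n + 1)) hdf'
    · rw [map_one]
      have h5 := congrArg (ZMod.unitsMap (Nat.div_dvd_of_dvd h3)) hw1
      rw [hu1] at h5
      rw [← h5, ← MonoidHom.comp_apply, ZMod.unitsMap_comp, ← MonoidHom.comp_apply, ZMod.unitsMap_comp]
    · rw [map_one, ← hw2, ← MonoidHom.comp_apply, ZMod.unitsMap_comp]
  have hw1' : w ≠ 1 := by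
    rintro rfl
    rw [map_one] at hw1
    rw [← hw1, map_one] at hu2
    exact hu2 rfl
  have hwH : w ∉ HM (d * p ^ (n + 1)) B C := by
    intro hw
    have h6 := ((r.hH w).1 hw).2
    rw [hw1] at h6
    exact hu2 h6
  rw [eq_bot_iff]
  intro x hx
  obtain ⟨hx1, hx2⟩ := Subgroup.mem_inf.1 hx
  rw [Subgroup.mem_bot]
  by_contra hxn
  obtain ⟨y, _, hy⟩ := (Nat.card_eq_two_iff' (1 : IQ h)).1 hI
  have e1 := hy ⟨x, hx1⟩ (fun hh => hxn (congrArg Subtype.val hh))
  have e2 := hy ⟨w, hwI⟩ (fun hh => hw1' (congrArg Subtype.val hh))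
  have e3 : x = w := congrArg Subtype.val (e1.trans e2.symm)
  rw [e3] at hx2
  exact hwH hx2

theorem Bj_ind {N : ℕ} [NeZero N] {B C : Type} [Field B] [NumberField B] [Field C] [NumberField C] [Algebra B C]
    [IsCyclotomicExtension {N} ℚ C] : (HM N B C).index = Module.finrank ℚ B := by
  have h1 := card_HM N B C
  have h2 := Subgroup.card_mul_index (HM N B C)
  rw [← h2] at h1
  exact (Nat.eq_of_mul_eq_mul_left Nat.card_pos h1).symm

theorem Bj_half {d p n : ℕ} [NeZero d] [Fact p.Prime] (hp5 : 5 ≤ p) (hpd : p.Coprime d) (h3 : 3 ∣ d) (h9 : ¬ 9 ∣ d)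
    {ψ : (ZMod d)ˣ →* ℤˣ} (Q : QH d ψ)
    {F B C : Type} [Field F] [NumberField F] [Field B] [NumberField B] [Field C] [NumberField C] [Algebra F B] [Algebra B C]
    [IsCyclotomicExtension {d * p ^ (n + 1)} ℚ C] (r : RB d (p ^ (n + 1)) ψ F B C)
    (h : d / 3 * p ^ (n + 1) ∣ d * p ^ (n + 1)) :
    2 * (IQ h ⊔ HM (d * p ^ (n + 1)) B C : Subgroup (ZMod (d * p ^ (n + 1)))ˣ).index = Module.finrank ℚ B := by
  obtain ⟨h1, h2⟩ := Bj_inf hp5 hpd h3 h9 Q r h
  have h4 := Subgroup.relIndex_mul_index (le_sup_right : HM (d * p ^ (n + 1)) B C ≤ IQ h ⊔ HM (d * p ^ (n + 1)) B C)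
  rw [Subgroup.relIndex_sup_right, ← Subgroup.inf_relIndex_right, inf_comm, h2, Subgroup.relIndex_bot_left, h1, Bj_ind] at h4
  exact h4

open Classical in
theorem Bj_card {N : ℕ} [NeZero N] (J : Subgroup (ZMod N)ˣ) :
    (Finset.univ.filter (fun χ : DirichletCharacter ℂ N => ∀ u ∈ J, χ (u : ZMod N) = 1)).card = J.index := by
  have h1 := sum_triv J 1
  rw [if_pos J.one_mem] at h1
  simp only [Units.val_one, map_one, Finset.sum_const, nsmul_eq_mul, mul_one] at h1
  exact_mod_cast h1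

theorem Bj_R {B : Type} [Field B] [NumberField B] (hG : IsGalois ℚ B)
    (he : (Ideal.span {(3 : ℤ)}).ramificationIdxIn (𝓞 B) = 2) (hD : 2 ∣ Module.finrank ℚ B) :
    3 ^ (Module.finrank ℚ B / 2) ∣ (discr B).natAbs := by
  have hmax : (Ideal.span {(3 : ℤ)}).IsMaximal :=
    PrincipalIdealRing.isMaximal_of_irreducible (Int.prime_three.irreducible)
  have hne : (Ideal.span {(3 : ℤ)}) ≠ ⊥ := by
    rw [Ne, Ideal.span_singleton_eq_bot]
    norm_num
  have h1 := Ideal.map_algebraMap_eq_finsetProd_pow (R := 𝓞 B) (p := Ideal.span {(3 : ℤ)}) hne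
  obtain ⟨S, hS, hSm⟩ : ∃ S : Finset (Ideal (𝓞 B)), (Ideal.span {(3 : ℤ)}).map (algebraMap ℤ (𝓞 B)) = ∏ P ∈ S, P ^ 2 ∧
      ∀ P ∈ S, P.IsMaximal := by
    refine ⟨_, h1.trans (Finset.prod_congr rfl ?_), ?_⟩
    · intro P hP
      have hP' : P ∈ (Ideal.span {(3 : ℤ)}).primesOver (𝓞 B) := by simpa using hP
      have := hP'.1
      have := hP'.2
      congr 1
      rw [← Ideal.ramificationIdxIn_eq_ramificationIdx (Ideal.span {(3 : ℤ)}) P Gal(B/ℚ)]
      exact he
    · intro P hP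
      have hP' : P ∈ (Ideal.span {(3 : ℤ)}).primesOver (𝓞 B) := by simpa using hP
      have := hP'.1
      have := hP'.2
      exact Ring.DimensionLEOne.maximalOfPrime (Ideal.ne_bot_of_liesOver_of_ne_bot hne P) inferInstance
  have h2 : (∏ P ∈ S, P) ∣ differentIdeal ℤ (𝓞 B) := by
    apply Finset.prod_dvd_of_isRelPrime
    · intro P hP P' hP' hne'
      have := hSm P hP
      have := hSm P' hP'
      exact (Ideal.isCoprime_of_isMaximal hne').isRelPrime
    · intro P hP
      have hPm : P ^ 2 ∣ (Ideal.span {(3 : ℤ)}).map (algebraMap ℤ (𝓞 B)) := by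
        rw [hS]
        exact Finset.dvd_prod_of_mem (fun P => P ^ 2) hP
      have hdiff := pow_sub_one_dvd_differentIdeal ℤ P 2 hne hPm
      rwa [show 2 - 1 = 1 from rfl, pow_one] at hdiff
  have h5 : Ideal.absNorm (∏ P ∈ S, P) ∣ (discr B).natAbs := by
    rw [← NumberField.absNorm_differentIdeal B (𝓞 B)]
    exact map_dvd Ideal.absNorm h2
  have h6 : Ideal.absNorm (Ideal.span {(3 : 𝓞 B)}) = 3 ^ Module.finrank ℚ B := by
    rw [Ideal.absNorm_span_singleton]
    have h7 : (3 : 𝓞 B) = algebraMap ℤ (𝓞 B) 3 := by simp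
    rw [h7, Algebra.norm_algebraMap, Int.natAbs_pow, RingOfIntegers.rank]
    rfl
  have h7 : (∏ P ∈ S, P) ^ 2 = Ideal.span {(3 : 𝓞 B)} := by
    rw [← Finset.prod_pow, ← hS, Ideal.map_span, Set.image_singleton]
    simp
  have h8 : Ideal.absNorm (∏ P ∈ S, P) = 3 ^ (Module.finrank ℚ B / 2) := by
    have h9 : Ideal.absNorm (∏ P ∈ S, P) ^ 2 = (3 ^ (Module.finrank ℚ B / 2)) ^ 2 := by
      rw [← map_pow, h7, h6, ← pow_mul, Nat.div_mul_cancel hD]
    exact Nat.pow_left_injective (by norm_num : (2 : ℕ) ≠ 0) h9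
  rwa [h8] at h5

theorem Bj_up {N : ℕ} [NeZero N] (hN3 : N.factorization 3 = 1) {B C : Type} [Field B] [NumberField B] [Field C] [NumberField C] [Algebra B C]
    [IsCyclotomicExtension {N} ℚ C] (hev : 2 ∣ N.totient) :
    2 * padicValNat 3 (discr B).natAbs ≤ Module.finrank ℚ B := by
  have h1 := NumberField.natAbs_discr_eq_absNorm_differentIdeal_mul_natAbs_discr_pow B (𝓞 B) C (𝓞 C)
  have hd : (discr B).natAbs ^ Module.finrank B C ∣ (discr C).natAbs := by
    rw [h1]
    exact dvd_mul_left _ _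
  have hB0 : (discr B).natAbs ≠ 0 := Int.natAbs_ne_zero.2 (discr_ne_zero B)
  have hC0 : (discr C).natAbs ≠ 0 := Int.natAbs_ne_zero.2 (discr_ne_zero C)
  have h2 := (Nat.factorization_le_iff_dvd (pow_ne_zero _ hB0) hC0).2 hd 3
  rw [Nat.factorization_pow, Finsupp.smul_apply, smul_eq_mul, Nat.factorization_def _ Nat.prime_three] at h2
  have h3 : (discr C).natAbs.factorization 3 = N.totient / 2 := by
    rw [IsCyclotomicExtension.Rat.natAbs_discr N C,
      Nat.factorization_div (Nat.prod_primeFactors_pow_totient_ediv_dvd (NeZero.pos _)), Finsupp.tsub_apply,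
      Nat.factorization_pow, Finsupp.smul_apply, hN3, smul_eq_mul, mul_one]
    have h4 : (∏ p ∈ N.primeFactors, p ^ (N.totient / (p - 1))).factorization 3 = N.totient / 2 := by
      rw [Nat.factorization_prod (fun q hq => pow_ne_zero _ (Nat.prime_of_mem_primeFactors hq).ne_zero),
        Finsupp.finsetSum_apply, Finset.sum_eq_single 3]
      · rw [Nat.factorization_pow, Finsupp.smul_apply, Nat.Prime.factorization_self Nat.prime_three, smul_eq_mul, mul_one]
      · intro q hq hq3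
        rw [Nat.factorization_pow, Finsupp.smul_apply, Nat.Prime.factorization (Nat.prime_of_mem_primeFactors hq),
          Finsupp.single_apply, if_neg hq3, smul_zero]
      · intro h5
        exfalso
        apply h5
        rw [← Nat.support_factorization, Finsupp.mem_support_iff, hN3]
        exact one_ne_zero
    rw [h4]
    omega
  rw [h3] at h2
  have h6 := Module.finrank_mul_finrank ℚ B C
  rw [IsCyclotomicExtension.Rat.finrank N C] at h6
  have h7 : 0 < Module.finrank B C := Module.finrank_pos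
  have h8 : Module.finrank B C * (2 * padicValNat 3 (discr B).natAbs) ≤ Module.finrank B C * Module.finrank ℚ B := by
    rw [mul_comm (Module.finrank B C) (Module.finrank ℚ B), h6]
    have h9 : 2 * (N.totient / 2) = N.totient := Nat.mul_div_cancel' hev
    calc Module.finrank B C * (2 * padicValNat 3 (discr B).natAbs) =
        2 * (Module.finrank B C * padicValNat 3 (discr B).natAbs) := by ring
      _ ≤ 2 * (N.totient / 2) := Nat.mul_le_mul_left 2 h2
      _ = N.totient := h9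
  exact Nat.le_of_mul_le_mul_left h8 h7

theorem disc_ram {d p n : ℕ} [NeZero d] [Fact p.Prime] (hp5 : 5 ≤ p) (hpd : p.Coprime d) (h3 : 3 ∣ d) (h9 : ¬ 9 ∣ d)
    {ψ : (ZMod d)ˣ →* ℤˣ} (Q : QH d ψ)
    {F B C : Type} [Field F] [NumberField F] [Field B] [NumberField B] [Field C] [NumberField C] [Algebra F B] [Algebra B C]
    [IsCyclotomicExtension {d * p ^ (n + 1)} ℚ C] (r : RB d (p ^ (n + 1)) ψ F B C) :
    padicValNat 3 (discr B).natAbs = Module.finrank ℚ B / 2 := by
  have hN := Bj_N (n := n) hp5 h3 h9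
  have := Bj_ne (p := p) (n := n) h3
  have h : d / 3 * p ^ (n + 1) ∣ d * p ^ (n + 1) := ⟨3, by rw [hN.1]; ring⟩
  obtain ⟨hI, hb⟩ := Bj_inf hp5 hpd h3 h9 Q r h
  have hhalf := Bj_half hp5 hpd h3 h9 Q r h
  have hD : 2 ∣ Module.finrank ℚ B := ⟨_, hhalf.symm⟩
  have hGal : IsAbelianGalois ℚ B := gal_of_sub (d * p ^ (n + 1)) B C
  have he := ram_M (v := 1) Nat.prime_three hN.1 hN.2 h B C
  rw [hb, Subgroup.card_bot, mul_one, hI] at he
  have hlow := Bj_R (B := B) inferInstance he hD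
  have hB0 : (discr B).natAbs ≠ 0 := Int.natAbs_ne_zero.2 (discr_ne_zero B)
  have : Fact (Nat.Prime 3) := ⟨Nat.prime_three⟩
  have h4 : Module.finrank ℚ B / 2 ≤ padicValNat 3 (discr B).natAbs := (padicValNat_dvd_iff_le hB0).1 hlow
  have hN3 : (d * p ^ (n + 1)).factorization 3 = 1 := by
    rw [hN.1, Nat.factorization_mul (by norm_num) (NeZero.ne _), Finsupp.add_apply,
      Nat.factorization_eq_zero_of_not_dvd hN.2, pow_one, Nat.Prime.factorization_self Nat.prime_three]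
  have hev : 2 ∣ (d * p ^ (n + 1)).totient := by
    have h5 := card_HM (d * p ^ (n + 1)) B C
    rw [Nat.card_eq_fintype_card (α := (ZMod (d * p ^ (n + 1)))ˣ), ZMod.card_units_eq_totient] at h5
    rw [← h5]
    exact hD.mul_left _
  have h6 := Bj_up (B := B) (C := C) hN3 hev
  omega

theorem cond_ram {d p n : ℕ} [NeZero d] [Fact p.Prime] (hp5 : 5 ≤ p) (hpd : p.Coprime d) (h3 : 3 ∣ d) (h9 : ¬ 9 ∣ d)
    {ψ : (ZMod d)ˣ →* ℤˣ} (Q : QH d ψ)
    {F B C : Type} [Field F] [NumberField F] [Field B] [NumberField B] [Field C] [NumberField C] [Algebra F B] [Algebra B C]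
    [IsCyclotomicExtension {d * p ^ (n + 1)} ℚ C] (r : RB d (p ^ (n + 1)) ψ F B C) :
    padicValNat 3 (∏ χ ∈ (XM (d * p ^ (n + 1)) B C).erase 1, χ.conductor) = Module.finrank ℚ B / 2 := by
  have hN := Bj_N (n := n) hp5 h3 h9
  have := Bj_ne (p := p) (n := n) h3
  have h : d / 3 * p ^ (n + 1) ∣ d * p ^ (n + 1) := ⟨3, by rw [hN.1]; ring⟩
  have hhalf := Bj_half hp5 hpd h3 h9 Q r h
  rw [← Nat.factorization_def _ Nat.prime_three,
    Nat.factorization_prod (fun χ _ => DirichletCharacter.conductor_ne_zero χ), Finsupp.finsetSum_apply]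
  have hterm : ∀ χ : DirichletCharacter ℂ (d * p ^ (n + 1)), χ.conductor.factorization 3 = if 3 ∣ χ.conductor then 1 else 0 := by
    intro χ
    split_ifs with hc
    · have h1 : 1 ≤ χ.conductor.factorization 3 :=
        (Nat.Prime.dvd_iff_one_le_factorization Nat.prime_three χ.conductor_ne_zero).1 hc
      have h2 := (Nat.factorization_le_iff_dvd χ.conductor_ne_zero (NeZero.ne _)).2 χ.conductor_dvd_level 3
      have hN3 : (d * p ^ (n + 1)).factorization 3 = 1 := by
        rw [hN.1, Nat.factorization_mul (by norm_num) (NeZero.ne _), Finsupp.add_apply,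
          Nat.factorization_eq_zero_of_not_dvd hN.2, pow_one, Nat.Prime.factorization_self Nat.prime_three]
      rw [hN3] at h2
      exact le_antisymm h2 h1
    · exact Nat.factorization_eq_zero_of_not_dvd hc
  rw [Finset.sum_congr rfl (fun χ _ => hterm χ)]
  have h1 : ∑ χ ∈ (XM (d * p ^ (n + 1)) B C).erase 1, (if 3 ∣ χ.conductor then 1 else 0) =
      ∑ χ ∈ XM (d * p ^ (n + 1)) B C, (if 3 ∣ χ.conductor then 1 else 0) := by
    apply Finset.sum_erase
    rw [if_neg]
    rw [DirichletCharacter.conductor_one]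
    norm_num
  rw [h1]
  classical
  have h2 : ∑ χ ∈ XM (d * p ^ (n + 1)) B C, (if 3 ∣ χ.conductor then 1 else 0) =
      ((XM (d * p ^ (n + 1)) B C).filter (fun χ => 3 ∣ χ.conductor)).card := by
    rw [Finset.card_filter]
  rw [h2]
  have h4 := Finset.card_filter_add_card_filter_not (s := XM (d * p ^ (n + 1)) B C) (fun χ => 3 ∣ χ.conductor)
  have h5 : ((XM (d * p ^ (n + 1)) B C).filter (fun χ => ¬ 3 ∣ χ.conductor)).card =
      (IQ h ⊔ HM (d * p ^ (n + 1)) B C : Subgroup (ZMod (d * p ^ (n + 1)))ˣ).index := by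
    rw [← Bj_card]
    congr 1
    ext χ
    simp only [Finset.mem_filter, Finset.mem_univ, true_and, mem_XM]
    rw [← triv_iff (v := 1) Nat.prime_three hN.1 hN.2 h χ]
    constructor
    · rintro ⟨ha, hb⟩ u hu
      obtain ⟨y, hy, z, hz, rfl⟩ := Subgroup.mem_sup.1 hu
      rw [Units.val_mul, map_mul, hb y hy, ha z hz, one_mul]
    · intro hu
      exact ⟨fun u hu1 => hu u (Subgroup.mem_sup_right hu1), fun u hu1 => hu u (Subgroup.mem_sup_left hu1)⟩
  have h6 : (XM (d * p ^ (n + 1)) B C).card = Module.finrank ℚ B := by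
    rw [← Bj_ind (N := d * p ^ (n + 1)) (B := B) (C := C), ← Bj_card]
    congr 1
  rw [h5, h6] at h4
  omega

end H11R
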