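import Pool.Agent.H11.T3R.An
import Pool.Agent.H11.T3R.Bc
import Pool.Agent.H11.T3R.Bd
import Pool.Agent.H11.T3R.Bh
import Pool.Agent.H11.T3R.Bi
import Pool.Agent.H11.T3R.Bj

/-!
ROW Bk (class number and index of `B`, three part; about 130 lines).

PROOF. `Φ` from `emb2`. `index_formula` for `N = d p^(n+1)`, `M = B`, `t` with `κ = kap p n hpd ψ` (`kap_eq`; `ht2`: `algebraMap B C t = tauC`), `|HM| = φ(d)` (`card_HM_B`), `D = [B:ℚ]`:
`index * φ(d)^(D-1) * √|discr| = 2^(D-1) * h * ∏ kap * ∏ √(conductor)`. `∏ kap = (2 φ(d) p^n)^(D-1) * cE`: `(XM).erase 1` has `D - 1` elements (`sum_triv` at `g = 1`, `card_HM`) and exactly one of them is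
`changeLevel (psiC ψ)` (it is in `XM` by `r.hH`, `≠ 1` by `psiC_ne`, `changeLevel_eq_one_iff`; `Finset.prod_mul_distrib`, `Finset.prod_const`, `Finset.prod_ite_eq`). Square: `index^2 * |discr| = (2^(2(D-1)) * p^(n(D-1)) * h * cE)^2 * ∏ conductor`
as natural numbers (`Real.sq_sqrt`, `exact_mod_cast`). `cE ≠ 0` (`p ≥ 5`), `h ≠ 0`, conductors `≠ 0`, so `index ≠ 0`; take `padicValNat 3` (`padicValNat.mul`, `padicValNat.pow`; `2` and `p` are prime to `3`):
`2 v(index) + v(discr) = 2 v(h) + 2 v(cE) + v(∏ conductor)`, and `v(discr) = v(∏ conductor)` (both `0` if `3 ∤ d`: `discr_three`, `cond_three` with `3 ∤ N`; both `D/2` if `3 ∣ d`: `disc_ram`, `cond_ram`).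
-/

set_option autoImplicit false

open NumberField H5SW

namespace H11R

private theorem Bk_card (N : ℕ) [NeZero N] (M C : Type) [Field M] [NumberField M] [Field C] [NumberField C] [Algebra M C]
    [IsCyclotomicExtension {N} ℚ C] [DecidableEq (DirichletCharacter ℂ N)] :
    ((XM N M C).erase 1).card = Module.finrank ℚ M - 1 := by
  have h1 : (1 : DirichletCharacter ℂ N) ∈ XM N M C := by
    rw [mem_XM]
    intro u _
    exact MulChar.one_apply_coe u
  rw [Finset.card_erase_of_mem h1]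
  congr 1
  have h2 := sum_triv (HM N M C) 1
  rw [if_pos (Subgroup.one_mem _)] at h2
  have h3 : ((XM N M C).card : ℂ) = ((HM N M C).index : ℂ) := by
    rw [← h2, Finset.sum_congr rfl (g := fun _ => (1 : ℂ)) (fun χ _ => by rw [Units.val_one, map_one]),
      Finset.sum_const, nsmul_eq_mul, mul_one]
    unfold XM
    rfl
  have h4 : (XM N M C).card = (HM N M C).index := by exact_mod_cast h3
  rw [h4]
  have h5 := card_HM N M C
  have h6 := Subgroup.card_mul_index (HM N M C)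
  rw [← h5] at h6
  exact Nat.eq_of_mul_eq_mul_left Nat.card_pos h6

private theorem Bk_mem {d p n : ℕ} [NeZero d] [Fact p.Prime]
    {ψ : (ZMod d)ˣ →* ℤˣ} (Q : QH d ψ)
    {F B C : Type} [Field F] [NumberField F] [Field B] [NumberField B] [Field C] [NumberField C] [Algebra F B] [Algebra B C]
    [IsCyclotomicExtension {d * p ^ (n + 1)} ℚ C] (r : RB d (p ^ (n + 1)) ψ F B C)
    [DecidableEq (DirichletCharacter ℂ (d * p ^ (n + 1)))] :
    DirichletCharacter.changeLevel (dvd_mul_right d (p ^ (n + 1))) (psiC ψ) ∈ (XM (d * p ^ (n + 1)) B C).erase 1 := by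
  rw [Finset.mem_erase]
  constructor
  · intro h
    exact psiC_ne Q ((DirichletCharacter.changeLevel_eq_one_iff _).1 h)
  · rw [mem_XM]
    intro u hu
    have h := ((r.hH u).1 hu).2
    rw [DirichletCharacter.changeLevel_eq_cast_of_dvd, ← ZMod.unitsMap_val (dvd_mul_right d (p ^ (n + 1))), psiC_apply, h]
    simp

private theorem Bk_kap {d p n : ℕ} [NeZero d] [Fact p.Prime] (hpd : p.Coprime d)
    {ψ : (ZMod d)ˣ →* ℤˣ} (Q : QH d ψ)
    {F B C : Type} [Field F] [NumberField F] [Field B] [NumberField B] [Field C] [NumberField C] [Algebra F B] [Algebra B C]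
    [IsCyclotomicExtension {d * p ^ (n + 1)} ℚ C] (r : RB d (p ^ (n + 1)) ψ F B C)
    [DecidableEq (DirichletCharacter ℂ (d * p ^ (n + 1)))] :
    ∏ χ ∈ (XM (d * p ^ (n + 1)) B C).erase 1, kap p n hpd ψ χ =
      (2 * d.totient * p ^ n) ^ (Module.finrank ℚ B - 1) * (cE p hpd ψ : ℝ) := by
  unfold kap
  rw [Finset.prod_mul_distrib, Finset.prod_const, Bk_card]
  congr 1
  refine (Finset.prod_eq_single (DirichletCharacter.changeLevel (dvd_mul_right d (p ^ (n + 1))) (psiC ψ))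
    (fun χ _ hne => if_neg hne) (fun h => absurd (Bk_mem Q r) h)).trans ?_
  exact if_pos rfl

theorem class_index {d p n : ℕ} [NeZero d] [Fact p.Prime] (hp5 : 5 ≤ p) (hpd : p.Coprime d) (h9 : ¬ 9 ∣ d)
    {ψ : (ZMod d)ˣ →* ℤˣ} (Q : QH d ψ)
    {F B C : Type} [Field F] [NumberField F] [Field B] [NumberField B] [Field C] [NumberField C] [Algebra F B] [Algebra B C]
    [IsCyclotomicExtension {d * p ^ (n + 1)} ℚ C] (r : RB d (p ^ (n + 1)) ψ F B C) (t : 𝓞 B) (ht : t ≠ 0)
    (ht2 : algebraMap B C (t : B) = tauC (n := n) hpd r.ξ r.z ψ)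
    (hu : ∀ g : B ≃ₐ[ℚ] B, ∃ η : (𝓞 B)ˣ, g (t : B) = ((η : 𝓞 B) : B) * (t : B)) :
    (XU t ht).index ≠ 0 ∧
      padicValNat 3 (XU t ht).index = padicValNat 3 (classNumber B) + padicValNat 3 (cE p hpd ψ) := by
  classical
  have hp : p.Prime := Fact.out
  have hreal : IsTotallyReal B := r.real
  have hdf : d.Coprime (p ^ (n + 1)) := (Nat.Coprime.pow_left _ hpd).symm
  have hf : 2 < p ^ (n + 1) := by
    have h : p ≤ p ^ (n + 1) := Nat.le_self_pow (Nat.succ_ne_zero n) p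
    omega
  obtain ⟨Φ, h1, h2⟩ := emb2 hdf C r.hξ r.hz
  have hI := index_formula (d * p ^ (n + 1)) B C Φ t ht hu (kap p n hpd ψ) (fun χ hχ => by
    rw [ht2]
    exact kap_eq hpd Q r Φ h1 h2 χ hχ)
  rw [card_HM_B hdf hf Q r, Bk_kap hpd Q r] at hI
  -- nonvanishing
  have hφ : d.totient ≠ 0 := (Nat.totient_pos.2 (Nat.pos_of_ne_zero (NeZero.ne d))).ne'
  have hφR : (d.totient : ℝ) ^ (Module.finrank ℚ B - 1) ≠ 0 := pow_ne_zero _ (by exact_mod_cast hφ)
  have hcE : cE p hpd ψ ≠ 0 := by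
    unfold cE
    split_ifs <;> omega
  have hh : classNumber B ≠ 0 := classNumber_ne_zero B
  have hcn : ∏ χ ∈ (XM (d * p ^ (n + 1)) B C).erase 1, χ.conductor ≠ 0 :=
    Finset.prod_ne_zero_iff.2 fun χ _ => χ.conductor_ne_zero
  have hP : p ^ n ≠ 0 := pow_ne_zero _ hp.ne_zero
  have hds : (discr B).natAbs ≠ 0 := Int.natAbs_ne_zero.2 (discr_ne_zero B)
  -- the equation in the reals without the factor of the totient
  have hI2 : ((XU t ht).index : ℝ) * Real.sqrt |(discr B : ℝ)| =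
      2 ^ (Module.finrank ℚ B - 1) * (classNumber B : ℝ) * ((2 * p ^ n) ^ (Module.finrank ℚ B - 1) * (cE p hpd ψ : ℝ)) *
        ∏ χ ∈ (XM (d * p ^ (n + 1)) B C).erase 1, Real.sqrt χ.conductor := by
    apply mul_left_cancel₀ hφR
    have e : ((2 : ℝ) * d.totient * p ^ n) ^ (Module.finrank ℚ B - 1) =
        (d.totient : ℝ) ^ (Module.finrank ℚ B - 1) * (2 * p ^ n) ^ (Module.finrank ℚ B - 1) := by
      rw [← mul_pow]
      congr 1
      ring
    rw [e] at hI
    linear_combination hI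
  have hsq : ((∏ χ ∈ (XM (d * p ^ (n + 1)) B C).erase 1, Real.sqrt χ.conductor) : ℝ) ^ 2 =
      ((∏ χ ∈ (XM (d * p ^ (n + 1)) B C).erase 1, χ.conductor : ℕ) : ℝ) := by
    rw [← Finset.prod_pow, Nat.cast_prod]
    exact Finset.prod_congr rfl fun χ _ => Real.sq_sqrt (Nat.cast_nonneg _)
  have hds2 : (Real.sqrt |(discr B : ℝ)|) ^ 2 = (((discr B).natAbs : ℕ) : ℝ) := by
    rw [Real.sq_sqrt (abs_nonneg _), Nat.cast_natAbs, Int.cast_abs]
  have hN : (XU t ht).index ^ 2 * (discr B).natAbs =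
      (2 ^ (Module.finrank ℚ B - 1) * classNumber B * ((2 * p ^ n) ^ (Module.finrank ℚ B - 1) * cE p hpd ψ)) ^ 2 *
        ∏ χ ∈ (XM (d * p ^ (n + 1)) B C).erase 1, χ.conductor := by
    have h3 := congrArg (fun x : ℝ => x ^ 2) hI2
    simp only [mul_pow _ _ 2] at h3
    rw [hsq, hds2] at h3
    have h4 : (((XU t ht).index ^ 2 * (discr B).natAbs : ℕ) : ℝ) =
        (((2 ^ (Module.finrank ℚ B - 1) * classNumber B *
          ((2 * p ^ n) ^ (Module.finrank ℚ B - 1) * cE p hpd ψ)) ^ 2 *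
        ∏ χ ∈ (XM (d * p ^ (n + 1)) B C).erase 1, χ.conductor : ℕ) : ℝ) := by
      push_cast at h3 ⊢
      linear_combination h3
    exact_mod_cast h4
  have hK : (2 ^ (Module.finrank ℚ B - 1) * classNumber B * ((2 * p ^ n) ^ (Module.finrank ℚ B - 1) * cE p hpd ψ)) ≠ 0 :=
    mul_ne_zero (mul_ne_zero (by positivity) hh)
      (mul_ne_zero (pow_ne_zero _ (mul_ne_zero two_ne_zero hP)) hcE)
  have hi : (XU t ht).index ≠ 0 := by
    intro h0
    rw [h0, zero_pow two_ne_zero, zero_mul] at hN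
    exact mul_ne_zero (pow_ne_zero 2 hK) hcn hN.symm
  refine ⟨hi, ?_⟩
  have f3 : Fact (Nat.Prime 3) := ⟨Nat.prime_three⟩
  have h3p : ¬ 3 ∣ p := by
    intro h
    have := (Nat.prime_dvd_prime_iff_eq Nat.prime_three hp).1 h
    omega
  have v2 : padicValNat 3 2 = 0 := padicValNat.eq_zero_of_not_dvd (by norm_num)
  have vp : padicValNat 3 p = 0 := padicValNat.eq_zero_of_not_dvd h3p
  have hv := congrArg (padicValNat 3) hN
  rw [padicValNat.mul (pow_ne_zero 2 hi) hds, padicValNat.pow,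
    padicValNat.mul (pow_ne_zero 2 hK) hcn, padicValNat.pow,
    padicValNat.mul (mul_ne_zero (by positivity) hh)
      (mul_ne_zero (pow_ne_zero _ (mul_ne_zero two_ne_zero hP)) hcE),
    padicValNat.mul (by positivity) hh,
    padicValNat.mul (pow_ne_zero _ (mul_ne_zero two_ne_zero hP)) hcE,
    padicValNat.pow, v2, padicValNat.pow,
    padicValNat.mul two_ne_zero hP, v2, padicValNat.pow, vp] at hv
  have hdc : padicValNat 3 (discr B).natAbs =
      padicValNat 3 (∏ χ ∈ (XM (d * p ^ (n + 1)) B C).erase 1, χ.conductor) := by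
    by_cases h3 : 3 ∣ d
    · rw [disc_ram hp5 hpd h3 h9 Q r, cond_ram hp5 hpd h3 h9 Q r]
    · have h3N : ¬ 3 ∣ d * p ^ (n + 1) := by
        intro h
        rcases (Nat.Prime.dvd_mul Nat.prime_three).1 h with h | h
        · exact h3 h
        · exact h3p (Nat.prime_three.dvd_of_dvd_pow h)
      rw [padicValNat.eq_zero_of_not_dvd (discr_three _ h3N B C),
        padicValNat.eq_zero_of_not_dvd (cond_three _ h3N _)]
  rw [hdc] at hv
  omega

end H11R
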