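import Pool.Agent.H11.T3R.Ac
import Pool.Agent.H11.T3R.Bc
import Pool.Agent.H11.T3R.Bf

/-!
ROW Bl (norm compatibility; about 170 lines).

`A ⊆ B` of levels `p^(m+1)`, `p^(n+1)`, `q = p^(n-m)`. Claim: `N_{B/A}(τ_B) = τ_A ^ q` and `[B : A] = q`.

PROOF. (1) `[B:ℚ] = φ(p^(n+1))`, `[A:ℚ] = φ(p^(m+1))` by `card_HM` and `card_HM_B` (`|(ZMod N)ˣ| = φ(d) φ(f)`), so `[B:A] = p^(n-m)` (`finrank_mul_finrank`, `totient_prime_pow_succ`; if `m = n` it is `1`).
(2) Norm as a product over `Gal(B/A)` (`Algebra.norm_eq_prod_automorphisms`, `B/A` is Galois as `B/ℚ` is abelian). An element `g` of `Gal(B/A)` is the restriction of some `s_w`, `w ∈ (ZMod (d p^(n+1)))ˣ`; `s_w` fixes `A`. With `comm1`, `cξ`, `cz` and `rA.hH`: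
    the restriction of `s_w` to `CA` corresponds to the reduction `w'` of `w` modulo `d p^(m+1)` (`IsCyclotomicExtension.Rat.galEquivZMod_restrictNormal_apply`, or compare the actions on `rA.ξ`, `rA.z`), so `ψ(w_d) = 1` and `w_f ≡ ± 1 mod p^(m+1)`.
    Conversely every such `w` gives an element of `Gal(B/A)`. So `Gal(B/A)` is in bijection with the `v ∈ (ZMod p^(n+1))ˣ`, `v ≡ 1 mod p^(m+1)` (choose `w = (1, v)`, `crt_exists`; these `v` are `p^(n-m)` in number, different `v` give different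
    restrictions to `B` since `v ≠ ± v'`... `v v'^{-1} = -1` is impossible modulo `p`): `g_v`.
(3) `algebraMap B CB (N τ_B) = ∏_v s_(1,v) tauC = (∏_v dC z v)^(p^n) (∏_v eC ξ z ψ v)^(p^n) kC^(3 ε^n q)` (`act_tau`).
    `∏_v (1 - x z^v) = 1 - x^q z^q` over `v ≡ 1 mod p^(m+1)` (the `z^v = z η^j`, `η = z^(p^(m+1))` a primitive `q`-th root of unity, `j < q`; `∏_j (1 - y η^j) = 1 - y^q`: `IsPrimitiveRoot.pow_sub_pow_eq_prod_sub_mul`, see `Dre_prod` in
    Pool/Agent/H73/WT/Dre.lean), the same with inverses. So `∏_v dC z v = dC (z^q) 1` and `∏_v eC ξ z ψ v = eC (ξ^q) (z^q) ψ 1` (as `(ξ^t)^q = (ξ^q)^t`), the images of `dC rA.z 1`, `eC rA.ξ rA.z ψ 1` (`cξ`, `cz`).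
    `kC (ξ^q) ψ = ∏_t (dC ξ (q t))^ψ(t) = kC ξ ψ ^ ψ(q)`, `ψ(q) = ε^(n-m)` (as in `act_kC`), so `kC ξ ψ ^ (3 ε^n q) = (kC (ξ^q) ψ)^(3 ε^m q)`, because `ε^(n-m) ε^m = ε^n`, `(ε^(n-m))^2 = 1`. And `p^n = p^m q`. So the product is the image of
    `(tauC .. rA.ξ rA.z)^q = (algebraMap A CA τ_A)^q`. Injectivity of `A → CB` (`comm1`).
-/

set_option autoImplicit false

open NumberField H5SW

namespace H11R

section alg

variable {K : Type} [Field K]

theorem Bl_prod {q : ℕ} (hq : 0 < q) {η : K} (hη : IsPrimitiveRoot η q) (y : K) :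
    ∏ j ∈ Finset.range q, (1 - y * η ^ j) = 1 - y ^ q := by
  classical
  have h := hη.pow_sub_pow_eq_prod_sub_mul 1 y hq
  have e : Polynomial.nthRootsFinset q (1 : K) = (Finset.range q).image (fun j => η ^ j) := by
    symm
    apply Finset.eq_of_subset_of_card_le
    · intro z hz
      obtain ⟨i, _, rfl⟩ := Finset.mem_image.mp hz
      rw [Polynomial.mem_nthRootsFinset hq, ← pow_mul, mul_comm, pow_mul, hη.pow_eq_one, one_pow]
    · rw [hη.card_nthRootsFinset, Finset.card_image_of_injOn, Finset.card_range]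
      intro i hi k hk h
      exact hη.pow_inj (Finset.mem_range.mp (Finset.mem_coe.mp hi))
        (Finset.mem_range.mp (Finset.mem_coe.mp hk)) h
  rw [one_pow, e, Finset.prod_image] at h
  · rw [h]
    refine Finset.prod_congr rfl fun i _ => ?_
    ring
  · intro i hi k hk h
    exact hη.pow_inj (Finset.mem_range.mp (Finset.mem_coe.mp hi))
      (Finset.mem_range.mp (Finset.mem_coe.mp hk)) h

theorem Bl_cop (p m n j : ℕ) : (1 + p ^ (m + 1) * j).Coprime (p ^ (n + 1)) := by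
  apply Nat.Coprime.pow_right
  have : 1 + p ^ (m + 1) * j = 1 + p * (p ^ m * j) := by ring
  rw [this]
  simp

/-- the unit `1 + p^(m+1) j` modulo `p^(n+1)` -/
noncomputable def Bl_v (p m n : ℕ) (j : ℕ) : (ZMod (p ^ (n + 1)))ˣ :=
  ZMod.unitOfCoprime (1 + p ^ (m + 1) * j) (Bl_cop p m n j)

theorem Bl_pow {p m n : ℕ} {z : K} (hz : IsPrimitiveRoot z (p ^ (n + 1))) (j : ℕ) :
    z ^ ((Bl_v p m n j : (ZMod (p ^ (n + 1)))ˣ) : ZMod (p ^ (n + 1))).val =
      z * (z ^ (p ^ (m + 1))) ^ j := by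
  rw [Bl_v, ZMod.coe_unitOfCoprime, ZMod.val_natCast, ← pow_eq_pow_mod _ hz.pow_eq_one, pow_add,
    pow_one, pow_mul]

theorem Bl_eta {p m n : ℕ} [hp : Fact p.Prime] (hmn : m ≤ n) {z : K}
    (hz : IsPrimitiveRoot z (p ^ (n + 1))) : IsPrimitiveRoot (z ^ (p ^ (m + 1))) (p ^ (n - m)) := by
  apply hz.pow (pow_pos hp.out.pos _)
  rw [← pow_add]
  congr 1
  omega

theorem Bl_aC {p m n : ℕ} [hp : Fact p.Prime] (hmn : m ≤ n) {z : K}
    (hz : IsPrimitiveRoot z (p ^ (n + 1))) (x : K) :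
    ∏ j ∈ Finset.range (p ^ (n - m)),
      (1 - x * z ^ ((Bl_v p m n j : (ZMod (p ^ (n + 1)))ˣ) : ZMod (p ^ (n + 1))).val) *
        (1 - (x * z ^ ((Bl_v p m n j : (ZMod (p ^ (n + 1)))ˣ) : ZMod (p ^ (n + 1))).val)⁻¹) =
      (1 - x ^ (p ^ (n - m)) * z ^ (p ^ (n - m))) *
        (1 - (x ^ (p ^ (n - m)) * z ^ (p ^ (n - m)))⁻¹) := by
  have hη := Bl_eta hmn hz
  have hq : 0 < p ^ (n - m) := pow_pos hp.out.pos _
  rw [Finset.prod_mul_distrib]
  congr 1
  · rw [← mul_pow, ← Bl_prod hq hη]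
    refine Finset.prod_congr rfl fun j _ => ?_
    rw [Bl_pow hz]
    ring
  · rw [← mul_pow, ← inv_pow, ← Bl_prod hq hη.inv]
    refine Finset.prod_congr rfl fun j _ => ?_
    rw [Bl_pow hz, inv_pow, ← mul_inv, mul_assoc]

theorem Bl_one {p m : ℕ} [hp : Fact p.Prime] :
    (((1 : (ZMod (p ^ (m + 1)))ˣ) : ZMod (p ^ (m + 1)))).val = 1 := by
  rw [Units.val_one]
  apply ZMod.val_one''
  intro h
  have : 1 < p ^ (m + 1) := Nat.one_lt_pow (Nat.succ_ne_zero m) hp.out.one_lt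
  omega

theorem Bl_dC {p m n : ℕ} [hp : Fact p.Prime] (hmn : m ≤ n) {z : K}
    (hz : IsPrimitiveRoot z (p ^ (n + 1))) :
    ∏ j ∈ Finset.range (p ^ (n - m)), dC z (Bl_v p m n j) =
      dC (z ^ (p ^ (n - m))) (1 : (ZMod (p ^ (m + 1)))ˣ) := by
  have h := Bl_aC hmn hz 1
  simp only [one_mul, one_pow] at h
  unfold dC
  rw [h, Bl_one, pow_one]

theorem Bl_eC {p m n d : ℕ} [hp : Fact p.Prime] [NeZero d] (hmn : m ≤ n) {ξ z : K}
    (hz : IsPrimitiveRoot z (p ^ (n + 1))) (ψ : (ZMod d)ˣ →* ℤˣ) :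
    ∏ j ∈ Finset.range (p ^ (n - m)), eC ξ z ψ (Bl_v p m n j) =
      eC (ξ ^ (p ^ (n - m))) (z ^ (p ^ (n - m))) ψ (1 : (ZMod (p ^ (m + 1)))ˣ) := by
  unfold eC
  rw [Finset.prod_comm]
  refine Finset.prod_congr rfl fun t _ => ?_
  rw [Finset.prod_zpow]
  congr 1
  unfold aC
  rw [Bl_aC hmn hz, Bl_one, pow_one, ← pow_mul, ← pow_mul, mul_comm ((t : ZMod d).val)]

theorem Bl_kC {d : ℕ} [NeZero d] (ψ : (ZMod d)ˣ →* ℤˣ) {ξ : K} (hξ : IsPrimitiveRoot ξ d) {q : ℕ}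
    (hq : q.Coprime d) : kC (ξ ^ q) ψ = kC ξ ψ ^ ((ψ (ZMod.unitOfCoprime q hq) : ℤˣ) : ℤ) := by
  have h1 : ∀ t : (ZMod d)ˣ, dC (ξ ^ q) t = dC ξ (ZMod.unitOfCoprime q hq * t) := by
    intro t
    have h2 : (((ZMod.unitOfCoprime q hq * t : (ZMod d)ˣ)) : ZMod d) =
        ((q * (t : ZMod d).val : ℕ) : ZMod d) := by
      rw [Units.val_mul, ZMod.coe_unitOfCoprime, Nat.cast_mul, ZMod.natCast_zmod_val]
    unfold dC
    rw [h2, ZMod.val_natCast, ← pow_eq_pow_mod _ hξ.pow_eq_one, pow_mul]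
  have h3 : ∀ a b : ℤˣ, ((a * b : ℤˣ) : ℤ) * (a : ℤ) = (b : ℤ) := by
    intro a b
    rw [← Units.val_mul, mul_comm (a * b) a, ← mul_assoc, Int.units_mul_self, one_mul]
  unfold kC
  rw [← Finset.prod_zpow]
  refine Fintype.prod_equiv (Equiv.mulLeft (ZMod.unitOfCoprime q hq)) _ _ fun t => ?_
  rw [Equiv.coe_mulLeft, h1, ← zpow_mul, map_mul, h3]

theorem Bl_map {K' : Type} [Field K'] (φ : K →+* K') {p m d : ℕ} [Fact p.Prime] [NeZero d]
    (hpd : p.Coprime d) (ξ z : K) (ψ : (ZMod d)ˣ →* ℤˣ) :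
    φ (tauC (n := m) hpd ξ z ψ) = tauC (n := m) hpd (φ ξ) (φ z) ψ := by
  unfold tauC eC kC aC dC
  simp only [map_mul, map_pow, map_prod, map_zpow₀, map_sub, map_one, map_inv₀]

theorem Bl_tau {p m n d : ℕ} [hp : Fact p.Prime] [NeZero d] (hmn : m ≤ n) (hpd : p.Coprime d)
    {ξ z : K} (hξ : IsPrimitiveRoot ξ d) (hz : IsPrimitiveRoot z (p ^ (n + 1)))
    (ψ : (ZMod d)ˣ →* ℤˣ) :
    ∏ j ∈ Finset.range (p ^ (n - m)), (dC z (Bl_v p m n j) ^ (p ^ n) *
      (eC ξ z ψ (Bl_v p m n j) ^ (p ^ n) *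
        kC ξ ψ ^ (3 * ((ψ (ZMod.unitOfCoprime p hpd) ^ n : ℤˣ) : ℤ)))) =
      (tauC (n := m) hpd (ξ ^ (p ^ (n - m))) (z ^ (p ^ (n - m))) ψ) ^ (p ^ (n - m)) := by
  rw [Finset.prod_mul_distrib, Finset.prod_mul_distrib, Finset.prod_pow, Finset.prod_pow,
    Bl_dC hmn hz, Bl_eC hmn hz, Finset.prod_const, Finset.card_range]
  have hc : (p ^ (n - m)).Coprime d := hpd.pow_left _
  have e1 : ZMod.unitOfCoprime (p ^ (n - m)) hc = ZMod.unitOfCoprime p hpd ^ (n - m) := by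
    apply Units.ext
    rw [Units.val_pow_eq_pow_val, ZMod.coe_unitOfCoprime, ZMod.coe_unitOfCoprime, Nat.cast_pow]
  have e2 : kC (ξ ^ (p ^ (n - m))) ψ ^ (3 * ((ψ (ZMod.unitOfCoprime p hpd) ^ m : ℤˣ) : ℤ)) =
      kC ξ ψ ^ (3 * ((ψ (ZMod.unitOfCoprime p hpd) ^ n : ℤˣ) : ℤ)) := by
    rw [Bl_kC ψ hξ hc, ← zpow_mul, e1, map_pow]
    congr 1
    have e3 : ψ (ZMod.unitOfCoprime p hpd) ^ n =
        ψ (ZMod.unitOfCoprime p hpd) ^ (n - m) * ψ (ZMod.unitOfCoprime p hpd) ^ m := by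
      rw [← pow_add]
      congr 1
      omega
    rw [e3, Units.val_mul]
    ring
  unfold tauC
  rw [e2, mul_pow, ← pow_mul, ← pow_add, Nat.add_sub_cancel' hmn, mul_pow, mul_assoc]

end alg

variable {p m n d : ℕ} [Fact p.Prime] [NeZero d] {ψ : (ZMod d)ˣ →* ℤˣ} {M F A B CA CB : Type} [Field M]
    [NumberField M] [Field F] [NumberField F] [Field A] [NumberField A] [Field B] [NumberField B] [Field CA] [NumberField CA]
    [Field CB] [NumberField CB] [Algebra M F] [Algebra M A] [Algebra F B] [Algebra A B] [Algebra A CA] [Algebra B CB]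
    [Algebra CA CB] [IsCyclotomicExtension {d * p ^ (m + 1)} ℚ CA] [IsCyclotomicExtension {d * p ^ (n + 1)} ℚ CB]

omit [Algebra M F] [Algebra M A] [Algebra A B] [Algebra CA CB] [NumberField M] [Field M] [NumberField A] [Field A] [Algebra A CA] [Field CA] [NumberField CA] [IsCyclotomicExtension {d * p ^ (m + 1)} ℚ CA] in
theorem Bl_rank (hpd : p.Coprime d) (Q : QH d ψ) (r : RB d (p ^ (n + 1)) ψ F B CB) :
    Module.finrank ℚ B = (p ^ (n + 1)).totient := by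
  have hc : d.Coprime (p ^ (n + 1)) := (hpd.symm).pow_right _
  have h1 := card_HM (d * p ^ (n + 1)) B CB
  rw [card_HM_B hc r.rF.two_lt Q r, Nat.card_eq_fintype_card, ZMod.card_units_eq_totient,
    Nat.totient_mul hc] at h1
  exact Nat.eq_of_mul_eq_mul_left (Nat.totient_pos.2 (NeZero.pos d)) h1

theorem finrank_BA (hpd : p.Coprime d) (Q : QH d ψ) (T : RP2 p m n d ψ M F A B CA CB) : Module.finrank A B = p ^ (n - m) := by
  have hp : p.Prime := Fact.out
  have hmn := T.rp.hmn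
  have h1 := Bl_rank hpd Q T.rB
  have h2 := Bl_rank hpd Q T.rA
  rw [Nat.totient_prime_pow_succ hp] at h1 h2
  have h3 := Module.finrank_mul_finrank ℚ A B
  rw [h1, h2] at h3
  have h4 : p ^ n * (p - 1) = p ^ m * (p - 1) * p ^ (n - m) := by
    have : p ^ n = p ^ m * p ^ (n - m) := by
      rw [← pow_add, Nat.add_sub_cancel' hmn]
    rw [this]
    ring
  rw [h4] at h3
  refine Nat.eq_of_mul_eq_mul_left ?_ h3
  have := hp.one_lt
  exact Nat.mul_pos (pow_pos hp.pos _) (by omega)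

omit [Fact p.Prime] in
theorem Bl_red (j : ℕ) (h : p ^ (m + 1) ∣ p ^ (n + 1)) :
    ZMod.unitsMap h (Bl_v p m n j) = 1 := by
  apply Units.ext
  rw [ZMod.unitsMap_val, Bl_v, ZMod.coe_unitOfCoprime, ZMod.cast_natCast h, Units.val_one]
  push_cast
  have : ((p : ZMod (p ^ (m + 1))) ^ (m + 1)) = 0 := by
    rw [← Nat.cast_pow]
    exact ZMod.natCast_self _
  rw [this, zero_mul, add_zero]

omit [NumberField M] [NumberField F] [NumberField A] [NumberField B] [Field M] [Field F] [Field A] [Field B] [Algebra M F] [Algebra M A] [Algebra F B] [Algebra A B] [Algebra A CA] [Algebra B CB] in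
/-- the automorphisms which are `1` modulo `d p^(m+1)` fix `CA` -/
theorem Bl_fix (hpd : p.Coprime d) (hmn : m ≤ n) (w : (ZMod (d * p ^ (n + 1)))ˣ) {j : ℕ}
    (h1 : ZMod.unitsMap (dvd_mul_right d (p ^ (n + 1))) w = 1)
    (h2 : ZMod.unitsMap (dvd_mul_left (p ^ (n + 1)) d) w = Bl_v p m n j) (y : CA) :
    (IsCyclotomicExtension.Rat.galEquivZMod (d * p ^ (n + 1)) CB).symm w (algebraMap CA CB y) =
      algebraMap CA CB y := by
  have hd : p ^ (m + 1) ∣ p ^ (n + 1) := pow_dvd_pow p (Nat.succ_le_succ hmn)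
  have hN : d * p ^ (m + 1) ∣ d * p ^ (n + 1) := Nat.mul_dvd_mul_left d hd
  have hc : d.Coprime (p ^ (m + 1)) := (hpd.symm).pow_right _
  have e0 : ZMod.unitsMap hN w = 1 := by
    apply crt_ext hc
    · rw [map_one, ← h1, ← MonoidHom.comp_apply, ZMod.unitsMap_comp]
    · rw [map_one, ← Bl_red j hd, ← h2, ← MonoidHom.comp_apply, ZMod.unitsMap_comp,
        ← MonoidHom.comp_apply, ZMod.unitsMap_comp]
  let F1 : CA →ₐ[ℚ] CB := RingHom.toRatAlgHom (algebraMap CA CB)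
  let s : CB →ₐ[ℚ] CB :=
    ((IsCyclotomicExtension.Rat.galEquivZMod (d * p ^ (n + 1)) CB).symm w : CB ≃ₐ[ℚ] CB).toAlgHom
  have hζ := IsCyclotomicExtension.zeta_spec (d * p ^ (m + 1)) ℚ CA
  have key : s.comp F1 = F1 := by
    apply (hζ.powerBasis ℚ).algHom_ext
    rw [IsPrimitiveRoot.powerBasis_gen]
    set ζ := IsCyclotomicExtension.zeta (d * p ^ (m + 1)) ℚ CA
    have hx : (algebraMap CA CB ζ) ^ (d * p ^ (m + 1)) = 1 := by
      rw [← map_pow, hζ.pow_eq_one, map_one]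
    have h3 := act_root hN (algebraMap CA CB ζ) hx w
    rw [e0, Units.val_one] at h3
    have h4 : (1 : ZMod (d * p ^ (m + 1))).val = 1 := by
      apply ZMod.val_one''
      intro h
      have h5 : 1 < p ^ (m + 1) := Nat.one_lt_pow (Nat.succ_ne_zero m) (Fact.out : p.Prime).one_lt
      have h6 := Nat.le_mul_of_pos_left (p ^ (m + 1)) (NeZero.pos d)
      omega
    rw [h4, pow_one] at h3
    exact h3
  exact congrArg (fun f : CA →ₐ[ℚ] CB => f y) key

theorem norm_tau (hpd : p.Coprime d) (Q : QH d ψ) (T : RP2 p m n d ψ M F A B CA CB) (tA : 𝓞 A) (tB : 𝓞 B)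
    (hA : algebraMap A CA (tA : A) = tauC (n := m) hpd T.rA.ξ T.rA.z ψ)
    (hB : algebraMap B CB (tB : B) = tauC (n := n) hpd T.rB.ξ T.rB.z ψ) :
    Algebra.norm A (tB : B) = (tA : A) ^ (p ^ (n - m)) := by
  have hmn := T.rp.hmn
  have hp : p.Prime := Fact.out
  have hc : d.Coprime (p ^ (n + 1)) := (hpd.symm).pow_right _
  have hgB : IsAbelianGalois ℚ B := gal_of_sub (d * p ^ (n + 1)) B CB
  have hgBA : IsAbelianGalois A B := IsAbelianGalois.tower_top ℚ A B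
  have hex : ∀ j : ℕ, ∃ w : (ZMod (d * p ^ (n + 1)))ˣ,
      ZMod.unitsMap (dvd_mul_right d (p ^ (n + 1))) w = 1 ∧
        ZMod.unitsMap (dvd_mul_left (p ^ (n + 1)) d) w = Bl_v p m n j := fun j =>
    crt_exists hc 1 (Bl_v p m n j)
  choose w hw1 hw2 using hex
  let s : ℕ → (CB ≃ₐ[ℚ] CB) := fun j =>
    (IsCyclotomicExtension.Rat.galEquivZMod (d * p ^ (n + 1)) CB).symm (w j)
  have hr : ∀ (j : ℕ) (x : B), algebraMap B CB ((s j).restrictNormal B x) = s j (algebraMap B CB x) :=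
    fun j x => AlgEquiv.restrictNormal_commutes (s j) B x
  have hinj : Function.Injective (algebraMap B CB) := (algebraMap B CB).injective
  let g : ℕ → (B ≃ₐ[A] B) := fun j =>
    AlgEquiv.ofRingEquiv (f := ((s j).restrictNormal B).toRingEquiv) (fun a => by
      apply hinj
      change algebraMap B CB ((s j).restrictNormal B (algebraMap A B a)) = _
      rw [hr, ← T.comm1]
      exact Bl_fix hpd hmn (w j) (hw1 j) (hw2 j) _)
  have hg : ∀ (j : ℕ) (x : B), algebraMap B CB (g j x) = s j (algebraMap B CB x) := fun j x => hr j x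
  have gi : Function.Injective (fun j : Fin (p ^ (n - m)) => g j) := by
    intro j k hjk
    have hjk' : g j = g k := hjk
    have h1 : (w k)⁻¹ * w j ∈ HM (d * p ^ (n + 1)) B CB := by
      rw [mem_HM]
      intro x
      rw [map_mul, map_inv, AlgEquiv.mul_apply]
      change (s k)⁻¹ (s j (algebraMap B CB x)) = _
      rw [← hg, hjk', hg]
      rw [← AlgEquiv.mul_apply, inv_mul_cancel, AlgEquiv.one_apply]
    rw [T.rB.hH, map_mul, map_inv, hw2, hw2] at h1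
    rcases h1.1 with h2 | h2
    · rw [inv_mul_eq_one] at h2
      have h3 := Bl_pow (m := m) T.rB.hz (j : ℕ)
      rw [← h2, Bl_pow T.rB.hz] at h3
      have h4 := mul_left_cancel₀ (T.rB.hz.ne_zero (pow_pos hp.pos _).ne') h3
      exact Fin.ext ((Bl_eta hmn T.rB.hz).pow_inj k.2 j.2 h4).symm
    · exfalso
      rw [inv_mul_eq_iff_eq_mul, mul_neg_one] at h2
      have hd : p ^ (m + 1) ∣ p ^ (n + 1) := pow_dvd_pow p (Nat.succ_le_succ hmn)
      have h3 := congrArg (ZMod.unitsMap hd) h2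
      have h4 : ZMod.unitsMap hd (-Bl_v p m n k) = -1 := by
        rw [← Bl_red (k : ℕ) hd]
        exact Units.map_neg _ _
      rw [Bl_red, h4] at h3
      have h5 : (1 : ZMod (p ^ (m + 1))) = -1 := congrArg Units.val h3
      have h6 : ((2 : ℕ) : ZMod (p ^ (m + 1))) = 0 := by
        push_cast
        linear_combination h5
      rw [ZMod.natCast_eq_zero_iff] at h6
      have h7 := T.rA.rF.two_lt
      have h8 := Nat.le_of_dvd (by norm_num) h6
      omega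
  have gb : Function.Bijective (fun j : Fin (p ^ (n - m)) => g j) := by
    apply gi.bijective_of_nat_card_le
    rw [IsGalois.card_aut_eq_finrank, finrank_BA hpd Q T, Nat.card_eq_fintype_card, Fintype.card_fin]
  have hsT : ∀ j, s j (tauC (n := n) hpd T.rB.ξ T.rB.z ψ) = dC T.rB.z (Bl_v p m n j) ^ (p ^ n) *
      (eC T.rB.ξ T.rB.z ψ (Bl_v p m n j) ^ (p ^ n) *
        kC T.rB.ξ ψ ^ (3 * ((ψ (ZMod.unitOfCoprime p hpd) ^ n : ℤˣ) : ℤ))) := by
    intro j
    have h := act_tau hpd T.rB.hξ T.rB.hz (ψ := ψ) (w j)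
    rw [hw1, hw2, map_one, Units.val_one, zpow_one] at h
    exact h
  have h1 : algebraMap A B (Algebra.norm A (tB : B)) = ∏ j ∈ Finset.range (p ^ (n - m)), g j (tB : B) := by
    rw [Algebra.norm_eq_prod_automorphisms, ← Fin.prod_univ_eq_prod_range (fun j => g j (tB : B))]
    exact ((Equiv.ofBijective _ gb).prod_comp (fun σ : B ≃ₐ[A] B => σ (tB : B))).symm
  have h2 : algebraMap B CB (algebraMap A B (Algebra.norm A (tB : B))) =
      algebraMap B CB (algebraMap A B ((tA : A) ^ (p ^ (n - m)))) := by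
    rw [h1, map_prod]
    simp only [hg, hB, hsT]
    rw [Bl_tau hmn hpd T.rB.hξ T.rB.hz ψ, ← T.comm1, map_pow, map_pow, hA, Bl_map, T.cξ, T.cz]
  exact (algebraMap A B).injective (hinj h2)

end H11R
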