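import Pool.Agent.H11.T3R.DfC
import Pool.Agent.H5.SW.U1

/-!
ROW Ca (units of relative norm one; about 150 lines).

PROOF. Adapt Pool/Agent/H5/SW/U1.lean from `U1_norm_pw` on (its three part version: row RU, Pool/Agent/H55/T3/RU.lean); the public lemmas `U1_M`, `U1_rankM`, `U1_rankU`, `U1_range`, `U1_rank`, `U1_nu`, `U1_mem`, `U1_norm_mul`, `U1_norm_pow` there can be
reused where they do not mention `RP`/`RC` (otherwise copy: what they need is that `A`, `B` are totally real and `B/ℚ` is abelian Galois). `S.tw` replaces `pw`, `S.twHom` the homomorphism, `S.tw_neg`, `S.tw_smul`.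
(1) `tw_norm`: `N_{B/A} (tw θ) = 1` for `Rel A B θ`: `tw_coe (rel_sumT hθ)`; `N` = product over `Gal(B/A)` of the conjugates (`Algebra.norm_eq_prod_automorphisms`), `∏_h ∏_g (h g t)^θ(g) = ∏_g (g t)^(∑_h θ(h⁻¹ g)) = 1` (`Rel`, commutativity).
(2) `tw_cube`: if `tw θ = u^3` and `Rel θ`, then `θ = 3 θ'`, `Rel θ'`, `u = tw θ'` (`HC`, `tw_smul`, `unit_cube_inj`).
(3) injectivity: `tw θ = 1`, `Rel θ` imply `3^k ∣ θ g` for all `k` (apply (2) with `u = 1`), so `θ = 0`.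
(4) ranks exactly as in `unit_odd_power`: `{θ | Rel θ}` has rank `[B:ℚ] - [A:ℚ]`, the units of norm one have the same rank (`rank E_B - rank E_A`); for `ε` of norm one some `ε^l = tw θ`, `l ≥ 1`, `Rel θ`; take `l` minimal; if `3 ∣ l`, `l = 3 q`,
then `(ε^q)^3 = tw θ`, so by (2) `ε^q = tw θ'`, contradiction. So `¬ 3 ∣ l`.
-/

set_option autoImplicit false

namespace H11R

open NumberField H5SW

variable {A B : Type} [Field A] [NumberField A] [Field B] [NumberField B] [Algebra A B]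

theorem Ca_gal (S : TS A B) : IsGalois A B := by
  have hG : IsGalois ℚ B := S.galB
  exact IsGalois.tower_top_of_isGalois ℚ A B

theorem tw_norm (S : TS A B) {θ : (B ≃ₐ[ℚ] B) → ℤ} (hθ : Rel A B θ) :
    Algebra.norm A ((S.tw θ : 𝓞 B) : B) = 1 := by
  have hG : IsGalois A B := Ca_gal S
  apply (algebraMap A B).injective
  rw [Algebra.norm_eq_prod_automorphisms, map_one]
  have h1 : ∀ h : B ≃ₐ[A] B, h ((S.tw θ : 𝓞 B) : B) =
      ∏ g : B ≃ₐ[ℚ] B, (g (S.tB : B)) ^ θ ((h.restrictScalars ℚ)⁻¹ * g) := by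
    intro h
    rw [S.tw_coe (rel_sumT hθ), map_prod]
    rw [← Equiv.prod_comp (Equiv.mulLeft (h.restrictScalars ℚ))
      (fun g : B ≃ₐ[ℚ] B => (g (S.tB : B)) ^ θ ((h.restrictScalars ℚ)⁻¹ * g))]
    refine Finset.prod_congr rfl fun g _ => ?_
    rw [map_zpow₀, Equiv.coe_mulLeft, inv_mul_cancel_left]
    rfl
  rw [Finset.prod_congr rfl fun h _ => h1 h, Finset.prod_comm]
  refine Finset.prod_eq_one fun g _ => ?_
  have h2 : ∀ T : Finset (B ≃ₐ[A] B),
      ∏ h ∈ T, (g (S.tB : B)) ^ θ ((h.restrictScalars ℚ)⁻¹ * g) =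
      (g (S.tB : B)) ^ (∑ h ∈ T, θ ((h.restrictScalars ℚ)⁻¹ * g)) := by
    classical
    intro T
    induction T using Finset.induction_on with
    | empty => simp
    | insert a T ha ih =>
      rw [Finset.prod_insert ha, Finset.sum_insert ha, ih, zpow_add₀ (S.gt_ne g)]
  rw [h2]
  have h3 : ∑ h : B ≃ₐ[A] B, θ ((h.restrictScalars ℚ)⁻¹ * g) = 0 := by
    rw [← hθ g, ← Equiv.sum_comp (Equiv.inv (B ≃ₐ[A] B))
      (fun h : B ≃ₐ[A] B => θ (g * h.restrictScalars ℚ))]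
    refine Finset.sum_congr rfl fun h _ => ?_
    rw [S.comm]
    rfl
  rw [h3, zpow_zero]

/-- cubes have exponents divisible by three -/
theorem Ca_cube (S : TS A B) (HC : HCubeT S) {θ : (B ≃ₐ[ℚ] B) → ℤ} (hθ : Rel A B θ)
    {u : (𝓞 B)ˣ} (h : S.tw θ = u ^ 3) :
    ∃ θ' : (B ≃ₐ[ℚ] B) → ℤ, Rel A B θ' ∧ (∀ g, θ g = 3 * θ' g) ∧ u = S.tw θ' := by
  have hreal : IsTotallyReal B := S.realB
  choose θ' hθ' using HC θ hθ u h
  have h4 : Rel A B θ' := by
    intro g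
    have h5 := hθ g
    rw [Finset.sum_congr rfl fun h _ => hθ' (g * h.restrictScalars ℚ), ← Finset.mul_sum] at h5
    omega
  refine ⟨θ', h4, hθ', ?_⟩
  have h6 : S.tw θ = S.tw θ' ^ 3 := by
    have h7 : θ = fun g => 3 * θ' g := funext hθ'
    rw [h7, S.tw_smul]
    rfl
  exact unit_cube_inj (h.symm.trans h6)

theorem Ca_inj (S : TS A B) (HC : HCubeT S) (k : ℕ) :
    ∀ θ : (B ≃ₐ[ℚ] B) → ℤ, Rel A B θ → S.tw θ = 1 → ∀ g, (3 : ℤ) ^ k ∣ θ g := by
  induction k with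
  | zero => intro θ _ _ g; simp
  | succ k ih =>
    intro θ hθ h g
    obtain ⟨θ', h1, h2, h3⟩ := Ca_cube S HC hθ (u := 1) (by rw [h, one_pow])
    rw [h2, pow_succ, mul_comm]
    exact mul_dvd_mul_left 3 (ih θ' h1 h3.symm g)

theorem Ca_zero (S : TS A B) (HC : HCubeT S)
    {θ : (B ≃ₐ[ℚ] B) → ℤ} (hθ : Rel A B θ) (h : S.tw θ = 1) : θ = 0 := by
  funext g
  have h1 := Ca_inj S HC (θ g).natAbs θ hθ h g
  refine Int.eq_zero_of_abs_lt_dvd h1 ?_
  rw [Int.abs_eq_natAbs]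
  exact_mod_cast Nat.lt_pow_self (by norm_num : 1 < 3)

theorem Ca_rankM (S : TS A B) :
    Module.finrank ℚ B ≤ Module.finrank ℚ A + Module.finrank ℤ (U1_M A B) := by
  classical
  have hG : IsGalois A B := Ca_gal S
  have hGL : IsGalois ℚ B := S.galB
  have h1 := Submodule.finrank_quotient_add_finrank (R := ℤ) (LinearMap.ker (U1_S A B))
  have h2 : Module.finrank ℤ (((B ≃ₐ[ℚ] B) → ℤ) ⧸ LinearMap.ker (U1_S A B)) =
      Module.finrank ℤ (LinearMap.range (U1_S A B)) := (U1_S A B).quotKerEquivRange.finrank_eq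
  have h3 : Module.finrank ℤ ((B ≃ₐ[ℚ] B) → ℤ) = Module.finrank ℚ B := by
    rw [Module.finrank_pi, ← Nat.card_eq_fintype_card]
    exact IsGalois.card_aut_eq_finrank ℚ B
  let N : Subgroup (B ≃ₐ[ℚ] B) := (AlgEquiv.restrictScalarsHom (A := B) (S := A) ℚ).range
  have h4 : Nat.card N = Module.finrank A B := by
    rw [← IsGalois.card_aut_eq_finrank A B]
    exact Nat.card_congr (Equiv.ofInjective _ (AlgEquiv.restrictScalarsHom_injective ℚ)).symm
  have h5 : Nat.card ((B ≃ₐ[ℚ] B) ⧸ N) = Module.finrank ℚ A := by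
    have h6 := Subgroup.card_eq_card_quotient_mul_card_subgroup N
    rw [h4, IsGalois.card_aut_eq_finrank ℚ B, ← Module.finrank_mul_finrank ℚ A B] at h6
    exact (Nat.eq_of_mul_eq_mul_right Module.finrank_pos h6).symm
  have h7 : LinearMap.range (U1_S A B) ≤
      LinearMap.range (LinearMap.funLeft ℤ ℤ (QuotientGroup.mk : (B ≃ₐ[ℚ] B) → (B ≃ₐ[ℚ] B) ⧸ N)) := by
    rintro _ ⟨θ, rfl⟩
    refine ⟨fun q => U1_S A B θ q.out, ?_⟩
    funext g
    rw [LinearMap.funLeft_apply]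
    have h8 : ((QuotientGroup.mk g : (B ≃ₐ[ℚ] B) ⧸ N).out)⁻¹ * g ∈ N := by
      rw [← QuotientGroup.eq, QuotientGroup.out_eq']
    obtain ⟨k, hk⟩ := h8
    have h9 : g = (QuotientGroup.mk g : (B ≃ₐ[ℚ] B) ⧸ N).out * k.restrictScalars ℚ := by
      rw [eq_inv_mul_iff_mul_eq] at hk
      exact hk.symm
    generalize (QuotientGroup.mk g : (B ≃ₐ[ℚ] B) ⧸ N).out = g' at h9
    subst h9
    show ∑ h : B ≃ₐ[A] B, θ (g' * h.restrictScalars ℚ) =
      ∑ h : B ≃ₐ[A] B, θ (g' * k.restrictScalars ℚ * h.restrictScalars ℚ)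
    rw [← Equiv.sum_comp (Equiv.mulLeft k)]
    rfl
  have h10 := Submodule.finrank_mono h7
  have h11 : Module.finrank ℤ (LinearMap.range
      (LinearMap.funLeft ℤ ℤ (QuotientGroup.mk : (B ≃ₐ[ℚ] B) → (B ≃ₐ[ℚ] B) ⧸ N))) ≤
      Module.finrank ℚ A := by
    refine (LinearMap.finrank_range_le _).trans ?_
    rw [Module.finrank_pi, ← Nat.card_eq_fintype_card, h5]
  rw [U1_ker] at h1 h2
  omega

theorem unit_third_powerT (S : TS A B) (HC : HCubeT S) (ε : (𝓞 B)ˣ)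
    (hε : Algebra.norm A ((ε : 𝓞 B) : B) = 1) :
    ∃ j : ℕ, ¬ 3 ∣ j ∧ ∃ θ : (B ≃ₐ[ℚ] B) → ℤ, Rel A B θ ∧ ε ^ j = S.tw θ := by
  classical
  have hG : IsGalois A B := Ca_gal S
  have hL := U1_rankU B S.realB
  have hK := U1_rankU A S.realA
  have hM := Ca_rankM S
  have hB := U1_range (U1_nu A B) (Module.finrank A B : ℤ)
    (by exact_mod_cast (Module.finrank_pos (R := A) (M := B)).ne') (by
      intro b
      refine ⟨Additive.ofMul (Units.map (algebraMap (𝓞 A) (𝓞 B) : 𝓞 A →* 𝓞 B) b.toMul), ?_⟩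
      have h1 : U1_nu A B (Additive.ofMul
          (Units.map (algebraMap (𝓞 A) (𝓞 B) : 𝓞 A →* 𝓞 B) b.toMul)) =
          Additive.ofMul (b.toMul ^ Module.finrank A B) := by
        apply congrArg Additive.ofMul
        apply Units.ext
        exact RingOfIntegers.norm_algebraMap A _
      rw [h1, ofMul_pow, natCast_zsmul]
      rfl)
  let Φ : U1_M A B →ₗ[ℤ] LinearMap.ker (U1_nu A B) :=
    LinearMap.codRestrict _ ((S.twHom).toIntLinearMap.comp (U1_M A B).subtype)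
      (fun θ => (U1_mem _).2 (tw_norm S θ.2))
  have hΦ : ∀ θ : U1_M A B, ((Φ θ : LinearMap.ker (U1_nu A B)) : Additive (𝓞 B)ˣ) =
      Additive.ofMul (S.tw θ.1) := fun θ => rfl
  have hinj : Function.Injective Φ := by
    rw [← LinearMap.ker_eq_bot, LinearMap.ker_eq_bot']
    intro θ hθ
    have h1 := hΦ θ
    rw [hθ] at h1
    have h2 : S.tw θ.1 = 1 := by
      have := congrArg Additive.toMul h1
      exact this.symm
    exact Subtype.ext (Ca_zero S HC θ.2 h2)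
  obtain ⟨k, hk, θ, hθ⟩ := U1_rank Φ hinj (by omega) ⟨Additive.ofMul ε, (U1_mem ε).2 hε⟩
  have h1 : ε ^ k = S.tw θ.1 := by
    have h2 := congrArg (fun x : LinearMap.ker (U1_nu A B) => Additive.toMul (x : Additive (𝓞 B)ˣ)) hθ
    exact h2
  -- a positive exponent
  have hex : ∃ l : ℕ, 0 < l ∧ ∃ θ : (B ≃ₐ[ℚ] B) → ℤ, Rel A B θ ∧ ε ^ l = S.tw θ := by
    rcases lt_or_gt_of_ne hk with h3 | h3
    · refine ⟨k.natAbs, by omega, -θ.1, (U1_M A B).neg_mem θ.2, ?_⟩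
      rw [S.tw_neg, ← h1, ← zpow_natCast, ← zpow_neg]
      congr 1
      omega
    · refine ⟨k.natAbs, by omega, θ.1, θ.2, ?_⟩
      rw [← h1, ← zpow_natCast]
      congr 1
      omega
  obtain ⟨hl0, θ0, hθ0, hl1⟩ := Nat.find_spec hex
  refine ⟨Nat.find hex, ?_, θ0, hθ0, hl1⟩
  rintro ⟨q, hq⟩
  rw [hq, mul_comm, pow_mul] at hl1
  obtain ⟨θ', h5, -, h6⟩ := Ca_cube S HC hθ0 hl1.symm
  exact Nat.find_min hex (m := q) (by omega) ⟨by omega, θ', h5, h6⟩

end H11R
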