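import Pool.Agent.H11.T3R.Ca

/-!
ROW Cb (the 3-part of the index is stationary; about 170 lines).

PROOF. `X_B = XU tB`, `X_A = XU tA`, `D = [B:A]`, `¬ 3 ∣ D`, `¬ 3 ∣ q`. Write `N` for the norm of units and `ι` for the inclusion of units (`Units.map` of `𝓞 A → 𝓞 B`).
(1) `N (X_B) ⊆ X_A`: `N (g tB) = g|_A (N tB) = (g|_A tA)^q` (`A/ℚ` is normal: `AlgEquiv.restrictNormal`; the norm commutes with automorphisms: product over `Gal(B/A)` and commutativity); `N(-1) = (-1)^D`. The exponents are pushed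
    forward along `Gal(B/ℚ) → Gal(A/ℚ)`, the total sum is multiplied by `q`, still `0`.
(2) `ι(x)^q ∈ X_B` for `x ∈ X_A`: `(γ tA)^q = N (g tB) = ∏_h h g tB` for a lift `g` of `γ`.
(3) `ε` a unit of `𝓞 B` with `N ε = 1`: `ε^j ∈ X_B`, `¬ 3 ∣ j` (`unit_third_powerT`, `tw_mem (rel_sumT _)`).
(4) Finite groups `Q_B = E_B ⧸ X_B`, `Q_A = E_A ⧸ X_A` (indices `≠ 0`); `N` induces `N' : Q_B → Q_A`, and `x ↦ ι(x)^q` induces `i : Q_A → Q_B`. `N'(i(a)) = a^(D q)`. The kernel of `N'` has order prime to three: if `b^3 = 1`... let `N' b = 1`,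
    `b` the class of `ε`, `N ε = x ∈ X_A`; `ε^(D q) ι(x)^(-q)` has norm `x^(D q) x^(-D q) = 1`, so its `j`-th power is in `X_B`, and `ι(x)^q ∈ X_B`: `b^(D q j) = 1` with `3 ∤ D q j`. The cokernel of `N'` has order prime to three: `a^(D q)` is in
    the image. So `v_3 |Q_B| = v_3 |Q_A|`: `|Q_B| = |ker| |image|`, `|Q_A| = |image| [Q_A : image]`; a finite commutative group in which every element is killed by a number prime to three has order prime to three (Cauchy: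
    `exists_prime_orderOf_dvd_card`). Compare with Pool/Agent/H5/SW/U4.lean (`index_two_part`).
-/

set_option autoImplicit false

namespace H11R

open NumberField H5SW

variable {A B : Type} [Field A] [NumberField A] [Field B] [NumberField B] [Algebra A B]

section group

theorem Cb_le {G H : Type} [CommGroup G] [CommGroup H] [Finite G] [Finite H] (f : G →* H)
    (hf : ∀ a, f a = 1 → ∃ j : ℕ, ¬ 3 ∣ j ∧ a ^ j = 1) :
    padicValNat 3 (Nat.card G) ≤ padicValNat 3 (Nat.card H) := by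
  have : Fact (Nat.Prime 3) := ⟨Nat.prime_three⟩
  have h1 : ¬ 3 ∣ Nat.card f.ker := by
    intro h
    obtain ⟨x, hx⟩ := exists_prime_orderOf_dvd_card' (G := f.ker) 3 h
    obtain ⟨j, hj, hxj⟩ := hf x.1 x.2
    have h2 : x ^ j = 1 := Subtype.ext hxj
    apply hj
    rw [← hx]
    exact orderOf_dvd_of_pow_eq_one h2
  have h2 : Nat.card G = Nat.card f.ker * Nat.card f.range := by
    rw [← Subgroup.index_ker, Subgroup.card_mul_index]
  have h3 : Nat.card f.range ∣ Nat.card H := Subgroup.card_subgroup_dvd_card f.range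
  rw [h2, padicValNat.mul Nat.card_pos.ne' Nat.card_pos.ne', padicValNat.eq_zero_of_not_dvd h1,
    zero_add]
  exact (padicValNat_dvd_iff_le Nat.card_pos.ne').1 (pow_padicValNat_dvd.trans h3)

theorem Cb_index {G H : Type} [CommGroup G] [CommGroup H] (X : Subgroup G) (Y : Subgroup H)
    (hX : X.index ≠ 0) (hY : Y.index ≠ 0) (i : G →* H) (hi : ∀ a ∈ X, i a ∈ Y) (ν : H →* G)
    (hν : ∀ b ∈ Y, ν b ∈ X) {D : ℕ} (hD : ¬ 3 ∣ D) (hνi : ∀ a, ν (i a) = a ^ D)
    (h5 : ∀ ε : H, ν ε ∈ X → ∃ j : ℕ, ¬ 3 ∣ j ∧ ε ^ j ∈ Y) :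
    padicValNat 3 Y.index = padicValNat 3 X.index := by
  have : X.FiniteIndex := ⟨hX⟩
  have : Y.FiniteIndex := ⟨hY⟩
  have : Finite (G ⧸ X) := Subgroup.finite_quotient_of_finiteIndex
  have : Finite (H ⧸ Y) := Subgroup.finite_quotient_of_finiteIndex
  let i' : G ⧸ X →* H ⧸ Y := QuotientGroup.map X Y i hi
  let ν' : H ⧸ Y →* G ⧸ X := QuotientGroup.map Y X ν hν
  apply le_antisymm
  · apply Cb_le ν'
    intro b
    induction b using QuotientGroup.induction_on with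
    | H b =>
      intro hb
      change ((ν b : G) : G ⧸ X) = 1 at hb
      rw [QuotientGroup.eq_one_iff] at hb
      obtain ⟨j, hj, h⟩ := h5 b hb
      refine ⟨j, hj, ?_⟩
      rw [← QuotientGroup.mk_pow, QuotientGroup.eq_one_iff]
      exact h
  · apply Cb_le i'
    intro a
    induction a using QuotientGroup.induction_on with
    | H a =>
      intro ha
      change ((i a : H) : H ⧸ Y) = 1 at ha
      rw [QuotientGroup.eq_one_iff] at ha
      refine ⟨D, hD, ?_⟩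
      rw [← QuotientGroup.mk_pow, QuotientGroup.eq_one_iff, ← hνi]
      exact hν _ ha

end group

section dset

variable {M : Type} [Field M] [NumberField M]

/-- products `± ∏ (g t) ^ θ(g)` of total exponent `k` -/
def Cb_D (t : 𝓞 M) (k : ℤ) (y : M) : Prop :=
  ∃ (θ : (M ≃ₐ[ℚ] M) → ℤ) (j : ℤ), ∑ g, θ g = k ∧ y = (-1) ^ j * ∏ g : M ≃ₐ[ℚ] M, (g (t : M)) ^ θ g

theorem Cb_ne {t : 𝓞 M} (ht : t ≠ 0) (g : M ≃ₐ[ℚ] M) : g (t : M) ≠ 0 := by
  rw [map_ne_zero]
  exact RingOfIntegers.coe_ne_zero_iff.2 ht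

theorem Cb_D_sign (t : 𝓞 M) (j : ℤ) : Cb_D t 0 ((-1) ^ j) := ⟨0, j, by simp, by simp⟩

theorem Cb_D_one (t : 𝓞 M) : Cb_D t 0 1 := ⟨0, 0, by simp, by simp⟩

theorem Cb_D_mul {t : 𝓞 M} (ht : t ≠ 0) {k l : ℤ} {y z : M} (hy : Cb_D t k y) (hz : Cb_D t l z) :
    Cb_D t (k + l) (y * z) := by
  obtain ⟨θ, i, h1, rfl⟩ := hy
  obtain ⟨η, j, h3, rfl⟩ := hz
  refine ⟨fun g => θ g + η g, i + j, by rw [Finset.sum_add_distrib, h1, h3], ?_⟩
  simp only [zpow_add₀ (Cb_ne ht _), Finset.prod_mul_distrib]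
  rw [zpow_add₀ (by norm_num : (-1 : M) ≠ 0)]
  ring

theorem Cb_D_zpow {t : 𝓞 M} {k : ℤ} {y : M} (hy : Cb_D t k y) (a : ℤ) :
    Cb_D t (k * a) (y ^ a) := by
  obtain ⟨θ, i, h1, rfl⟩ := hy
  refine ⟨fun g => θ g * a, i * a, by rw [← Finset.sum_mul, h1], ?_⟩
  rw [mul_zpow, ← Finset.prod_zpow, zpow_mul]
  congr 1
  exact Finset.prod_congr rfl fun g _ => (zpow_mul _ _ _).symm

theorem Cb_D_single (t : 𝓞 M) (g : M ≃ₐ[ℚ] M) : Cb_D t 1 (g (t : M)) := by
  classical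
  refine ⟨Pi.single g 1, 0, by simp, ?_⟩
  rw [Finset.prod_eq_single g]
  · simp
  · intro b _ hb
    rw [Pi.single_eq_of_ne hb, zpow_zero]
  · simp

theorem Cb_D_prod {t : 𝓞 M} (ht : t ≠ 0) {ι : Type} (s : Finset ι) (k : ι → ℤ) (y : ι → M)
    (h : ∀ i ∈ s, Cb_D t (k i) (y i)) : Cb_D t (∑ i ∈ s, k i) (∏ i ∈ s, y i) := by
  classical
  induction s using Finset.induction_on with
  | empty => simpa using Cb_D_one t
  | insert a s ha ih =>
    rw [Finset.sum_insert ha, Finset.prod_insert ha]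
    exact Cb_D_mul ht (h a (Finset.mem_insert_self _ _))
      (ih fun i hi => h i (Finset.mem_insert_of_mem hi))

theorem Cb_mem (t : 𝓞 M) (ht : t ≠ 0) (ε : (𝓞 M)ˣ) : ε ∈ XU t ht ↔ Cb_D t 0 ((ε : 𝓞 M) : M) :=
  mem_XU t ht ε

end dset

theorem Cb_norm_zpow (x : B) (a : ℤ) :
    Algebra.norm A (x ^ a) = (Algebra.norm A x) ^ a := by
  by_cases hx : x = 0
  · by_cases ha : a = 0
    · rw [ha, zpow_zero, zpow_zero, map_one]
    · have h1 : Algebra.norm A (0 : B) = 0 := by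
        have : FiniteDimensional A B := Module.Finite.of_restrictScalars_finite ℚ A B
        exact Algebra.norm_zero
      rw [hx, zero_zpow _ ha, h1, zero_zpow _ ha]
  have h1 : Algebra.norm A (x⁻¹) = (Algebra.norm A x)⁻¹ := by
    apply eq_inv_of_mul_eq_one_left
    rw [← map_mul, inv_mul_cancel₀ hx, map_one]
  cases a with
  | ofNat a =>
    rw [Int.ofNat_eq_natCast, zpow_natCast, zpow_natCast, map_pow]
  | negSucc a =>
    rw [zpow_negSucc, zpow_negSucc, ← inv_pow, ← inv_pow, map_pow, h1]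

/-- the norm of a conjugate of `tB` -/
theorem Cb_norm_conj (S : TS A B) (g : B ≃ₐ[ℚ] B) :
    ∃ γ : A ≃ₐ[ℚ] A, (∀ x : A, algebraMap A B (γ x) = g (algebraMap A B x)) ∧
      Algebra.norm A (g (S.tB : B)) = (γ (S.tA : A)) ^ S.q := by
  have := S.galA
  have := S.galB
  have : IsGalois A B := IsGalois.tower_top_of_isGalois ℚ A B
  have : FiniteDimensional A B := Module.Finite.of_restrictScalars_finite ℚ A B
  have hc : ∀ x : A, algebraMap A B ((g.restrictNormal A) x) = g (algebraMap A B x) := fun x =>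
    AlgEquiv.restrictNormal_commutes g A x
  refine ⟨g.restrictNormal A, hc, ?_⟩
  apply (algebraMap A B).injective
  rw [← map_pow, ← S.norm, hc, Algebra.norm_eq_prod_automorphisms, Algebra.norm_eq_prod_automorphisms, map_prod]
  refine Finset.prod_congr rfl fun h _ => ?_
  have h1 := S.comm (h.restrictScalars ℚ) g
  exact congrArg (fun e : B ≃ₐ[ℚ] B => e (S.tB : B)) h1

theorem index_three_partT (S : TS A B) (HC : HCubeT S) (hA : (XU S.tA S.nA).index ≠ 0) (hB : (XU S.tB S.nB).index ≠ 0) :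
    padicValNat 3 (XU S.tB S.nB).index = padicValNat 3 (XU S.tA S.nA).index := by
  have := S.galA
  have := S.galB
  have : IsGalois A B := IsGalois.tower_top_of_isGalois ℚ A B
  have : FiniteDimensional A B := Module.Finite.of_restrictScalars_finite ℚ A B
  -- the two maps
  set ι : (𝓞 A)ˣ →* (𝓞 B)ˣ := Units.map (algebraMap (𝓞 A) (𝓞 B)).toMonoidHom with hι
  set i : (𝓞 A)ˣ →* (𝓞 B)ˣ := (powMonoidHom S.q).comp ι with hi
  set ν : (𝓞 B)ˣ →* (𝓞 A)ˣ := Units.map (RingOfIntegers.norm A) with hν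
  have hι1 : ∀ a : (𝓞 A)ˣ, (((ι a : (𝓞 B)ˣ) : 𝓞 B) : B) = algebraMap A B ((a : 𝓞 A) : A) :=
    fun a => rfl
  have hi0 : ∀ a : (𝓞 A)ˣ, i a = (ι a) ^ S.q := fun a => rfl
  have hi1 : ∀ a : (𝓞 A)ˣ, (((i a : (𝓞 B)ˣ) : 𝓞 B) : B) = (algebraMap A B ((a : 𝓞 A) : A)) ^ S.q := by
    intro a
    rw [hi0, Units.val_pow_eq_pow_val, ← hι1]
    exact map_pow (algebraMap (𝓞 B) B) _ _
  have hν1 : ∀ b : (𝓞 B)ˣ, (((ν b : (𝓞 A)ˣ) : 𝓞 A) : A) = Algebra.norm A ((b : 𝓞 B) : B) :=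
    fun b => rfl
  have hinj : ∀ a b : (𝓞 A)ˣ, ((a : 𝓞 A) : A) = ((b : 𝓞 A) : A) → a = b := fun a b h =>
    Units.ext (RingOfIntegers.coe_injective h)
  have hνι : ∀ a, ν (ι a) = a ^ (Module.finrank A B) := by
    intro a
    apply hinj
    rw [hν1, hι1, Algebra.norm_algebraMap]
    simp
  have hνi : ∀ a, ν (i a) = a ^ (Module.finrank A B * S.q) := by
    intro a
    rw [hi0, map_pow, hνι, ← pow_mul]
  have hD : ¬ 3 ∣ Module.finrank A B * S.q := by
    rw [Nat.Prime.dvd_mul Nat.prime_three]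
    exact not_or.2 ⟨S.h3, S.h3q⟩
  -- (1)
  have H1 : ∀ a ∈ XU S.tA S.nA, i a ∈ XU S.tB S.nB := by
    intro a ha
    rw [Cb_mem, hi1]
    obtain ⟨θ, j, h1, h2⟩ := (mem_XU S.tA S.nA a).1 ha
    rw [h2, ← map_pow, mul_pow, ← Finset.prod_pow, map_mul, map_prod, map_pow, map_zpow₀, map_neg, map_one]
    have key : ∀ γ : A ≃ₐ[ℚ] A, Cb_D S.tB (Fintype.card (B ≃ₐ[A] B)) (algebraMap A B ((γ (S.tA : A)) ^ S.q)) := by
      intro γ
      obtain ⟨g, hg⟩ := AlgEquiv.restrictNormalHom_surjective (F := ℚ) (K₁ := A) B γ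
      have hg' : ∀ x : A, algebraMap A B (γ x) = g (algebraMap A B x) := by
        intro x
        rw [← hg]
        exact AlgEquiv.restrictNormal_commutes g A x
      obtain ⟨γ', h3, h4⟩ := Cb_norm_conj S g
      have h5 : γ' (S.tA : A) = γ (S.tA : A) := by
        apply (algebraMap A B).injective
        rw [h3, hg']
      rw [← h5, ← h4, Algebra.norm_eq_prod_automorphisms]
      have h6 := Cb_D_prod S.nB (Finset.univ : Finset (B ≃ₐ[A] B)) (fun _ => 1)
        (fun h => h (g (S.tB : B))) (fun h _ => Cb_D_single S.tB (h.restrictScalars ℚ * g))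
      simpa using h6
    have h6 := Cb_D_prod S.nB (Finset.univ : Finset (A ≃ₐ[ℚ] A))
      (fun g => (Fintype.card (B ≃ₐ[A] B) : ℤ) * θ g)
      (fun g => algebraMap A B ((g (S.tA : A) ^ θ g) ^ S.q)) (fun g _ => by
        have h7 : algebraMap A B ((g (S.tA : A) ^ θ g) ^ S.q) = (algebraMap A B ((g (S.tA : A)) ^ S.q)) ^ θ g := by
          rw [map_pow, map_pow, map_zpow₀ (algebraMap A B), ← zpow_natCast, ← zpow_natCast, ← zpow_mul, ← zpow_mul, mul_comm]
        rw [h7]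
        exact Cb_D_zpow (key g) (θ g))
    rw [← Finset.mul_sum, h1, mul_zero] at h6
    have h8 := Cb_D_mul S.nB (Cb_D_zpow (Cb_D_sign S.tB j) (S.q : ℤ)) h6
    rw [zero_mul, zero_add, zpow_natCast] at h8
    exact h8
  -- (2)
  have H2 : ∀ b ∈ XU S.tB S.nB, ν b ∈ XU S.tA S.nA := by
    intro b hb
    rw [Cb_mem, hν1]
    obtain ⟨θ, j, h1, h2⟩ := (mem_XU S.tB S.nB b).1 hb
    rw [h2, map_mul, map_prod, Cb_norm_zpow]
    have h3 : Algebra.norm A (-1 : B) = (-1) ^ (Module.finrank A B) := by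
      have h4 : (-1 : B) = algebraMap A B (-1) := by rw [map_neg, map_one]
      rw [h4, Algebra.norm_algebraMap]
    have h5 : Cb_D S.tA 0 ((Algebra.norm A (-1 : B)) ^ j) := by
      rw [h3]
      have h7 := Cb_D_zpow (Cb_D_sign S.tA (Module.finrank A B : ℤ)) j
      rw [zero_mul, zpow_natCast] at h7
      exact h7
    have h6 := Cb_D_prod S.nA (Finset.univ : Finset (B ≃ₐ[ℚ] B)) (fun g => 1 * (S.q : ℤ) * θ g)
      (fun g => Algebra.norm A ((g (S.tB : B)) ^ θ g)) (fun g _ => by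
        rw [Cb_norm_zpow]
        obtain ⟨γ, -, h4⟩ := Cb_norm_conj S g
        rw [h4]
        refine Cb_D_zpow ?_ (θ g)
        have h7 := Cb_D_zpow (Cb_D_single S.tA γ) (S.q : ℤ)
        rw [zpow_natCast] at h7
        exact h7)
    rw [← Finset.mul_sum, h1, mul_zero] at h6
    have h8 := Cb_D_mul S.nA h5 h6
    rw [add_zero] at h8
    exact h8
  refine Cb_index _ _ hA hB i H1 ν H2 hD hνi ?_
  intro ε hε
  set ε' : (𝓞 B)ˣ := ε ^ (Module.finrank A B * S.q) * (i (ν ε))⁻¹ with hε'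
  have h1 : ν ε' = 1 := by
    rw [hε', map_mul, map_pow, map_inv, hνi, mul_inv_cancel]
  have h2 : Algebra.norm A ((ε' : 𝓞 B) : B) = 1 := by
    rw [← hν1, h1]
    simp
  obtain ⟨j, hj, θ, hθ, h3⟩ := unit_third_powerT S HC ε' h2
  refine ⟨Module.finrank A B * S.q * j, ?_, ?_⟩
  · rw [Nat.Prime.dvd_mul Nat.prime_three]
    exact not_or.2 ⟨hD, hj⟩
  have h4 : ε ^ (Module.finrank A B * S.q * j) = S.tw θ * (i (ν ε)) ^ j := by
    rw [← h3, hε', mul_pow, ← pow_mul, inv_pow, inv_mul_cancel_right]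
  rw [h4]
  exact Subgroup.mul_mem _ (S.tw_mem (rel_sumT hθ)) (Subgroup.pow_mem _ (H1 _ hε) _)

end H11R
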