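import Pool.Agent.H11.T3R.DfC

/-!
ROW Cc (plus and minus parts; about 100 lines).

PROOF. `σ * σ = 1`. `tw_shift`: for `∑ θ = 0`: `tw (fun g => θ (g * σ)) = σ (tw θ)` in `B`: `tw_coe`, substitute `g → g * σ⁻¹` (`σ⁻¹ = σ`) in the product, `(g * σ) t = σ (g t)` by commutativity (`S.comm`).
`rel_shift`: `Rel θ` implies `Rel (fun g => θ (g * σ))` (commutativity), sums and differences too.
`HCube_of`: let `tw θ = u^3`. `σ u` is a unit `u'` (`Units.map` of the ring automorphism of `𝓞 B` induced by `σ`: `RingOfIntegers.mapRingEquiv`/`mapRingHom`). `θ⁺ = θ + θ(·σ)`, `θ⁻ = θ - θ(·σ)`: `tw θ⁺ = (u u')^3`, `tw θ⁻ = (u u'⁻¹)^3`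
(`tw_add`, `tw_neg`). `HPlusT` gives `3 ∣ θ⁺ g`; `HMinusT` (with `s = u u'⁻¹`, `tw θ⁻ - s^3 = 0`) gives `3 ∣ θ⁻ g`; `2 θ g = θ⁺ g + θ⁻ g`, so `3 ∣ θ g`.
-/

set_option autoImplicit false

namespace H11R

open NumberField H5SW

variable {A B : Type} [Field A] [NumberField A] [Field B] [NumberField B] [Algebra A B]

theorem tw_shift (S : TS A B) (σ : B ≃ₐ[ℚ] B) (hσ : σ * σ = 1) {θ : (B ≃ₐ[ℚ] B) → ℤ} (hθ : ∑ g, θ g = 0) :
    ((S.tw (fun g => θ (g * σ)) : 𝓞 B) : B) = σ ((S.tw θ : 𝓞 B) : B) := by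
  have h1 : ∑ g, θ (g * σ) = 0 := by
    rw [← hθ]
    exact Equiv.sum_comp (Equiv.mulRight σ) θ
  rw [S.tw_coe h1, S.tw_coe hθ, map_prod, ← Equiv.prod_comp (Equiv.mulRight σ)]
  refine Finset.prod_congr rfl fun g _ => ?_
  show (g * σ) (S.tB : B) ^ θ (g * σ * σ) = σ (g (S.tB : B) ^ θ g)
  rw [map_zpow₀, mul_assoc, hσ, mul_one, S.comm g σ]
  rfl

theorem rel_shift (S : TS A B) (σ : B ≃ₐ[ℚ] B) {θ : (B ≃ₐ[ℚ] B) → ℤ} (hθ : Rel A B θ) : Rel A B (fun g => θ (g * σ)) := by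
  intro g
  have h1 := hθ (g * σ)
  rw [← h1]
  refine Finset.sum_congr rfl fun h _ => ?_
  show θ (g * h.restrictScalars ℚ * σ) = θ (g * σ * h.restrictScalars ℚ)
  rw [mul_assoc, S.comm (h.restrictScalars ℚ) σ, ← mul_assoc]

theorem rel_addT {θ η : (B ≃ₐ[ℚ] B) → ℤ} (hθ : Rel A B θ) (hη : Rel A B η) : Rel A B (θ + η) := by
  intro g
  have h1 := hθ g
  have h2 := hη g
  simp only [Pi.add_apply]
  rw [Finset.sum_add_distrib, h1, h2, add_zero]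

theorem rel_negT {θ : (B ≃ₐ[ℚ] B) → ℤ} (hθ : Rel A B θ) : Rel A B (-θ) := by
  intro g
  have h1 := hθ g
  simp only [Pi.neg_apply]
  rw [Finset.sum_neg_distrib, h1, neg_zero]

theorem HCube_of (S : TS A B) (σ : B ≃ₐ[ℚ] B) (hσ : σ * σ = 1) (HP : HPlusT S σ) (HM : HMinusT S σ) : HCubeT S := by
  intro θ hθ u hu g
  obtain ⟨u', hu'⟩ : ∃ u' : (𝓞 B)ˣ, ((u' : 𝓞 B) : B) = σ ((u : 𝓞 B) : B) :=
    ⟨Units.map (RingOfIntegers.mapRingHom (σ : B →+* B) : 𝓞 B →* 𝓞 B) u, rfl⟩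
  obtain ⟨η, hη⟩ : ∃ η : (B ≃ₐ[ℚ] B) → ℤ, η = fun g => θ (g * σ) := ⟨_, rfl⟩
  have hηr : Rel A B η := by
    rw [hη]
    exact rel_shift S σ hθ
  have hσσ : ∀ g : B ≃ₐ[ℚ] B, g * σ * σ = g := fun g => by rw [mul_assoc, hσ, mul_one]
  have hη1 : ∀ g, η g = θ (g * σ) := fun g => by rw [hη]
  have hη2 : ∀ g, η (g * σ) = θ g := fun g => by rw [hη1, hσσ]
  have htw : S.tw η = u' ^ 3 := by
    apply Units.ext
    apply RingOfIntegers.coe_injective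
    show ((S.tw η : 𝓞 B) : B) = (((u' ^ 3 : (𝓞 B)ˣ) : 𝓞 B) : B)
    rw [hη, tw_shift S σ hσ (rel_sumT hθ), hu]
    have e1 : ∀ v : (𝓞 B)ˣ, (((v ^ 3 : (𝓞 B)ˣ) : 𝓞 B) : B) = ((v : 𝓞 B) : B) ^ 3 := fun v => by
      rw [Units.val_pow_eq_pow_val]
      exact map_pow (algebraMap (𝓞 B) B) (v : 𝓞 B) 3
    rw [e1, e1, map_pow, hu']
  have k1 : (3 : ℤ) ∣ θ g + η g := by
    refine HP (θ + η) (rel_addT hθ hηr) (fun g => ?_) (u * u') ?_ g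
    · rw [Pi.add_apply, Pi.add_apply, hη2, ← hη1, add_comm]
    · rw [S.tw_add, hu, htw, mul_pow]
  have k2 : (3 : ℤ) ∣ θ g + -η g := by
    refine HM (θ + -η) (rel_addT hθ (rel_negT hηr)) (fun g => ?_)
      ⟨((u * u'⁻¹ : (𝓞 B)ˣ) : 𝓞 B), ?_⟩ g
    · rw [Pi.add_apply, Pi.add_apply, Pi.neg_apply, Pi.neg_apply, hη2, ← hη1]
      ring
    · have e1 : S.tw (θ + -η) = (u * u'⁻¹) ^ 3 := by
        rw [S.tw_add, S.tw_neg, hu, htw, mul_pow, inv_pow]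
      rw [e1, Units.val_pow_eq_pow_val, sub_self, zero_pow two_ne_zero]
      exact dvd_zero _
  omega

end H11R
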