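import Pool.Agent.H11.T3R.Ca
import Pool.Agent.H11.T3R.Cc

/-!
ROW Cd (units in the minus part which are locally cubes; about 170 lines).

`ε` a unit of `𝓞 B` with `ε σ(ε)` a cube, `N_{B/A} ε` a cube and `27 ∣ (ε - s^3)^2`. Claim: `ε` is a cube.

PROOF. `D = [B:A]`, `3 ∤ D`. `ε σ(ε) = y^3`, `y` is a unit of `𝓞 B` (integral, as is its inverse). `N ε = a^3`, `a ∈ A` a unit of `𝓞 A`. `σ a := σ(algebraMap a) ∈ A`: `A/ℚ` is normal, so `σ` maps `A` to itself (`AlgEquiv.restrictNormal`,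
`restrictNormal_commutes`). Put `ε₁ = ε² y⁻³ = ε / σ(ε)` (indeed `ε² y^{-3} = ε²/(ε σ ε)`), `N ε₁ = (a / σ a)^3`, `ε₂ = ε₁^D (a/σ a)^(-3)` (image in `B`), `N ε₂ = (a/σ a)^(3D) (a/σ a)^(-3D) = 1`.
(`N (σ ε) = σ (N ε)`: product over `Gal(B/A)` and commutativity; the norm of an element of `A` is its `D`-th power.)
`unit_third_powerT`: `ε₂^j = tw θ`, `3 ∤ j`, `Rel θ`. Let `θ⁻ = θ - θ(·σ)`: `Rel`, antiinvariant (`σ σ = 1`), and `tw θ⁻ = tw θ / σ(tw θ) = (ε₂ / σ ε₂)^j` (`tw_shift`, `tw_add`, `tw_neg`). `ε₂ = ε^(2D) c^3` with a unit `c`, `σ(ε) = y^3 ε⁻¹`,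
so `ε₂ / σ ε₂ = ε^(4D) c'^3` and `tw θ⁻ = ε^(4 D j) δ^3` with a unit `δ` of `𝓞 B`. With `k = 4 D j`, `s' = s^k δ`: `tw θ⁻ - s'^3 = δ^3 (ε^k - (s^3)^k)` is divisible by `ε - s^3`, so `27` divides its square: `HMinusT`: `θ⁻ = 3 θ'`, so
`tw θ⁻ = (tw θ')^3` (`tw_smul`), `ε^k` is a cube of a unit, `3 ∤ k`: `ε` is a cube (`k k' = 3 i + 1`: `ε = (ε^k)^k' ε^(-3 i)`).
-/

set_option autoImplicit false

namespace H11R

open NumberField H5SW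

variable {A B : Type} [Field A] [NumberField A] [Field B] [NumberField B] [Algebra A B]

theorem Cd_root {M : Type} [Field M] [NumberField M] (u : (𝓞 M)ˣ) (x : M)
    (h : ((u : 𝓞 M) : M) = x ^ 3) : ∃ v : (𝓞 M)ˣ, ((v : 𝓞 M) : M) = x ∧ u = v ^ 3 := by
  have hx0 : x ≠ 0 := by
    rintro rfl
    exact unit_coe_ne u (by rw [h]; simp)
  have hx : IsIntegral ℤ x := by
    apply IsIntegral.of_pow (n := 3) (by norm_num)
    rw [← h]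
    exact (u : 𝓞 M).isIntegral_coe
  have hinv : (((u⁻¹ : (𝓞 M)ˣ) : 𝓞 M) : M) = ((u : 𝓞 M) : M)⁻¹ := by
    apply eq_inv_of_mul_eq_one_left
    have h1 : ((u⁻¹ : (𝓞 M)ˣ) : 𝓞 M) * (u : 𝓞 M) = 1 := Units.inv_mul u
    have h2 := congrArg (fun w : 𝓞 M => (w : M)) h1
    simpa using h2
  have hx' : IsIntegral ℤ x⁻¹ := by
    apply IsIntegral.of_pow (n := 3) (by norm_num)
    rw [inv_pow, ← h, ← hinv]
    exact ((u⁻¹ : (𝓞 M)ˣ) : 𝓞 M).isIntegral_coe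
  let v : (𝓞 M)ˣ := ⟨⟨x, hx⟩, ⟨x⁻¹, hx'⟩, by
    apply RingOfIntegers.ext
    change x * x⁻¹ = 1
    exact mul_inv_cancel₀ hx0, by
    apply RingOfIntegers.ext
    change x⁻¹ * x = 1
    exact inv_mul_cancel₀ hx0⟩
  have hv : ((v : 𝓞 M) : M) = x := rfl
  refine ⟨v, hv, ?_⟩
  apply Units.ext
  apply RingOfIntegers.ext
  rw [h]
  push_cast
  change x ^ 3 = ((v : 𝓞 M) : M) ^ 3
  rw [hv]

theorem Cd_bez {G : Type*} [CommGroup G] {k : ℕ} (hk : ¬ 3 ∣ k) {e t : G} (h : e ^ k = t ^ 3) :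
    ∃ d : G, e = d ^ 3 := by
  have hc : Nat.Coprime 3 k := (Nat.Prime.coprime_iff_not_dvd Nat.prime_three).2 hk
  obtain ⟨x, y, hxy⟩ := Nat.isCoprime_iff_coprime.2 hc
  refine ⟨e ^ x * t ^ y, ?_⟩
  calc e = e ^ (1 : ℤ) := (zpow_one e).symm
    _ = e ^ (x * ((3 : ℕ) : ℤ) + y * (k : ℤ)) := by rw [hxy]
    _ = (e ^ x) ^ 3 * (e ^ k) ^ y := by
      rw [zpow_add, zpow_mul, zpow_natCast, mul_comm y, zpow_mul, zpow_natCast]
    _ = (e ^ x * t ^ y) ^ 3 := by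
      rw [h, mul_pow]
      congr 1
      rw [← zpow_natCast, ← zpow_mul, ← zpow_natCast, ← zpow_mul, mul_comm]

theorem unit_cube_of_loc (S : TS A B) (σ : B ≃ₐ[ℚ] B) (hσ : σ * σ = 1) (HP : HPlusT S σ) (HM : HMinusT S σ) (ε : (𝓞 B)ˣ)
    (hσε : ∃ y : B, ((ε : 𝓞 B) : B) * σ ((ε : 𝓞 B) : B) = y ^ 3)
    (hN : ∃ a : A, Algebra.norm A ((ε : 𝓞 B) : B) = a ^ 3) {s : 𝓞 B} (h : (27 : 𝓞 B) ∣ ((ε : 𝓞 B) - s ^ 3) ^ 2) :
    ∃ δ : (𝓞 B)ˣ, ε = δ ^ 3 := by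
  classical
  have := S.galA
  have := S.galB
  have : FiniteDimensional A B := Module.Finite.of_restrictScalars_finite ℚ A B
  have hσσ : ∀ x : B, σ (σ x) = x := fun x => congrArg (fun f : B ≃ₐ[ℚ] B => f x) hσ
  let σO : 𝓞 B ≃+* 𝓞 B := RingOfIntegers.mapRingEquiv σ.toRingEquiv
  have hσO : ∀ x : 𝓞 B, ((σO x : 𝓞 B) : B) = σ (x : B) := fun x => rfl
  let sg : (𝓞 B)ˣ →* (𝓞 B)ˣ := Units.map (σO : 𝓞 B →* 𝓞 B)
  have hsg : ∀ u : (𝓞 B)ˣ, (((sg u : (𝓞 B)ˣ) : 𝓞 B) : B) = σ ((u : 𝓞 B) : B) := fun u => rfl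
  have hinj : ∀ {u v : (𝓞 B)ˣ}, ((u : 𝓞 B) : B) = ((v : 𝓞 B) : B) → u = v := by
    intro u v huv
    exact Units.ext (RingOfIntegers.ext huv)
  have hsgsg : ∀ u : (𝓞 B)ˣ, sg (sg u) = u := by
    intro u
    apply hinj
    rw [hsg, hsg, hσσ]
  have hcmul : ∀ u v : (𝓞 B)ˣ, (((u * v : (𝓞 B)ˣ) : 𝓞 B) : B) = ((u : 𝓞 B) : B) * ((v : 𝓞 B) : B) := by
    intro u v
    push_cast
    rfl
  -- the element y
  obtain ⟨y0, hy0⟩ := hσε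
  obtain ⟨y, -, hy⟩ := Cd_root (ε * sg ε) y0 (by rw [hcmul, hsg, hy0])
  -- the element a
  obtain ⟨a0, ha0⟩ := hN
  obtain ⟨a, ha, -⟩ := Cd_root (Units.map (RingOfIntegers.norm A) ε) a0 (by
    rw [← ha0]
    exact RingOfIntegers.coe_norm A (ε : 𝓞 B))
  let b : (𝓞 B)ˣ := Units.map (algebraMap (𝓞 A) (𝓞 B)) a
  have hb : ((b : 𝓞 B) : B) = algebraMap A B a0 := by
    rw [← ha]
    rfl
  let σA : A ≃ₐ[ℚ] A := σ.restrictNormal A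
  have hσA : ∀ x : A, algebraMap A B (σA x) = σ (algebraMap A B x) :=
    fun x => σ.restrictNormal_commutes A x
  -- the norm as a homomorphism on units
  let NB : (𝓞 B)ˣ →* Aˣ := Units.map ((Algebra.norm A : B →* A).comp (algebraMap (𝓞 B) B : 𝓞 B →* B))
  have hNB : ∀ u : (𝓞 B)ˣ, ((NB u : Aˣ) : A) = Algebra.norm A ((u : 𝓞 B) : B) := fun u => rfl
  have hNσ : ∀ x : B, Algebra.norm A (σ x) = σA (Algebra.norm A x) := by
    intro x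
    have h1 := Algebra.norm_eq_of_equiv_equiv (A₁ := A) (B₁ := B) (A₂ := A) (B₂ := B) σA.toRingEquiv
      σ.toRingEquiv (by
        ext x
        exact hσA x) x
    rw [h1]
    exact (σA.toRingEquiv.apply_symm_apply _).symm
  have ha00 : a0 ≠ 0 := by
    rw [← ha]
    exact unit_coe_ne a
  let α : Aˣ := Units.mk0 a0 ha00
  let β : Aˣ := Units.mk0 (σA a0) (by simpa using ha00)
  have hN1 : NB ε = α ^ 3 := by
    apply Units.ext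
    rw [hNB, ha0]
    rfl
  have hN2 : NB (sg ε) = β ^ 3 := by
    apply Units.ext
    rw [hNB, hsg, hNσ, ha0, map_pow]
    rfl
  set D := Module.finrank A B with hD
  have hN3 : NB b = α ^ D := by
    apply Units.ext
    rw [hNB, hb, Algebra.norm_algebraMap]
    rfl
  have hN4 : NB (sg b) = β ^ D := by
    apply Units.ext
    rw [hNB, hsg, hNσ, hb, Algebra.norm_algebraMap, map_pow]
    rfl
  -- the element of norm one
  let e2 : (𝓞 B)ˣ := (ε * (sg ε)⁻¹) ^ D * ((b * (sg b)⁻¹) ^ 3)⁻¹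
  have he2 : NB e2 = 1 := by
    change NB ((ε * (sg ε)⁻¹) ^ D * ((b * (sg b)⁻¹) ^ 3)⁻¹) = 1
    rw [map_mul, map_pow, map_inv, map_pow, map_mul, map_mul, map_inv, map_inv, hN1, hN2, hN3, hN4,
      mul_pow, mul_pow, inv_pow, inv_pow, ← pow_mul, ← pow_mul, ← pow_mul, ← pow_mul, mul_comm D 3,
      mul_inv_cancel]
  obtain ⟨j, hj, θ, hθ, hjθ⟩ := unit_third_powerT S (HCube_of S σ hσ HP HM) e2 (by
    rw [← hNB, he2]
    rfl)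
  -- the antiinvariant part
  let θs : (B ≃ₐ[ℚ] B) → ℤ := fun g => θ (g * σ)
  have hθs : S.tw θs = sg (S.tw θ) := by
    apply hinj
    rw [hsg]
    exact tw_shift S σ hσ (rel_sumT hθ)
  have hrel : Rel A B (θ + -θs) := rel_addT hθ (rel_negT (rel_shift S σ hθ))
  have hanti : ∀ g, (θ + -θs) (g * σ) = -(θ + -θs) g := by
    intro g
    change θ (g * σ) + -θ (g * σ * σ) = -(θ g + -θ (g * σ))
    rw [mul_assoc, hσ, mul_one]
    ring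
  set k := 4 * D * j with hk
  let dl : (𝓞 B)ˣ := ((y ^ (2 * D))⁻¹ * ((b * (sg b)⁻¹) ^ 2)⁻¹) ^ j
  have hsge2 : sg e2 = (sg ε * ε⁻¹) ^ D * ((sg b * b⁻¹) ^ 3)⁻¹ := by
    change sg ((ε * (sg ε)⁻¹) ^ D * ((b * (sg b)⁻¹) ^ 3)⁻¹) = _
    rw [map_mul, map_pow, map_inv, map_pow, map_mul, map_mul, map_inv, map_inv, hsgsg, hsgsg]
  have hεσ : ε * (sg ε)⁻¹ = ε ^ 2 * (y ^ 3)⁻¹ := by
    rw [← hy]
    rw [mul_inv, ← mul_assoc, sq, mul_assoc ε ε, mul_inv_cancel, mul_one]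
  have htw : S.tw (θ + -θs) = ε ^ k * dl ^ 3 := by
    rw [S.tw_add, S.tw_neg, hθs, ← hjθ, map_pow, ← inv_pow, ← mul_pow]
    have h1 : e2 * (sg e2)⁻¹ = ε ^ (4 * D) * ((y ^ (2 * D))⁻¹ * ((b * (sg b)⁻¹) ^ 2)⁻¹) ^ 3 := by
      have h2 : e2 * (sg e2)⁻¹ = ((ε * (sg ε)⁻¹) ^ 2) ^ D * (((b * (sg b)⁻¹) ^ 2)⁻¹) ^ 3 := by
        rw [hsge2]
        change (ε * (sg ε)⁻¹) ^ D * ((b * (sg b)⁻¹) ^ 3)⁻¹ *
          ((sg ε * ε⁻¹) ^ D * ((sg b * b⁻¹) ^ 3)⁻¹)⁻¹ = _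
        simp only [mul_inv, mul_pow, inv_pow, inv_inv, ← pow_mul]
        rw [show 2 * D = D + D by ring, show 2 * 3 = 3 + 3 by norm_num]
        simp only [pow_add, mul_inv]
        generalize ε ^ D = x1
        generalize (sg ε) ^ D = x2
        generalize b ^ 3 = x3
        generalize (sg b) ^ 3 = x4
        apply Additive.ofMul.injective
        simp only [ofMul_mul, ofMul_inv]
        abel
      rw [h2, hεσ]
      simp only [mul_pow, inv_pow, mul_inv, inv_inv, ← pow_mul]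
      rw [show 2 * 2 * D = 4 * D by ring, show 3 * 2 * D = 2 * D * 3 by ring]
      simp only [mul_assoc]
    rw [h1, mul_pow, hk, pow_mul ε (4 * D) j]
    congr 1
    change _ = (((y ^ (2 * D))⁻¹ * ((b * (sg b)⁻¹) ^ 2)⁻¹) ^ j) ^ 3
    rw [← pow_mul, ← pow_mul, mul_comm 3 j]
  have hloc : ∃ s' : 𝓞 B, (27 : 𝓞 B) ∣ ((S.tw (θ + -θs) : 𝓞 B) - s' ^ 3) ^ 2 := by
    refine ⟨s ^ k * (dl : 𝓞 B), ?_⟩
    have h1 : ((S.tw (θ + -θs) : (𝓞 B)ˣ) : 𝓞 B) - (s ^ k * (dl : 𝓞 B)) ^ 3 =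
        (dl : 𝓞 B) ^ 3 * ((ε : 𝓞 B) ^ k - (s ^ 3) ^ k) := by
      rw [htw]
      push_cast
      rw [mul_pow, ← pow_mul, ← pow_mul, mul_comm k 3]
      ring
    obtain ⟨m, hm⟩ := sub_dvd_pow_sub_pow (ε : 𝓞 B) (s ^ 3) k
    obtain ⟨c, hc⟩ := h
    refine ⟨c * ((dl : 𝓞 B) ^ 3 * m) ^ 2, ?_⟩
    rw [h1, hm]
    linear_combination ((dl : 𝓞 B) ^ 3 * m) ^ 2 * hc
  have h3 := HM (θ + -θs) hrel hanti hloc
  choose θ' hθ' using h3
  have htw' : S.tw (θ + -θs) = S.tw θ' ^ 3 := by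
    have h4 : (θ + -θs) = fun g => (3 : ℤ) * θ' g := funext hθ'
    rw [h4, S.tw_smul]
    exact zpow_natCast _ 3
  have hk3 : ¬ 3 ∣ k := by
    intro hd
    rw [hk] at hd
    rcases (Nat.Prime.dvd_mul Nat.prime_three).1 hd with h5 | h5
    · rcases (Nat.Prime.dvd_mul Nat.prime_three).1 h5 with h6 | h6
      · omega
      · exact S.h3 h6
    · exact hj h5
  refine Cd_bez hk3 (t := S.tw θ' * dl⁻¹) ?_
  rw [mul_pow, ← htw', htw, inv_pow, mul_inv_cancel_right]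

end H11R
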