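import Pool.Agent.H11.T3R.DfC
import Pool.Agent.H5.SW.R1
import Pool.Agent.H10.Semi
import Pool.Agent.H10.Class

/-!
ROW Ce (from local conditions to a congruence; about 110 lines).

PROOF. Adapt `R1_four` of Pool/Agent/H5/SW/R1.lean (three part version: `rn_nine` in row RN, Pool/Agent/H55/T3/RN.lean). `x = ε c^3`, `ε` a unit, `c ≠ 0`; `T = c t`, so `w (ε T^3 - 1)^2 ≤ w 27 < 1` for `w ∋ 3`, hence `w T = 1`, and
`w (ε - (1/T)^3)^2 ≤ w 27`. Choose `s_w ∈ 𝓞 B` with `w (s_w - 1/T) ≤ w 27` (`𝓞 B` is dense in the integers at `w`: as there); `(1/T)^3 - s_w^3 = (1/T - s_w)(..)`, so `w ((1/T)^3 - s_w^3) ≤ w 27` and `w(..)^2 ≤ w 27` (as `w 27 ≤ 1`):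
`w (ε - s_w^3)^2 ≤ w 27` by the ultrametric inequality (`max` of squares). Chinese remainder theorem modulo `27`: `s ≡ s_w` modulo the `w`-part of `27` for every `w ∋ 3`. Then `w (ε - s^3)^2 ≤ w 27` for all `w` (at `w ∌ 3`: `w 27 = 1` and
integrality), so `27 ∣ (ε - s^3)^2` (divisibility in a Dedekind domain is local, as there).
-/

set_option autoImplicit false
set_option linter.style.haveILetI false

namespace H11R

open NumberField IsDedekindDomain WithZero Pool.Agent.H10 H5SW

/-- the square of a difference -/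
theorem Ce_sub_sq {B : Type} [Field B] [NumberField B] (w : HeightOneSpectrum (𝓞 B)) {a b : B}
    (ha : w.valuation B a ^ 2 ≤ w.valuation B 27) (hb : w.valuation B b ≤ w.valuation B 27)
    (h27 : w.valuation B 27 ≤ 1) : w.valuation B (a - b) ^ 2 ≤ w.valuation B 27 := by
  have hb2 : w.valuation B b ^ 2 ≤ w.valuation B 27 := by
    rw [pow_two]
    calc w.valuation B b * w.valuation B b ≤ w.valuation B 27 * 1 := mul_le_mul' hb (hb.trans h27)
      _ = _ := mul_one _
  have h1 := Valuation.map_sub (w.valuation B) a b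
  rcases le_max_iff.1 h1 with h | h
  · exact (pow_le_pow_left₀ zero_le h 2).trans ha
  · exact (pow_le_pow_left₀ zero_le h 2).trans hb2

theorem rn_27 {B : Type} [Field B] [NumberField B] {x c : B} {ε : (𝓞 B)ˣ} (hc : c ≠ 0) (hxc : x = ((ε : 𝓞 B) : B) * c ^ 3)
    (hloc : ∀ w : HeightOneSpectrum (𝓞 B), (3 : 𝓞 B) ∈ w.asIdeal →
      ∃ t : B, w.valuation B (x * t ^ 3 - 1) ^ 2 ≤ w.valuation B 27) : ∃ s : 𝓞 B, (27 : 𝓞 B) ∣ ((ε : 𝓞 B) - s ^ 3) ^ 2 := by
  have e27 : ((27 : 𝓞 B) : B) = 27 := map_ofNat (algebraMap (𝓞 B) B) 27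
  have h270 : ∀ w : HeightOneSpectrum (𝓞 B), w.valuation B 27 ≠ 0 := fun w =>
    (Valuation.ne_zero_iff _).mpr (by norm_num)
  have h27le : ∀ w : HeightOneSpectrum (𝓞 B), w.valuation B 27 ≤ 1 := fun w => by
    have := w.valuation_le_one (K := B) (27 : 𝓞 B)
    rwa [← e27]
  -- the difference of two cubes
  have hcube : ∀ (w : HeightOneSpectrum (𝓞 B)) (a b : B), w.valuation B a ≤ 1 → w.valuation B b ≤ 1 →
      w.valuation B (a - b) ≤ w.valuation B 27 → w.valuation B (a ^ 3 - b ^ 3) ≤ w.valuation B 27 := by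
    intro w a b ha hb hab
    have h1 : a ^ 3 - b ^ 3 = (a - b) * (a ^ 2 + (a * b + b ^ 2)) := by ring
    rw [h1, map_mul]
    have h2 : w.valuation B (a ^ 2 + (a * b + b ^ 2)) ≤ 1 := by
      refine (Valuation.map_add _ _ _).trans (max_le ?_ ((Valuation.map_add _ _ _).trans (max_le ?_ ?_)))
      · rw [map_pow]; exact pow_le_one₀ zero_le ha
      · rw [map_mul]; exact mul_le_one' ha hb
      · rw [map_pow]; exact pow_le_one₀ zero_le hb
    calc w.valuation B (a - b) * w.valuation B (a ^ 2 + (a * b + b ^ 2))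
        ≤ w.valuation B 27 * 1 := mul_le_mul' hab h2
      _ = _ := mul_one _
  -- local cube roots which are integers
  have hsw : ∀ w : HeightOneSpectrum (𝓞 B), ∃ s : 𝓞 B,
      w.valuation B (((ε : 𝓞 B) : B) - (s : B) ^ 3) ^ 2 ≤ w.valuation B 27 := by
    intro w
    by_cases hw : (3 : 𝓞 B) ∈ w.asIdeal
    · obtain ⟨t, h⟩ := hloc w hw
      have h27lt : w.valuation B 27 < 1 := by
        have h1 : (27 : 𝓞 B) ∈ w.asIdeal := by
          have : (27 : 𝓞 B) = 9 * 3 := by norm_num
          rw [this]; exact Ideal.mul_mem_left _ _ hw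
        have := (w.valuation_lt_one_iff_mem (K := B) (27 : 𝓞 B)).mpr h1
        rwa [← e27]
      set T := c * t with hT
      have hxT : x * t ^ 3 = ((ε : 𝓞 B) : B) * T ^ 3 := by rw [hxc, hT]; ring
      rw [hxT] at h
      have hlt : w.valuation B (((ε : 𝓞 B) : B) * T ^ 3 - 1) < 1 := by
        by_contra hcon
        have h2 : (1 : ℤᵐ⁰) ≤ w.valuation B (((ε : 𝓞 B) : B) * T ^ 3 - 1) := not_lt.1 hcon
        have h3 := one_le_pow₀ h2 (n := 2)
        exact absurd (h3.trans h) (not_le.2 h27lt)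
      have hVT3 : w.valuation B (T ^ 3) = 1 := by
        have h3 : w.valuation B (((ε : 𝓞 B) : B) * T ^ 3) = 1 := by
          have h2 : ((ε : 𝓞 B) : B) * T ^ 3 = (((ε : 𝓞 B) : B) * T ^ 3 - 1) + 1 := by ring
          rw [h2, Valuation.map_add_eq_of_lt_right, map_one]
          rw [map_one]
          exact hlt
        rwa [map_mul, R1_unit_val, one_mul] at h3
      have hVT : w.valuation B T = 1 := by
        rw [map_pow] at hVT3
        exact (pow_eq_one_iff_of_nonneg zero_le three_ne_zero).mp hVT3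
      have hT0 : T ≠ 0 := by
        intro h0
        rw [h0, map_zero] at hVT
        exact zero_ne_one hVT
      have hq1 : w.valuation B (1 / T) = 1 := by rw [map_div₀, map_one, hVT, div_one]
      obtain ⟨s, hs⟩ := w.exists_valuation_sub_lt_of_integer hq1.le
        (Units.mk0 (w.valuation B 27) (h270 w))
      refine ⟨s, ?_⟩
      change w.valuation B ((s : B) - 1 / T) < w.valuation B 27 at hs
      have h5 : w.valuation B (((ε : 𝓞 B) : B) - (1 / T) ^ 3) ^ 2 ≤ w.valuation B 27 := by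
        have h6 : ((ε : 𝓞 B) : B) - (1 / T) ^ 3 = (((ε : 𝓞 B) : B) * T ^ 3 - 1) / T ^ 3 := by
          field_simp
        rw [h6, map_div₀, hVT3, div_one]
        exact h
      have h7 : ((ε : 𝓞 B) : B) - (s : B) ^ 3 = (((ε : 𝓞 B) : B) - (1 / T) ^ 3) -
          ((s : B) ^ 3 - (1 / T) ^ 3) := by ring
      rw [h7]
      exact Ce_sub_sq w h5 (hcube w _ _ (w.valuation_le_one (K := B) s) hq1.le hs.le) (h27le w)
    · refine ⟨0, ?_⟩
      have h2 : w.valuation B 3 = 1 := by
        have h3 := val_eq_one_of_notMem hw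
        have e2 : ((3 : 𝓞 B) : B) = 3 := map_ofNat (algebraMap (𝓞 B) B) 3
        rwa [e2] at h3
      have h4 : w.valuation B 27 = 1 := by
        have : (27 : B) = 3 * 3 * 3 := by norm_num
        rw [this, map_mul, map_mul, h2, mul_one, mul_one]
      rw [h4]
      have e0 : ((0 : 𝓞 B) : B) = 0 := map_zero (algebraMap (𝓞 B) B)
      rw [e0, zero_pow three_ne_zero, sub_zero, R1_unit_val, one_pow]
  choose s hs using hsw
  -- the Chinese remainder theorem
  have hfin : {w : HeightOneSpectrum (𝓞 B) | w.asIdeal ∣ Ideal.span {(27 : 𝓞 B)}}.Finite :=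
    Ideal.finite_factors (by
      rw [Ideal.zero_eq_bot, Ne, Ideal.span_singleton_eq_bot]
      norm_num)
  obtain ⟨y, hy⟩ := IsDedekindDomain.exists_forall_sub_mem_ideal (s := hfin.toFinset)
    (fun w : HeightOneSpectrum (𝓞 B) => w.asIdeal)
    (fun w => (-(log (w.valuation B 27))).toNat) (fun w _ => w.prime)
    (fun w _ w' _ hne h => hne (HeightOneSpectrum.ext h)) (fun w => s w.1)
  refine ⟨y, ?_⟩
  have hmem : (((ε : 𝓞 B) : B) - (y : B) ^ 3) ^ 2 / 27 ∈ (algebraMap (𝓞 B) B).range := by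
    apply HeightOneSpectrum.mem_integers_of_valuation_le_one
    intro w
    rw [map_div₀, map_pow]
    apply div_le_one_of_le₀ _ zero_le
    by_cases hw : w.asIdeal ∣ Ideal.span {(27 : 𝓞 B)}
    · have h1 := hy w (by simpa using hw)
      have h2 : w.valuation B ((y : B) - (s w : B)) ≤ w.valuation B 27 := by
        have h3 := (w.intValuation_le_pow_iff_mem _ _).mpr h1
        rw [← w.valuation_of_algebraMap (K := B)] at h3
        have e5 : ((y - s w : 𝓞 B) : B) = (y : B) - (s w : B) :=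
          map_sub (algebraMap (𝓞 B) B) y (s w)
        change w.valuation B ((y - s w : 𝓞 B) : B) ≤ _ at h3
        rw [e5] at h3
        refine h3.trans ?_
        conv_rhs => rw [← exp_log (h270 w)]
        rw [exp_le_exp]
        have h5 := h27le w
        rw [← exp_log (h270 w), ← exp_zero, exp_le_exp] at h5
        omega
      have h7 : ((ε : 𝓞 B) : B) - (y : B) ^ 3 = (((ε : 𝓞 B) : B) - (s w : B) ^ 3) -
        ((y : B) ^ 3 - (s w : B) ^ 3) := by ring
      rw [h7]
      exact Ce_sub_sq w (hs w) (hcube w _ _ (w.valuation_le_one (K := B) y)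
        (w.valuation_le_one (K := B) (s w)) h2) (h27le w)
    · have h1 : (27 : 𝓞 B) ∉ w.asIdeal := fun h => hw (Ideal.dvd_span_singleton.mpr h)
      have h2 := val_eq_one_of_notMem h1
      rw [e27] at h2
      rw [h2]
      apply pow_le_one₀ zero_le
      exact (Valuation.map_sub _ _ _).trans (max_le (R1_unit_val ε w).le (by
        rw [map_pow]
        exact pow_le_one₀ zero_le (w.valuation_le_one (K := B) y)))
  obtain ⟨q, hq⟩ := hmem
  refine ⟨q, ?_⟩
  apply (RingOfIntegers.coe_injective (K := B))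
  rw [map_pow, map_sub, map_pow, map_mul, hq, map_ofNat]
  field_simp

end H11R
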