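import Pool.Agent.H11.T3R.DfB
import Pool.Agent.H11.T3R.Cb
import Pool.Agent.H11.T3R.Cd
import Pool.Agent.H11.T3R.Ce
import Pool.Agent.H55.T3.RX

/-! No new elements in the minus part, from `HPlusT`, `HMinusT` and the class numbers (no row). -/

set_option autoImplicit false

namespace H11R

open NumberField IsDedekindDomain H5SW

variable {A B : Type} [Field A] [NumberField A] [Field B] [NumberField B] [Algebra A B]

theorem noNewCubeT_of (S : TS A B) (σ : B ≃ₐ[ℚ] B) (hσ : σ * σ = 1) (HP : HPlusT S σ) (HM : HMinusT S σ)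
    (hcl : padicValNat 3 (NumberField.classNumber B) = padicValNat 3 (NumberField.classNumber A)) : NoNewCubeT A B σ := by
  intro x hx hσx hv hloc hN
  obtain ⟨ε, z, hz, hxz, hNε⟩ := H55T3.cube_val_repr S.h3 hcl hx hv hN
  obtain ⟨s, hs⟩ := rn_27 hz hxz hloc
  have hσε : ∃ y : B, ((ε : 𝓞 B) : B) * σ ((ε : 𝓞 B) : B) = y ^ 3 := by
    obtain ⟨y, hy⟩ := hσx
    refine ⟨y / (z * σ z), ?_⟩
    have hσz : σ z ≠ 0 := by
      rw [map_ne_zero]
      exact hz
    rw [hxz, map_mul, map_pow] at hy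
    rw [div_pow, eq_div_iff (pow_ne_zero _ (mul_ne_zero hz hσz)), ← hy]
    ring
  obtain ⟨δ, hδ⟩ := unit_cube_of_loc S σ hσ HP HM ε hσε hNε hs
  refine ⟨((δ : 𝓞 B) : B) * z, ?_⟩
  rw [hxz, hδ, mul_pow, Units.val_pow_eq_pow_val]
  congr 1

end H11R
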