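import Pool.Agent.H73.WT.Fab
import Pool.Agent.H86.CN.GrD

/-!
# Abelian fields: definitions for the analytic part (helper11, MP_78d38b_T3, general D; no row)

`C` is the `N`-th cyclotomic field, `M` a number field embedded in `C` (`Algebra M C`). `HM N M C` is the group of the `u` modulo `N` which fix `M`, `XM N M C` the set of the Dirichlet characters modulo `N`
which are trivial on it. For a prime number `q`, `N = q ^ v * N'`, `q` not dividing `N'`: `IQ h` is the kernel of `(ZMod N)ˣ → (ZMod N')ˣ` (inertia group of `q`), `DQ h q` the inverse image of the subgroup generated by `q`.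
-/

set_option autoImplicit false
set_option linter.unusedSectionVars false

open NumberField

namespace H11R

section

variable (N : ℕ) [NeZero N] (M C : Type) [Field M] [NumberField M] [Field C] [NumberField C] [Algebra M C]
  [IsCyclotomicExtension {N} ℚ C]

/-- the subgroup of `(ZMod N)ˣ` fixing `M` -/
def HM : Subgroup (ZMod N)ˣ where
  carrier := {u | ∀ x : M, (IsCyclotomicExtension.Rat.galEquivZMod N C).symm u (algebraMap M C x) = algebraMap M C x}
  one_mem' := by
    intro x
    rw [map_one]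
    rfl
  mul_mem' := by
    intro a b ha hb x
    rw [map_mul, AlgEquiv.mul_apply, hb x, ha x]
  inv_mem' := by
    intro a ha x
    rw [map_inv]
    have h2 : ∀ g : Gal(C/ℚ), ∀ y : C, g⁻¹ (g y) = y := fun g y => by
      rw [← AlgEquiv.mul_apply, inv_mul_cancel, AlgEquiv.one_apply]
    have h3 := h2 ((IsCyclotomicExtension.Rat.galEquivZMod N C).symm a) (algebraMap M C x)
    rwa [ha x] at h3

theorem mem_HM (u : (ZMod N)ˣ) : u ∈ HM N M C ↔
    ∀ x : M, (IsCyclotomicExtension.Rat.galEquivZMod N C).symm u (algebraMap M C x) = algebraMap M C x := Iff.rfl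

open Classical in
/-- the characters of `M` -/
noncomputable def XM : Finset (DirichletCharacter ℂ N) :=
  Finset.univ.filter (fun χ => ∀ u ∈ HM N M C, χ (u : ZMod N) = 1)

theorem mem_XM (χ : DirichletCharacter ℂ N) : χ ∈ XM N M C ↔ ∀ u ∈ HM N M C, χ (u : ZMod N) = 1 := by
  simp [XM]

end

/-- the value at `1` of the `L`-function of the primitive character -/
noncomputable def LF1 {N : ℕ} [NeZero N] (χ : DirichletCharacter ℂ N) : ℂ :=
  haveI : NeZero χ.conductor := ⟨χ.conductor_ne_zero⟩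
  χ.primitiveCharacter.LFunction 1

/-- the kernel of `(ZMod N)ˣ → (ZMod N')ˣ` -/
def IQ {N' N : ℕ} (h : N' ∣ N) : Subgroup (ZMod N)ˣ := (ZMod.unitsMap h).ker

/-- the inverse image in `(ZMod N)ˣ` of the subgroup generated by `q` -/
def DQ {N' N : ℕ} (h : N' ∣ N) (q : ℕ) (hq : q.Coprime N') : Subgroup (ZMod N)ˣ :=
  (Subgroup.zpowers (ZMod.unitOfCoprime q hq)).comap (ZMod.unitsMap h)

theorem mem_IQ {N' N : ℕ} (h : N' ∣ N) (u : (ZMod N)ˣ) : u ∈ IQ h ↔ ZMod.unitsMap h u = 1 := Iff.rfl

theorem mem_DQ {N' N : ℕ} (h : N' ∣ N) (q : ℕ) (hq : q.Coprime N') (u : (ZMod N)ˣ) :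
    u ∈ DQ h q hq ↔ ZMod.unitsMap h u ∈ Subgroup.zpowers (ZMod.unitOfCoprime q hq) := Iff.rfl

theorem IQ_le_DQ {N' N : ℕ} (h : N' ∣ N) (q : ℕ) (hq : q.Coprime N') : IQ h ≤ DQ h q hq := by
  intro u hu
  rw [mem_DQ, (mem_IQ h u).1 hu]
  exact Subgroup.one_mem _

end H11R
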