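import Pool.Agent.H11.T3R.Cf
import Pool.Agent.H11.T3R.Bk
import Pool.Agent.H11.T3R.Bl

/-!
# The pair `A ⊆ B`: the structure `TS`, the Galois group as a quotient of `(ZMod f)ˣ × ℤˣ` (helper11; no row)
-/

set_option autoImplicit false
set_option linter.unusedSectionVars false

open NumberField

namespace H11R

open H5SW

section

variable {p m n d : ℕ} [Fact p.Prime] [NeZero d] {ψ : (ZMod d)ˣ →* ℤˣ} {M F A B CA CB : Type} [Field M]
    [NumberField M] [Field F] [NumberField F] [Field A] [NumberField A] [Field B] [NumberField B] [Field CA] [NumberField CA]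
    [Field CB] [NumberField CB] [Algebra M F] [Algebra M A] [Algebra F B] [Algebra A B] [Algebra A CA] [Algebra B CB]
    [Algebra CA CB] [IsCyclotomicExtension {d * p ^ (m + 1)} ℚ CA] [IsCyclotomicExtension {d * p ^ (n + 1)} ℚ CB]

/-- the pair of elements `τ_A`, `τ_B` -/
noncomputable def tsOf (hp5 : 5 ≤ p) (hpd : p.Coprime d) (Q : QH d ψ) (T : RP2 p m n d ψ M F A B CA CB) : TS A B where
  q := p ^ (n - m)
  h3q := by
    intro h
    have h1 := Nat.Prime.dvd_of_dvd_pow Nat.prime_three h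
    rw [Nat.prime_dvd_prime_iff_eq Nat.prime_three Fact.out] at h1
    omega
  h3 := by
    rw [finrank_BA hpd Q T]
    intro h
    have h1 := Nat.Prime.dvd_of_dvd_pow Nat.prime_three h
    rw [Nat.prime_dvd_prime_iff_eq Nat.prime_three Fact.out] at h1
    omega
  realA := T.rA.real
  realB := T.rB.real
  galA := (gal_of_sub (d * p ^ (m + 1)) A CA).toIsGalois
  galB := (gal_of_sub (d * p ^ (n + 1)) B CB).toIsGalois
  comm := by
    have := gal_of_sub (d * p ^ (n + 1)) B CB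
    intro g h
    exact IsMulCommutative.is_comm.comm g h
  tA := (exists_tau hpd Q T.rA).choose
  tB := (exists_tau hpd Q T.rB).choose
  nA := (exists_tau hpd Q T.rA).choose_spec.1
  nB := (exists_tau hpd Q T.rB).choose_spec.1
  uA := (exists_tau hpd Q T.rA).choose_spec.2.2
  uB := (exists_tau hpd Q T.rB).choose_spec.2.2
  norm := norm_tau hpd Q T _ _ (exists_tau hpd Q T.rA).choose_spec.2.1 (exists_tau hpd Q T.rB).choose_spec.2.1

theorem tsOf_tB (hp5 : 5 ≤ p) (hpd : p.Coprime d) (Q : QH d ψ) (T : RP2 p m n d ψ M F A B CA CB) :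
    algebraMap B CB ((tsOf hp5 hpd Q T).tB : B) = tauC (n := n) hpd T.rB.ξ T.rB.z ψ :=
  (exists_tau hpd Q T.rB).choose_spec.2.1

theorem tsOf_tA (hp5 : 5 ≤ p) (hpd : p.Coprime d) (Q : QH d ψ) (T : RP2 p m n d ψ M F A B CA CB) :
    algebraMap A CA ((tsOf hp5 hpd Q T).tA : A) = tauC (n := m) hpd T.rA.ξ T.rA.z ψ :=
  (exists_tau hpd Q T.rA).choose_spec.2.1

/-- the class numbers of `A` and `B` have the same three part -/
theorem class_eq (hp5 : 5 ≤ p) (hpd : p.Coprime d) (h9 : ¬ 9 ∣ d) (Q : QH d ψ) (T : RP2 p m n d ψ M F A B CA CB)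
    (HC : HCubeT (tsOf hp5 hpd Q T)) :
    padicValNat 3 (classNumber B) = padicValNat 3 (classNumber A) := by
  have hB := class_index hp5 hpd h9 Q T.rB (tsOf hp5 hpd Q T).tB (tsOf hp5 hpd Q T).nB (tsOf_tB hp5 hpd Q T)
    (tsOf hp5 hpd Q T).uB
  have hA := class_index hp5 hpd h9 Q T.rA (tsOf hp5 hpd Q T).tA (tsOf hp5 hpd Q T).nA (tsOf_tA hp5 hpd Q T)
    (tsOf hp5 hpd Q T).uA
  have h := index_three_partT (tsOf hp5 hpd Q T) HC hA.1 hB.1
  rw [hA.2, hB.2] at h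
  omega

/-- `Gal(B/ℚ)` as a quotient of `(ZMod f)ˣ × ℤˣ` -/
structure PiT (T : RP2 p m n d ψ M F A B CA CB) where
  π : (ZMod (p ^ (n + 1)))ˣ × ℤˣ →* (B ≃ₐ[ℚ] B)
  surj : Function.Surjective π
  ker : ∀ a, π a = 1 ↔ a.2 = 1 ∧ (a.1 = 1 ∨ a.1 = -1)
  act : ∀ (w : (ZMod (d * p ^ (n + 1)))ˣ) (x : B),
    algebraMap B CB (π (ZMod.unitsMap (dvd_mul_left (p ^ (n + 1)) d) w, ψ (ZMod.unitsMap (dvd_mul_right d (p ^ (n + 1))) w)) x) =
      (IsCyclotomicExtension.Rat.galEquivZMod (d * p ^ (n + 1)) CB).symm w (algebraMap B CB x)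
  actF : ∀ (a : (ZMod (p ^ (n + 1)))ˣ × ℤˣ) (x : F), π a (algebraMap F B x) = algebraMap F B (T.rp.rL.σ a.1 x)
  fixA : ∀ g : B ≃ₐ[ℚ] B, (∀ x : A, g (algebraMap A B x) = algebraMap A B x) ↔
    ∃ v : (ZMod (p ^ (n + 1)))ˣ, ZMod.unitsMap (pow_dvd_pow p (Nat.succ_le_succ T.rp.hmn)) v = 1 ∧ g = π (v, 1)

/-- the automorphism of `B` over `F` -/
def PiT.σ {T : RP2 p m n d ψ M F A B CA CB} (P : PiT T) : B ≃ₐ[ℚ] B := P.π (1, -1)

theorem PiT.σ_sq {T : RP2 p m n d ψ M F A B CA CB} (P : PiT T) : P.σ * P.σ = 1 := by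
  have h : ((1, -1) : (ZMod (p ^ (n + 1)))ˣ × ℤˣ) * (1, -1) = 1 := by
    rw [Prod.mk_mul_mk, one_mul, Int.units_mul_self]
    rfl
  rw [PiT.σ, ← map_mul, h, map_one]

end

end H11R
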