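import Pool.Agent.H11.T3R.DfD
import Pool.Agent.H55.T3.RK

/-!
# The digits of `σ`-antiinvariant exponents: definitions (helper11, MP_78d38b_T3, general D; no row)
-/

set_option autoImplicit false
set_option linter.unusedSectionVars false

open NumberField

namespace H11R

open H5SW

/-- the kernel of the reduction `(ZMod (p^(n+1)))ˣ → (ZMod (p^(m+1)))ˣ` -/
def KN (p : ℕ) {m n : ℕ} (hmn : m ≤ n) : Subgroup (ZMod (p ^ (n + 1)))ˣ :=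
  (ZMod.unitsMap (pow_dvd_pow p (Nat.succ_le_succ hmn))).ker

theorem mem_KN {p m n : ℕ} (hmn : m ≤ n) (v : (ZMod (p ^ (n + 1)))ˣ) :
    v ∈ KN p hmn ↔ ZMod.unitsMap (pow_dvd_pow p (Nat.succ_le_succ hmn)) v = 1 := MonoidHom.mem_ker

noncomputable instance {p m n : ℕ} [Fact p.Prime] (hmn : m ≤ n) : Fintype (KN p hmn) := Fintype.ofFinite _

/-- `∑_t ψ(t) R(ξ^t z^u)` -/
def rhoO {Ω : Type} [Field Ω] {d f : ℕ} [NeZero d] (R : Ω → Ω) (ψ : (ZMod d)ˣ →* ℤˣ) (ξ z : Ω) (u : (ZMod f)ˣ) : Ω :=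
  ∑ t : (ZMod d)ˣ, (((ψ t : ℤˣ) : ℤ) : Ω) * R (ξ ^ (t : ZMod d).val * z ^ (u : ZMod f).val)

/-- `∏_u eC(u) ^ Θ(u)` -/
noncomputable def vC {d f : ℕ} [NeZero d] [NeZero f] {C : Type} [Field C] (ξ z : C) (ψ : (ZMod d)ˣ →* ℤˣ)
    (Θ : (ZMod f)ˣ → ℤ) : C := ∏ u : (ZMod f)ˣ, eC ξ z ψ u ^ Θ u

/-- even functions whose sums over the cosets of `KN` vanish -/
structure Dig (p : ℕ) [Fact p.Prime] {m n : ℕ} (hmn : m ≤ n) (Θ : (ZMod (p ^ (n + 1)))ˣ → ℤ) : Prop where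
  even : ∀ u, Θ (-u) = Θ u
  ker : ∀ u, ∑ v : KN p hmn, Θ (u * v) = 0

section

variable {p m n d : ℕ} [Fact p.Prime] [NeZero d] {ψ : (ZMod d)ˣ →* ℤˣ} {M F A B CA CB : Type} [Field M]
    [NumberField M] [Field F] [NumberField F] [Field A] [NumberField A] [Field B] [NumberField B] [Field CA] [NumberField CA]
    [Field CB] [NumberField CB] [Algebra M F] [Algebra M A] [Algebra F B] [Algebra A B] [Algebra A CA] [Algebra B CB]
    [Algebra CA CB] [IsCyclotomicExtension {d * p ^ (m + 1)} ℚ CA] [IsCyclotomicExtension {d * p ^ (n + 1)} ℚ CB]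

/-- `Θ(u) = θ(π(u, 1))` -/
def PiT.Th {T : RP2 p m n d ψ M F A B CA CB} (P : PiT T) (θ : (B ≃ₐ[ℚ] B) → ℤ) (u : (ZMod (p ^ (n + 1)))ˣ) : ℤ := θ (P.π (u, 1))

end

end H11R
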