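import Pool.Agent.H11.T3R.DfB
import Pool.Agent.H11.T3R.Bf
import Pool.Agent.H11.T3R.Ba

/-!
ROW Dpc (the action on `F`; about 110 lines).

PROOF. `a = (u, ε)`. Choose `w` modulo `N = d f` with `w mod f = u`, `ψ(w mod d) = ε` (`crt_exists`, `Bf_neg`), so `algebraMap B C (π a y) = s_w (algebraMap B C y)` for `y : B` (`hact`). Write `j : F → C` for the composite embedding.
`s_w (j (c b)) = j (c (u b))` for all `b : ZMod f`: with `b = b.val` and `r.hc`: `j (c b) = z ^ b.val + (z ^ b.val)⁻¹`, `s_w z = z ^ u.val` (`act_root` with `k = f`), and `z ^ (u.val * b.val) = z ^ (u * b).val` (`z ^ f = 1`), `hc` again.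
`F/ℚ` is Galois (`r.rF.gal`): `π a` maps the image of `F` in `B` to itself: `R = AlgEquiv.restrictNormal (π a) F : F ≃ₐ[ℚ] F`, `algebraMap F B (R x) = π a (algebraMap F B x)` (`AlgEquiv.restrictNormal_commutes`). `r.rF.surj`: `R = σ v`. So
`j (c v) = j (R (c 1)) = s_w (j (c 1)) = j (c u)`, hence `c v = c u` in `F`, so by `r.rF.hφ` `cos (2 π v / f) = cos (2 π u / f)`, and `v = ± u` (there is a lemma of this kind: grep `c_inj`, `cos` in Pool/Agent/H5/SW, e.g. the injectivity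
of `RC.e` (`RC.e_inj`, SW/C1 or T0); otherwise `Real.cos_eq_cos_iff`), so `σ v = σ u` (`r.rF.ker`, `map_mul`: `σ(-1) = 1`). So `R = σ u`.
-/

set_option autoImplicit false
set_option linter.unusedSectionVars false

open NumberField

namespace H11R

open H5SW

variable {p n d : ℕ} [Fact p.Prime] [NeZero d] {ψ : (ZMod d)ˣ →* ℤˣ} {F B C : Type} [Field F] [NumberField F] [Field B]
    [NumberField B] [Field C] [NumberField C] [Algebra F B] [Algebra B C] [IsCyclotomicExtension {d * p ^ (n + 1)} ℚ C]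

theorem pi_F (hpd : p.Coprime d) (Q : QH d ψ) (r : RB d (p ^ (n + 1)) ψ F B C)
    (π : (ZMod (p ^ (n + 1)))ˣ × ℤˣ →* (B ≃ₐ[ℚ] B))
    (hact : ∀ (w : (ZMod (d * p ^ (n + 1)))ˣ) (x : B),
        algebraMap B C (π (ZMod.unitsMap (dvd_mul_left (p ^ (n + 1)) d) w, ψ (ZMod.unitsMap (dvd_mul_right d (p ^ (n + 1))) w)) x) =
          (IsCyclotomicExtension.Rat.galEquivZMod (d * p ^ (n + 1)) C).symm w (algebraMap B C x))
    (a : (ZMod (p ^ (n + 1)))ˣ × ℤˣ) (x : F) : π a (algebraMap F B x) = algebraMap F B (r.rF.σ a.1 x) := by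
  have hdf : d.Coprime (p ^ (n + 1)) := (hpd.pow_left _).symm
  obtain ⟨t, ht⟩ : ∃ t : (ZMod d)ˣ, ψ t = a.2 := by
    rcases Int.units_eq_one_or a.2 with h | h
    · exact ⟨1, by rw [map_one, h]⟩
    · obtain ⟨t, ht⟩ := Bf_neg Q
      exact ⟨t, by rw [ht, h]⟩
  obtain ⟨w, hw1, hw2⟩ := crt_exists hdf t a.1
  have hw : ∀ y : B, algebraMap B C (π a y) =
      (IsCyclotomicExtension.Rat.galEquivZMod (d * p ^ (n + 1)) C).symm w (algebraMap B C y) := by
    intro y
    rw [← hact w y, hw1, hw2, ht]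
  have hz1 : r.z ^ p ^ (n + 1) = 1 := r.hz.pow_eq_one
  have hj : ∀ b : ZMod (p ^ (n + 1)), algebraMap B C (algebraMap F B (r.rF.c b : F)) =
      r.z ^ b.val + (r.z ^ b.val)⁻¹ := by
    intro b
    have h := r.hc b.val
    rwa [ZMod.natCast_zmod_val] at h
  have hs : ∀ b : ZMod (p ^ (n + 1)),
      (IsCyclotomicExtension.Rat.galEquivZMod (d * p ^ (n + 1)) C).symm w
        (algebraMap B C (algebraMap F B (r.rF.c b : F))) =
      algebraMap B C (algebraMap F B (r.rF.c ((a.1 : ZMod (p ^ (n + 1))) * b) : F)) := by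
    intro b
    have h1 : (IsCyclotomicExtension.Rat.galEquivZMod (d * p ^ (n + 1)) C).symm w (r.z ^ b.val) =
        r.z ^ ((a.1 : ZMod (p ^ (n + 1))) * b).val := by
      rw [map_pow, act_root (dvd_mul_left (p ^ (n + 1)) d) r.z hz1, hw2, ← pow_mul, ZMod.val_mul,
        Ba_mod r.z hz1]
    rw [hj, hj, map_add, map_inv₀, h1]
  have : IsGalois ℚ F := r.rF.gal
  obtain ⟨v, hv⟩ := r.rF.surj (AlgEquiv.restrictNormal (π a) F)
  have hR : ∀ y : F, algebraMap F B (r.rF.σ v y) = π a (algebraMap F B y) := by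
    intro y
    rw [hv]
    exact AlgEquiv.restrictNormal_commutes (π a) F y
  have hcv : r.rF.c (v : ZMod (p ^ (n + 1))) = r.rF.c (a.1 : ZMod (p ^ (n + 1))) := by
    apply RingOfIntegers.coe_injective
    apply (algebraMap F B).injective
    apply (algebraMap B C).injective
    have h1 := hR (r.rF.c 1 : F)
    rw [r.rF.hσ, mul_one] at h1
    rw [h1, hw, hs, mul_one]
  have hσ : r.rF.σ v = r.rF.σ a.1 := by
    rcases r.rF.c_inj hcv with h | h
    · rw [Units.ext h]
    · rw [← Units.val_neg] at h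
      rw [Units.ext h, r.rF.σ_neg]
  rw [← hR x, hσ]

end H11R
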