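import Pool.Agent.H11.T3R.Dpa
import Pool.Agent.H11.T3R.Bf
import Pool.Agent.H11.T3R.Ba

/-!
ROW Dpd (the subgroup fixing `A`; about 130 lines).

PROOF. `f = p^(n+1)`, `f' = p^(m+1)`, `N = d f`, `N' = d f'`. For `w` modulo `N` with reduction `w'` modulo `N'` and `x : A`: by `hact`, `T.comm1` and `act_up` (row Dpa),
(E)  `algebraMap B CB (π (w mod f, ψ(w mod d)) (algebraMap A B x)) = algebraMap CA CB (s_{w'} (algebraMap A CA x))`.
(⇐) `g = π (v, 1)`, `v = 1 mod f'`. Choose `w` with `w mod f = v`, `w mod d = 1` (`crt_exists`); `w' = 1` (`crt_ext` for `d`, `f'`, composition of `unitsMap`s as in `Bl_fix`), so by (E) `π (v, 1)` fixes `algebraMap A B x` (injectivity of `algebraMap B CB`,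
`T.comm1`).
(⇒) `g = π (v, ε)` (`hsurj`). Choose `w` with `w mod f = v`, `ψ(w mod d) = ε`. `g` fixes `A`, so by (E) `s_{w'}` fixes `algebraMap A CA x` for all `x`, i.e. `w' ∈ HM N' A CA` (`mem_HM`), so by `T.rA.hH`: `ψ (w' mod d) = 1`, i.e. `ε = 1`, and
`w' mod f' = ± 1`, i.e. `v mod f' = ± 1`. If `v = 1 mod f'` done; if `v = -1 mod f'` replace `v` by `-v`: `π (-v, 1) = π (v, 1) π (-1, 1) = π (v, 1)` (`hker`), and `-v = 1 mod f'` (`Units.map_neg`).
-/

set_option autoImplicit false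
set_option linter.unusedSectionVars false

open NumberField

namespace H11R

open H5SW

variable {p m n d : ℕ} [Fact p.Prime] [NeZero d] {ψ : (ZMod d)ˣ →* ℤˣ} {M F A B CA CB : Type} [Field M]
    [NumberField M] [Field F] [NumberField F] [Field A] [NumberField A] [Field B] [NumberField B] [Field CA] [NumberField CA]
    [Field CB] [NumberField CB] [Algebra M F] [Algebra M A] [Algebra F B] [Algebra A B] [Algebra A CA] [Algebra B CB]
    [Algebra CA CB] [IsCyclotomicExtension {d * p ^ (m + 1)} ℚ CA] [IsCyclotomicExtension {d * p ^ (n + 1)} ℚ CB]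

theorem pi_fix (hpd : p.Coprime d) (Q : QH d ψ) (T : RP2 p m n d ψ M F A B CA CB)
    (π : (ZMod (p ^ (n + 1)))ˣ × ℤˣ →* (B ≃ₐ[ℚ] B)) (hsurj : Function.Surjective π)
    (hker : ∀ a, π a = 1 ↔ a.2 = 1 ∧ (a.1 = 1 ∨ a.1 = -1))
    (hact : ∀ (w : (ZMod (d * p ^ (n + 1)))ˣ) (x : B),
        algebraMap B CB (π (ZMod.unitsMap (dvd_mul_left (p ^ (n + 1)) d) w, ψ (ZMod.unitsMap (dvd_mul_right d (p ^ (n + 1))) w)) x) =
          (IsCyclotomicExtension.Rat.galEquivZMod (d * p ^ (n + 1)) CB).symm w (algebraMap B CB x)) (g : B ≃ₐ[ℚ] B) :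
    (∀ x : A, g (algebraMap A B x) = algebraMap A B x) ↔
      ∃ v : (ZMod (p ^ (n + 1)))ˣ, ZMod.unitsMap (pow_dvd_pow p (Nat.succ_le_succ T.rp.hmn)) v = 1 ∧ g = π (v, 1) := by
  have hmn := T.rp.hmn
  have hd : p ^ (m + 1) ∣ p ^ (n + 1) := pow_dvd_pow p (Nat.succ_le_succ hmn)
  have hN : d * p ^ (m + 1) ∣ d * p ^ (n + 1) := Nat.mul_dvd_mul_left d hd
  have hc : d.Coprime (p ^ (n + 1)) := (hpd.symm).pow_right _
  have hc' : d.Coprime (p ^ (m + 1)) := (hpd.symm).pow_right _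
  have hψ : ∀ ε : ℤˣ, ∃ t : (ZMod d)ˣ, ψ t = ε := by
    intro ε
    rcases Int.units_eq_one_or ε with h | h
    · exact ⟨1, by rw [map_one, h]⟩
    · have hd1 := Q.d1
      obtain ⟨q, hq, hqd⟩ := Nat.exists_prime_and_dvd (n := d) (by omega)
      obtain ⟨u, -, hu⟩ := Q.prim q hq hqd
      exact ⟨u, by rw [h]; exact (Int.units_eq_one_or (ψ u)).resolve_left hu⟩
  have hE : ∀ (w : (ZMod (d * p ^ (n + 1)))ˣ) (x : A),
      algebraMap B CB (π (ZMod.unitsMap (dvd_mul_left (p ^ (n + 1)) d) w,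
        ψ (ZMod.unitsMap (dvd_mul_right d (p ^ (n + 1))) w)) (algebraMap A B x)) =
      algebraMap CA CB ((IsCyclotomicExtension.Rat.galEquivZMod (d * p ^ (m + 1)) CA).symm
        (ZMod.unitsMap hN w) (algebraMap A CA x)) := by
    intro w x
    rw [hact, ← T.comm1, act_up hN]
  constructor
  · intro hfix
    obtain ⟨⟨v, ε⟩, hg⟩ := hsurj g
    obtain ⟨t, ht⟩ := hψ ε
    obtain ⟨w, hw1, hw2⟩ := crt_exists hc t v
    have hw' : ZMod.unitsMap hN w ∈ HM (d * p ^ (m + 1)) A CA := by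
      rw [mem_HM]
      intro x
      apply (algebraMap CA CB).injective
      rw [← hE, hw2, hw1, ht, hg, hfix, T.comm1]
    rw [T.rA.hH] at hw'
    obtain ⟨h1, h2⟩ := hw'
    have e1 : ZMod.unitsMap (dvd_mul_left (p ^ (m + 1)) d) (ZMod.unitsMap hN w) =
        ZMod.unitsMap hd v := by
      rw [← hw2, ← MonoidHom.comp_apply, ZMod.unitsMap_comp, ← MonoidHom.comp_apply,
        ZMod.unitsMap_comp]
    have e2 : ZMod.unitsMap (dvd_mul_right d (p ^ (m + 1))) (ZMod.unitsMap hN w) = t := by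
      rw [← hw1, ← MonoidHom.comp_apply, ZMod.unitsMap_comp]
    rw [e1] at h1
    rw [e2, ht] at h2
    rw [h2] at hg
    rcases h1 with h1 | h1
    · exact ⟨v, h1, hg.symm⟩
    · refine ⟨-v, ?_, ?_⟩
      · have h3 : ZMod.unitsMap hd (-v) = -ZMod.unitsMap hd v := Units.map_neg _ _
        rw [h3, h1, neg_neg]
      · have h4 : ((-v, 1) : (ZMod (p ^ (n + 1)))ˣ × ℤˣ) = (v, 1) * (-1, 1) := by
          rw [Prod.mk_mul_mk, mul_neg_one, mul_one]
        rw [h4, map_mul, (hker (-1, 1)).2 ⟨rfl, Or.inr rfl⟩, mul_one, hg]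
  · rintro ⟨v, hv, rfl⟩ x
    obtain ⟨w, hw1, hw2⟩ := crt_exists hc 1 v
    have e0 : ZMod.unitsMap hN w = 1 := by
      apply crt_ext hc'
      · rw [map_one, ← hw1, ← MonoidHom.comp_apply, ZMod.unitsMap_comp]
      · rw [map_one, ← hv, ← hw2, ← MonoidHom.comp_apply, ZMod.unitsMap_comp,
          ← MonoidHom.comp_apply, ZMod.unitsMap_comp]
    apply (algebraMap B CB).injective
    have h := hE w x
    rw [hw2, hw1, map_one, e0, map_one, AlgEquiv.one_apply, T.comm1] at h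
    exact h

end H11R
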