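import Pool.Agent.H11.T3R.Dpb
import Pool.Agent.H11.T3R.Dpc
import Pool.Agent.H11.T3R.Dpd
import Pool.Agent.H11.T3R.DfE

/-! Existence of `PiT` (no row). -/

set_option autoImplicit false

open NumberField

namespace H11R

open H5SW

variable {p m n d : ℕ} [Fact p.Prime] [NeZero d] {ψ : (ZMod d)ˣ →* ℤˣ} {M F A B CA CB : Type} [Field M]
    [NumberField M] [Field F] [NumberField F] [Field A] [NumberField A] [Field B] [NumberField B] [Field CA] [NumberField CA]
    [Field CB] [NumberField CB] [Algebra M F] [Algebra M A] [Algebra F B] [Algebra A B] [Algebra A CA] [Algebra B CB]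
    [Algebra CA CB] [IsCyclotomicExtension {d * p ^ (m + 1)} ℚ CA] [IsCyclotomicExtension {d * p ^ (n + 1)} ℚ CB]

theorem exists_PiT (hpd : p.Coprime d) (Q : QH d ψ) (T : RP2 p m n d ψ M F A B CA CB) : Nonempty (PiT T) := by
  obtain ⟨π, h1, h2, h3⟩ := exists_pi hpd Q T.rB
  refine ⟨⟨π, h1, h2, h3, ?_, pi_fix hpd Q T π h1 h2 h3⟩⟩
  intro a x
  have h := pi_F hpd Q T.rB π h3 a x
  rw [T.eB] at h
  exact h

end H11R
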