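import Pool.Agent.H11.T3R.Dga
import Pool.Agent.H11.T3R.Ba
import Pool.Agent.H11.T3R.Bf

/-!
ROW Dgb (from relations for all reductions to divisibility by three; about 120 lines).

PROOF. `Ω = AlgebraicClosure (ZMod 3)`, one ring homomorphism `Ψ : 𝓞 C →+* Ω` (copy the private `RK_exists_hom` of Pool/Agent/H55/T3/RK.lean). `x = Ψ ξ`, `y = Ψ z` are primitive roots of unity of orders `d'`, `p^(n+1)` in `Ω`: they are roots of the cyclotomic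
polynomials (`IsPrimitiveRoot.isRoot_cyclotomic`, apply `Ψ`: `Polynomial.IsRoot.map`, `Polynomial.map_cyclotomic`), and `isRoot_cyclotomic_iff` needs `NeZero (d' : Ω)`, `NeZero (p^(n+1) : Ω)` (`3 ∤ d'`, `p ≥ 5`; `CharP.cast_eq_zero_iff`).
For `g ∈ (ZMod f)ˣ` choose `w` with `w mod d = 1`, `w mod f = g` (`crt_exists`); `Ψ_g = Ψ ∘ s_w` (`RingOfIntegers.mapRingHom` of the automorphism `s_w` of `C`, as in RK). `s_w ξ = ξ` (`ξ^d = 1` as `d' ∣ d`; `act_root` with `k = d`: exponent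
`(1 : ZMod d).val`, `= 1` if `d > 1`; `d = 1` is excluded by `hd1`), `s_w z = z ^ g.val` (`act_root` with `k = f`).
So `hK` for `Ψ_g`: `∑_u Θ u * ∑_t ψ'(t) R (x^t * (y^g.val)^u.val) = 0`, and `(y^g.val)^u.val = y^(g*u).val` (`y^f = 1`, `ZMod.val_mul`, `pow_eq_pow_mod`), i.e. `∑_u Θ u * rhoO R ψ' x y (g * u) = 0`.
`gr_units` with `ρ = rhoO (R Ω) ψ' x y` (even by `hev`, `hs` is `hNV`: unfold `NVL`, `rhoO`), `Θ` cast to `Ω` (even, kernel sums `0`: `hΘ`, `Int.cast_sum`): `(Θ u : Ω) = 0`, so `3 ∣ Θ u` (`CharP.intCast_eq_zero_iff`).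
-/

set_option autoImplicit false

open NumberField

namespace H11R

private theorem Dgb_exists_hom (L : Type) [Field L] [NumberField L] :
    Nonempty (𝓞 L →+* AlgebraicClosure (ZMod 3)) := by
  have h3z : Prime (3 : ℤ) := Int.prime_three
  have hpr : (Ideal.span {(3 : ℤ)}).IsPrime := (Ideal.span_singleton_prime h3z.ne_zero).mpr h3z
  obtain ⟨P, hP⟩ := (Ideal.span {(3 : ℤ)}).nonempty_primesOver (S := 𝓞 L)
  have hP1 : P.IsPrime := hP.1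
  have hP2 : P.LiesOver (Ideal.span {(3 : ℤ)}) := hP.2
  have h3P : (3 : 𝓞 L) ∈ P := by
    have h3 : (3 : ℤ) ∈ P.under ℤ := by
      rw [← hP2.over]
      exact Ideal.mem_span_singleton_self 3
    rw [Ideal.under_def, Ideal.mem_comap] at h3
    simpa using h3
  have hPb : P ≠ ⊥ := by
    intro h
    rw [h, Ideal.mem_bot] at h3P
    have h4 : ((3 : ℕ) : 𝓞 L) ≠ 0 := Nat.cast_ne_zero.2 (by norm_num)
    exact h4 (by exact_mod_cast h3P)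
  have hmax : P.IsMaximal := hP1.isMaximal hPb
  let _ : Field (𝓞 L ⧸ P) := Ideal.Quotient.field P
  have hfin : Finite (𝓞 L ⧸ P) := Ideal.finiteQuotientOfFreeOfNeBot P hPb
  have hchar : CharP (𝓞 L ⧸ P) 3 := by
    rw [CharP.charP_iff_prime_eq_zero Nat.prime_three]
    have h4 : Ideal.Quotient.mk P (3 : 𝓞 L) = 0 := Ideal.Quotient.eq_zero_iff_mem.mpr h3P
    rw [map_ofNat] at h4
    exact_mod_cast h4
  let _ : Algebra (ZMod 3) (𝓞 L ⧸ P) := ZMod.algebra _ 3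
  have halg : Algebra.IsAlgebraic (ZMod 3) (𝓞 L ⧸ P) := inferInstance
  let F : (𝓞 L ⧸ P) →ₐ[ZMod 3] AlgebraicClosure (ZMod 3) := IsAlgClosed.lift
  exact ⟨(F : (𝓞 L ⧸ P) →+* AlgebraicClosure (ZMod 3)).comp (Ideal.Quotient.mk P)⟩

private theorem Dgb_prim {C : Type} [Field C] [NumberField C] {Ω : Type} [Field Ω] [CharP Ω 3]
    (Ψ : 𝓞 C →+* Ω) {k : ℕ} (h3 : ¬ 3 ∣ k) {ξ : 𝓞 C} (h : IsPrimitiveRoot ξ k) :
    IsPrimitiveRoot (Ψ ξ) k := by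
  have hk : k ≠ 0 := by
    rintro rfl
    exact h3 (dvd_zero _)
  have hne : NeZero ((k : ℕ) : Ω) := ⟨fun h0 => h3 ((CharP.cast_eq_zero_iff Ω 3 k).1 h0)⟩
  have h1 : (Polynomial.cyclotomic k (𝓞 C)).IsRoot ξ := h.isRoot_cyclotomic (Nat.pos_of_ne_zero hk)
  have h2 := h1.map (f := Ψ)
  rw [Polynomial.map_cyclotomic] at h2
  exact Polynomial.isRoot_cyclotomic_iff.1 h2

private theorem Dgb_pow {Ω : Type} [Field Ω] {f : ℕ} [NeZero f] (y : Ω) (hy : y ^ f = 1)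
    (g u : (ZMod f)ˣ) :
    (y ^ (g : ZMod f).val) ^ (u : ZMod f).val = y ^ ((g * u : (ZMod f)ˣ) : ZMod f).val := by
  rw [← pow_mul, Units.val_mul, ZMod.val_mul]
  conv_lhs => rw [← Nat.div_add_mod ((g : ZMod f).val * (u : ZMod f).val) f, pow_add, pow_mul, hy,
    one_pow, one_mul]

theorem three_dvd_gen {d d' p m n k0 : ℕ} [NeZero d] [NeZero d'] [Fact p.Prime] (hp5 : 5 ≤ p) (hpd : p.Coprime d) (hd1 : 1 < d) (hmn : m ≤ n)
    (hk : k0 ≤ m + 1) (hd' : d' ∣ d) (h3 : ¬ 3 ∣ d') {C : Type} [Field C] [NumberField C] [IsCyclotomicExtension {d * p ^ (n + 1)} ℚ C]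
    {ψ' : (ZMod d')ˣ →* ℤˣ} (R : (Ω : Type) → [Field Ω] → Ω → Ω) (hNV : NVL p k0 d' ψ' R) {ξ z : 𝓞 C} (hξ : IsPrimitiveRoot ξ d')
    (hz : IsPrimitiveRoot z (p ^ (n + 1))) {Θ : (ZMod (p ^ (n + 1)))ˣ → ℤ} (hΘ : Dig p hmn Θ)
    (hev : ∀ (Ω : Type) [Field Ω] [CharP Ω 3] (x y : Ω), IsPrimitiveRoot x d' → IsPrimitiveRoot y (p ^ (n + 1)) →
      ∀ u : (ZMod (p ^ (n + 1)))ˣ, rhoO (R Ω) ψ' x y (-u) = rhoO (R Ω) ψ' x y u)
    (hK : ∀ (Ω : Type) [Field Ω] [CharP Ω 3] (Ψ : 𝓞 C →+* Ω),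
      ∑ u : (ZMod (p ^ (n + 1)))ˣ, ((Θ u : ℤ) : Ω) * rhoO (R Ω) ψ' (Ψ ξ) (Ψ z) u = 0) :
    ∀ u, (3 : ℤ) ∣ Θ u := by
  have hp : p.Prime := Fact.out
  have hf0 : p ^ (n + 1) ≠ 0 := pow_ne_zero _ hp.ne_zero
  have : NeZero (p ^ (n + 1)) := ⟨hf0⟩
  have h3f : ¬ 3 ∣ p ^ (n + 1) := by
    intro h
    have h1 := Nat.prime_three.dvd_of_dvd_pow h
    have h2 := (Nat.prime_dvd_prime_iff_eq Nat.prime_three hp).1 h1
    omega
  obtain ⟨Ψ⟩ := Dgb_exists_hom C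
  have hx : IsPrimitiveRoot (Ψ ξ) d' := Dgb_prim Ψ h3 hξ
  have hy : IsPrimitiveRoot (Ψ z) (p ^ (n + 1)) := Dgb_prim Ψ h3f hz
  have hcop : d.Coprime (p ^ (n + 1)) := (Nat.Coprime.pow_left (n + 1) hpd).symm
  have hξd : ((ξ : 𝓞 C) : C) ^ d = 1 := by
    obtain ⟨c, hc⟩ := hd'
    have h1 : ξ ^ d = 1 := by
      rw [hc, pow_mul, hξ.pow_eq_one, one_pow]
    have h2 := congrArg (fun t : 𝓞 C => (t : C)) h1
    simpa using h2
  have hzf : ((z : 𝓞 C) : C) ^ (p ^ (n + 1)) = 1 := by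
    have h2 := congrArg (fun t : 𝓞 C => (t : C)) hz.pow_eq_one
    simpa using h2
  have key : ∀ g : (ZMod (p ^ (n + 1)))ˣ, ∑ u : (ZMod (p ^ (n + 1)))ˣ,
      ((Θ u : ℤ) : AlgebraicClosure (ZMod 3)) *
        rhoO (R (AlgebraicClosure (ZMod 3))) ψ' (Ψ ξ) (Ψ z) (g * u) = 0 := by
    intro g
    obtain ⟨w, hw1, hw2⟩ := crt_exists hcop 1 g
    set s := (IsCyclotomicExtension.Rat.galEquivZMod (d * p ^ (n + 1)) C).symm w with hs
    have e1 : RingOfIntegers.mapRingHom (s : C ≃ₐ[ℚ] C) ξ = ξ := by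
      apply RingOfIntegers.ext
      change s (ξ : C) = (ξ : C)
      rw [hs, act_root (dvd_mul_right d (p ^ (n + 1))) _ hξd w, hw1, Units.val_one,
        ZMod.val_one'' hd1.ne', pow_one]
    have e2 : RingOfIntegers.mapRingHom (s : C ≃ₐ[ℚ] C) z = z ^ (g : ZMod (p ^ (n + 1))).val := by
      apply RingOfIntegers.ext
      change s (z : C) = ((z ^ (g : ZMod (p ^ (n + 1))).val : 𝓞 C) : C)
      rw [hs, act_root (dvd_mul_left (p ^ (n + 1)) d) _ hzf w, hw2]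
      simp
    have h := hK (AlgebraicClosure (ZMod 3)) (Ψ.comp (RingOfIntegers.mapRingHom (s : C ≃ₐ[ℚ] C)))
    rw [← h]
    refine Finset.sum_congr rfl fun u _ => ?_
    congr 1
    rw [RingHom.comp_apply, RingHom.comp_apply, e1, e2, map_pow]
    unfold rhoO
    refine Finset.sum_congr rfl fun t _ => ?_
    rw [Dgb_pow _ hy.pow_eq_one]
  have hfin := gr_units hp5 hmn (rhoO (R (AlgebraicClosure (ZMod 3))) ψ' (Ψ ξ) (Ψ z))
    (hev _ _ _ hx hy) (fun χ h1 h2 => hNV m n hmn hk _ _ _ hx hy χ h1 h2)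
    (fun u => ((Θ u : ℤ) : AlgebraicClosure (ZMod 3)))
    (fun u => by rw [hΘ.even])
    (fun u => by rw [← Int.cast_sum, hΘ.ker, Int.cast_zero]) key
  intro u
  have h1 := congrFun hfin u
  have h2 := (CharP.intCast_eq_zero_iff (AlgebraicClosure (ZMod 3)) 3 (Θ u)).1 h1
  exact_mod_cast h2

end H11R
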