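import Pool.Agent.H11.T3R.DfE
import Pool.Agent.H11.T3R.Ba

/-!
ROW Dgc (the sums `rhoO` are even; about 70 lines).

PROOF. Substitute `t ↦ -t` in the sum over `(ZMod d)ˣ`. `x ^ (-t).val = (x ^ t.val)⁻¹`, `y ^ (-u).val = (y ^ u.val)⁻¹` (`Ba_neg`, Ba.lean; it is stated for a field `C`, or redo it: `ZMod.neg_val`), so the argument `a = x^t y^u` becomes `a⁻¹`.
(i) `ψ(-t) = ψ(t)` and `a⁻¹ / (1 - a⁻¹)^2 = a / (1 - a)^2` for `a ≠ 0` (also if `a = 1`: both sides are `0`).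
(ii) `ψ(-t) = -ψ(t)` and `a⁻¹ / (1 - a⁻¹) = - 1 - a / (1 - a)` if `a ≠ 0`, `a ≠ 1` (here `a ≠ 1` because `x^t = (y^u)⁻¹` would have order dividing `d` and `p^(n+1)`, coprime, so `y^u = 1`, but it has order `p^(n+1) > 1`); so
`rhoO (-u) = ∑ -ψ(t) (-1 - a/(1-a)) = ∑ ψ(t) + rhoO u`, and `∑ ψ(t) = 0` (`t ↦ -t` again: `2 ∑ ψ(t) = 0` in `ℤ`, cast to `Ω`).
-/

set_option autoImplicit false

namespace H11R

theorem Dgc_alg1 {Ω : Type} [Field Ω] (a : Ω) (ha : a ≠ 0) : a⁻¹ / (1 - a⁻¹) ^ 2 = a / (1 - a) ^ 2 := by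
  by_cases h1 : a = 1
  · subst h1
    simp
  · have h2 : 1 - a ≠ 0 := fun h => h1 (sub_eq_zero.1 h).symm
    have h3 : 1 - a⁻¹ = -(1 - a) * a⁻¹ := by
      field_simp
      ring
    rw [h3]
    field_simp

theorem Dgc_alg2 {Ω : Type} [Field Ω] (a : Ω) (ha : a ≠ 0) (h1 : a ≠ 1) : a⁻¹ / (1 - a⁻¹) = -1 - a / (1 - a) := by
  have h2 : 1 - a ≠ 0 := fun h => h1 (sub_eq_zero.1 h).symm
  have h3 : 1 - a⁻¹ = -(1 - a) * a⁻¹ := by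
    field_simp
    ring
  rw [h3]
  field_simp
  ring

theorem rho_even_i {Ω : Type} [Field Ω] {d p n : ℕ} [NeZero d] [Fact p.Prime] {ψ : (ZMod d)ˣ →* ℤˣ} (hψ : ψ (-1) = 1) (x y : Ω)
    (hx : IsPrimitiveRoot x d) (hy : IsPrimitiveRoot y (p ^ (n + 1))) (u : (ZMod (p ^ (n + 1)))ˣ) :
    rhoO (fun a => a / (1 - a) ^ 2) ψ x y (-u) = rhoO (fun a => a / (1 - a) ^ 2) ψ x y u := by
  have hp : p.Prime := Fact.out
  have : NeZero (p ^ (n + 1)) := ⟨(pow_pos hp.pos _).ne'⟩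
  have hx0 : x ≠ 0 := hx.ne_zero (NeZero.ne d)
  have hy0 : y ≠ 0 := hy.ne_zero (NeZero.ne (p ^ (n + 1)))
  unfold rhoO
  rw [← Equiv.sum_comp (Equiv.neg (ZMod d)ˣ)]
  refine Finset.sum_congr rfl fun t _ => ?_
  have h1 : ψ (-t) = ψ t := by
    rw [← neg_one_mul t, map_mul, hψ, one_mul]
  rw [Equiv.neg_apply, h1]
  congr 1
  rw [Units.val_neg, Units.val_neg, Ba_neg y hy.pow_eq_one, Ba_neg x hx.pow_eq_one, ← mul_inv]
  exact Dgc_alg1 _ (mul_ne_zero (pow_ne_zero _ hx0) (pow_ne_zero _ hy0))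

theorem Dgc_sum_odd {d : ℕ} [NeZero d] {ψ : (ZMod d)ˣ →* ℤˣ} (hψ : ψ (-1) = -1) : ∑ t : (ZMod d)ˣ, ((ψ t : ℤˣ) : ℤ) = 0 := by
  have h1 : ∑ t : (ZMod d)ˣ, ((ψ t : ℤˣ) : ℤ) = ∑ t : (ZMod d)ˣ, -((ψ t : ℤˣ) : ℤ) := by
    conv_lhs => rw [← Equiv.sum_comp (Equiv.neg (ZMod d)ˣ)]
    refine Finset.sum_congr rfl fun t _ => ?_
    have h2 : ψ (-t) = -ψ t := by
      rw [← neg_one_mul t, map_mul, hψ, neg_one_mul]
    rw [Equiv.neg_apply, h2, Units.val_neg]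
  rw [Finset.sum_neg_distrib] at h1
  omega

theorem Dgc_ne {Ω : Type} [Field Ω] {d p n : ℕ} [NeZero d] [Fact p.Prime] (hpd : p.Coprime d) (x y : Ω)
    (hx : IsPrimitiveRoot x d) (hy : IsPrimitiveRoot y (p ^ (n + 1))) (t : ℕ) (u : (ZMod (p ^ (n + 1)))ˣ) :
    x ^ t * y ^ (u : ZMod (p ^ (n + 1))).val ≠ 1 := by
  have hp : p.Prime := Fact.out
  have : NeZero (p ^ (n + 1)) := ⟨(pow_pos hp.pos _).ne'⟩
  intro h
  have h1 : (x ^ t * y ^ (u : ZMod (p ^ (n + 1))).val) ^ d = 1 := by rw [h, one_pow]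
  rw [mul_pow, ← pow_mul x, mul_comm t d, pow_mul x, hx.pow_eq_one, one_pow, one_mul, ← pow_mul] at h1
  have h2 : p ^ (n + 1) ∣ (u : ZMod (p ^ (n + 1))).val * d := (hy.pow_eq_one_iff_dvd _).1 h1
  have h3 : p ∣ (u : ZMod (p ^ (n + 1))).val * d := (dvd_pow_self p (Nat.succ_ne_zero n)).trans h2
  have h4 : Nat.Coprime (u : ZMod (p ^ (n + 1))).val (p ^ (n + 1)) := ZMod.val_coe_unit_coprime u
  have h5 : Nat.Coprime (u : ZMod (p ^ (n + 1))).val p :=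
    Nat.Coprime.coprime_dvd_right (dvd_pow_self p (Nat.succ_ne_zero n)) h4
  have h6 : p ∣ d := (Nat.Coprime.symm h5).dvd_of_dvd_mul_left h3
  have h7 : p ∣ 1 := by
    have h8 := Nat.dvd_gcd (dvd_refl p) h6
    rwa [hpd] at h8
  exact hp.one_lt.ne' (Nat.dvd_one.mp h7)

theorem rho_even_ii {Ω : Type} [Field Ω] {d p n : ℕ} [NeZero d] [Fact p.Prime] (hpd : p.Coprime d) {ψ : (ZMod d)ˣ →* ℤˣ} (hψ : ψ (-1) = -1) (x y : Ω)
    (hx : IsPrimitiveRoot x d) (hy : IsPrimitiveRoot y (p ^ (n + 1))) (u : (ZMod (p ^ (n + 1)))ˣ) :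
    rhoO (fun a => a / (1 - a)) ψ x y (-u) = rhoO (fun a => a / (1 - a)) ψ x y u := by
  have hp : p.Prime := Fact.out
  have : NeZero (p ^ (n + 1)) := ⟨(pow_pos hp.pos _).ne'⟩
  have hx0 : x ≠ 0 := hx.ne_zero (NeZero.ne d)
  have hy0 : y ≠ 0 := hy.ne_zero (NeZero.ne (p ^ (n + 1)))
  have hs : ∑ t : (ZMod d)ˣ, (((ψ t : ℤˣ) : ℤ) : Ω) = 0 := by
    have h := congrArg (Int.cast : ℤ → Ω) (Dgc_sum_odd hψ)
    rw [Int.cast_sum, Int.cast_zero] at h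
    exact h
  have hmain : rhoO (fun a => a / (1 - a)) ψ x y (-u) =
      ∑ t : (ZMod d)ˣ, ((((ψ t : ℤˣ) : ℤ) : Ω) + (((ψ t : ℤˣ) : ℤ) : Ω) *
        ((x ^ (t : ZMod d).val * y ^ (u : ZMod (p ^ (n + 1))).val) /
          (1 - (x ^ (t : ZMod d).val * y ^ (u : ZMod (p ^ (n + 1))).val)))) := by
    unfold rhoO
    rw [← Equiv.sum_comp (Equiv.neg (ZMod d)ˣ)]
    refine Finset.sum_congr rfl fun t _ => ?_
    have h2 : ψ (-t) = -ψ t := by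
      rw [← neg_one_mul t, map_mul, hψ, neg_one_mul]
    rw [Equiv.neg_apply, h2]
    simp only [Units.val_neg, Ba_neg y hy.pow_eq_one, Ba_neg x hx.pow_eq_one, ← mul_inv]
    rw [Dgc_alg2 _ (mul_ne_zero (pow_ne_zero _ hx0) (pow_ne_zero _ hy0)) (Dgc_ne hpd x y hx hy _ u)]
    push_cast
    ring
  rw [hmain, Finset.sum_add_distrib, hs, zero_add]
  rfl

theorem sum_odd {d : ℕ} [NeZero d] {ψ : (ZMod d)ˣ →* ℤˣ} (hψ : ψ (-1) = -1) : ∑ t : (ZMod d)ˣ, ((ψ t : ℤˣ) : ℤ) = 0 :=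
  Dgc_sum_odd hψ

end H11R
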