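import Pool.Agent.H11.T3R.DfE
import Pool.Agent.H11.T3R.Bi

/-!
ROW Dia (three is unramified in `C`, `3 ∤ N`; about 70 lines).

PROOF. `not_dvd_discr`: Bi.lean (`discr_three` with `M = C`, `Algebra.id`). Then as `three_red` in Pool/Agent/H55/T3/RD.lean: `span {3}` is squarefree (otherwise a prime `P` with `P ^ 2 ∣ (3)` divides the different, its norm divides the discriminant and a power of
`3`), so it is a radical ideal, so `3 ∣ x ^ k` implies `3 ∣ x`.
`nine_of`: `27 ∣ X ^ 2`: `3 ∣ X ^ 2`, so `X = 3 Y`, `27 ∣ 9 Y ^ 2`, so `3 ∣ Y ^ 2` (cancel `9`), `3 ∣ Y`, `9 ∣ X`.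
-/

set_option autoImplicit false

open NumberField

namespace H11R

theorem rad_unram {N : ℕ} [NeZero N] (h3 : ¬ 3 ∣ N) {C : Type} [Field C] [NumberField C] [IsCyclotomicExtension {N} ℚ C] (k : ℕ) (x : 𝓞 C)
    (h : (3 : 𝓞 C) ∣ x ^ k) : (3 : 𝓞 C) ∣ x := by
  have hodd : ¬ 3 ∣ (discr C).natAbs := discr_three N h3 C C
  have hsq : Squarefree (Ideal.span {(3 : 𝓞 C)}) := by
    intro P hP
    have hPm : P ^ 2 ∣ (Ideal.span {(3 : ℤ)}).map (algebraMap ℤ (𝓞 C)) := by
      rw [Ideal.map_span, Set.image_singleton, pow_two]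
      simpa using hP
    have hmax : (Ideal.span {(3 : ℤ)}).IsMaximal :=
      PrincipalIdealRing.isMaximal_of_irreducible (Int.prime_three.irreducible)
    have hne : (Ideal.span {(3 : ℤ)}) ≠ ⊥ := by
      rw [Ne, Ideal.span_singleton_eq_bot]
      norm_num
    have hdiff := pow_sub_one_dvd_differentIdeal ℤ P 2 hne hPm
    rw [show 2 - 1 = 1 from rfl, pow_one] at hdiff
    have hN1 : Ideal.absNorm P ∣ (NumberField.discr C).natAbs := by
      rw [← NumberField.absNorm_differentIdeal C (𝓞 C)]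
      exact map_dvd Ideal.absNorm hdiff
    have hN2 : Ideal.absNorm P ∣ 3 ^ Module.finrank ℚ C := by
      have h5 : Ideal.absNorm P ∣ Ideal.absNorm (Ideal.span {(3 : 𝓞 C)}) :=
        map_dvd Ideal.absNorm ((dvd_mul_left P P).trans hP)
      have h6 : Ideal.absNorm (Ideal.span {(3 : 𝓞 C)}) = 3 ^ Module.finrank ℚ C := by
        rw [Ideal.absNorm_span_singleton]
        have h7 : (3 : 𝓞 C) = algebraMap ℤ (𝓞 C) 3 := by simp
        rw [h7, Algebra.norm_algebraMap, Int.natAbs_pow, RingOfIntegers.rank]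
        rfl
      rwa [h6] at h5
    have hcop : Nat.Coprime (NumberField.discr C).natAbs (3 ^ Module.finrank ℚ C) := by
      apply Nat.Coprime.pow_right
      rw [Nat.coprime_comm, Nat.prime_three.coprime_iff_not_dvd]
      exact hodd
    have h8 : Ideal.absNorm P = 1 := Nat.eq_one_of_dvd_coprimes hcop hN1 hN2
    rw [Ideal.absNorm_eq_one_iff] at h8
    exact Ideal.isUnit_iff.mpr h8
  have h1 : Ideal.span {(3 : 𝓞 C)} ∣ (Ideal.span {x}) ^ k := by
    rw [Ideal.span_singleton_pow, Ideal.dvd_span_singleton, Ideal.mem_span_singleton]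
    exact h
  have h2 := hsq.isRadical k _ h1
  rw [Ideal.dvd_span_singleton, Ideal.mem_span_singleton] at h2
  exact h2

theorem nine_of {N : ℕ} [NeZero N] (h3 : ¬ 3 ∣ N) {C : Type} [Field C] [NumberField C] [IsCyclotomicExtension {N} ℚ C] {X : 𝓞 C}
    (h : (27 : 𝓞 C) ∣ X ^ 2) : (9 : 𝓞 C) ∣ X := by
  have h27 : (27 : 𝓞 C) = 3 * 9 := by norm_num
  have h1 : (3 : 𝓞 C) ∣ X ^ 2 := (Dvd.intro _ h27.symm).trans h
  obtain ⟨Y, hY⟩ := rad_unram h3 2 X h1
  obtain ⟨Z, hZ⟩ := h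
  have h9 : (9 : 𝓞 C) ≠ 0 := by norm_num
  have h2 : Y ^ 2 = 3 * Z := by
    apply mul_left_cancel₀ h9
    rw [hY] at hZ
    linear_combination hZ
  obtain ⟨W, hW⟩ := rad_unram h3 2 Y (Dvd.intro _ h2.symm)
  exact ⟨W, by rw [hY, hW]; ring⟩

end H11R
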