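import Pool.Agent.H11.T3R.DfE
import Pool.Agent.H11.T3R.Dia
import Pool.Agent.H11.T3R.Ba
import Pool.Agent.H11.T3R.Bb
import Pool.Agent.H55.T3.RA

/-!
ROW Dib (case (i), the relation for one reduction; about 150 lines).

PROOF. Adapt `three_dvd_of_nine` of Pool/Agent/H55/T3/RK.lean. `f = p^(n+1)`, index set `G = (ZMod d)ˣ × (ZMod f)ˣ`, `θ (t, u) = ψ(t) Θ(u)`. `3` is a unit modulo `d` and `f`: `v3`, `w3` (`ZMod.unitOfCoprime`).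
(1) `D (t, u) : (𝓞 C)ˣ` the unit with value `aC ξ z t u` (`unit_aC`, `choose`), `b (t, u) = D (v3⁻¹ t, w3⁻¹ u)`. In `C`: `aC ξ z t u = (1 - y)(1 - y⁻¹)`, `y = ξ^t z^u`; if `t = 3 t'`, `u = 3 u'` then `y = y'^3` (`ZMod.val_mul`, `pow_eq_pow_mod`), and
    `(1 - y'^3)(1 - y'^(-3)) = b^3 - 6 b^2 + 9 b` with `b = (1 - y')(1 - y'⁻¹) = 2 - y' - y'⁻¹` (`y' ≠ 0`; `field_simp; ring`). So `D = b^3 - 6 b^2 + 9 b` in `𝓞 C`.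
(2) `V = ∏_u (∏_t aC^ψ(t))^Θ(u) = ∏_(t,u) aC^θ(t,u)` in `C` (`zpow_mul`, `Finset.prod_product`/`Fintype.prod_prod_type`), so `V ∏ D^(-θ).toNat = ∏ D^(θ).toNat` in `𝓞 C` (split exponents as in RK).
(3) `ra_kappa` (`hred = rad_unram 3`, `B = b⁻¹`, so `9 ∣ b B - 1 = 0`): `3 ∣ ∑ θ B`.
(4) Apply `Ψ` (`Ψ 3 = 3 = 0`), cube (Frobenius; integers are fixed): `∑ θ (Ψ B)^3 = 0`, `(Ψ B)^3 = ((Ψ b)^3)⁻¹ = (Ψ D)⁻¹` (as `6 = 9 = 0` in `Ω`). `D y = - (1 - y)^2` in `𝓞 C` with `y = ξI^t zI^u` (`hξ.toInteger`, `coe_toInteger`), so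
    `Ψ D * Y = - (1 - Y)^2`, `Y = (Ψ ξI)^t (Ψ zI)^u ≠ 0` (unit), so `(Ψ D)⁻¹ = - Y / (1 - Y)^2`. So `∑ θ(t,u) Y / (1 - Y)^2 = 0`, which is the claim (`Finset.mul_sum`, unfold `rhoO`, `push_cast`).
-/

set_option autoImplicit false

open NumberField

namespace H11R

section Dib

variable {C : Type} [Field C]

theorem Dib_root {k : ℕ} [NeZero k] (x : C) (hx : x ^ k = 1) (v t : (ZMod k)ˣ) (hv : (v : ZMod k) = ((3 : ℕ) : ZMod k)) :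
    (x ^ ((v⁻¹ * t : (ZMod k)ˣ) : ZMod k).val) ^ 3 = x ^ (t : ZMod k).val := by
  set t' : (ZMod k)ˣ := v⁻¹ * t with ht'
  have h1 : t = v * t' := by rw [ht', mul_inv_cancel_left]
  have h2 : (t : ZMod k) = ((3 * (t' : ZMod k).val : ℕ) : ZMod k) := by
    rw [h1, Units.val_mul, hv, Nat.cast_mul, ZMod.natCast_zmod_val]
  rw [h2, ZMod.val_natCast]
  have h3 : x ^ (3 * (t' : ZMod k).val % k) = x ^ (3 * (t' : ZMod k).val) := by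
    conv_rhs => rw [← Nat.div_add_mod (3 * (t' : ZMod k).val) k, pow_add, pow_mul, hx, one_pow, one_mul]
  rw [h3, ← pow_mul, mul_comm]

theorem Dib_triple {y : C} (hy : y ≠ 0) : (1 - y ^ 3) * (1 - (y ^ 3)⁻¹) =
    ((1 - y) * (1 - y⁻¹)) ^ 3 - 6 * ((1 - y) * (1 - y⁻¹)) ^ 2 + 9 * ((1 - y) * (1 - y⁻¹)) := by
  field_simp
  ring

theorem Dib_neg {y : C} (hy : y ≠ 0) : (1 - y) * (1 - y⁻¹) * y = - (1 - y) ^ 2 := by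
  field_simp
  ring

theorem Dib_inv {D Y : C} (hY : Y ≠ 0) (h : D * Y = - (1 - Y) ^ 2) : D⁻¹ = - (Y / (1 - Y) ^ 2) := by
  have h1 : D = - (1 - Y) ^ 2 / Y := eq_div_of_mul_eq hY h
  rw [h1, inv_div, div_neg]

theorem Dib_vC {d f : ℕ} [NeZero d] [NeZero f] (ξ z : C) (ψ : (ZMod d)ˣ →* ℤˣ) (Θ : (ZMod f)ˣ → ℤ) :
    vC ξ z ψ Θ = ∏ g : (ZMod d)ˣ × (ZMod f)ˣ, aC ξ z g.1 g.2 ^ (((ψ g.1 : ℤˣ) : ℤ) * Θ g.2) := by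
  rw [Fintype.prod_prod_type_right]
  unfold vC eC
  refine Finset.prod_congr rfl fun u _ => ?_
  rw [← Finset.prod_zpow]
  refine Finset.prod_congr rfl fun t _ => ?_
  rw [zpow_mul]

end Dib

theorem kappa_i {d p n : ℕ} [NeZero d] [Fact p.Prime] (hp5 : 5 ≤ p) (hpd : p.Coprime d) (hd : 1 < d) (h3 : ¬ 3 ∣ d) {C : Type} [Field C]
    [NumberField C] [IsCyclotomicExtension {d * p ^ (n + 1)} ℚ C] {ψ : (ZMod d)ˣ →* ℤˣ} {ξ z : C} (hξ : IsPrimitiveRoot ξ d)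
    (hz : IsPrimitiveRoot z (p ^ (n + 1))) (Θ : (ZMod (p ^ (n + 1)))ˣ → ℤ) (V : (𝓞 C)ˣ) (hV : ((V : 𝓞 C) : C) = vC ξ z ψ Θ) (s : 𝓞 C)
    (h : (9 : 𝓞 C) ∣ (V : 𝓞 C) - s ^ 3) (Ω : Type) [Field Ω] [CharP Ω 3] (Ψ : 𝓞 C →+* Ω) :
    ∑ u : (ZMod (p ^ (n + 1)))ˣ, ((Θ u : ℤ) : Ω) * rhoO (fun a => a / (1 - a) ^ 2) ψ (Ψ hξ.toInteger) (Ψ hz.toInteger) u = 0 := by
  classical
  have hp : p.Prime := Fact.out
  have hf0 : NeZero (p ^ (n + 1)) := ⟨pow_ne_zero _ hp.ne_zero⟩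
  have hd3 : Nat.Coprime 3 d := (Nat.Prime.coprime_iff_not_dvd Nat.prime_three).2 h3
  have hp3 : Nat.Coprime 3 p := by
    rw [Nat.coprime_primes Nat.prime_three hp]
    omega
  have hf3 : Nat.Coprime 3 (p ^ (n + 1)) := hp3.pow_right _
  have hN3 : ¬ 3 ∣ d * p ^ (n + 1) :=
    (Nat.Prime.coprime_iff_not_dvd Nat.prime_three).1 (Nat.Coprime.mul_right hd3 hf3)
  have hN0 : NeZero (d * p ^ (n + 1)) := ⟨mul_ne_zero (NeZero.ne d) (NeZero.ne _)⟩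
  have hξ1 : ξ ^ d = 1 := hξ.pow_eq_one
  have hz1 : z ^ (p ^ (n + 1)) = 1 := hz.pow_eq_one
  have hξ0 : ξ ≠ 0 := hξ.ne_zero (NeZero.ne d)
  have hz0 : z ≠ 0 := hz.ne_zero (NeZero.ne _)
  choose D hD using fun (t : (ZMod d)ˣ) (u : (ZMod (p ^ (n + 1)))ˣ) => unit_aC hpd hd hξ hz t u
  obtain ⟨v3, hv3⟩ : ∃ v : (ZMod d)ˣ, (v : ZMod d) = ((3 : ℕ) : ZMod d) :=
    ⟨ZMod.unitOfCoprime 3 hd3, ZMod.coe_unitOfCoprime _ _⟩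
  obtain ⟨w3, hw3⟩ : ∃ v : (ZMod (p ^ (n + 1)))ˣ, (v : ZMod (p ^ (n + 1))) = ((3 : ℕ) : ZMod (p ^ (n + 1))) :=
    ⟨ZMod.unitOfCoprime 3 hf3, ZMod.coe_unitOfCoprime _ _⟩
  -- the triple angle
  have hdb : ∀ g : (ZMod d)ˣ × (ZMod (p ^ (n + 1)))ˣ, ((D g.1 g.2 : (𝓞 C)ˣ) : 𝓞 C) =
      ((D (v3⁻¹ * g.1) (w3⁻¹ * g.2) : (𝓞 C)ˣ) : 𝓞 C) ^ 3 - 6 * ((D (v3⁻¹ * g.1) (w3⁻¹ * g.2) : (𝓞 C)ˣ) : 𝓞 C) ^ 2
        + 9 * ((D (v3⁻¹ * g.1) (w3⁻¹ * g.2) : (𝓞 C)ˣ) : 𝓞 C) := by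
    intro g
    apply RingOfIntegers.coe_injective
    have h1 := hD g.1 g.2
    have h2 := hD (v3⁻¹ * g.1) (w3⁻¹ * g.2)
    unfold aC at h1 h2
    rw [← Dib_root ξ hξ1 v3 g.1 hv3, ← Dib_root z hz1 w3 g.2 hw3, ← mul_pow,
      Dib_triple (mul_ne_zero (pow_ne_zero _ hξ0) (pow_ne_zero _ hz0)), ← h2] at h1
    refine Eq.trans h1 ?_
    change _ = algebraMap (𝓞 C) C _
    simp only [map_add, map_sub, map_mul, map_pow, map_ofNat]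
  -- the product
  have hVp : V = ∏ g : (ZMod d)ˣ × (ZMod (p ^ (n + 1)))ˣ, D g.1 g.2 ^ (((ψ g.1 : ℤˣ) : ℤ) * Θ g.2) := by
    apply Units.ext
    apply RingOfIntegers.coe_injective
    refine Eq.trans (hV.trans (Dib_vC ξ z ψ Θ)) ?_
    let Φ : (𝓞 C)ˣ →* C := ((algebraMap (𝓞 C) C : (𝓞 C) →+* C) : (𝓞 C) →* C).comp (Units.coeHom (𝓞 C))
    have hΦ : ∀ x : (𝓞 C)ˣ, ((x : 𝓞 C) : C) = Φ x := fun x => rfl
    change _ = Φ _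
    rw [map_prod]
    refine Finset.prod_congr rfl fun g _ => ?_
    rw [map_zpow, ← hΦ, hD]
  have hU : (V : 𝓞 C) * ∏ g : (ZMod d)ˣ × (ZMod (p ^ (n + 1)))ˣ,
        ((D g.1 g.2 : (𝓞 C)ˣ) : 𝓞 C) ^ (-(((ψ g.1 : ℤˣ) : ℤ) * Θ g.2)).toNat =
      ∏ g : (ZMod d)ˣ × (ZMod (p ^ (n + 1)))ˣ, ((D g.1 g.2 : (𝓞 C)ˣ) : 𝓞 C) ^ (((ψ g.1 : ℤˣ) : ℤ) * Θ g.2).toNat := by
    simp only [← Units.val_pow_eq_pow_val]
    rw [← Units.coe_prod, ← Units.coe_prod, ← Units.val_mul, hVp, ← Finset.prod_mul_distrib]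
    congr 1
    refine Finset.prod_congr rfl fun g _ => ?_
    rw [← zpow_natCast, ← zpow_natCast, ← zpow_add]
    congr 1
    omega
  have hκ := H55T3.ra_kappa (fun x hx => rad_unram hN3 3 x hx)
    (fun g : (ZMod d)ˣ × (ZMod (p ^ (n + 1)))ˣ => ((D g.1 g.2 : (𝓞 C)ˣ) : 𝓞 C))
    (fun g => ((D (v3⁻¹ * g.1) (w3⁻¹ * g.2) : (𝓞 C)ˣ) : 𝓞 C))
    (fun g => (((D (v3⁻¹ * g.1) (w3⁻¹ * g.2))⁻¹ : (𝓞 C)ˣ) : 𝓞 C)) hdb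
    (fun g => by rw [Units.mul_inv, sub_self]; exact dvd_zero _)
    (fun g => ((ψ g.1 : ℤˣ) : ℤ) * Θ g.2) (V : 𝓞 C) s hU h
  -- reduction
  have hΩ3 : (3 : Ω) = 0 := by
    have := CharP.cast_eq_zero Ω 3
    exact_mod_cast this
  have hT3 : Fact (Nat.Prime 3) := ⟨Nat.prime_three⟩
  have hE : ExpChar Ω 3 := ExpChar.prime Nat.prime_three
  have hξI : (Ψ hξ.toInteger) ^ d = 1 := by
    rw [← map_pow, hξ.toInteger_isPrimitiveRoot.pow_eq_one, map_one]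
  have hzI : (Ψ hz.toInteger) ^ (p ^ (n + 1)) = 1 := by
    rw [← map_pow, hz.toInteger_isPrimitiveRoot.pow_eq_one, map_one]
  have hξI0 : Ψ hξ.toInteger ≠ 0 := by
    intro h0
    rw [h0, zero_pow (NeZero.ne d)] at hξI
    exact zero_ne_one hξI
  have hzI0 : Ψ hz.toInteger ≠ 0 := by
    intro h0
    rw [h0, zero_pow (NeZero.ne _)] at hzI
    exact zero_ne_one hzI
  have hDY : ∀ g : (ZMod d)ˣ × (ZMod (p ^ (n + 1)))ˣ, (Ψ ((D g.1 g.2 : (𝓞 C)ˣ) : 𝓞 C))⁻¹ =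
      - ((Ψ hξ.toInteger ^ (g.1 : ZMod d).val * Ψ hz.toInteger ^ (g.2 : ZMod (p ^ (n + 1))).val) /
        (1 - Ψ hξ.toInteger ^ (g.1 : ZMod d).val * Ψ hz.toInteger ^ (g.2 : ZMod (p ^ (n + 1))).val) ^ 2) := by
    intro g
    apply Dib_inv (mul_ne_zero (pow_ne_zero _ hξI0) (pow_ne_zero _ hzI0))
    have h1 : ((D g.1 g.2 : (𝓞 C)ˣ) : 𝓞 C) * (hξ.toInteger ^ (g.1 : ZMod d).val *
        hz.toInteger ^ (g.2 : ZMod (p ^ (n + 1))).val) = - (1 - hξ.toInteger ^ (g.1 : ZMod d).val *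
        hz.toInteger ^ (g.2 : ZMod (p ^ (n + 1))).val) ^ 2 := by
      apply RingOfIntegers.coe_injective
      change algebraMap (𝓞 C) C _ = algebraMap (𝓞 C) C _
      simp only [map_mul, map_neg, map_sub, map_pow, map_one]
      have h2 : algebraMap (𝓞 C) C ((D g.1 g.2 : (𝓞 C)ˣ) : 𝓞 C) = aC ξ z g.1 g.2 := hD g.1 g.2
      have h3 : algebraMap (𝓞 C) C hξ.toInteger = ξ := rfl
      have h4 : algebraMap (𝓞 C) C hz.toInteger = z := rfl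
      rw [h2, h3, h4, aC]
      exact Dib_neg (mul_ne_zero (pow_ne_zero _ hξ0) (pow_ne_zero _ hz0))
    have h2 := congrArg Ψ h1
    rw [map_mul, map_neg, map_pow, map_sub, map_mul, map_pow, map_pow, map_one] at h2
    exact h2
  obtain ⟨y, hy⟩ := hκ
  have h1 := congrArg Ψ hy
  rw [map_mul, map_ofNat, hΩ3, zero_mul, map_sum] at h1
  have h2 := congrArg (frobenius Ω 3) h1
  rw [map_sum, map_zero] at h2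
  have h5 : ∑ g : (ZMod d)ˣ × (ZMod (p ^ (n + 1)))ˣ, ((((ψ g.1 : ℤˣ) : ℤ) : Ω) * ((Θ g.2 : ℤ) : Ω)) *
      ((Ψ hξ.toInteger ^ (g.1 : ZMod d).val * Ψ hz.toInteger ^ (g.2 : ZMod (p ^ (n + 1))).val) /
        (1 - Ψ hξ.toInteger ^ (g.1 : ZMod d).val * Ψ hz.toInteger ^ (g.2 : ZMod (p ^ (n + 1))).val) ^ 2) = 0 := by
    rw [← neg_eq_zero, ← Finset.sum_neg_distrib, ← h2]
    refine Finset.sum_congr rfl fun g _ => ?_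
    rw [map_mul, map_intCast, map_mul, map_intCast, frobenius_def]
    have h6 : Ψ ((D (v3⁻¹ * g.1) (w3⁻¹ * g.2) : (𝓞 C)ˣ) : 𝓞 C) *
        Ψ (((D (v3⁻¹ * g.1) (w3⁻¹ * g.2))⁻¹ : (𝓞 C)ˣ) : 𝓞 C) = 1 := by
      rw [← map_mul, Units.mul_inv, map_one]
    have h7 : Ψ ((D g.1 g.2 : (𝓞 C)ˣ) : 𝓞 C) = Ψ ((D (v3⁻¹ * g.1) (w3⁻¹ * g.2) : (𝓞 C)ˣ) : 𝓞 C) ^ 3 := by
      have h8 := congrArg Ψ (hdb g)
      rw [map_add, map_sub, map_mul, map_mul, map_pow, map_pow, map_ofNat, map_ofNat] at h8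
      rw [h8]
      linear_combination (-2 * Ψ ((D (v3⁻¹ * g.1) (w3⁻¹ * g.2) : (𝓞 C)ˣ) : 𝓞 C) ^ 2 +
        3 * Ψ ((D (v3⁻¹ * g.1) (w3⁻¹ * g.2) : (𝓞 C)ˣ) : 𝓞 C)) * hΩ3
    have h9 : Ψ (((D (v3⁻¹ * g.1) (w3⁻¹ * g.2))⁻¹ : (𝓞 C)ˣ) : 𝓞 C) ^ 3 = (Ψ ((D g.1 g.2 : (𝓞 C)ˣ) : 𝓞 C))⁻¹ := by
      rw [h7, ← inv_pow, eq_inv_of_mul_eq_one_right h6]
    rw [h9, hDY]
    push_cast
    ring
  rw [← h5, Fintype.sum_prod_type_right]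
  refine Finset.sum_congr rfl fun u _ => ?_
  unfold rhoO
  rw [Finset.mul_sum]
  refine Finset.sum_congr rfl fun t _ => ?_
  ring

end H11R
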