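import Mathlib

/-!
ROW Djb (the congruence modulo three, `ρ ^ 2 = -3`, pure algebra; about 100 lines; compare `ra_kappa` in Pool/Agent/H55/T3/RA.lean, whose proof it follows).

PROOF. `q : A → A ⧸ (3)`, `ε = q ρ`, `ε ^ 2 = 0`. `q (b g)` is a unit with inverse `q (B g)`. `q (a g) = q (b g) (1 + ε y_g)`, `y_g = q (c g * B g)`; `y ↦ 1 + ε y` is a homomorphism from the additive group to the units (`ε ^ 2 = 0`), so with
`κ = ∑ θ g * (c g * B g)`: `∏ (1 + ε y_g) ^ θ g = 1 + ε q κ` (as `ra_phi_prod`), and `hU` gives `q U = 1 + ε q κ` (cancel the units `q (b g)`, `q (a g)`; split the exponents as in `ra_kappa`). So `3 ∣ U - 1 - ρ κ`, with `3 ∣ U - s ^ 3`: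
`3 ∣ s ^ 3 - 1 - ρ κ`, so `ρ ∣ s ^ 3 - 1` (`ρ ∣ 3`), `(s - 1) ^ 3 = s ^ 3 - 1 - 3 s (s - 1)` is divisible by `ρ`, so `ρ ∣ s - 1` (`hred`), `s = 1 + ρ w`, `s ^ 3 - 1 = 3 ρ w + 3 ρ ^ 2 w ^ 2 + ρ ^ 3 w ^ 3` is divisible by `3` (`ρ ^ 3 = -3 ρ`), so
`3 ∣ ρ κ`, i.e. `ρ κ = 3 v = - ρ ^ 2 v`, `κ = - ρ v` (domain, `ρ ≠ 0` as `ρ ^ 2 = -3 ≠ 0`).
-/

set_option autoImplicit false

namespace H11R

private def dj_phi {R : Type} [CommRing R] {e : R} (he : e ^ 2 = 0) : Multiplicative R →* Rˣ where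
  toFun y := ⟨1 + e * Multiplicative.toAdd y, 1 - e * Multiplicative.toAdd y,
    by linear_combination (-(Multiplicative.toAdd y) ^ 2) * he, by linear_combination (-(Multiplicative.toAdd y) ^ 2) * he⟩
  map_one' := by
    ext
    simp
  map_mul' x y := by
    ext
    simp only [toAdd_mul, Units.val_mul]
    linear_combination (-(Multiplicative.toAdd x) * (Multiplicative.toAdd y)) * he

private theorem dj_phi_prod {R G : Type} [CommRing R] [Fintype G] {e : R} (he : e ^ 2 = 0) (y : G → R) (θ : G → ℤ) :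
    ((∏ g, dj_phi he (Multiplicative.ofAdd (y g)) ^ (θ g) : Rˣ) : R) = 1 + e * ∑ g, (θ g : R) * y g := by
  have h1 : (∏ g, dj_phi he (Multiplicative.ofAdd (y g)) ^ (θ g) : Rˣ)
      = dj_phi he (Multiplicative.ofAdd (∑ g, (θ g : R) * y g)) := by
    rw [ofAdd_sum, map_prod]
    refine Finset.prod_congr rfl fun g _ => ?_
    rw [← map_zpow, ← ofAdd_zsmul, zsmul_eq_mul]
  rw [h1]
  rfl

private theorem dj_zpow {R : Type} [CommRing R] (u : Rˣ) (t : ℤ) : u ^ t * u ^ (-t).toNat = u ^ t.toNat := by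
  rw [← zpow_natCast u (-t).toNat, ← zpow_natCast u t.toNat, ← zpow_add]
  congr 1
  omega

private theorem dj_ac {M : Type} [CommMonoid M] (x u v y : M) (z : M) (hz : z = u * v) :
    (x * z) * y = u * ((y * v) * x) := by
  rw [hz, mul_comm y v, mul_assoc, mul_assoc, mul_assoc, mul_comm y x, mul_left_comm x, mul_left_comm x]

theorem kappa_alg {A G : Type} [CommRing A] [IsDomain A] [CharZero A] [Fintype G] {ρ : A} (hρ : ρ ^ 2 = -3)
    (hred : ∀ x : A, ρ ∣ x ^ 3 → ρ ∣ x) (a b c B : G → A) (hab : ∀ g, a g = b g + ρ * c g) (hB : ∀ g, b g * B g = 1) (θ : G → ℤ) (U s : A)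
    (hU : U * ((∏ g, a g ^ (-θ g).toNat) * ∏ g, b g ^ (θ g).toNat) = (∏ g, a g ^ (θ g).toNat) * ∏ g, b g ^ (-θ g).toNat)
    (h : (3 : A) ∣ U - s ^ 3) : ρ ∣ ∑ g, (θ g : A) * (c g * B g) := by
  classical
  set q := Ideal.Quotient.mk (Ideal.span {(3 : A)}) with hq
  have hq0 : ∀ x : A, q x = 0 ↔ (3 : A) ∣ x := fun x => by
    rw [hq, Ideal.Quotient.eq_zero_iff_mem, Ideal.mem_span_singleton]
  have he : (q ρ) ^ 2 = 0 := by
    rw [← map_pow, hρ]
    exact (hq0 _).2 ⟨-1, by ring⟩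
  have hbB : ∀ g, q (b g) * q (B g) = 1 := fun g => by
    rw [← map_mul, hB g, map_one]
  let β : G → (A ⧸ Ideal.span {(3 : A)})ˣ := fun g => ⟨q (b g), q (B g), hbB g, by rw [mul_comm]; exact hbB g⟩
  let γ : G → (A ⧸ Ideal.span {(3 : A)})ˣ := fun g => dj_phi he (Multiplicative.ofAdd (q (c g * B g)))
  have hγ : ∀ g, ((γ g : (A ⧸ Ideal.span {(3 : A)})ˣ) : A ⧸ Ideal.span {(3 : A)}) = 1 + q ρ * q (c g * B g) := fun g => rfl
  have hβ : ∀ g, ((β g : (A ⧸ Ideal.span {(3 : A)})ˣ) : A ⧸ Ideal.span {(3 : A)}) = q (b g) := fun g => rfl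
  have hag : ∀ g, q (a g) = ((β g * γ g : (A ⧸ Ideal.span {(3 : A)})ˣ) : A ⧸ Ideal.span {(3 : A)}) := fun g => by
    rw [Units.val_mul, hγ, hβ, hab g]
    simp only [map_add, map_mul]
    linear_combination (-(q ρ) * q (c g)) * hbB g
  have hUq : q U = ((∏ g, (γ g) ^ (θ g) : (A ⧸ Ideal.span {(3 : A)})ˣ) : A ⧸ Ideal.span {(3 : A)}) := by
    have h1 := congrArg q hU
    rw [map_mul, map_mul, map_mul, map_prod, map_prod, map_prod, map_prod] at h1
    simp only [map_pow, hag, ← hβ, ← Units.val_pow_eq_pow_val] at h1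
    rw [← Units.coe_prod, ← Units.coe_prod, ← Units.coe_prod, ← Units.coe_prod, ← Units.val_mul, ← Units.val_mul] at h1
    have h2 : ((∏ g, (β g * γ g) ^ (θ g).toNat) * ∏ g, β g ^ (-θ g).toNat : (A ⧸ Ideal.span {(3 : A)})ˣ)
        = (∏ g, (γ g) ^ (θ g)) * ((∏ g, (β g * γ g) ^ (-θ g).toNat) * ∏ g, β g ^ (θ g).toNat) := by
      rw [← Finset.prod_mul_distrib, ← Finset.prod_mul_distrib, ← Finset.prod_mul_distrib]
      refine Finset.prod_congr rfl fun g _ => ?_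
      rw [mul_pow, mul_pow]
      exact dj_ac _ _ _ _ _ (dj_zpow (γ g) (θ g)).symm
    rw [h2, Units.val_mul (∏ g, (γ g) ^ (θ g))] at h1
    exact (Units.isUnit _).mul_right_cancel h1
  set k0 : A := ∑ g, (θ g : A) * (c g * B g) with hk0
  have hUq2 : q U = 1 + q ρ * q k0 := by
    rw [hUq, dj_phi_prod he (fun g => q (c g * B g)) θ, hk0, map_sum]
    simp only [map_mul, map_intCast]
  have h3U : (3 : A) ∣ U - 1 - ρ * k0 := by
    rw [← hq0, map_sub, map_sub, map_mul, map_one, hUq2]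
    ring
  obtain ⟨c1, hc1⟩ := h
  obtain ⟨c2, hc2⟩ := h3U
  have h3s : s ^ 3 - 1 - ρ * k0 = 3 * (c2 - c1) := by linear_combination hc2 - hc1
  have hs1 : ρ ∣ s - 1 := by
    apply hred
    exact ⟨k0 - ρ * (c2 - c1) + ρ * (s * (s - 1)), by linear_combination h3s + (c2 - c1 - s * (s - 1)) * hρ⟩
  obtain ⟨w, hw⟩ := hs1
  have hsw : s = 1 + ρ * w := by linear_combination hw
  have hρ0 : ρ ≠ 0 := by
    rintro rfl
    have h3 : (3 : A) ≠ 0 := by
      have := Nat.cast_ne_zero (R := A).2 (by norm_num : (3 : ℕ) ≠ 0)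
      exact_mod_cast this
    apply h3
    linear_combination hρ
  have hk : ρ * k0 = ρ * (ρ * (-(ρ * w + ρ ^ 2 * w ^ 2 - ρ * w ^ 3 - (c2 - c1)))) := by
    rw [hsw] at h3s
    linear_combination (-1 : A) * h3s + (ρ * w + ρ ^ 2 * w ^ 2 - (c2 - c1)) * hρ
  have hk1 := mul_left_cancel₀ hρ0 hk
  exact ⟨_, hk1⟩

end H11R
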