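import Pool.Agent.H11.T3R.DfE
import Pool.Agent.H11.T3R.Bf
import Pool.Agent.H11.T3R.Ba

/-!
ROW Djc (the elements `eC` when `d = 3 d₀`; about 120 lines).

`psi0 h ψ t = ψ(1, t)`, where `(ZMod (3 d₀))ˣ = (ZMod 3)ˣ × (ZMod d₀)ˣ` (`BfE`). `acp x = (1 - x) (1 - x⁻¹)`.

PROOF. `psi_prim`: `QH.prim` for `q = 3`: some `u ≡ 1` modulo `3 d₀ / 3 = d₀` has `ψ u ≠ 1`; `u = BfE.symm (j, 1)` with `j ∈ (ZMod 3)ˣ = {1, -1}` (`decide`), `j ≠ 1`, so `j = -1` and `ψ (BfE.symm (-1, 1)) = -1` (`Int.units_eq_one_or`).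
`psi0_odd`: `BfE (-1) = (-1, -1) = (-1, 1) (1, -1)`, so `1 = ψ (-1) = - psi0 (-1)`.
`exists_split`: Chinese remainder: `a ≡ 1 mod 3, 0 mod d₀`, `b ≡ 0 mod 3, 1 mod d₀` (`Nat.chineseRemainder`), `ω = ξ ^ a`, `ξ0 = ξ ^ b`, `a + b ≡ 1 mod 3 d₀`, so `ω ξ0 = ξ`; orders: `orderOf (ξ ^ a) = 3 d₀ / gcd(3 d₀, a) = 3` (`gcd = d₀`), similarly for `b`
(or `IsPrimitiveRoot.pow`, `a = d₀ a'`, `a'` prime to `3`).
`eC_split`: for `t = BfE.symm (j, t0)`: `ξ ^ t.val = ω ^ t.val * ξ0 ^ t.val = ω ^ j.val * ξ0 ^ t0.val` (reduction of exponents: `t.val ≡ j.val mod 3`, `≡ t0.val mod d₀`, `BfE_symm`, `ZMod.unitsMap_val`, `pow_eq_pow_mod`), `ω ^ (1).val = ω`, `ω ^ (-1).val = ω ^ 2 = ω⁻¹`.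
So `aC ξ z t u = acp (ω^{± 1} x)`, `x = ξ0^t0 z^u`, and the product over `t` with exponents `ψ(t) = ψ(j,1) psi0(t0)` is `∏_{t0} (acp (ω x) / acp (ω⁻¹ x)) ^ psi0(t0)` (`Fintype.prod_equiv BfE`, `Fintype.prod_prod_type`, product over `(ZMod 3)ˣ` of two terms,
`div_zpow`/`zpow_neg`).
-/

set_option autoImplicit false

namespace H11R

/-- `(1 - x) (1 - x⁻¹)` -/
def acp {C : Type} [Field C] (x : C) : C := (1 - x) * (1 - x⁻¹)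

/-- the part of `ψ` prime to three -/
noncomputable def psi0 {d0 : ℕ} (h : Nat.Coprime 3 d0) (ψ : (ZMod (3 * d0))ˣ →* ℤˣ) : (ZMod d0)ˣ →* ℤˣ :=
  ψ.comp ((BfE h).symm.toMonoidHom.comp (MonoidHom.inr (ZMod 3)ˣ (ZMod d0)ˣ))

private theorem Djc_u3 (j : (ZMod 3)ˣ) : j = 1 ∨ j = -1 := by
  revert j
  decide

theorem psi_prim {d0 : ℕ} (h : Nat.Coprime 3 d0) {ψ : (ZMod (3 * d0))ˣ →* ℤˣ} (Q : QH (3 * d0) ψ) : ψ ((BfE h).symm (-1, 1)) = -1 := by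
  obtain ⟨u, hu, hψ⟩ := Q.prim 3 Nat.prime_three (dvd_mul_right 3 d0)
  have key : ∀ (m : ℕ) (hm : m ∣ 3 * d0), m = d0 → ZMod.unitsMap hm u = 1 →
      ZMod.unitsMap (dvd_mul_left d0 3) u = 1 := by
    rintro m hm rfl h1
    exact h1
  have h2 := key _ _ (Nat.mul_div_cancel_left d0 (by norm_num)) hu
  have h3 : (BfE h).symm (ZMod.unitsMap (dvd_mul_right 3 d0) u, 1) = u := by
    rw [← h2, ← BfE_apply h, MulEquiv.symm_apply_apply]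
  rcases Djc_u3 (ZMod.unitsMap (dvd_mul_right 3 d0) u) with h4 | h4
  · exfalso
    rw [h4] at h3
    apply hψ
    rw [← h3, show ((1 : (ZMod 3)ˣ), (1 : (ZMod d0)ˣ)) = 1 from rfl, map_one, map_one]
  · rw [h4] at h3
    rw [h3]
    exact (Int.units_eq_one_or (ψ u)).resolve_left hψ

private theorem Djc_mul {d0 : ℕ} (h : Nat.Coprime 3 d0) (ψ : (ZMod (3 * d0))ˣ →* ℤˣ) (j : (ZMod 3)ˣ)
    (t : (ZMod d0)ˣ) : ψ ((BfE h).symm (j, t)) = ψ ((BfE h).symm (j, 1)) * psi0 h ψ t := by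
  have h1 : psi0 h ψ t = ψ ((BfE h).symm (1, t)) := rfl
  rw [h1, ← map_mul, ← map_mul, Prod.mk_mul_mk, one_mul, mul_one]

theorem psi0_odd {d0 : ℕ} (h : Nat.Coprime 3 d0) {ψ : (ZMod (3 * d0))ˣ →* ℤˣ} (Q : QH (3 * d0) ψ) : psi0 h ψ (-1) = -1 := by
  have h1 : BfE h (-1) = (-1, -1) := by
    rw [BfE_apply]
    have e1 : ZMod.unitsMap (dvd_mul_right 3 d0) (-1) = -1 := by
      apply Units.ext
      rw [ZMod.unitsMap_val, Units.val_neg, Units.val_neg, Units.val_one, Units.val_one,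
        ZMod.cast_neg (dvd_mul_right 3 d0), ZMod.cast_one (dvd_mul_right 3 d0)]
    have e2 : ZMod.unitsMap (dvd_mul_left d0 3) (-1) = -1 := by
      apply Units.ext
      rw [ZMod.unitsMap_val, Units.val_neg, Units.val_neg, Units.val_one, Units.val_one,
        ZMod.cast_neg (dvd_mul_left d0 3), ZMod.cast_one (dvd_mul_left d0 3)]
    rw [e1, e2]
  have h2 : (BfE h).symm (-1, -1) = -1 := by
    rw [← h1, MulEquiv.symm_apply_apply]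
  have h3 := Djc_mul h ψ (-1) (-1)
  rw [h2, Q.even, psi_prim h Q, neg_mul, one_mul] at h3
  rw [h3, neg_neg]

theorem exists_split {d0 : ℕ} (h0 : d0 ≠ 0) (h : Nat.Coprime 3 d0) {C : Type} [Field C] {ξ : C} (hξ : IsPrimitiveRoot ξ (3 * d0)) :
    ∃ ω ξ0 : C, IsPrimitiveRoot ω 3 ∧ IsPrimitiveRoot ξ0 d0 ∧ ξ = ω * ξ0 := by
  have hpos : 0 < 3 * d0 := Nat.mul_pos (by norm_num) (Nat.pos_of_ne_zero h0)
  have h3 : IsPrimitiveRoot (ξ ^ d0) 3 := hξ.pow hpos (mul_comm 3 d0)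
  have hd : IsPrimitiveRoot (ξ ^ 3) d0 := hξ.pow hpos rfl
  have hξ0 : ξ ≠ 0 := hξ.ne_zero hpos.ne'
  obtain ⟨x, y, hxy⟩ := Nat.isCoprime_iff_coprime.2 h
  have hy : IsCoprime y ((3 : ℕ) : ℤ) := ⟨d0, x, by linarith⟩
  have hx : IsCoprime x ((d0 : ℕ) : ℤ) := ⟨(3 : ℕ), y, by linarith⟩
  refine ⟨(ξ ^ d0) ^ y, (ξ ^ 3) ^ x, h3.zpow_of_gcd_eq_one y (Int.isCoprime_iff_gcd_eq_one.1 hy),
    hd.zpow_of_gcd_eq_one x (Int.isCoprime_iff_gcd_eq_one.1 hx), ?_⟩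
  rw [← zpow_natCast ξ d0, ← zpow_natCast ξ 3, ← zpow_mul, ← zpow_mul, ← zpow_add₀ hξ0]
  have e : (d0 : ℤ) * y + ((3 : ℕ) : ℤ) * x = 1 := by linarith
  rw [e, zpow_one]

private theorem Djc_root {d0 : ℕ} [NeZero d0] [NeZero (3 * d0)] (h : Nat.Coprime 3 d0) {C : Type} [Field C]
    {ω ξ0 : C} (hω : IsPrimitiveRoot ω 3) (hξ0 : IsPrimitiveRoot ξ0 d0) (j : (ZMod 3)ˣ) (t : (ZMod d0)ˣ) :
    (ω * ξ0) ^ (((BfE h).symm (j, t) : (ZMod (3 * d0))ˣ) : ZMod (3 * d0)).val =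
      ω ^ (j : ZMod 3).val * ξ0 ^ (t : ZMod d0).val := by
  obtain ⟨h1, h2⟩ := BfE_symm h (j, t)
  have e1 : (j : ZMod 3).val = (((BfE h).symm (j, t) : (ZMod (3 * d0))ˣ) : ZMod (3 * d0)).val % 3 := by
    conv_lhs => rw [← show _ = j from h1, ZMod.unitsMap_val, ZMod.cast_eq_val, ZMod.val_natCast]
  have e2 : (t : ZMod d0).val = (((BfE h).symm (j, t) : (ZMod (3 * d0))ˣ) : ZMod (3 * d0)).val % d0 := by
    conv_lhs => rw [← show _ = t from h2, ZMod.unitsMap_val, ZMod.cast_eq_val, ZMod.val_natCast]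
  rw [e1, e2, Ba_mod ω hω.pow_eq_one, Ba_mod ξ0 hξ0.pow_eq_one, mul_pow]

theorem eC_split {d0 f : ℕ} [NeZero d0] [NeZero (3 * d0)] [NeZero f] (h : Nat.Coprime 3 d0) {ψ : (ZMod (3 * d0))ˣ →* ℤˣ}
    (hψ : ψ ((BfE h).symm (-1, 1)) = -1) {C : Type} [Field C] {ω ξ0 : C} (hω : IsPrimitiveRoot ω 3) (hξ0 : IsPrimitiveRoot ξ0 d0) (z : C) (u : (ZMod f)ˣ) :
    eC (ω * ξ0) z ψ u = ∏ t : (ZMod d0)ˣ, (acp (ω * (ξ0 ^ (t : ZMod d0).val * z ^ (u : ZMod f).val)) /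
      acp (ω⁻¹ * (ξ0 ^ (t : ZMod d0).val * z ^ (u : ZMod f).val))) ^ ((psi0 h ψ t : ℤˣ) : ℤ) := by
  have huniv : (Finset.univ : Finset (ZMod 3)ˣ) = {1, -1} := by decide
  have hne : (1 : (ZMod 3)ˣ) ≠ -1 := by decide
  have hv1 : ((1 : (ZMod 3)ˣ) : ZMod 3).val = 1 := by decide
  have hv2 : ((-1 : (ZMod 3)ˣ) : ZMod 3).val = 2 := by decide
  have hω2 : ω ^ 2 = ω⁻¹ := by
    apply eq_inv_of_mul_eq_one_left
    rw [← pow_succ, hω.pow_eq_one]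
  have hac : ∀ (j : (ZMod 3)ˣ) (t : (ZMod d0)ˣ), aC (ω * ξ0) z ((BfE h).symm (j, t)) u =
      acp (ω ^ (j : ZMod 3).val * (ξ0 ^ (t : ZMod d0).val * z ^ (u : ZMod f).val)) := by
    intro j t
    rw [aC, acp, Djc_root h hω hξ0, mul_assoc]
  unfold eC
  rw [← Equiv.prod_comp (BfE h).symm.toEquiv, Fintype.prod_prod_type, huniv, Finset.prod_pair hne,
    ← Finset.prod_mul_distrib]
  refine Finset.prod_congr rfl fun t _ => ?_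
  have hs : ∀ q, (BfE h).symm.toEquiv q = (BfE h).symm q := fun q => rfl
  rw [hs, hs, hac, hac, hv1, hv2, pow_one, hω2, Djc_mul h ψ (-1) t, hψ, div_zpow, div_eq_mul_inv, ← zpow_neg]
  congr 2
  rw [neg_mul, one_mul, Units.val_neg]

end H11R
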