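import Pool.Agent.H11.T3R.Dja
import Pool.Agent.H11.T3R.Djb
import Pool.Agent.H11.T3R.Djc
import Pool.Agent.H11.T3R.Dgc
import Pool.Agent.H11.T3R.Bb

/-!
ROW Djd (case (ii), the relation for one reduction; about 160 lines).

PROOF. Compare `kappa_i` (row Dib) and Pool/Agent/H55/T3/RK.lean. `f = p^(n+1)`, `G = (ZMod d₀)ˣ × (ZMod f)ˣ`, `θ (t, u) = psi0(t) Θ(u)`, `x = ξ0^t z^u` (order `d₀ f`, prime to `3`). `ωI, ξ0I, zI` the elements of `𝓞 C` (`toInteger`).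
(1) `ω x` and `ω⁻¹ x` are primitive roots of order `3 d₀ f`, not a prime power, so `a(t,u) = acp (ω x)`, `b(t,u) = acp (ω⁻¹ x)` are units of `𝓞 C` (`unit_one_sub` of Bb.lean twice, for `y` and `y⁻¹`; or `unit_aC` with `d = 3 d₀`, `ξ = ω ξ0`). `B` = inverse of `b`.
(2) `ρ = ω - ω⁻¹ = ω - ω^2` in `𝓞 C`: `ρ ^ 2 = ω^2 - 2 + ω^(-2) = -3` (`ω^2 + ω + 1 = 0`). `c = x⁻¹ - x`: `acp (ω x) - acp (ω⁻¹ x) = - ω x - ω⁻¹ x⁻¹ + ω⁻¹ x + ω x⁻¹ = ρ c`.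
(3) `V = ∏_u (∏_t (a/b)^psi0(t))^Θ(u) = ∏ (a/b)^θ` (`eC_split`, `hV`), so `hU` of `kappa_alg` holds in `C`, hence in `𝓞 C`. `kappa_alg` with `rad_ram` (`N = 3 (d₀ f)`): `ρ ∣ ∑ θ (c B)`.
(4) Apply `Ψ`: `(Ψ ρ)^2 = -3 = 0`, so `∑ θ Ψ(c) Ψ(B) = 0`. `Ψ ω = 1` (`(Ψ ω - 1)^3 = (Ψ ω)^3 - 1 = 0` in characteristic three: `sub_pow_char`). With `X = Ψ(x) = (Ψ ξ0I)^t (Ψ zI)^u`: `Ψ b = (1 - X)(1 - X⁻¹)`, a unit, so `X ≠ 1`, `Ψ c = X⁻¹ - X`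
(write `c`, `b` with `x⁻¹ ∈ 𝓞 C` an element `xi` with `x xi = 1`), `Ψ(c) / Ψ(b) = (X⁻¹ - X) / ((1 - X)(1 - X⁻¹)) = - (1 + X)/(1 - X) = -1 + X/(1 - X)` (as `-2 = 1`). So `∑_u Θ(u) ∑_t psi0(t) (-1 + X/(1-X)) = 0`, and `∑_t psi0(t) = 0` (`sum_odd`).
-/

set_option autoImplicit false

open NumberField

namespace H11R

private theorem Djd_pp {d0 p n : ℕ} [Fact p.Prime] (hp5 : 5 ≤ p) :
    ¬ IsPrimePow (3 * d0 * p ^ (n + 1)) := by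
  have hp : p.Prime := Fact.out
  intro h
  rw [isPrimePow_nat_iff] at h
  obtain ⟨r, j, hr, _, hj⟩ := h
  have e1 : p = r := by
    have h4 : p ∣ r ^ j := by
      rw [hj]
      exact dvd_mul_of_dvd_right (dvd_pow_self p (Nat.succ_ne_zero n)) _
    exact (Nat.prime_dvd_prime_iff_eq hp hr).1 (hp.dvd_of_dvd_pow h4)
  have e2 : 3 = r := by
    have h4 : 3 ∣ r ^ j := by
      rw [hj, mul_assoc]
      exact Dvd.intro _ rfl
    exact (Nat.prime_dvd_prime_iff_eq Nat.prime_three hr).1 (Nat.prime_three.dvd_of_dvd_pow h4)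
  omega

private theorem Djd_root {d0 p n : ℕ} [Fact p.Prime] (hpd : p.Coprime (3 * d0))
    (h : Nat.Coprime 3 d0) {C : Type} [Field C] {w ξ0 z : C} (hw : IsPrimitiveRoot w 3)
    (hξ0 : IsPrimitiveRoot ξ0 d0) (hz : IsPrimitiveRoot z (p ^ (n + 1))) (t : (ZMod d0)ˣ)
    (u : (ZMod (p ^ (n + 1)))ˣ) :
    IsPrimitiveRoot (w * (ξ0 ^ (t : ZMod d0).val * z ^ (u : ZMod (p ^ (n + 1))).val))
      (3 * d0 * p ^ (n + 1)) := by
  have ht : (t : ZMod d0).val.Coprime d0 := ZMod.val_coe_unit_coprime t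
  have hu : (u : ZMod (p ^ (n + 1))).val.Coprime (p ^ (n + 1)) := ZMod.val_coe_unit_coprime u
  have h1 := hξ0.pow_of_coprime _ ht
  have h2 := hz.pow_of_coprime _ hu
  have h3 : IsPrimitiveRoot (w * ξ0 ^ (t : ZMod d0).val) (3 * d0) := by
    rw [IsPrimitiveRoot.iff_orderOf,
      (Commute.all _ _).orderOf_mul_eq_mul_orderOf_of_coprime (by
        rw [← hw.eq_orderOf, ← h1.eq_orderOf]
        exact h), ← hw.eq_orderOf, ← h1.eq_orderOf]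
  rw [← mul_assoc, IsPrimitiveRoot.iff_orderOf,
      (Commute.all _ _).orderOf_mul_eq_mul_orderOf_of_coprime (by
        rw [← h3.eq_orderOf, ← h2.eq_orderOf]
        exact hpd.symm.pow_right _), ← h3.eq_orderOf, ← h2.eq_orderOf]

private theorem Djd_unit {d0 p n : ℕ} [NeZero d0] [Fact p.Prime] (hp5 : 5 ≤ p)
    (hpd : p.Coprime (3 * d0)) (h : Nat.Coprime 3 d0) {C : Type} [Field C] [NumberField C]
    {w ξ0 z : C} (hw : IsPrimitiveRoot w 3) (hξ0 : IsPrimitiveRoot ξ0 d0)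
    (hz : IsPrimitiveRoot z (p ^ (n + 1))) (t : (ZMod d0)ˣ) (u : (ZMod (p ^ (n + 1)))ˣ) :
    Bb_U (acp (w * (ξ0 ^ (t : ZMod d0).val * z ^ (u : ZMod (p ^ (n + 1))).val))) := by
  have hp : p.Prime := Fact.out
  have h1 := Djd_root hpd h hw hξ0 hz t u
  have hd : 1 ≤ d0 := Nat.one_le_iff_ne_zero.2 (NeZero.ne d0)
  have hk : 1 < 3 * d0 * p ^ (n + 1) := by
    have h2 : 1 ≤ p ^ (n + 1) := Nat.one_le_pow _ _ hp.pos
    nlinarith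
  exact Bb_mul (unit_one_sub hk (Djd_pp hp5) h1) (unit_one_sub hk (Djd_pp hp5) h1.inv)

private theorem Djd_exp {C : Type} [Field C] {a b : C} (ha : a ≠ 0) (hb : b ≠ 0) (θ : ℤ) :
    (a / b) ^ θ * (a ^ (-θ).toNat * b ^ θ.toNat) = a ^ θ.toNat * b ^ (-θ).toNat := by
  have e := Int.toNat_sub_toNat_neg θ
  rw [div_zpow, div_mul_eq_mul_div, div_eq_iff (zpow_ne_zero _ hb)]
  have h1 : a ^ θ.toNat = a ^ θ * a ^ (-θ).toNat := by
    rw [← zpow_natCast, ← zpow_natCast, ← zpow_add₀ ha]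
    congr 1
    omega
  have h2 : b ^ θ.toNat = b ^ (-θ).toNat * b ^ θ := by
    rw [← zpow_natCast, ← zpow_natCast, ← zpow_add₀ hb]
    congr 1
    omega
  rw [h1, h2]
  ring

private theorem Djd_char {Ω : Type} [Field Ω] [CharP Ω 3] {X Xi Y : Ω} (h1 : X * Xi = 1)
    (h2 : (1 - X) * (1 - Xi) * Y = 1) : (Xi - X) * Y = -1 + X / (1 - X) := by
  have h3 : (3 : Ω) = 0 := by
    have := CharP.cast_eq_zero Ω 3
    exact_mod_cast this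
  have hX : 1 - X ≠ 0 := by
    intro h0
    rw [h0, zero_mul, zero_mul] at h2
    exact zero_ne_one h2
  have hX0 : X ≠ 0 := left_ne_zero_of_mul_eq_one h1
  have hXi : Xi = X⁻¹ := eq_inv_of_mul_eq_one_right h1
  have h4 : (Xi - X) * Y * (1 - X) = -(1 + X) := by
    have h5 : (1 - X) * (1 - Xi) * Y = 1 := h2
    have h6 : (Xi - X) * (1 - X) * X = (1 - X) * (1 - X) * (1 + X) := by
      linear_combination (1 - X) * h1
    have h7 : (1 - X) * (1 - Xi) * X = -((1 - X) * (1 - X)) := by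
      linear_combination (-(1 - X)) * h1
    have h8 : X * ((1 - X) * (1 - X)) * ((Xi - X) * Y * (1 - X)) =
        X * ((1 - X) * (1 - X)) * (-(1 + X)) := by
      linear_combination (1 - X) * (1 - X) * Y * h6 -
        (X * (1 - X) * (1 - X) * (1 + X)) * h5 + (1 - X) * (1 - X) * (1 + X) * Y * h7
    exact mul_left_cancel₀ (mul_ne_zero hX0 (mul_ne_zero hX hX)) h8
  rw [eq_comm, ← sub_eq_zero]
  have h9 : (-1 + X / (1 - X) - (Xi - X) * Y) * (1 - X) = 0 := by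
    have h10 : X / (1 - X) * (1 - X) = X := div_mul_cancel₀ X hX
    linear_combination h10 - h4 + X * h3
  exact (mul_eq_zero.1 h9).resolve_right hX

theorem kappa_ii {d0 p n : ℕ} [NeZero d0] [NeZero (3 * d0)] [Fact p.Prime] (hp5 : 5 ≤ p) (hpd : p.Coprime (3 * d0)) (h : Nat.Coprime 3 d0) {C : Type} [Field C]
    [NumberField C] [IsCyclotomicExtension {3 * d0 * p ^ (n + 1)} ℚ C] {ψ : (ZMod (3 * d0))ˣ →* ℤˣ} (Q : QH (3 * d0) ψ) {ω ξ0 z : C}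
    (hω : IsPrimitiveRoot ω 3) (hξ0 : IsPrimitiveRoot ξ0 d0)
    (hz : IsPrimitiveRoot z (p ^ (n + 1))) (Θ : (ZMod (p ^ (n + 1)))ˣ → ℤ) (V : (𝓞 C)ˣ) (hV : ((V : 𝓞 C) : C) = vC (ω * ξ0) z ψ Θ) (s : 𝓞 C)
    (hs : (3 : 𝓞 C) ∣ (V : 𝓞 C) - s ^ 3) (Ω : Type) [Field Ω] [CharP Ω 3] (Ψ : 𝓞 C →+* Ω) :
    ∑ u : (ZMod (p ^ (n + 1)))ˣ, ((Θ u : ℤ) : Ω) * rhoO (fun a => a / (1 - a)) (psi0 h ψ) (Ψ hξ0.toInteger) (Ψ hz.toInteger) u = 0 := by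
  classical
  have hp : p.Prime := Fact.out
  have hnz : NeZero (p ^ (n + 1)) := ⟨(pow_pos hp.pos _).ne'⟩
  have hnz' : NeZero (3 * d0 * p ^ (n + 1)) := ⟨mul_ne_zero (NeZero.ne _) hnz.out⟩
  obtain ⟨ωI, hωI⟩ : ∃ x : 𝓞 C, x = hω.toInteger := ⟨_, rfl⟩
  obtain ⟨ξI, hξI⟩ : ∃ x : 𝓞 C, x = hξ0.toInteger := ⟨_, rfl⟩
  obtain ⟨zI, hzI⟩ : ∃ x : 𝓞 C, x = hz.toInteger := ⟨_, rfl⟩
  have cω : ((ωI : 𝓞 C) : C) = ω := by rw [hωI]; exact hω.coe_toInteger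
  have cξ : ((ξI : 𝓞 C) : C) = ξ0 := by rw [hξI]; exact hξ0.coe_toInteger
  have cz : ((zI : 𝓞 C) : C) = z := by rw [hzI]; exact hz.coe_toInteger
  have pξ : ξI ^ d0 = 1 := by rw [hξI]; exact hξ0.toInteger_isPrimitiveRoot.pow_eq_one
  have pz : zI ^ (p ^ (n + 1)) = 1 := by rw [hzI]; exact hz.toInteger_isPrimitiveRoot.pow_eq_one
  have sω' : 1 + ω + ω ^ 2 = 0 := by
    have h1 := hω.geom_sum_eq_zero (by norm_num)
    rw [Finset.sum_range_succ, Finset.sum_range_succ, Finset.sum_range_succ, Finset.sum_range_zero,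
      pow_zero, pow_one, zero_add] at h1
    exact h1
  have hinj : Function.Injective (algebraMap (𝓞 C) C) := RingOfIntegers.coe_injective
  have sω : 1 + ωI + ωI ^ 2 = 0 := by
    apply hinj
    rw [map_add, map_add, map_one, map_pow, map_zero]
    have cω' : algebraMap (𝓞 C) C ωI = ω := cω
    rw [cω']
    exact sω'
  have iω : ω⁻¹ = ω ^ 2 := by
    apply inv_eq_of_mul_eq_one_right
    have := hω.pow_eq_one
    rw [← this]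
    ring
  have cm : ∀ y y' : 𝓞 C, ((y * y' : 𝓞 C) : C) = (y : C) * (y' : C) := fun y y' =>
    map_mul (algebraMap (𝓞 C) C) y y'
  have cs : ∀ y y' : 𝓞 C, ((y - y' : 𝓞 C) : C) = (y : C) - (y' : C) := fun y y' =>
    map_sub (algebraMap (𝓞 C) C) y y'
  have c1 : ((1 : 𝓞 C) : C) = 1 := map_one (algebraMap (𝓞 C) C)
  have cp : ∀ (y : 𝓞 C) (k : ℕ), ((y ^ k : 𝓞 C) : C) = (y : C) ^ k := fun y k =>
    map_pow (algebraMap (𝓞 C) C) y k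
  -- the elements
  obtain ⟨x, hx⟩ : ∃ x : (ZMod d0)ˣ × (ZMod (p ^ (n + 1)))ˣ → 𝓞 C, ∀ g, x g =
    ξI ^ (g.1 : ZMod d0).val * zI ^ (g.2 : ZMod (p ^ (n + 1))).val := ⟨_, fun _ => rfl⟩
  have hN1 : 1 ≤ d0 * p ^ (n + 1) :=
    Nat.one_le_iff_ne_zero.2 (mul_ne_zero (NeZero.ne d0) (NeZero.ne _))
  have hxN : ∀ g, x g ^ (d0 * p ^ (n + 1)) = 1 := by
    intro g
    rw [hx, mul_pow, ← pow_mul, ← pow_mul]
    have e1 : (g.1 : ZMod d0).val * (d0 * p ^ (n + 1)) = d0 * ((g.1 : ZMod d0).val * p ^ (n + 1)) := by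
      ring
    have e2 : (g.2 : ZMod (p ^ (n + 1))).val * (d0 * p ^ (n + 1)) =
        p ^ (n + 1) * ((g.2 : ZMod (p ^ (n + 1))).val * d0) := by ring
    rw [e1, e2, pow_mul, pow_mul zI, pξ, pz, one_pow, one_pow, one_mul]
  obtain ⟨xi, hxi⟩ : ∃ xi : (ZMod d0)ˣ × (ZMod (p ^ (n + 1)))ˣ → 𝓞 C, ∀ g,
    xi g = x g ^ (d0 * p ^ (n + 1) - 1) := ⟨_, fun _ => rfl⟩
  have hxx : ∀ g, x g * xi g = 1 := by
    intro g
    rw [hxi, ← pow_succ', Nat.sub_add_cancel hN1, hxN]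
  have cx : ∀ g, ((x g : 𝓞 C) : C) =
      ξ0 ^ (g.1 : ZMod d0).val * z ^ (g.2 : ZMod (p ^ (n + 1))).val := by
    intro g
    rw [hx, ← cξ, ← cz, cm, cp, cp]
  have cxi : ∀ g, ((xi g : 𝓞 C) : C) = ((x g : 𝓞 C) : C)⁻¹ := by
    intro g
    apply eq_inv_of_mul_eq_one_right
    change algebraMap (𝓞 C) C (x g) * algebraMap (𝓞 C) C (xi g) = 1
    rw [← map_mul, hxx, map_one]
  obtain ⟨a, ha⟩ : ∃ a : (ZMod d0)ˣ × (ZMod (p ^ (n + 1)))ˣ → 𝓞 C, ∀ g,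
    a g = (1 - ωI * x g) * (1 - ωI ^ 2 * xi g) := ⟨_, fun _ => rfl⟩
  obtain ⟨b, hb⟩ : ∃ b : (ZMod d0)ˣ × (ZMod (p ^ (n + 1)))ˣ → 𝓞 C, ∀ g,
    b g = (1 - ωI ^ 2 * x g) * (1 - ωI * xi g) := ⟨_, fun _ => rfl⟩
  have ca : ∀ g, ((a g : 𝓞 C) : C) = acp (ω * (ξ0 ^ (g.1 : ZMod d0).val *
      z ^ (g.2 : ZMod (p ^ (n + 1))).val)) := by
    intro g
    rw [← cx, ha, acp, mul_inv, iω, ← cxi, ← cω, cm, cs, cs, cm, cm, cp, c1]
  have cb : ∀ g, ((b g : 𝓞 C) : C) = acp (ω⁻¹ * (ξ0 ^ (g.1 : ZMod d0).val *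
      z ^ (g.2 : ZMod (p ^ (n + 1))).val)) := by
    intro g
    rw [← cx, hb, acp, mul_inv, inv_inv, iω, ← cxi, ← cω, cm, cs, cs, cm, cm, cp, c1]
  have ua : ∀ g, ((a g : 𝓞 C) : C) ≠ 0 := by
    intro g
    rw [ca]
    exact Bb_ne (Djd_unit hp5 hpd h hω hξ0 hz g.1 g.2)
  have ub : ∀ g, ((b g : 𝓞 C) : C) ≠ 0 := by
    intro g
    rw [cb]
    exact Bb_ne (Djd_unit hp5 hpd h hω.inv hξ0 hz g.1 g.2)
  have hBex : ∀ g, ∃ B : 𝓞 C, b g * B = 1 := by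
    intro g
    obtain ⟨v, hv⟩ := Djd_unit hp5 hpd h hω.inv hξ0 hz g.1 g.2
    refine ⟨((v⁻¹ : (𝓞 C)ˣ) : 𝓞 C), ?_⟩
    have e : b g = (v : 𝓞 C) := by
      apply hinj
      exact (cb g).trans hv.symm
    rw [e, Units.mul_inv]
  choose B hB using hBex
  obtain ⟨ρ, hρ⟩ : ∃ ρ : 𝓞 C, ρ = ωI - ωI ^ 2 := ⟨_, rfl⟩
  have hρ2 : ρ ^ 2 = -3 := by
    rw [hρ]
    linear_combination (ωI ^ 2 - 3 * ωI + 3) * sω
  have hab : ∀ g, a g = b g + ρ * (xi g - x g) := by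
    intro g
    rw [ha, hb, hρ]
    ring
  obtain ⟨θ, hθ⟩ : ∃ θ : (ZMod d0)ˣ × (ZMod (p ^ (n + 1)))ˣ → ℤ, ∀ g,
    θ g = ((psi0 h ψ g.1 : ℤˣ) : ℤ) * Θ g.2 := ⟨_, fun _ => rfl⟩
  have hVC : ((V : 𝓞 C) : C) = ∏ g, (((a g : 𝓞 C) : C) / ((b g : 𝓞 C) : C)) ^ θ g := by
    rw [hV, vC, Fintype.prod_prod_type_right]
    refine Finset.prod_congr rfl fun u _ => ?_
    rw [eC_split h (psi_prim h Q) hω hξ0 z u, ← Finset.prod_zpow]
    refine Finset.prod_congr rfl fun t _ => ?_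
    rw [ca, cb, hθ, zpow_mul]
  have hU : (V : 𝓞 C) * ((∏ g, a g ^ (-θ g).toNat) * ∏ g, b g ^ (θ g).toNat) =
      (∏ g, a g ^ (θ g).toNat) * ∏ g, b g ^ (-θ g).toNat := by
    apply hinj
    rw [map_mul, map_mul, map_mul, map_prod, map_prod, map_prod, map_prod]
    have e0 : algebraMap (𝓞 C) C (V : 𝓞 C) =
        ∏ g, ((algebraMap (𝓞 C) C (a g)) / (algebraMap (𝓞 C) C (b g))) ^ θ g := hVC
    rw [e0, ← Finset.prod_mul_distrib, ← Finset.prod_mul_distrib, ← Finset.prod_mul_distrib]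
    refine Finset.prod_congr rfl fun g _ => ?_
    rw [map_pow, map_pow, map_pow, map_pow]
    exact Djd_exp (ua g) (ub g) (θ g)
  have h3N : ¬ 3 ∣ d0 * p ^ (n + 1) := by
    intro h3
    rcases (Nat.prime_three.dvd_mul).1 h3 with h3 | h3
    · have h4 := Nat.dvd_gcd (dvd_refl 3) h3
      rw [h] at h4
      omega
    · have h4 := (Nat.prime_dvd_prime_iff_eq Nat.prime_three hp).1
        (Nat.prime_three.dvd_of_dvd_pow h3)
      omega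
  have hk := kappa_alg hρ2 (fun y hy => rad_ram (N := 3 * d0 * p ^ (n + 1))
    (N0 := d0 * p ^ (n + 1)) (by ring) h3N hρ2 3 y hy) a b (fun g => xi g - x g) B hab hB θ
    (V : 𝓞 C) s hU hs
  obtain ⟨y, hy⟩ := hk
  have hΩ3 : (3 : Ω) = 0 := by
    have := CharP.cast_eq_zero Ω 3
    exact_mod_cast this
  have hΨρ : Ψ ρ = 0 := by
    have h1 := congrArg Ψ hρ2
    rw [map_pow, map_neg, map_ofNat, hΩ3, neg_zero] at h1
    exact (pow_eq_zero_iff two_ne_zero).1 h1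
  have hΨω : Ψ ωI = 1 := by
    have h1 := congrArg Ψ sω
    rw [map_add, map_add, map_one, map_pow, map_zero] at h1
    have h2 : (Ψ ωI - 1) ^ 2 = 0 := by
      linear_combination h1 - Ψ ωI * hΩ3
    exact sub_eq_zero.1 ((pow_eq_zero_iff two_ne_zero).1 h2)
  have h1 := congrArg Ψ hy
  rw [map_mul, hΨρ, zero_mul, map_sum] at h1
  have h2 : ∀ g, Ψ ((θ g : 𝓞 C) * ((xi g - x g) * B g)) = (θ g : Ω) * (-1 + Ψ (x g) / (1 - Ψ (x g))) := by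
    intro g
    rw [map_mul, map_intCast, map_mul, map_sub]
    congr 1
    refine Djd_char ?_ ?_
    · rw [← map_mul, hxx, map_one]
    · have h3 := congrArg Ψ (hB g)
      rw [map_mul, map_one, hb, map_mul, map_sub, map_sub, map_mul, map_mul, map_pow, map_one,
        hΨω, one_pow, one_mul, one_mul] at h3
      exact h3
  rw [Finset.sum_congr rfl (fun g _ => h2 g), Fintype.sum_prod_type_right] at h1
  rw [← h1]
  refine Finset.sum_congr rfl fun u _ => ?_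
  have h5 : ∑ t : (ZMod d0)ˣ, (((psi0 h ψ t : ℤˣ) : ℤ) : Ω) = 0 := by
    have h6 := congrArg (Int.cast : ℤ → Ω) (sum_odd (psi0_odd h Q))
    rw [Int.cast_sum, Int.cast_zero] at h6
    exact h6
  have h7 : ∑ t : (ZMod d0)ˣ, ((θ (t, u) : ℤ) : Ω) * (-1 + Ψ (x (t, u)) / (1 - Ψ (x (t, u)))) =
      -((Θ u : ℤ) : Ω) * ∑ t : (ZMod d0)ˣ, (((psi0 h ψ t : ℤˣ) : ℤ) : Ω) +
      ((Θ u : ℤ) : Ω) * ∑ t : (ZMod d0)ˣ, (((psi0 h ψ t : ℤˣ) : ℤ) : Ω) *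
        (Ψ (x (t, u)) / (1 - Ψ (x (t, u)))) := by
    rw [Finset.mul_sum, Finset.mul_sum, ← Finset.sum_add_distrib]
    refine Finset.sum_congr rfl fun t _ => ?_
    rw [hθ]
    push_cast
    ring
  rw [h7, h5, mul_zero, zero_add]
  congr 1
  unfold rhoO
  refine Finset.sum_congr rfl fun t _ => ?_
  rw [hx, map_mul, map_pow, map_pow, ← hξI, ← hzI]

end H11R
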