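import Mathlib

/-!
ROW Dka (roots prime to three of congruences, pure algebra; about 40 lines).

PROOF. `¬ 3 ∣ 2 * k`: there are `j i : ℕ` with `2 * k * j = 3 * i + 1`. `V ^ (3 i + 1) = V ^ (2 k j) = U ^ (2 j)` (`hUV` to the power `j`). With `s'' = s ^ (2 j) * V⁻¹ ^ i` (`V⁻¹` the inverse unit):
`V - s''^3 = V⁻¹ ^ (3 i) * (V ^ (3 i + 1) - (s ^ 3) ^ (2 j)) = V⁻¹ ^ (3 i) * (U ^ (2 j) - (s ^ 3) ^ (2 j))`, and `U - s ^ 3` divides `U ^ (2 j) - (s ^ 3) ^ (2 j)` (`sub_dvd_pow_sub_pow`).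
-/

set_option autoImplicit false

namespace H11R

theorem root_cong {R : Type} [CommRing R] {q : R} (U V : Rˣ) {k : ℕ} (hk : ¬ 3 ∣ 2 * k) (hUV : U ^ 2 = V ^ (2 * k)) {s : R}
    (h : q ∣ (U : R) - s ^ 3) : ∃ s' : R, q ∣ (V : R) - s' ^ 3 := by
  obtain ⟨j, i, hji⟩ : ∃ j i : ℕ, 2 * k * j = 3 * i + 1 := by
    have h3 : 2 * k % 3 = 1 ∨ 2 * k % 3 = 2 := by omega
    rcases h3 with h3 | h3
    · exact ⟨1, 2 * k / 3, by omega⟩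
    · exact ⟨2, 2 * (2 * k / 3) + 1, by omega⟩
  have hU : V ^ (3 * i + 1) = U ^ (2 * j) := by
    rw [← hji, pow_mul V (2 * k) j, ← hUV, ← pow_mul]
  have hU' : (V : R) ^ (3 * i + 1) = (U : R) ^ (2 * j) := by
    rw [← Units.val_pow_eq_pow_val, hU, Units.val_pow_eq_pow_val]
  have hV : ((V⁻¹ : Rˣ) : R) ^ (3 * i) * (V : R) ^ (3 * i + 1) = V := by
    rw [pow_succ, ← mul_assoc, ← mul_pow, Units.inv_mul, one_pow, one_mul]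
  refine ⟨s ^ (2 * j) * ((V⁻¹ : Rˣ) : R) ^ i, ?_⟩
  have e : (V : R) - (s ^ (2 * j) * ((V⁻¹ : Rˣ) : R) ^ i) ^ 3 =
      ((V⁻¹ : Rˣ) : R) ^ (3 * i) * ((U : R) ^ (2 * j) - (s ^ 3) ^ (2 * j)) := by
    rw [mul_sub, ← hU', hV]
    ring
  rw [e]
  exact Dvd.dvd.mul_left (h.trans (sub_dvd_pow_sub_pow _ _ _)) _

end H11R
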