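import Pool.Agent.H11.T3R.Dqd
import Pool.Agent.H11.T3R.Dgb
import Pool.Agent.H11.T3R.Dgc
import Pool.Agent.H11.T3R.Dib
import Pool.Agent.H11.T3R.Djd
import Pool.Agent.H11.T3R.Dka
import Pool.Agent.H11.T3R.DfF

/-! Assembly of block D: `HPlusT`, `HMinusT`, `noNewCubeT_pair` (no row). -/

set_option autoImplicit false
set_option linter.unusedSectionVars false

open NumberField

namespace H11R

open H5SW

variable {p m n d : ℕ} [Fact p.Prime] [NeZero d] {ψ : (ZMod d)ˣ →* ℤˣ} {M F A B CA CB : Type} [Field M]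
    [NumberField M] [Field F] [NumberField F] [Field A] [NumberField A] [Field B] [NumberField B] [Field CA] [NumberField CA]
    [Field CB] [NumberField CB] [Algebra M F] [Algebra M A] [Algebra F B] [Algebra A B] [Algebra A CA] [Algebra B CB]
    [Algebra CA CB] [IsCyclotomicExtension {d * p ^ (m + 1)} ℚ CA] [IsCyclotomicExtension {d * p ^ (n + 1)} ℚ CB]

lemma PiT.pi_eq {T : RP2 p m n d ψ M F A B CA CB} (P : PiT T) (u : (ZMod (p ^ (n + 1)))ˣ) (ε : ℤˣ) :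
    P.π (u, ε) = P.π (u, 1) ∨ P.π (u, ε) = P.π (u, 1) * P.σ := by
  rcases Int.units_eq_one_or ε with rfl | rfl
  · exact Or.inl rfl
  · right
    rw [PiT.σ, ← map_mul, Prod.mk_mul_mk, mul_one, one_mul]

theorem hplus (hp5 : 5 ≤ p) (hpd : p.Coprime d) (Q : QH d ψ) (T : RP2 p m n d ψ M F A B CA CB) (P : PiT T) {k0 : ℕ}
    (hS : H55T3.NV3 p k0) (hm : k0 ≤ m + 1) : HPlusT (tsOf hp5 hpd Q T) P.σ := by
  intro θ hθ hσ u hu g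
  have h1 := tw_plus hp5 hpd Q P hθ hσ
  have h2 : ((((u ^ 2 : (𝓞 B)ˣ) : 𝓞 B) : B)) ^ 3 = algebraMap F B (((H55T3.dw T.rp.rL (fun x => (4 * p ^ n : ℕ) * P.ThF θ x) : (𝓞 F)ˣ) : 𝓞 F) : F) := by
    rw [H55T3.dw_smul, hu] at *
    have e1 : (((((H55T3.dw T.rp.rL (P.ThF θ)) ^ (((4 * p ^ n : ℕ) : ℤ)) : (𝓞 F)ˣ) : 𝓞 F)) : F) =
        (((H55T3.dw T.rp.rL (P.ThF θ) : (𝓞 F)ˣ) : 𝓞 F) : F) ^ (4 * p ^ n) := by
      rw [zpow_natCast, Units.val_pow_eq_pow_val]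
      exact map_pow (algebraMap (𝓞 F) F) _ _
    rw [e1, map_pow, ← h1]
    have e2 : ∀ (v : (𝓞 B)ˣ) (k : ℕ), (((v ^ k : (𝓞 B)ˣ) : 𝓞 B) : B) = ((v : 𝓞 B) : B) ^ k := by
      intro v k
      rw [Units.val_pow_eq_pow_val]
      exact map_pow (algebraMap (𝓞 B) B) _ _
    rw [e2, e2]
    ring
  obtain ⟨w', hw'⟩ := desc_cube T.rB.real (gal_of_sub (d * p ^ (n + 1)) B CB).toIsGalois _ _ h2
  have hR : Rel M F (fun x => ((4 * p ^ n : ℕ) : ℤ) * P.ThF θ x) := by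
    intro x
    have h3 := rel_F P hθ x
    show ∑ h : F ≃ₐ[M] F, ((4 * p ^ n : ℕ) : ℤ) * P.ThF θ (x * h.restrictScalars ℚ) = 0
    rw [← Finset.mul_sum, h3, mul_zero]
  have h4 := H55T3.hCube_of hp5 hS hm T.rp _ hR w' hw'
  have h5 : ∀ x, (3 : ℤ) ∣ P.ThF θ x := by
    intro x
    have h6 := h4 x
    refine (Int.prime_three.dvd_mul.1 h6).resolve_left ?_
    intro h7
    have h8 : 3 ∣ 4 * p ^ n := by exact_mod_cast h7
    rcases (Nat.Prime.dvd_mul Nat.prime_three).1 h8 with h9 | h9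
    · omega
    · have h10 := Nat.Prime.dvd_of_dvd_pow Nat.prime_three h9
      rw [Nat.prime_dvd_prime_iff_eq Nat.prime_three Fact.out] at h10
      omega
  obtain ⟨⟨v, ε⟩, rfl⟩ := P.surj g
  have h11 : θ (P.π (v, ε)) = P.ThF θ (T.rp.rL.σ v) := by
    rw [ThF_σ P hθ]
    rcases P.pi_eq v ε with h | h
    · rw [h]; rfl
    · rw [h, hσ]; rfl
  rw [h11]
  exact h5 _

/-- the unit `vC` -/
theorem exists_V {d' : ℕ} [NeZero d'] {n : ℕ} {C : Type} [Field C] [NumberField C] (hpd : p.Coprime d') (hd : 1 < d') {ψ : (ZMod d')ˣ →* ℤˣ}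
    {ξ z : C} (hξ : IsPrimitiveRoot ξ d')
    (hz : IsPrimitiveRoot z (p ^ (n + 1))) (Θ : (ZMod (p ^ (n + 1)))ˣ → ℤ) : ∃ V : (𝓞 C)ˣ, ((V : 𝓞 C) : C) = vC ξ z ψ Θ := by
  choose v hv using fun (t : (ZMod d')ˣ) (u : (ZMod (p ^ (n + 1)))ˣ) => unit_aC hpd hd hξ hz t u
  have hc : ∀ w : (𝓞 C)ˣ, ((w : 𝓞 C) : C) = ((Units.map (algebraMap (𝓞 C) C : 𝓞 C →* C) w : Cˣ) : C) := fun _ => rfl
  refine ⟨∏ u, (∏ t, v t u ^ ((ψ t : ℤˣ) : ℤ)) ^ Θ u, ?_⟩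
  rw [hc, map_prod, Units.coe_prod, vC]
  refine Finset.prod_congr rfl fun u _ => ?_
  rw [map_zpow, map_prod, Units.val_zpow_eq_zpow_val, Units.coe_prod, eC]
  congr 1
  refine Finset.prod_congr rfl fun t _ => ?_
  rw [map_zpow, Units.val_zpow_eq_zpow_val, ← hc, hv]

/-- the units `U = tw θ`, `V` in `𝓞 CB` -/
theorem exists_UV (hp5 : 5 ≤ p) (hpd : p.Coprime d) (Q : QH d ψ) {T : RP2 p m n d ψ M F A B CA CB} (P : PiT T)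
    {θ : (B ≃ₐ[ℚ] B) → ℤ} (hθ : Rel A B θ) (hσ : ∀ g, θ (g * P.σ) = - θ g)
    {s : 𝓞 B} (hs : (27 : 𝓞 B) ∣ (((tsOf hp5 hpd Q T).tw θ : 𝓞 B) - s ^ 3) ^ 2) :
    ∃ (U V : (𝓞 CB)ˣ) (s' : 𝓞 CB), ((V : 𝓞 CB) : CB) = vC T.rB.ξ T.rB.z ψ (P.Th θ) ∧ U ^ 2 = V ^ (2 * p ^ n) ∧
      (27 : 𝓞 CB) ∣ ((U : 𝓞 CB) - s' ^ 3) ^ 2 := by
  obtain ⟨V, hV⟩ := exists_V hpd Q.d1 (ψ := ψ) T.rB.hξ T.rB.hz (P.Th θ)
  refine ⟨Units.map (algebraMap (𝓞 B) (𝓞 CB) : 𝓞 B →* 𝓞 CB) ((tsOf hp5 hpd Q T).tw θ), V, algebraMap (𝓞 B) (𝓞 CB) s, hV, ?_, ?_⟩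
  · apply Units.ext
    apply RingOfIntegers.coe_injective
    rw [Units.val_pow_eq_pow_val, Units.val_pow_eq_pow_val, map_pow, map_pow]
    have e : algebraMap (𝓞 CB) CB (V : 𝓞 CB) = vC T.rB.ξ T.rB.z ψ (P.Th θ) := hV
    rw [e, ← tw_minus hp5 hpd Q P hθ hσ]
    rfl
  · have h := map_dvd (algebraMap (𝓞 B) (𝓞 CB)) hs
    rw [map_pow, map_sub, map_pow, map_ofNat] at h
    exact h

theorem dvd_of_Th {T : RP2 p m n d ψ M F A B CA CB} (P : PiT T)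
    {θ : (B ≃ₐ[ℚ] B) → ℤ} (hσ : ∀ g, θ (g * P.σ) = - θ g) (h : ∀ u, (3 : ℤ) ∣ P.Th θ u) (g : B ≃ₐ[ℚ] B) : (3 : ℤ) ∣ θ g := by
  obtain ⟨⟨v, ε⟩, rfl⟩ := P.surj g
  rcases P.pi_eq v ε with h1 | h1
  · rw [h1]
    exact h v
  · rw [h1, hσ, dvd_neg]
    exact h v

theorem not_three_dvd (hp5 : 5 ≤ p) (n : ℕ) : ¬ 3 ∣ 2 * p ^ n := by
  intro h8
  rcases (Nat.Prime.dvd_mul Nat.prime_three).1 h8 with h9 | h9
  · omega
  · have h10 := Nat.Prime.dvd_of_dvd_pow Nat.prime_three h9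
    rw [Nat.prime_dvd_prime_iff_eq Nat.prime_three Fact.out] at h10
    omega

theorem hminus_i (hp5 : 5 ≤ p) (hpd : p.Coprime d) (h3 : ¬ 3 ∣ d) (Q : QH d ψ) (T : RP2 p m n d ψ M F A B CA CB) (P : PiT T) {k0 : ℕ}
    (hS : NVi p k0 d ψ) (hm : k0 ≤ m + 1) : HMinusT (tsOf hp5 hpd Q T) P.σ := by
  intro θ hθ hσ
  rintro ⟨s, hs⟩
  obtain ⟨U, V, s', hV, hUV, hs'⟩ := exists_UV hp5 hpd Q P hθ hσ hs
  have hN : ¬ 3 ∣ d * p ^ (n + 1) := by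
    intro h
    rcases (Nat.Prime.dvd_mul Nat.prime_three).1 h with h9 | h9
    · exact h3 h9
    · have h10 := Nat.Prime.dvd_of_dvd_pow Nat.prime_three h9
      rw [Nat.prime_dvd_prime_iff_eq Nat.prime_three Fact.out] at h10
      omega
  have h9 := nine_of hN hs'
  obtain ⟨s'', hs''⟩ := root_cong U V (not_three_dvd hp5 n) hUV h9
  refine dvd_of_Th P hσ ?_
  refine three_dvd_gen hp5 hpd Q.d1 T.rp.hmn hm dvd_rfl h3 (C := CB) (fun _ _ x => x / (1 - x) ^ 2) hS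
    (T.rB.hξ.toInteger_isPrimitiveRoot) (T.rB.hz.toInteger_isPrimitiveRoot) (Th_dig P hθ) ?_ ?_
  · intro Ω _ _ x y hx hy u
    exact rho_even_i Q.even x y hx hy u
  · intro Ω _ _ Ψ
    exact kappa_i hp5 hpd Q.d1 h3 T.rB.hξ T.rB.hz (P.Th θ) V hV s'' hs'' Ω Ψ

theorem hminus_ii {d0 : ℕ} [NeZero d0] [NeZero (3 * d0)] (hp5 : 5 ≤ p) (hpd : p.Coprime (3 * d0)) (h30 : Nat.Coprime 3 d0)
    {ψ : (ZMod (3 * d0))ˣ →* ℤˣ} (Q : QH (3 * d0) ψ)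
    [IsCyclotomicExtension {3 * d0 * p ^ (m + 1)} ℚ CA] [IsCyclotomicExtension {3 * d0 * p ^ (n + 1)} ℚ CB]
    (T : RP2 p m n (3 * d0) ψ M F A B CA CB) (P : PiT T) {k0 : ℕ}
    (hS : NVii p k0 d0 (psi0 h30 ψ)) (hm : k0 ≤ m + 1) : HMinusT (tsOf hp5 hpd Q T) P.σ := by
  intro θ hθ hσ
  rintro ⟨s, hs⟩
  obtain ⟨U, V, s', hV, hUV, hs'⟩ := exists_UV hp5 hpd Q P hθ hσ hs
  have h3 : ¬ 3 ∣ d0 := (Nat.Prime.coprime_iff_not_dvd Nat.prime_three).1 h30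
  have hpd0 : p.Coprime d0 := Nat.Coprime.coprime_mul_left_right hpd
  have hN : ¬ 3 ∣ d0 * p ^ (n + 1) := by
    intro h
    rcases (Nat.Prime.dvd_mul Nat.prime_three).1 h with h9 | h9
    · exact h3 h9
    · have h10 := Nat.Prime.dvd_of_dvd_pow Nat.prime_three h9
      rw [Nat.prime_dvd_prime_iff_eq Nat.prime_three Fact.out] at h10
      omega
  have hN' : 3 * d0 * p ^ (n + 1) = 3 * (d0 * p ^ (n + 1)) := by ring
  obtain ⟨ω, ξ0, hω, hξ0, hξ⟩ := exists_split (NeZero.ne d0) h30 T.rB.hξ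
  have hρ : (hω.toInteger - hω.toInteger ^ 2) ^ 2 = -3 := by
    have h1 := hω.toInteger_isPrimitiveRoot
    have h2 : hω.toInteger ^ 3 = 1 := h1.pow_eq_one
    have h4 : hω.toInteger ^ 2 + hω.toInteger + 1 = 0 := by
      have h5 : (hω.toInteger - 1) * (hω.toInteger ^ 2 + hω.toInteger + 1) = 0 := by linear_combination h2
      rcases mul_eq_zero.1 h5 with h6 | h6
      · exact absurd (sub_eq_zero.1 h6) (h1.ne_one (by norm_num))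
      · exact h6
    linear_combination (hω.toInteger ^ 2 - 3 * hω.toInteger + 3) * h4
  have h9 := three_of hN' hN hρ hs'
  obtain ⟨s'', hs''⟩ := root_cong U V (not_three_dvd hp5 n) hUV h9
  refine dvd_of_Th P hσ ?_
  refine three_dvd_gen hp5 hpd Q.d1 T.rp.hmn hm (dvd_mul_left d0 3) h3 (C := CB) (fun _ _ x => x / (1 - x)) hS
    (hξ0.toInteger_isPrimitiveRoot) (T.rB.hz.toInteger_isPrimitiveRoot) (Th_dig P hθ) ?_ ?_
  · intro Ω _ _ x y hx hy u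
    exact rho_even_ii hpd0 (psi0_odd h30 Q) x y hx hy u
  · intro Ω _ _ Ψ
    refine kappa_ii hp5 hpd h30 Q hω hξ0 T.rB.hz (P.Th θ) V ?_ s'' hs'' Ω Ψ
    rw [hV, hξ]

/-- the pair `A ⊆ B`, case (i) -/
theorem noNewCubeT_i (hp5 : 5 ≤ p) (hpd : p.Coprime d) (h3 : ¬ 3 ∣ d) (Q : QH d ψ) (T : RP2 p m n d ψ M F A B CA CB) (P : PiT T) {k0 : ℕ}
    (hS0 : H55T3.NV3 p k0) (hS : NVi p k0 d ψ) (hm : k0 ≤ m + 1) : NoNewCubeT A B P.σ := by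
  have h9 : ¬ 9 ∣ d := fun h => h3 ((by norm_num : 3 ∣ 9).trans h)
  have HP := hplus hp5 hpd Q T P hS0 hm
  have HM := hminus_i hp5 hpd h3 Q T P hS hm
  have HC := HCube_of (tsOf hp5 hpd Q T) P.σ P.σ_sq HP HM
  exact noNewCubeT_of (tsOf hp5 hpd Q T) P.σ P.σ_sq HP HM (class_eq hp5 hpd h9 Q T HC)

/-- the pair `A ⊆ B`, case (ii) -/
theorem noNewCubeT_ii {d0 : ℕ} [NeZero d0] [NeZero (3 * d0)] (hp5 : 5 ≤ p) (hpd : p.Coprime (3 * d0)) (h30 : Nat.Coprime 3 d0)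
    {ψ : (ZMod (3 * d0))ˣ →* ℤˣ} (Q : QH (3 * d0) ψ)
    [IsCyclotomicExtension {3 * d0 * p ^ (m + 1)} ℚ CA] [IsCyclotomicExtension {3 * d0 * p ^ (n + 1)} ℚ CB]
    (T : RP2 p m n (3 * d0) ψ M F A B CA CB) (P : PiT T) {k0 : ℕ}
    (hS0 : H55T3.NV3 p k0) (hS : NVii p k0 d0 (psi0 h30 ψ)) (hm : k0 ≤ m + 1) : NoNewCubeT A B P.σ := by
  have h9 : ¬ 9 ∣ 3 * d0 := by
    intro h
    obtain ⟨c, hc⟩ := h
    have h3 : ¬ 3 ∣ d0 := (Nat.Prime.coprime_iff_not_dvd Nat.prime_three).1 h30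
    exact h3 ⟨c, by omega⟩
  have HP := hplus hp5 hpd Q T P hS0 hm
  have HM := hminus_ii hp5 hpd h30 Q T P hS hm
  have HC := HCube_of (tsOf hp5 hpd Q T) P.σ P.σ_sq HP HM
  exact noNewCubeT_of (tsOf hp5 hpd Q T) P.σ P.σ_sq HP HM (class_eq hp5 hpd h9 Q T HC)

end H11R
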