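import Pool.Agent.H11.T3R.DfE
import Pool.Agent.H5.SW.L3

/-!
# Transfer and existence: definitions (helper11, MP_78d38b_T3, general D; no row)
-/

set_option autoImplicit false
set_option linter.unusedSectionVars false

open NumberField

namespace H11R

open H5SW

/-- `A0 = K(√D)`, `B0 = L(√D)`, `σ` the automorphism of `B0` over `L` -/
structure QP (D : ℤ) (K L A0 B0 : Type) [Field K] [Field L] [Field A0] [Field B0] [Algebra K L] [Algebra K A0] [Algebra L B0]
    [Algebra A0 B0] [CharZero B0] where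
  s : A0
  hs : s ^ 2 = (D : A0)
  comm : ∀ x : K, algebraMap A0 B0 (algebraMap K A0 x) = algebraMap L B0 (algebraMap K L x)
  degA : Module.finrank K A0 = 2
  degB : Module.finrank L B0 = 2
  σ : B0 ≃ₐ[ℚ] B0
  σL : ∀ x : L, σ (algebraMap L B0 x) = algebraMap L B0 x
  σs : σ (algebraMap A0 B0 s) = - algebraMap A0 B0 s

/-- transfer data from `(A0, B0)` to `(A, B)` -/
structure TrT (A0 B0 A B : Type) [Field A0] [NumberField A0] [Field B0] [NumberField B0] [Field A] [NumberField A] [Field B]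
    [NumberField B] [Algebra A0 B0] [Algebra A B] [Algebra A0 A] [Algebra B0 B] (σ0 : B0 ≃ₐ[ℚ] B0) (σ : B ≃ₐ[ℚ] B) : Prop where
  norm_compat : ∀ x : B0, algebraMap A0 A (Algebra.norm A0 x) = Algebra.norm A (algebraMap B0 B x)
  sig : ∀ x : B0, σ (algebraMap B0 B x) = algebraMap B0 B (σ0 x)
  real : IsTotallyReal B
  gal : IsGalois ℚ B

/-- `ψ` is the quadratic character of `ℚ(√D)`, of conductor `d` -/
structure CH (D : ℤ) (d : ℕ) [NeZero d] (ψ : (ZMod d)ˣ →* ℤˣ) : Prop where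
  Q : QH d ψ
  dvd : (d : ℤ) ∣ 8 * D
  root : ∀ (N : ℕ) [NeZero N] (h : d ∣ N) (C : Type) [Field C] [NumberField C] [IsCyclotomicExtension {N} ℚ C],
    ∃ δ : C, δ ^ 2 = (D : C) ∧ ∀ w : (ZMod N)ˣ,
      (IsCyclotomicExtension.Rat.galEquivZMod N C).symm w δ = (((ψ (ZMod.unitsMap h w) : ℤˣ) : ℤ) : C) * δ

/-- the fixed field of a subgroup of `(ZMod N)ˣ` -/
noncomputable def FX (N : ℕ) [NeZero N] (C : Type) [Field C] [NumberField C] [IsCyclotomicExtension {N} ℚ C]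
    (H : Subgroup (ZMod N)ˣ) : IntermediateField ℚ C :=
  IntermediateField.fixedField (H.comap ((IsCyclotomicExtension.Rat.galEquivZMod N C) : Gal(C/ℚ) →* (ZMod N)ˣ))

/-- the subgroup `w = ± 1` modulo `f`, `ψ(w) = 1` -/
def HB (d f : ℕ) (ψ : (ZMod d)ˣ →* ℤˣ) : Subgroup (ZMod (d * f))ˣ where
  carrier := {w | (ZMod.unitsMap (dvd_mul_left f d) w = 1 ∨ ZMod.unitsMap (dvd_mul_left f d) w = -1) ∧
      ψ (ZMod.unitsMap (dvd_mul_right d f) w) = 1}
  one_mem' := ⟨Or.inl (map_one _), by rw [map_one, map_one]⟩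
  mul_mem' := by
    rintro a b ⟨ha, ha'⟩ ⟨hb, hb'⟩
    refine ⟨?_, by rw [map_mul, map_mul, ha', hb', one_mul]⟩
    rw [map_mul]
    rcases ha with h1 | h1 <;> rcases hb with h2 | h2 <;> rw [h1, h2]
    · exact Or.inl (one_mul _)
    · exact Or.inr (one_mul _)
    · exact Or.inr (mul_one _)
    · exact Or.inl (by rw [neg_mul_neg, one_mul])
  inv_mem' := by
    rintro a ⟨ha, ha'⟩
    refine ⟨?_, by rw [map_inv, map_inv, ha', inv_one]⟩
    rw [map_inv]
    rcases ha with h1 | h1 <;> rw [h1]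
    · exact Or.inl inv_one
    · exact Or.inr (by rw [inv_neg, inv_one])

theorem mem_HB (d f : ℕ) (ψ : (ZMod d)ˣ →* ℤˣ) (w : (ZMod (d * f))ˣ) : w ∈ HB d f ψ ↔
    (ZMod.unitsMap (dvd_mul_left f d) w = 1 ∨ ZMod.unitsMap (dvd_mul_left f d) w = -1) ∧
      ψ (ZMod.unitsMap (dvd_mul_right d f) w) = 1 := Iff.rfl

end H11R
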