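import Pool.Agent.H11.T3R.DfE
import Pool.Agent.H55.T3.RG

/-!
ROW Dga (group ring argument on `(ZMod f)ˣ` for even functions; about 50 lines).

PROOF. `group_ring3` (Pool/Agent/H55/T3/RG.lean) with `Γ = (ZMod (p^(n+1)))ˣ`, `N = KN p hmn`, and `s g = ρ g + (if g = 1 then 1 else 0) - (if g = -1 then 1 else 0)`.
`hN`: `|KN| = p^(n-m)` divides a power of `p`; simpler: `KN` is a `p`-group, or: the cardinality of the kernel divides.. : `ZMod.unitsMap` is surjective (`ZMod.unitsMap_surjective`), `|KN| * φ(p^(m+1)) = φ(p^(n+1))` (`Subgroup.card_mul_index`,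
`Subgroup.index_ker`, range `⊤`), so `|KN| = p^(n-m)`, not `0` in `Ω` (`H55T3.three_cast_ne` in Pool/Agent/H55/T3, or `CharP.cast_eq_zero_iff` and `p ≥ 5`).
`hs`: `∑ χ(g) s g = ∑ χ(g) ρ g + 1 - χ(-1)`. If `χ(-1) = 1`: not `0` by hypothesis. Otherwise `χ(-1) = -1` (its square is `1`) and `∑ χ ρ = 0` as `ρ` is even (`g ↦ -g`: `2 ∑ χ ρ = 0`, `2 ≠ 0` in characteristic three), so the sum is `2 ≠ 0`.
`h2`: `∑ x, Θ x * s (g * x) = ∑ Θ x ρ (g x) + Θ (g⁻¹) - Θ (-g⁻¹) = 0` (`Θ` even).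
-/

set_option autoImplicit false

open NumberField

namespace H11R

theorem Dga_card {p m n : ℕ} [Fact p.Prime] (hmn : m ≤ n) :
    Fintype.card (KN p hmn) = p ^ (n - m) := by
  have hp : p.Prime := Fact.out
  have h1 := Subgroup.card_mul_index (KN p hmn)
  have hsurj := ZMod.unitsMap_surjective (pow_dvd_pow p (Nat.succ_le_succ hmn))
  have h2 : (KN p hmn).index = p ^ m * (p - 1) := by
    unfold KN
    rw [Subgroup.index_ker, MonoidHom.range_eq_top.2 hsurj, Subgroup.card_top,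
      Nat.card_eq_fintype_card, ZMod.card_units_eq_totient, Nat.totient_prime_pow_succ hp]
  rw [h2, Nat.card_eq_fintype_card, Nat.card_eq_fintype_card, ZMod.card_units_eq_totient,
    Nat.totient_prime_pow_succ hp] at h1
  have h3 : 0 < p ^ m * (p - 1) := Nat.mul_pos (pow_pos hp.pos _) (by have := hp.two_le; omega)
  apply Nat.eq_of_mul_eq_mul_right h3
  rw [h1, ← mul_assoc, ← pow_add]
  congr 2
  omega

theorem gr_units {p m n : ℕ} [Fact p.Prime] (hp5 : 5 ≤ p) (hmn : m ≤ n) {Ω : Type} [Field Ω] [IsAlgClosed Ω] [CharP Ω 3]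
    (ρ : (ZMod (p ^ (n + 1)))ˣ → Ω) (hρ : ∀ u, ρ (-u) = ρ u)
    (hs : ∀ χ : (ZMod (p ^ (n + 1)))ˣ →* Ωˣ, χ (-1) = 1 →
      (∃ u, ZMod.unitsMap (pow_dvd_pow p (Nat.succ_le_succ hmn)) u = 1 ∧ χ u ≠ 1) → ∑ u, (χ u : Ω) * ρ u ≠ 0)
    (Θ : (ZMod (p ^ (n + 1)))ˣ → Ω) (he : ∀ u, Θ (-u) = Θ u) (h1 : ∀ u, ∑ v : KN p hmn, Θ (u * v) = 0)
    (h2 : ∀ g, ∑ u, Θ u * ρ (g * u) = 0) : Θ = 0 := by
  classical
  have hp : p.Prime := Fact.out
  have hp0 : (p : Ω) ≠ 0 := by
    intro h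
    rw [CharP.cast_eq_zero_iff Ω 3] at h
    have := (Nat.prime_dvd_prime_iff_eq Nat.prime_three hp).mp h
    omega
  have h20 : (2 : Ω) ≠ 0 := by
    intro h
    have h' : ((2 : ℕ) : Ω) = 0 := by exact_mod_cast h
    rw [CharP.cast_eq_zero_iff Ω 3] at h'
    omega
  have hN : (Fintype.card (KN p hmn) : Ω) ≠ 0 := by
    rw [Dga_card hmn, Nat.cast_pow]
    exact pow_ne_zero _ hp0
  refine H55T3.group_ring3 (KN p hmn) hN
    (fun g => ρ g + (if g = 1 then 1 else 0) - (if g = -1 then 1 else 0)) Θ ?_ h1 ?_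
  · rintro χ ⟨h, hh, hχ⟩
    rw [mem_KN] at hh
    have e1 : ∑ g, (χ g : Ω) * (ρ g + (if g = 1 then 1 else 0) - (if g = -1 then 1 else 0)) =
        ∑ g, (χ g : Ω) * ρ g + 1 - (χ (-1) : Ω) := by
      have e2 : ∀ g, (χ g : Ω) * (ρ g + (if g = 1 then 1 else 0) - (if g = -1 then 1 else 0)) =
          (χ g : Ω) * ρ g + (if g = 1 then (χ g : Ω) else 0) -
            (if g = -1 then (χ g : Ω) else 0) := by
        intro g
        rw [mul_sub, mul_add, mul_ite, mul_ite, mul_one, mul_zero]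
      rw [Finset.sum_congr rfl fun g _ => e2 g, Finset.sum_sub_distrib, Finset.sum_add_distrib,
        Finset.sum_ite_eq' Finset.univ (1 : (ZMod (p ^ (n + 1)))ˣ) (fun g => (χ g : Ω)),
        Finset.sum_ite_eq' Finset.univ (-1 : (ZMod (p ^ (n + 1)))ˣ) (fun g => (χ g : Ω)),
        if_pos (Finset.mem_univ _), if_pos (Finset.mem_univ _), map_one, Units.val_one]
    rw [e1]
    have hsq : (χ (-1) : Ω) * (χ (-1) : Ω) = 1 := by
      rw [← Units.val_mul, ← map_mul, neg_mul_neg, one_mul, map_one, Units.val_one]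
    rcases mul_self_eq_one_iff.1 hsq with h3 | h3
    · have h4 : χ (-1) = 1 := Units.ext h3
      rw [h3, add_sub_cancel_right]
      exact hs χ h4 ⟨h, hh, hχ⟩
    · have h5 : ∑ g, (χ g : Ω) * ρ g = 0 := by
        have h6 : ∑ g, (χ g : Ω) * ρ g = -∑ g, (χ g : Ω) * ρ g := by
          conv_lhs => rw [← Equiv.sum_comp (Equiv.neg _)]
          rw [← Finset.sum_neg_distrib]
          refine Finset.sum_congr rfl fun g _ => ?_
          rw [Equiv.neg_apply, hρ, ← neg_one_mul g, map_mul, Units.val_mul, h3]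
          ring
        have h7 : (2 : Ω) * ∑ g, (χ g : Ω) * ρ g = 0 := by
          linear_combination h6
        exact (mul_eq_zero.1 h7).resolve_left h20
      rw [h5, h3, zero_add, sub_neg_eq_add]
      have : (1 : Ω) + 1 = 2 := by norm_num
      rw [this]
      exact h20
  · intro g
    have e2 : ∀ x, Θ x * (ρ (g * x) + (if g * x = 1 then 1 else 0) -
        (if g * x = -1 then 1 else 0)) = Θ x * ρ (g * x) + (if x = g⁻¹ then Θ x else 0) -
          (if x = -g⁻¹ then Θ x else 0) := by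
      intro x
      have c1 : g * x = 1 ↔ x = g⁻¹ := by
        rw [mul_eq_one_iff_inv_eq, eq_comm]
      have c2 : g * x = -1 ↔ x = -g⁻¹ := by
        rw [← neg_inj, neg_neg, ← mul_neg, mul_eq_one_iff_inv_eq, eq_comm, neg_eq_iff_eq_neg]
      rw [mul_sub, mul_add, mul_ite, mul_ite, mul_one, mul_zero]
      simp only [c1, c2]
    simp only [e2]
    rw [Finset.sum_sub_distrib, Finset.sum_add_distrib, h2 g,
      Finset.sum_ite_eq' Finset.univ (g⁻¹) Θ, Finset.sum_ite_eq' Finset.univ (-g⁻¹) Θ,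
      if_pos (Finset.mem_univ _), if_pos (Finset.mem_univ _), he, zero_add, sub_self]

end H11R
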