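import Pool.Agent.H11.T3R.DfE

/-!
ROW Dja (the ideal of `√-3` in `C`, `N = 3 N₀`, `3 ∤ N₀`; about 90 lines).

PROOF. `3 ∤ N₀`, `N = 3 ^ (0+1) * N₀`: every prime `P` of `𝓞 C` above `3` has ramification index `3 ^ 0 * (3 - 1) = 2` (`IsCyclotomicExtension.Rat.ramificationIdx_eq`, Mathlib/NumberTheory/NumberField/Cyclotomic/Ideal.lean), so
`(3) = ∏_P P ^ 2` (`Ideal.map_algebraMap_eq_finsetProd_pow`; see `Bj_R` in Pool/Agent/H11/T3R/Bj.lean, which does exactly this for a field `B`), `(ρ) ^ 2 = (-3) = (∏_P P) ^ 2`, so `(ρ) = ∏_P P` (`𝓞 C` ideals: unique factorization,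
`pow_left_injective`, e.g. via `Associated`/`normalizedFactors`, or `Ideal` is a normalized monoid: `(pow_left_injective₀ ..)`; or compare through `dvd`: `pow_dvd_pow_iff`), a product of different maximal ideals, so `(ρ)` is squarefree, hence a
radical ideal (`Squarefree.isRadical`), so `ρ ∣ x ^ k` implies `ρ ∣ x` (as in `three_red`, Pool/Agent/H55/T3/RD.lean).
Alternatively: `ρ ∣ x` iff `x ∈ P` for all `P ∣ 3`: (ρ) = ⨅ P.
`three_of`: `27 ∣ X ^ 2`, `27 = - ρ ^ 6`: `ρ ∣ X ^ 2`, so `X = ρ Y`, `ρ ^ 4 ∣ Y ^ 2`, `ρ ∣ Y`, `ρ ^ 2 ∣ X`, i.e. `3 ∣ X`.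
-/

set_option autoImplicit false

open NumberField

namespace H11R

theorem Dja_sq {N N0 : ℕ} [NeZero N] (hN : N = 3 * N0) (h3 : ¬ 3 ∣ N0) {C : Type} [Field C] [NumberField C] [IsCyclotomicExtension {N} ℚ C]
    {ρ : 𝓞 C} (hρ : ρ ^ 2 = -3) : Squarefree (Ideal.span {ρ}) := by
  have : Fact (Nat.Prime 3) := ⟨Nat.prime_three⟩
  have hG : IsGalois ℚ C := IsCyclotomicExtension.isGalois {N} ℚ C
  have he : (Ideal.span {((3 : ℕ) : ℤ)}).ramificationIdxIn (𝓞 C) = 3 ^ 0 * (3 - 1) :=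
    IsCyclotomicExtension.Rat.ramificationIdxIn_eq N C (by rw [hN]; ring) h3
  have he' : (Ideal.span {(3 : ℤ)}).ramificationIdxIn (𝓞 C) = 2 := by
    have h := he
    simpa using h
  have hmax : (Ideal.span {(3 : ℤ)}).IsMaximal :=
    PrincipalIdealRing.isMaximal_of_irreducible (Int.prime_three.irreducible)
  have hne : (Ideal.span {(3 : ℤ)}) ≠ ⊥ := by
    rw [Ne, Ideal.span_singleton_eq_bot]
    norm_num
  have h1 := Ideal.map_algebraMap_eq_finsetProd_pow (R := 𝓞 C) (p := Ideal.span {(3 : ℤ)}) hne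
  obtain ⟨S, hS, hSm, hSp⟩ : ∃ S : Finset (Ideal (𝓞 C)), (Ideal.span {(3 : ℤ)}).map (algebraMap ℤ (𝓞 C)) = ∏ P ∈ S, P ^ 2 ∧
      (∀ P ∈ S, P.IsMaximal) ∧ ∀ P ∈ S, P ≠ ⊥ := by
    refine ⟨_, h1.trans (Finset.prod_congr rfl ?_), ?_, ?_⟩
    · intro P hP
      have hP' : P ∈ (Ideal.span {(3 : ℤ)}).primesOver (𝓞 C) := by simpa using hP
      have := hP'.1
      have := hP'.2
      congr 1
      rw [← Ideal.ramificationIdxIn_eq_ramificationIdx (Ideal.span {(3 : ℤ)}) P Gal(C/ℚ)]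
      exact he'
    · intro P hP
      have hP' : P ∈ (Ideal.span {(3 : ℤ)}).primesOver (𝓞 C) := by simpa using hP
      have := hP'.1
      have := hP'.2
      exact Ring.DimensionLEOne.maximalOfPrime (Ideal.ne_bot_of_liesOver_of_ne_bot hne P) inferInstance
    · intro P hP
      have hP' : P ∈ (Ideal.span {(3 : ℤ)}).primesOver (𝓞 C) := by simpa using hP
      have := hP'.1
      have := hP'.2
      exact Ideal.ne_bot_of_liesOver_of_ne_bot hne P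
  have h7 : (∏ P ∈ S, P) ^ 2 = (Ideal.span {ρ}) ^ 2 := by
    rw [← Finset.prod_pow, ← hS, Ideal.map_span, Set.image_singleton, Ideal.span_singleton_pow, hρ]
    simp
  have h8 : ∏ P ∈ S, P = Ideal.span {ρ} :=
    dvd_antisymm ((UniqueFactorizationMonoid.pow_dvd_pow_iff_dvd two_ne_zero).1 (dvd_of_eq h7)) ((UniqueFactorizationMonoid.pow_dvd_pow_iff_dvd two_ne_zero).1 (dvd_of_eq h7.symm))
  rw [← h8]
  refine Finset.squarefree_prod_of_pairwise_isCoprime ?_ ?_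
  · intro P hP P' hP' hne'
    have := hSm P hP
    have := hSm P' hP'
    exact (Ideal.isCoprime_of_isMaximal hne').isRelPrime
  · intro P hP
    have := hSm P hP
    exact (Ideal.prime_of_isPrime (hSp P hP) inferInstance).squarefree

theorem rad_ram {N N0 : ℕ} [NeZero N] (hN : N = 3 * N0) (h3 : ¬ 3 ∣ N0) {C : Type} [Field C] [NumberField C] [IsCyclotomicExtension {N} ℚ C]
    {ρ : 𝓞 C} (hρ : ρ ^ 2 = -3) (k : ℕ) (x : 𝓞 C) (h : ρ ∣ x ^ k) : ρ ∣ x := by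
  have hsq := Dja_sq hN h3 hρ
  have h1 : Ideal.span {ρ} ∣ (Ideal.span {x}) ^ k := by
    rw [Ideal.span_singleton_pow, Ideal.dvd_span_singleton, Ideal.mem_span_singleton]
    exact h
  have h2 := hsq.isRadical k _ h1
  rw [Ideal.dvd_span_singleton, Ideal.mem_span_singleton] at h2
  exact h2

theorem three_of {N N0 : ℕ} [NeZero N] (hN : N = 3 * N0) (h3 : ¬ 3 ∣ N0) {C : Type} [Field C] [NumberField C] [IsCyclotomicExtension {N} ℚ C]
    {ρ : 𝓞 C} (hρ : ρ ^ 2 = -3) {X : 𝓞 C} (h : (27 : 𝓞 C) ∣ X ^ 2) : (3 : 𝓞 C) ∣ X := by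
  have h0 : ρ ≠ 0 := by
    rintro rfl
    norm_num at hρ
  have h6 : ρ ^ 6 = -27 := by
    calc ρ ^ 6 = (ρ ^ 2) ^ 3 := by ring
      _ = -27 := by rw [hρ]; norm_num
  have h27 : ρ ^ 6 ∣ X ^ 2 := by
    rw [h6]
    exact (neg_dvd).2 h
  obtain ⟨Y, rfl⟩ := rad_ram hN h3 hρ 2 X ((dvd_pow_self ρ (by norm_num)).trans h27)
  have h4 : ρ ^ 4 ∣ Y ^ 2 := by
    have h5 : ρ ^ 2 * ρ ^ 4 ∣ ρ ^ 2 * Y ^ 2 := by
      have e1 : ρ ^ 2 * ρ ^ 4 = ρ ^ 6 := by ring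
      have e2 : ρ ^ 2 * Y ^ 2 = (ρ * Y) ^ 2 := by ring
      rw [e1, e2]
      exact h27
    exact (mul_dvd_mul_iff_left (pow_ne_zero 2 h0)).1 h5
  obtain ⟨Z, rfl⟩ := rad_ram hN h3 hρ 2 Y ((dvd_pow_self ρ (by norm_num)).trans h4)
  refine ⟨-Z, ?_⟩
  have e : ρ * (ρ * Z) = ρ ^ 2 * Z := by ring
  rw [e, hρ]
  ring

end H11R
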