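import Pool.Agent.H11.T3R.Bl
import Pool.Agent.H11.T3R.DfB

/-!
ROW Dpa (the action of `(ZMod N)ˣ` on `CA ⊆ CB`; about 50 lines).

PROOF. As `Bl_fix` in Bl.lean (same file style): two `ℚ`-algebra homomorphisms `CA → CB`, `y ↦ s_w (y)` and `y ↦ s_{w'}(y)`, `w'` the reduction of `w` modulo `d p^(m+1)`; they agree on the primitive root `ζ = zeta` of order `d p^(m+1)` (`act_root` with
`k = d p^(m+1)` for `w` in `CB`, and with `k = d p^(m+1)` for `w'` in `CA`, where `ZMod.unitsMap (dvd_refl _) = id`), so they are equal (`(hζ.powerBasis ℚ).algHom_ext`).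
-/

set_option autoImplicit false
set_option linter.unusedSectionVars false

open NumberField

namespace H11R

open H5SW

variable {p m n d : ℕ} [Fact p.Prime] [NeZero d] {CA CB : Type} [Field CA] [NumberField CA]
    [Field CB] [NumberField CB] [Algebra CA CB] [IsCyclotomicExtension {d * p ^ (m + 1)} ℚ CA] [IsCyclotomicExtension {d * p ^ (n + 1)} ℚ CB]

theorem act_up (hN : d * p ^ (m + 1) ∣ d * p ^ (n + 1)) (w : (ZMod (d * p ^ (n + 1)))ˣ) (y : CA) :
    (IsCyclotomicExtension.Rat.galEquivZMod (d * p ^ (n + 1)) CB).symm w (algebraMap CA CB y) =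
      algebraMap CA CB ((IsCyclotomicExtension.Rat.galEquivZMod (d * p ^ (m + 1)) CA).symm (ZMod.unitsMap hN w) y) := by
  let F1 : CA →ₐ[ℚ] CB := RingHom.toRatAlgHom (algebraMap CA CB)
  let s : CB →ₐ[ℚ] CB :=
    ((IsCyclotomicExtension.Rat.galEquivZMod (d * p ^ (n + 1)) CB).symm w : CB ≃ₐ[ℚ] CB).toAlgHom
  let s' : CA →ₐ[ℚ] CA :=
    ((IsCyclotomicExtension.Rat.galEquivZMod (d * p ^ (m + 1)) CA).symm (ZMod.unitsMap hN w) :
      CA ≃ₐ[ℚ] CA).toAlgHom
  have hζ := IsCyclotomicExtension.zeta_spec (d * p ^ (m + 1)) ℚ CA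
  have key : s.comp F1 = F1.comp s' := by
    apply (hζ.powerBasis ℚ).algHom_ext
    rw [IsPrimitiveRoot.powerBasis_gen]
    set ζ := IsCyclotomicExtension.zeta (d * p ^ (m + 1)) ℚ CA
    have hx : (algebraMap CA CB ζ) ^ (d * p ^ (m + 1)) = 1 := by
      rw [← map_pow, hζ.pow_eq_one, map_one]
    have h3 := act_root hN (algebraMap CA CB ζ) hx w
    have h4 := act_root (dvd_refl (d * p ^ (m + 1))) ζ hζ.pow_eq_one (ZMod.unitsMap hN w)
    have h5 : ZMod.unitsMap (dvd_refl (d * p ^ (m + 1))) (ZMod.unitsMap hN w) =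
        ZMod.unitsMap hN w := by
      rw [← MonoidHom.comp_apply, ZMod.unitsMap_comp]
    rw [h5] at h4
    change s (algebraMap CA CB ζ) = algebraMap CA CB (s' ζ)
    refine h3.trans ?_
    rw [← map_pow]
    exact congrArg (algebraMap CA CB) h4.symm
  exact congrArg (fun f : CA →ₐ[ℚ] CB => f y) key

end H11R
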