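import Pool.Agent.H11.T3R.DfB
import Pool.Agent.H11.T3R.Bf
import Pool.Agent.H11.T3R.Bc
import Pool.Agent.H11.T3R.Ac

/-!
ROW Dpb (`Gal(B/ℚ)` as a quotient of `(ZMod f)ˣ × ℤˣ`, `f = p^(n+1)`; about 110 lines).

PROOF. `N = d f`, `s_w` the automorphism of `C` of `w ∈ (ZMod N)ˣ` (`(galEquivZMod N C).symm w`). `B/ℚ` is Galois (`gal_of_sub`, as in Bc/Bl), so `s_w` restricts: `R : (ZMod N)ˣ →* (B ≃ₐ[ℚ] B)`,
`R w = (s_w).restrictNormal B` = `AlgEquiv.restrictNormalHom B` composed with `(galEquivZMod N C).symm`; `algebraMap B C (R w x) = s_w (algebraMap B C x)` (`AlgEquiv.restrictNormal_commutes`). `R` is surjective (`AlgEquiv.restrictNormalHom_surjective`,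
`C/ℚ` normal) and `R w = 1 ↔ w ∈ HM N B C ↔ (w mod f = ± 1) ∧ ψ(w mod d) = 1` (`r.hH`).
`q : (ZMod N)ˣ →* (ZMod f)ˣ × ℤˣ`, `q w = (w mod f, ψ (w mod d))` (`MonoidHom.prod`) is surjective (`crt_exists`; `ψ` takes the value `-1`: `Bf_neg`; every element of `ℤˣ` is `± 1`) and its kernel is contained in the kernel of `R`.
`π := (MonoidHom.liftOfSurjective q hq) ⟨R, _⟩` (or `QuotientGroup`/`Function.surjInv` by hand), `π (q w) = R w` (`MonoidHom.liftOfRightInverse_comp_apply`), so `act` holds. `surj`: `R` surjective. `ker`: `a = q w`, `π a = R w = 1 ↔ ..`.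
-/

set_option autoImplicit false
set_option linter.unusedSectionVars false

open NumberField

namespace H11R

open H5SW

variable {p n d : ℕ} [Fact p.Prime] [NeZero d] {ψ : (ZMod d)ˣ →* ℤˣ} {F B C : Type} [Field F] [NumberField F] [Field B]
    [NumberField B] [Field C] [NumberField C] [Algebra F B] [Algebra B C] [IsCyclotomicExtension {d * p ^ (n + 1)} ℚ C]

theorem exists_pi (hpd : p.Coprime d) (Q : QH d ψ) (r : RB d (p ^ (n + 1)) ψ F B C) :
    ∃ π : (ZMod (p ^ (n + 1)))ˣ × ℤˣ →* (B ≃ₐ[ℚ] B), Function.Surjective π ∧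
      (∀ a, π a = 1 ↔ a.2 = 1 ∧ (a.1 = 1 ∨ a.1 = -1)) ∧
      ∀ (w : (ZMod (d * p ^ (n + 1)))ˣ) (x : B),
        algebraMap B C (π (ZMod.unitsMap (dvd_mul_left (p ^ (n + 1)) d) w, ψ (ZMod.unitsMap (dvd_mul_right d (p ^ (n + 1))) w)) x) =
          (IsCyclotomicExtension.Rat.galEquivZMod (d * p ^ (n + 1)) C).symm w (algebraMap B C x) := by
  have hG : IsGalois ℚ C := IsCyclotomicExtension.isGalois {d * p ^ (n + 1)} ℚ C
  have hab : IsAbelianGalois ℚ B := gal_of_sub (d * p ^ (n + 1)) B C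
  have hdf : d.Coprime (p ^ (n + 1)) := hpd.symm.pow_right _
  have hinj : Function.Injective (algebraMap B C) := (algebraMap B C).injective
  let R : (ZMod (d * p ^ (n + 1)))ˣ →* (B ≃ₐ[ℚ] B) := (AlgEquiv.restrictNormalHom B).comp
    (IsCyclotomicExtension.Rat.galEquivZMod (d * p ^ (n + 1)) C).symm.toMonoidHom
  have hR : ∀ (w : (ZMod (d * p ^ (n + 1)))ˣ) (x : B), algebraMap B C (R w x) =
      (IsCyclotomicExtension.Rat.galEquivZMod (d * p ^ (n + 1)) C).symm w (algebraMap B C x) := by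
    intro w x
    exact AlgEquiv.restrictNormal_commutes
      ((IsCyclotomicExtension.Rat.galEquivZMod (d * p ^ (n + 1)) C).symm w) B x
  have hRs : Function.Surjective R := by
    intro g
    obtain ⟨σ, hσ⟩ := AlgEquiv.restrictNormalHom_surjective (F := ℚ) (K₁ := B) C g
    refine ⟨IsCyclotomicExtension.Rat.galEquivZMod (d * p ^ (n + 1)) C σ, ?_⟩
    show AlgEquiv.restrictNormalHom B ((IsCyclotomicExtension.Rat.galEquivZMod (d * p ^ (n + 1)) C).symm
      (IsCyclotomicExtension.Rat.galEquivZMod (d * p ^ (n + 1)) C σ)) = g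
    rw [MulEquiv.symm_apply_apply]
    exact hσ
  have hR1 : ∀ w, R w = 1 ↔ w ∈ HM (d * p ^ (n + 1)) B C := by
    intro w
    rw [mem_HM]
    constructor
    · intro h x
      rw [← hR w x, h]
      rfl
    · intro h
      ext x
      apply hinj
      rw [hR w x, h x]
      rfl
  let q : (ZMod (d * p ^ (n + 1)))ˣ →* (ZMod (p ^ (n + 1)))ˣ × ℤˣ :=
    (ZMod.unitsMap (dvd_mul_left (p ^ (n + 1)) d)).prod (ψ.comp (ZMod.unitsMap (dvd_mul_right d (p ^ (n + 1)))))
  have hq : ∀ w, q w = (ZMod.unitsMap (dvd_mul_left (p ^ (n + 1)) d) w,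
      ψ (ZMod.unitsMap (dvd_mul_right d (p ^ (n + 1))) w)) := fun w => rfl
  have hqs : Function.Surjective q := by
    rintro ⟨u, e⟩
    obtain ⟨t, ht⟩ : ∃ t, ψ t = e := by
      rcases Int.units_eq_one_or e with rfl | rfl
      · exact ⟨1, map_one ψ⟩
      · exact Bf_neg Q
    obtain ⟨w, hw1, hw2⟩ := crt_exists hdf t u
    exact ⟨w, by rw [hq, hw1, hw2, ht]⟩
  have hker : q.ker ≤ R.ker := by
    intro w hw
    rw [MonoidHom.mem_ker, hq, Prod.mk_eq_one] at hw
    rw [MonoidHom.mem_ker, hR1, r.hH]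
    exact ⟨Or.inl hw.1, hw.2⟩
  let π := q.liftOfRightInverse (Function.surjInv hqs) (Function.rightInverse_surjInv hqs) ⟨R, hker⟩
  have hπ : ∀ w, π (q w) = R w := fun w => MonoidHom.liftOfRightInverse_comp_apply q _ _ ⟨R, hker⟩ w
  refine ⟨π, ?_, ?_, ?_⟩
  · intro g
    obtain ⟨w, hw⟩ := hRs g
    exact ⟨q w, (hπ w).trans hw⟩
  · intro a
    obtain ⟨w, rfl⟩ := hqs a
    rw [hπ w, hR1, r.hH, hq]
    exact and_comm
  · intro w x
    rw [← hq w, hπ w]
    exact hR w x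

end H11R
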