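import Pool.Agent.H11.T3R.DfE

/-!
ROW Dqa (products over the Galois groups of `B` and `F`; about 90 lines).

PROOF. `prod_pi`: `π : X = (ZMod f)ˣ × ℤˣ → Gal(B/ℚ)` is surjective and every fibre has exactly two elements `(u, ε)`, `(-u, ε)` (`P.ker` applied to `a⁻¹ b`; `u ≠ -u` as `f = p^(n+1) > 2` is odd: `2 = 0` in `ZMod f` is impossible, `T.rp.rL.two_lt`),
so `∏_{a ∈ X} G (π a) = ∏_g (G g)^2` (`Finset.prod_fiberwise`/`Finset.prod_comp`: `∏_{a ∈ univ} G (π a) = ∏_{g ∈ image} G g ^ #fibre`), and `∏_{a ∈ X} = ∏_u ∏_ε`, `ℤˣ = {1, -1}` (`Fintype.prod_prod_type`, `Int.univ_unit`/`Finset.prod_pair`).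
`prod_F`: the same for `σ : (ZMod f)ˣ → Gal(F/ℚ)` (`r.surj`, `r.ker`: fibres `{u, -u}`).
-/

set_option autoImplicit false
set_option linter.unusedSectionVars false

open NumberField

namespace H11R

open H5SW

private theorem Dqa_fib {X Γ R : Type} [Group X] [Fintype X] [Group Γ] [Fintype Γ] [CommMonoid R] (π : X →* Γ)
    (hs : Function.Surjective π) (z : X) (hz : z ≠ 1) (hk : ∀ a, π a = 1 ↔ a = 1 ∨ a = z) (G : Γ → R) :
    (∏ g, G g) ^ 2 = ∏ a : X, G (π a) := by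
  classical
  rw [← Finset.prod_fiberwise Finset.univ (fun a : X => π a) (fun a : X => G (π a)), ← Finset.prod_pow]
  refine Finset.prod_congr rfl fun g _ => ?_
  obtain ⟨a, rfl⟩ := hs g
  have hz1 : π z = 1 := (hk z).2 (Or.inr rfl)
  have hfib : (Finset.univ.filter (fun b : X => π b = π a)) = {a, a * z} := by
    ext b
    simp only [Finset.mem_filter, Finset.mem_univ, true_and, Finset.mem_insert, Finset.mem_singleton]
    constructor
    · intro h
      have h1 : π (a⁻¹ * b) = 1 := by rw [map_mul, map_inv, h, inv_mul_cancel]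
      rcases (hk _).1 h1 with h2 | h2
      · left
        exact (inv_mul_eq_one.1 h2).symm
      · right
        exact inv_mul_eq_iff_eq_mul.1 h2
    · rintro (h | h)
      · rw [h]
      · rw [h, map_mul, hz1, mul_one]
  have hne : a ≠ a * z := fun h => hz (left_eq_mul.1 h)
  rw [hfib, Finset.prod_pair hne, map_mul, hz1, mul_one, pow_two]

private theorem Dqa_neg {f : ℕ} (hf : 2 < f) : (-1 : (ZMod f)ˣ) ≠ 1 := by
  intro h
  haveI : Fact (2 < f) := ⟨hf⟩
  have h3 := congrArg (fun u : (ZMod f)ˣ => (u : ZMod f)) h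
  simp only [Units.val_one, Units.val_neg] at h3
  exact ZMod.neg_one_ne_one h3

theorem prod_F {f : ℕ} [NeZero f] {F : Type} [Field F] [NumberField F] (r : RC f F) {R : Type} [CommMonoid R] (G : (F ≃ₐ[ℚ] F) → R) :
    (∏ x, G x) ^ 2 = ∏ u : (ZMod f)ˣ, G (r.σ u) := by
  exact Dqa_fib r.σ r.surj (-1) (Dqa_neg r.two_lt) r.ker G

variable {p m n d : ℕ} [Fact p.Prime] [NeZero d] {ψ : (ZMod d)ˣ →* ℤˣ} {M F A B CA CB : Type} [Field M]
    [NumberField M] [Field F] [NumberField F] [Field A] [NumberField A] [Field B] [NumberField B] [Field CA] [NumberField CA]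
    [Field CB] [NumberField CB] [Algebra M F] [Algebra M A] [Algebra F B] [Algebra A B] [Algebra A CA] [Algebra B CB]
    [Algebra CA CB] [IsCyclotomicExtension {d * p ^ (m + 1)} ℚ CA] [IsCyclotomicExtension {d * p ^ (n + 1)} ℚ CB]

theorem prod_pi {T : RP2 p m n d ψ M F A B CA CB} (P : PiT T) {R : Type} [CommMonoid R] (G : (B ≃ₐ[ℚ] B) → R) :
    (∏ g, G g) ^ 2 = ∏ u : (ZMod (p ^ (n + 1)))ˣ, (G (P.π (u, 1)) * G (P.π (u, -1))) := by
  have h2 : 2 < p ^ (n + 1) := T.rp.rL.two_lt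
  have hz : ((-1, 1) : (ZMod (p ^ (n + 1)))ˣ × ℤˣ) ≠ 1 := by
    intro h
    exact Dqa_neg h2 (congrArg Prod.fst h)
  have hk : ∀ a : (ZMod (p ^ (n + 1)))ˣ × ℤˣ, P.π a = 1 ↔ a = 1 ∨ a = (-1, 1) := by
    intro a
    rw [P.ker, Prod.ext_iff, Prod.ext_iff]
    simp only [Prod.fst_one, Prod.snd_one]
    tauto
  rw [Dqa_fib P.π P.surj (-1, 1) hz hk G, Fintype.prod_prod_type]
  refine Finset.prod_congr rfl fun u _ => ?_
  have h1 : (Finset.univ : Finset ℤˣ) = {1, -1} := by decide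
  rw [h1, Finset.prod_pair (by decide)]

end H11R
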