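import Pool.Agent.H11.T3R.DfE

/-!
ROW Dqb (conjugates of `τ`; digits; about 110 lines).

PROOF. `pi_tau`: choose `w` with `w mod f = u`, `ψ(w mod d) = ε` (`crt_exists`, `Bf_neg`), `P.act w`, `tsOf_tB`, `act_tau`.
`Th_dig`: `even`: `π (-u, 1) = π (u, 1) π (-1, 1) = π (u, 1)` (`P.ker`). `ker`: `Rel A B θ` at `g = π (u, 1)`: `∑_{h : B ≃ₐ[A] B} θ (g * h.restrictScalars ℚ) = 0`. The map `KN → (B ≃ₐ[A] B)`, `v ↦` the automorphism over `A` given by `π (v, 1)`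
(`P.fixA`, `⇐`; `AlgEquiv.ofRingEquiv`/`{ π (v,1) with commutes' := _ }`) is bijective: surjective by `P.fixA` (`⇒`, for `h.restrictScalars ℚ`), injective by `P.ker`: `π (v, 1) = π (v', 1)` gives `v = ± v'`, and `v = - v'` is impossible modulo
`p^(m+1)` (`1 ≠ -1` there, `T.rp.rK.two_lt`). So the sum is `∑_{v ∈ KN} θ (π (u, 1) π (v, 1)) = ∑ Th θ (u v)` (`Fintype.sum_bijective`/`Fintype.sum_equiv`).
`Dig.sum`: the sum over all `u` of the kernel sums is `|KN|` times the total sum (`Finset.sum_comm`, `Equiv.sum_comp (Equiv.mulRight _)`; as `rel_sumT` in DfC.lean).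
-/

set_option autoImplicit false
set_option linter.unusedSectionVars false

open NumberField

namespace H11R

open H5SW

theorem Dig.sum {p : ℕ} [Fact p.Prime] {m n : ℕ} {hmn : m ≤ n} {Θ : (ZMod (p ^ (n + 1)))ˣ → ℤ} (h : Dig p hmn Θ) : ∑ u, Θ u = 0 := by
  classical
  have h1 : ∑ u : (ZMod (p ^ (n + 1)))ˣ, ∑ v : KN p hmn, Θ (u * v) = 0 :=
    Finset.sum_eq_zero fun u _ => h.ker u
  rw [Finset.sum_comm] at h1
  have h2 : ∀ v : KN p hmn, ∑ u : (ZMod (p ^ (n + 1)))ˣ, Θ (u * v) = ∑ u, Θ u := fun v =>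
    Equiv.sum_comp (Equiv.mulRight (v : (ZMod (p ^ (n + 1)))ˣ)) Θ
  rw [Finset.sum_congr rfl fun v _ => h2 v, Finset.sum_const, nsmul_eq_mul, mul_eq_zero] at h1
  rcases h1 with h3 | h3
  · exfalso
    rw [Nat.cast_eq_zero, Finset.card_eq_zero] at h3
    exact (Finset.notMem_empty (1 : KN p hmn)) (h3 ▸ Finset.mem_univ _)
  · exact h3

variable {p m n d : ℕ} [Fact p.Prime] [NeZero d] {ψ : (ZMod d)ˣ →* ℤˣ} {M F A B CA CB : Type} [Field M]
    [NumberField M] [Field F] [NumberField F] [Field A] [NumberField A] [Field B] [NumberField B] [Field CA] [NumberField CA]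
    [Field CB] [NumberField CB] [Algebra M F] [Algebra M A] [Algebra F B] [Algebra A B] [Algebra A CA] [Algebra B CB]
    [Algebra CA CB] [IsCyclotomicExtension {d * p ^ (m + 1)} ℚ CA] [IsCyclotomicExtension {d * p ^ (n + 1)} ℚ CB]

theorem pi_tau (hp5 : 5 ≤ p) (hpd : p.Coprime d) (Q : QH d ψ) {T : RP2 p m n d ψ M F A B CA CB} (P : PiT T)
    (u : (ZMod (p ^ (n + 1)))ˣ) (ε : ℤˣ) :
    algebraMap B CB (P.π (u, ε) ((tsOf hp5 hpd Q T).tB : B)) = dC T.rB.z u ^ (p ^ n) *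
      (eC T.rB.ξ T.rB.z ψ u ^ (p ^ n) * kC T.rB.ξ ψ ^ (3 * ((ψ (ZMod.unitOfCoprime p hpd) ^ n : ℤˣ) : ℤ))) ^ ((ε : ℤˣ) : ℤ) := by
  classical
  have hdf : d.Coprime (p ^ (n + 1)) := hpd.symm.pow_right _
  obtain ⟨t, ht⟩ : ∃ t : (ZMod d)ˣ, ψ t = ε := by
    rcases Int.units_eq_one_or ε with rfl | rfl
    · exact ⟨1, map_one ψ⟩
    · exact Bf_neg Q
  obtain ⟨w, hw1, hw2⟩ := crt_exists hdf t u
  have h1 := P.act w ((tsOf hp5 hpd Q T).tB : B)
  rw [hw1, hw2, ht, tsOf_tB, act_tau hpd T.rB.hξ T.rB.hz, hw1, hw2, ht] at h1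
  exact h1

theorem Th_dig {T : RP2 p m n d ψ M F A B CA CB} (P : PiT T) {θ : (B ≃ₐ[ℚ] B) → ℤ} (hθ : Rel A B θ) : Dig p T.rp.hmn (P.Th θ) := by
  classical
  refine ⟨fun u => ?_, fun u => ?_⟩
  · have h1 : ((-u, 1) : (ZMod (p ^ (n + 1)))ˣ × ℤˣ) = (u, 1) * (-1, 1) := by
      rw [Prod.mk_mul_mk, mul_one, mul_neg, mul_one]
    have h2 : P.π ((-1, 1) : (ZMod (p ^ (n + 1)))ˣ × ℤˣ) = 1 := (P.ker _).2 ⟨rfl, Or.inr rfl⟩
    show θ (P.π (-u, 1)) = θ (P.π (u, 1))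
    rw [h1, map_mul, h2, mul_one]
  · have h1 := hθ (P.π (u, 1))
    have hfix : ∀ v : KN p T.rp.hmn, ∀ x : A,
        P.π ((v : (ZMod (p ^ (n + 1)))ˣ), 1) (algebraMap A B x) = algebraMap A B x :=
      fun v => (P.fixA _).2 ⟨v, (mem_KN _ _).1 v.2, rfl⟩
    let f : KN p T.rp.hmn → (B ≃ₐ[A] B) := fun v =>
      AlgEquiv.ofRingEquiv (f := (P.π ((v : (ZMod (p ^ (n + 1)))ˣ), 1) : B ≃ₐ[ℚ] B).toRingEquiv) (hfix v)
    have hf : ∀ v, (f v).restrictScalars ℚ = P.π ((v : (ZMod (p ^ (n + 1)))ˣ), 1) :=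
      fun v => AlgEquiv.ext fun x => rfl
    have hbij : Function.Bijective f := by
      constructor
      · intro v v' hvv
        have h2 : P.π ((v : (ZMod (p ^ (n + 1)))ˣ), 1) = P.π ((v' : (ZMod (p ^ (n + 1)))ˣ), 1) := by
          rw [← hf, ← hf, hvv]
        have h3 : P.π ((((v : (ZMod (p ^ (n + 1)))ˣ)⁻¹ * (v' : (ZMod (p ^ (n + 1)))ˣ)), 1) :
            (ZMod (p ^ (n + 1)))ˣ × ℤˣ) = 1 := by
          have h4 : ((((v : (ZMod (p ^ (n + 1)))ˣ)⁻¹ * (v' : (ZMod (p ^ (n + 1)))ˣ)), 1) :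
            (ZMod (p ^ (n + 1)))ˣ × ℤˣ) = ((v : (ZMod (p ^ (n + 1)))ˣ), 1)⁻¹ * ((v' : (ZMod (p ^ (n + 1)))ˣ), 1) := by
            rw [Prod.inv_mk, Prod.mk_mul_mk, inv_one, mul_one]
          rw [h4, map_mul, map_inv, h2, inv_mul_cancel]
        rcases ((P.ker _).1 h3).2 with h5 | h5
        · apply Subtype.ext
          exact inv_mul_eq_one.1 h5
        · exfalso
          have h6 : ZMod.unitsMap (pow_dvd_pow p (Nat.succ_le_succ T.rp.hmn))
              ((v : (ZMod (p ^ (n + 1)))ˣ)⁻¹ * (v' : (ZMod (p ^ (n + 1)))ˣ)) = 1 := by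
            rw [map_mul, map_inv, (mem_KN _ _).1 v.2, (mem_KN _ _).1 v'.2, inv_one, mul_one]
          simp only at h5
          rw [h5] at h6
          have h7 := congrArg (fun w : (ZMod (p ^ (m + 1)))ˣ => (w : ZMod (p ^ (m + 1)))) h6
          have h8 : ((ZMod.unitsMap (pow_dvd_pow p (Nat.succ_le_succ T.rp.hmn)) (-1) :
              (ZMod (p ^ (m + 1)))ˣ) : ZMod (p ^ (m + 1))) = -1 := by
            change ZMod.castHom (pow_dvd_pow p (Nat.succ_le_succ T.rp.hmn)) (ZMod (p ^ (m + 1))) (-1) = -1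
            rw [map_neg, map_one]
          have h9 : (-1 : ZMod (p ^ (m + 1))) = 1 := h8.symm.trans (h7.trans Units.val_one)
          have : Fact (2 < p ^ (m + 1)) := ⟨T.rp.rK.two_lt⟩
          exact ZMod.neg_one_ne_one h9
      · intro g
        obtain ⟨v, hv1, hv2⟩ := (P.fixA (g.restrictScalars ℚ)).1 (fun x => g.commutes x)
        refine ⟨⟨v, (mem_KN _ _).2 hv1⟩, ?_⟩
        apply AlgEquiv.ext
        intro x
        have h3 : (f ⟨v, (mem_KN _ _).2 hv1⟩).restrictScalars ℚ x = (g.restrictScalars ℚ) x := by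
          rw [hf, hv2]
        exact h3
    rw [← h1]
    refine Fintype.sum_bijective f hbij _ _ fun v => ?_
    show θ (P.π (u * v, 1)) = θ (P.π (u, 1) * (f v).restrictScalars ℚ)
    rw [hf, ← map_mul, Prod.mk_mul_mk, mul_one]

end H11R
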