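import Pool.Agent.H11.T3R.Dqa
import Pool.Agent.H11.T3R.Dqb

/-!
ROW Dqc (the square of `tw θ`; about 130 lines).

PROOF. `f = p^(n+1)`, `S = tsOf ..`, `c = 3 ψ(p)^n`. `S.tw_coe (rel_sumT hθ)`: `tw θ = ∏_g (g tB)^(θ g)`; square, `prod_pi` with `G g = (algebraMap B CB (g tB))^(θ g)` (`CB` is commutative), `pi_tau`:
`algebraMap ((tw θ)^2) = ∏_u (d^(p^n) e^(p^n) k^c)^(θ(π(u,1))) (d^(p^n) (e^(p^n) k^c)⁻¹)^(θ(π(u,-1)))`, `d = dC u`, `e = eC u`, `k = kC`, and `π(u,-1) = π(u,1) σ`, so `θ(π(u,-1)) = ∓ Th θ u`.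
`tw_minus` (antiinvariant): the factor is `(e^(p^n) k^c)^(2 Th u)` (`d` cancels, `d ≠ 0`: `int_dC`), and `∏_u k^(2 c Th u) = k^(2 c ∑ Th) = 1` (`Dig.sum`), so the product is `(∏ e^(Th u))^(2 p^n) = vC ^ (2 p^n)`.
`tw_plus` (invariant): the factor is `d^(2 p^n Th u)`, `d = dC z u = (2 - (z^u + z^(-u))) = ` the image of `2 - c u` (`T.rB.hc` with `a = u.val`, `T.eB`) `= ` the image of `T.rp.rL.d (σ u)` (`RC.d_eq`: `d (g) = 2 - c (r.u g)`, with `σ (r.u g) = g`; `c (r.u (σ u)) = c u`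
because `r.u (σ u) = ± u` by `ker`, and `c (-u) = c u`: or apply `σ`: `d g = g (2 - c 1)`, i.e. `σ u (c 1) = c u` by `hσ`). `ThF x = θ(π(r.u x, 1))`, `ThF (σ u) = Th u` (`r.u (σ u) = ± u`, `Dig.even`). So
`∏_u d(u)^(2 p^n Th u) = ∏_u j(r.d (σ u))^(2 p^n ThF (σ u)) = (∏_x j(r.d x)^(ThF x))^(4 p^n)` (`prod_F`), `j : F → CB`, which is `j (dw ThF)^(4 p^n)` by `dw_coe` (needs `∑ ThF = 0`: `prod_F` for sums: `2 ∑ ThF = ∑_u Th u = 0`; apply `prod_F` with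
`R = Multiplicative ℤ`). `j = algebraMap B CB ∘ algebraMap F B` is injective.
-/

set_option autoImplicit false
set_option linter.unusedSectionVars false

open NumberField

namespace H11R

open H5SW

theorem Dqc_sum {ι : Type} [Fintype ι] {C : Type} [Field C] {k : C} (hk : k ≠ 0) (g : ι → ℤ) :
    ∏ i, k ^ g i = k ^ (∑ i, g i) := by
  classical
  have h : ∀ s : Finset ι, ∏ i ∈ s, k ^ g i = k ^ (∑ i ∈ s, g i) := by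
    intro s
    induction s using Finset.induction_on with
    | empty => simp
    | insert a s ha ih => rw [Finset.prod_insert ha, Finset.sum_insert ha, ih, zpow_add₀ hk]
  exact h _

theorem Dqc_u {f : ℕ} {L : Type} [Field L] [NumberField L] (r : RC f L) (u : (ZMod f)ˣ) :
    r.u (r.σ u) = u ∨ r.u (r.σ u) = -u := by
  have h1 : r.σ (r.u (r.σ u) * u⁻¹) = 1 := by
    rw [map_mul, r.σ_u, ← map_mul, mul_inv_cancel, map_one]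
  rcases (r.ker _).1 h1 with h | h
  · left
    exact mul_inv_eq_one.1 h
  · right
    rw [mul_inv_eq_iff_eq_mul] at h
    rw [h, neg_one_mul]

theorem Dqc_cneg {f : ℕ} {L : Type} [Field L] [NumberField L] (r : RC f L) (u : (ZMod f)ˣ) :
    (r.c ((-u : (ZMod f)ˣ) : ZMod f) : L) = (r.c (u : ZMod f) : L) := by
  have h1 : r.σ (-1) = 1 := (r.ker _).2 (Or.inr rfl)
  have h2 := r.hσ (-1) (u : ZMod f)
  rw [h1, AlgEquiv.one_apply] at h2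
  rw [h2]
  congr 2
  rw [Units.val_neg, Units.val_neg, Units.val_one, neg_one_mul]

theorem Dqc_d {f : ℕ} {L : Type} [Field L] [NumberField L] (r : RC f L) (u : (ZMod f)ˣ) :
    r.d (r.σ u) = 2 - (r.c (u : ZMod f) : L) := by
  rw [r.d_eq]
  rcases Dqc_u r u with h | h
  · rw [h]
  · rw [h, Dqc_cneg]

variable {p m n d : ℕ} [Fact p.Prime] [NeZero d] {ψ : (ZMod d)ˣ →* ℤˣ} {M F A B CA CB : Type} [Field M]
    [NumberField M] [Field F] [NumberField F] [Field A] [NumberField A] [Field B] [NumberField B] [Field CA] [NumberField CA]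
    [Field CB] [NumberField CB] [Algebra M F] [Algebra M A] [Algebra F B] [Algebra A B] [Algebra A CA] [Algebra B CB]
    [Algebra CA CB] [IsCyclotomicExtension {d * p ^ (m + 1)} ℚ CA] [IsCyclotomicExtension {d * p ^ (n + 1)} ℚ CB]

/-- the exponents on `F` -/
noncomputable def PiT.ThF {T : RP2 p m n d ψ M F A B CA CB} (P : PiT T) (θ : (B ≃ₐ[ℚ] B) → ℤ) (x : F ≃ₐ[ℚ] F) : ℤ :=
  P.Th θ (T.rp.rL.u x)

theorem Dqc_pi {T : RP2 p m n d ψ M F A B CA CB} (P : PiT T) (u : (ZMod (p ^ (n + 1)))ˣ) :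
    P.π (u, -1) = P.π (u, 1) * P.σ := by
  rw [PiT.σ, ← map_mul, Prod.mk_mul_mk, mul_one, one_mul]

theorem Dqc_sq (hp5 : 5 ≤ p) (hpd : p.Coprime d) (Q : QH d ψ) {T : RP2 p m n d ψ M F A B CA CB} (P : PiT T)
    {θ : (B ≃ₐ[ℚ] B) → ℤ} (hθ : Rel A B θ) :
    algebraMap B CB ((((tsOf hp5 hpd Q T).tw θ : (𝓞 B)ˣ) : 𝓞 B) : B) ^ 2 = ∏ u : (ZMod (p ^ (n + 1)))ˣ,
      ((dC T.rB.z u ^ (p ^ n) * (eC T.rB.ξ T.rB.z ψ u ^ (p ^ n) *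
        kC T.rB.ξ ψ ^ (3 * ((ψ (ZMod.unitOfCoprime p hpd) ^ n : ℤˣ) : ℤ)))) ^ (P.Th θ u) *
      (dC T.rB.z u ^ (p ^ n) * (eC T.rB.ξ T.rB.z ψ u ^ (p ^ n) *
        kC T.rB.ξ ψ ^ (3 * ((ψ (ZMod.unitOfCoprime p hpd) ^ n : ℤˣ) : ℤ)))⁻¹) ^ (θ (P.π (u, 1) * P.σ))) := by
  rw [(tsOf hp5 hpd Q T).tw_coe (rel_sumT hθ), map_prod, prod_pi P]
  refine Finset.prod_congr rfl fun u _ => ?_
  rw [map_zpow₀, map_zpow₀, pi_tau, pi_tau, Dqc_pi]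
  have e1 : (((1 : ℤˣ)) : ℤ) = 1 := rfl
  have e2 : (((-1 : ℤˣ)) : ℤ) = -1 := rfl
  rw [e1, e2, zpow_one, zpow_neg_one]
  rfl

theorem Dqc_ne (hpd : p.Coprime d) (Q : QH d ψ) (T : RP2 p m n d ψ M F A B CA CB) (u : (ZMod (p ^ (n + 1)))ˣ) :
    dC T.rB.z u ≠ 0 ∧ eC T.rB.ξ T.rB.z ψ u ≠ 0 ∧ kC T.rB.ξ ψ ≠ 0 := by
  have hf : 1 < p ^ (n + 1) := Nat.one_lt_pow (Nat.succ_ne_zero n) (Fact.out : p.Prime).one_lt
  refine ⟨(int_dC hf T.rB.hz u).1, ?_, ?_⟩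
  · exact Bb_ne (unit_eC hpd Q.d1 T.rB.hξ T.rB.hz ψ u)
  · exact Bb_ne (unit_kC Q T.rB.hξ)

theorem tw_minus (hp5 : 5 ≤ p) (hpd : p.Coprime d) (Q : QH d ψ) {T : RP2 p m n d ψ M F A B CA CB} (P : PiT T)
    {θ : (B ≃ₐ[ℚ] B) → ℤ} (hθ : Rel A B θ) (hσ : ∀ g, θ (g * P.σ) = - θ g) :
    algebraMap B CB ((((tsOf hp5 hpd Q T).tw θ : (𝓞 B)ˣ) : 𝓞 B) : B) ^ 2 = vC T.rB.ξ T.rB.z ψ (P.Th θ) ^ (2 * p ^ n) := by
  have hs := (Th_dig P hθ).sum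
  rw [Dqc_sq hp5 hpd Q P hθ]
  set c : ℤ := 3 * ((ψ (ZMod.unitOfCoprime p hpd) ^ n : ℤˣ) : ℤ) with hc
  have e1 : ∀ u : (ZMod (p ^ (n + 1)))ˣ,
      ((dC T.rB.z u ^ (p ^ n) * (eC T.rB.ξ T.rB.z ψ u ^ (p ^ n) * kC T.rB.ξ ψ ^ c)) ^ (P.Th θ u) *
      (dC T.rB.z u ^ (p ^ n) * (eC T.rB.ξ T.rB.z ψ u ^ (p ^ n) * kC T.rB.ξ ψ ^ c)⁻¹) ^ (θ (P.π (u, 1) * P.σ))) =
      (eC T.rB.ξ T.rB.z ψ u ^ P.Th θ u) ^ (2 * p ^ n) * kC T.rB.ξ ψ ^ (2 * c * P.Th θ u) := by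
    intro u
    obtain ⟨h1, h2, h3⟩ := Dqc_ne hpd Q T u
    have e : θ (P.π (u, 1) * P.σ) = - P.Th θ u := hσ _
    rw [e]
    generalize P.Th θ u = t
    generalize dC T.rB.z u = D at h1 ⊢
    generalize eC T.rB.ξ T.rB.z ψ u = E at h2 ⊢
    generalize kC T.rB.ξ ψ = K at h3 ⊢
    have hD : D ^ (p ^ n) ≠ 0 := pow_ne_zero _ h1
    have hE : E ^ (p ^ n) ≠ 0 := pow_ne_zero _ h2
    have hK : K ^ c ≠ 0 := zpow_ne_zero _ h3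
    rw [zpow_neg, ← inv_zpow, ← mul_zpow]
    have e3 : D ^ (p ^ n) * (E ^ (p ^ n) * K ^ c) * (D ^ (p ^ n) * (E ^ (p ^ n) * K ^ c)⁻¹)⁻¹ =
        (E ^ (2 * p ^ n)) * K ^ (2 * c) := by
      rw [mul_inv, inv_inv, two_mul (p ^ n), pow_add, two_mul c, zpow_add₀ h3]
      field_simp
    rw [e3, mul_zpow, ← zpow_mul K, ← zpow_natCast E, ← zpow_natCast (E ^ t), ← zpow_mul, ← zpow_mul, mul_comm t]
  rw [Finset.prod_congr rfl fun u _ => e1 u, Finset.prod_mul_distrib, Finset.prod_pow,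
    Dqc_sum (Dqc_ne hpd Q T 1).2.2, ← Finset.mul_sum, hs, mul_zero, zpow_zero, mul_one]
  rfl

theorem ThF_σ {T : RP2 p m n d ψ M F A B CA CB} (P : PiT T) {θ : (B ≃ₐ[ℚ] B) → ℤ} (hθ : Rel A B θ) (u : (ZMod (p ^ (n + 1)))ˣ) :
    P.ThF θ (T.rp.rL.σ u) = P.Th θ u := by
  unfold PiT.ThF
  rcases Dqc_u T.rp.rL u with h | h
  · rw [h]
  · rw [h, (Th_dig P hθ).even]

theorem Dqc_dj (T : RP2 p m n d ψ M F A B CA CB) (u : (ZMod (p ^ (n + 1)))ˣ) :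
    algebraMap B CB (algebraMap F B (T.rp.rL.d (T.rp.rL.σ u))) = dC T.rB.z u := by
  have h := T.rB.hc (u : ZMod (p ^ (n + 1))).val
  rw [ZMod.natCast_zmod_val, T.eB] at h
  have h2 : T.rB.z ^ (u : ZMod (p ^ (n + 1))).val ≠ 0 :=
    pow_ne_zero _ (T.rB.hz.ne_zero (NeZero.ne _))
  rw [Dqc_d, map_sub, map_sub, h, dC, map_ofNat, map_ofNat]
  field_simp
  ring

theorem Dqc_sumF {T : RP2 p m n d ψ M F A B CA CB} (P : PiT T) {θ : (B ≃ₐ[ℚ] B) → ℤ} (hθ : Rel A B θ) :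
    ∑ x, P.ThF θ x = 0 := by
  have hs := (Th_dig P hθ).sum
  have h := prod_F T.rp.rL (fun x => Multiplicative.ofAdd (P.ThF θ x))
  have h1 := congrArg Multiplicative.toAdd h
  rw [toAdd_pow, toAdd_prod, toAdd_prod] at h1
  simp only [toAdd_ofAdd] at h1
  rw [Finset.sum_congr rfl fun u _ => ThF_σ P hθ u, hs] at h1
  rw [nsmul_eq_mul] at h1
  push_cast at h1
  omega

theorem tw_plus (hp5 : 5 ≤ p) (hpd : p.Coprime d) (Q : QH d ψ) {T : RP2 p m n d ψ M F A B CA CB} (P : PiT T)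
    {θ : (B ≃ₐ[ℚ] B) → ℤ} (hθ : Rel A B θ) (hσ : ∀ g, θ (g * P.σ) = θ g) :
    ((((tsOf hp5 hpd Q T).tw θ : (𝓞 B)ˣ) : 𝓞 B) : B) ^ 2 = algebraMap F B ((H55T3.dw T.rp.rL (P.ThF θ) : 𝓞 F) : F) ^ (4 * p ^ n) := by
  apply (algebraMap B CB).injective
  rw [map_pow, Dqc_sq hp5 hpd Q P hθ, map_pow, H55T3.dw_coe _ (Dqc_sumF P hθ), map_prod, map_prod]
  set c : ℤ := 3 * ((ψ (ZMod.unitOfCoprime p hpd) ^ n : ℤˣ) : ℤ) with hc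
  have e1 : ∀ u : (ZMod (p ^ (n + 1)))ˣ,
      ((dC T.rB.z u ^ (p ^ n) * (eC T.rB.ξ T.rB.z ψ u ^ (p ^ n) * kC T.rB.ξ ψ ^ c)) ^ (P.Th θ u) *
      (dC T.rB.z u ^ (p ^ n) * (eC T.rB.ξ T.rB.z ψ u ^ (p ^ n) * kC T.rB.ξ ψ ^ c)⁻¹) ^ (θ (P.π (u, 1) * P.σ))) =
      (dC T.rB.z u ^ P.Th θ u) ^ (2 * p ^ n) := by
    intro u
    obtain ⟨h1, h2, h3⟩ := Dqc_ne hpd Q T u
    have e : θ (P.π (u, 1) * P.σ) = P.Th θ u := hσ _
    rw [e]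
    generalize P.Th θ u = t
    generalize dC T.rB.z u = D at h1 ⊢
    generalize eC T.rB.ξ T.rB.z ψ u = E at h2 ⊢
    generalize kC T.rB.ξ ψ = K at h3 ⊢
    have hD : D ^ (p ^ n) ≠ 0 := pow_ne_zero _ h1
    have hE : E ^ (p ^ n) ≠ 0 := pow_ne_zero _ h2
    have hK : K ^ c ≠ 0 := zpow_ne_zero _ h3
    rw [← mul_zpow]
    have e3 : D ^ (p ^ n) * (E ^ (p ^ n) * K ^ c) * (D ^ (p ^ n) * (E ^ (p ^ n) * K ^ c)⁻¹) =
        D ^ (2 * p ^ n) := by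
      rw [two_mul (p ^ n), pow_add]
      field_simp
    rw [e3, ← zpow_natCast D, ← zpow_natCast (D ^ t), ← zpow_mul, ← zpow_mul, mul_comm t]
  rw [Finset.prod_congr rfl fun u _ => e1 u, Finset.prod_pow]
  have e2 : ∏ u : (ZMod (p ^ (n + 1)))ˣ, dC T.rB.z u ^ P.Th θ u =
      (∏ x : F ≃ₐ[ℚ] F, algebraMap B CB (algebraMap F B (T.rp.rL.d x ^ P.ThF θ x))) ^ 2 := by
    rw [prod_F T.rp.rL]
    refine Finset.prod_congr rfl fun u _ => ?_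
    rw [ThF_σ P hθ, map_zpow₀, map_zpow₀, Dqc_dj]
  rw [e2, ← pow_mul]
  congr 1
  ring

end H11R
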