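import Pool.Agent.H11.T3R.Dqc

/-!
ROW Dqd (the relations on `F`, descent of cubes; about 110 lines).

PROOF. `rel_F`: `x = σ u` (`T.rp.rL.surj`). The `h : F ≃ₐ[M] F` correspond to the `v ∈ KN` (`RP.mem_iff` in Pool/Agent/H5/SW (grep): `g` is the restriction of scalars of some `h` iff `g = σ v` with `v ≡ 1` modulo `p^(m+1)`), and `v ↦ σ v` is injective on `KN`
(`ker`, `1 ≠ -1` modulo `p^(m+1)`), so `∑_h ThF (x h) = ∑_{v ∈ KN} ThF (σ (u v)) = ∑_{v ∈ KN} Th (u v) = 0` (`ThF_σ`, `(Th_dig P hθ).ker`).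
`desc_cube`: `w ∈ (𝓞 B)ˣ` with `w^3` in `F`. For `g : B ≃ₐ[F] B`: `(g w)^3 = w^3`, so `g w = w` (`unit_cube_inj` of DfC.lean for the real field `B`: both are units). `B/F` is Galois (`B/ℚ` is: `(gal_of_sub ..)`, `IsGalois.tower_top_of_isGalois ℚ F B`;
`IsScalarTower ℚ F B` is automatic), so `w` is in the image of `F` (`IsGalois.mem_range_algebraMap_iff_fixed`), `w = algebraMap w'`, `w'` integral with integral inverse, and `V = w'^3`.
-/

set_option autoImplicit false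
set_option linter.unusedSectionVars false

open NumberField

namespace H11R

open H5SW

variable {p m n d : ℕ} [Fact p.Prime] [NeZero d] {ψ : (ZMod d)ˣ →* ℤˣ} {M F A B CA CB : Type} [Field M]
    [NumberField M] [Field F] [NumberField F] [Field A] [NumberField A] [Field B] [NumberField B] [Field CA] [NumberField CA]
    [Field CB] [NumberField CB] [Algebra M F] [Algebra M A] [Algebra F B] [Algebra A B] [Algebra A CA] [Algebra B CB]
    [Algebra CA CB] [IsCyclotomicExtension {d * p ^ (m + 1)} ℚ CA] [IsCyclotomicExtension {d * p ^ (n + 1)} ℚ CB]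

theorem rel_F {T : RP2 p m n d ψ M F A B CA CB} (P : PiT T) {θ : (B ≃ₐ[ℚ] B) → ℤ} (hθ : Rel A B θ) : Rel M F (P.ThF θ) := by
  have hp : p.Prime := Fact.out
  have hp2 : p ≠ 2 := by
    rintro rfl
    have h1 := T.rp.rL.odd
    rw [pow_succ'] at h1
    exact (Nat.not_odd_iff_even.2 (even_two_mul _)) h1
  intro x
  obtain ⟨u, rfl⟩ := T.rp.rL.surj x
  have hex : ∀ v : KN p T.rp.hmn, ∃ h : F ≃ₐ[M] F,
      h.restrictScalars ℚ = T.rp.rL.σ (v : (ZMod (p ^ (n + 1)))ˣ) := fun v =>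
    (RP.mem_iff hp2 T.rp _).2 ⟨(v : (ZMod (p ^ (n + 1)))ˣ), (mem_KN T.rp.hmn (v : (ZMod (p ^ (n + 1)))ˣ)).1 v.2, rfl⟩
  choose e he using hex
  have hbij : Function.Bijective e := by
    constructor
    · intro v v' hvv
      have h1 : T.rp.rL.σ (v : (ZMod (p ^ (n + 1)))ˣ) = T.rp.rL.σ (v' : (ZMod (p ^ (n + 1)))ˣ) := by
        rw [← he v, ← he v', hvv]
      have h2 : T.rp.rL.σ ((v : (ZMod (p ^ (n + 1)))ˣ) * (v' : (ZMod (p ^ (n + 1)))ˣ)⁻¹) = 1 := by
        rw [map_mul, map_inv, h1, mul_inv_cancel]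
      rcases (T.rp.rL.ker _).1 h2 with h3 | h3
      · exact Subtype.ext (mul_inv_eq_one.1 h3)
      · exfalso
        have h4 : ZMod.unitsMap (pow_dvd_pow p (Nat.succ_le_succ T.rp.hmn))
            ((v : (ZMod (p ^ (n + 1)))ˣ) * (v' : (ZMod (p ^ (n + 1)))ˣ)⁻¹) = 1 := by
          rw [map_mul, map_inv, (mem_KN T.rp.hmn (v : (ZMod (p ^ (n + 1)))ˣ)).1 v.2,
            (mem_KN T.rp.hmn (v' : (ZMod (p ^ (n + 1)))ˣ)).1 v'.2, inv_one, mul_one]
        rw [h3] at h4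
        have h5 := congrArg (fun a : (ZMod (p ^ (m + 1)))ˣ => (a : ZMod (p ^ (m + 1)))) h4
        simp only [ZMod.unitsMap_def, Units.coe_map, Units.val_neg, Units.val_one, MonoidHom.coe_coe,
          map_neg, map_one] at h5
        have h6 : ((2 : ℕ) : ZMod (p ^ (m + 1))) = 0 := by
          push_cast
          linear_combination -h5
        rw [ZMod.natCast_eq_zero_iff] at h6
        have h7 := Nat.le_of_dvd two_pos h6
        have h8 := T.rp.rK.two_lt
        omega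
    · intro h
      obtain ⟨v, hv1, hv2⟩ := (RP.mem_iff hp2 T.rp (h.restrictScalars ℚ)).1 ⟨h, rfl⟩
      refine ⟨⟨v, (mem_KN T.rp.hmn v).2 hv1⟩, ?_⟩
      apply AlgEquiv.restrictScalars_injective ℚ
      rw [he]
      exact hv2
  rw [← (Th_dig P hθ).ker u]
  refine (Fintype.sum_bijective e hbij _ _ fun v => ?_).symm
  rw [he, ← map_mul, ThF_σ P hθ]

theorem desc_cube {F B : Type} [Field F] [NumberField F] [Field B] [NumberField B] [Algebra F B] (hB : IsTotallyReal B) (hG : IsGalois ℚ B)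
    (V : (𝓞 F)ˣ) (w : (𝓞 B)ˣ) (h : ((w : 𝓞 B) : B) ^ 3 = algebraMap F B ((V : 𝓞 F) : F)) : ∃ w' : (𝓞 F)ˣ, V = w' ^ 3 := by
  have : IsGalois ℚ B := hG
  have : IsTotallyReal B := hB
  have : IsGalois F B := IsGalois.tower_top_of_isGalois ℚ F B
  have : FiniteDimensional F B := Module.Finite.of_restrictScalars_finite ℚ F B
  have hfix : ∀ g : B ≃ₐ[F] B, g ((w : 𝓞 B) : B) = ((w : 𝓞 B) : B) := by
    intro g
    obtain ⟨gw, hgw⟩ : ∃ gw : (𝓞 B)ˣ, ((gw : 𝓞 B) : B) = g ((w : 𝓞 B) : B) :=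
      ⟨(Units.mapEquiv (RingOfIntegers.mapRingEquiv (g : B ≃+* B)).toMulEquiv) w, rfl⟩
    have h1 : gw ^ 3 = w ^ 3 := by
      apply Units.ext
      apply RingOfIntegers.coe_injective
      rw [Units.val_pow_eq_pow_val, Units.val_pow_eq_pow_val]
      have h2 : algebraMap (𝓞 B) B ((gw : 𝓞 B) ^ 3) = algebraMap (𝓞 B) B ((w : 𝓞 B) ^ 3) := by
        rw [map_pow, map_pow]
        show ((gw : 𝓞 B) : B) ^ 3 = ((w : 𝓞 B) : B) ^ 3
        rw [hgw, ← map_pow, h, g.commutes]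
      exact h2
    rw [← hgw, unit_cube_inj h1]
  obtain ⟨w0, hw0⟩ := (IsGalois.mem_range_algebraMap_iff_fixed (F := F) ((w : 𝓞 B) : B)).2 hfix
  have h3 : w0 ^ 3 = ((V : 𝓞 F) : F) := by
    apply (algebraMap F B).injective
    rw [map_pow, hw0, h]
  have hint : IsIntegral ℤ w0 := by
    refine IsIntegral.of_pow (n := 3) (by norm_num) ?_
    rw [h3]
    exact RingOfIntegers.isIntegral_coe _
  obtain ⟨w1, hw1⟩ : ∃ w1 : 𝓞 F, (w1 : F) = w0 := ⟨⟨w0, hint⟩, rfl⟩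
  have h4 : w1 ^ 3 = (V : 𝓞 F) := by
    apply RingOfIntegers.coe_injective
    have h5 : algebraMap (𝓞 F) F (w1 ^ 3) = algebraMap (𝓞 F) F (V : 𝓞 F) := by
      rw [map_pow]
      show (w1 : F) ^ 3 = ((V : 𝓞 F) : F)
      rw [hw1]
      exact h3
    exact h5
  have hu : IsUnit w1 := by
    rw [← isUnit_pow_iff (n := 3) (by norm_num), h4]
    exact V.isUnit
  refine ⟨hu.unit, ?_⟩
  apply Units.ext
  rw [Units.val_pow_eq_pow_val, IsUnit.unit_spec, h4]

end H11R
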