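import Pool.Agent.H11.T3R.DfH

/-!
ROW Ee (embeddings of cyclotomic fields; about 90 lines).

PROOF. `act_emb`: as `Bl_fix` in Bl.lean (and row Dpa): the two `ℚ`-algebra homomorphisms `C1 → C2`, `y ↦ s_w (y)` and `y ↦ s_{w'} (y)` agree on `ζ = zeta N1` (`IsCyclotomicExtension.Rat.galEquivZMod_apply_of_pow_eq` (see `act_root` in Ba.lean): `s_w x = x ^ (w : ZMod N).val`
for `x ^ N = 1`; `w.val ≡ w'.val` modulo `N1`, `ZMod.unitsMap_val`, `pow_eq_pow_mod`), so they are equal (`(hζ.powerBasis ℚ).algHom_ext`).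
`mem_range_cyc`: (⇒) `act_emb`, `s_1 = 1`. (⇐) `C2/C1` is Galois (`IsCyclotomicExtension.isGalois {N2} ℚ C2`, `IsGalois.tower_top_of_isGalois ℚ C1 C2`), `IsGalois.mem_range_algebraMap_iff_fixed`: let `g : C2 ≃ₐ[C1] C2`, `w = galEquivZMod (g.restrictScalars ℚ)`, so
`g y = s_w y`; `g` fixes the image of `ζ1`, so `s_{w'} ζ1 = ζ1` (`act_emb`), i.e. `ζ1 ^ w'.val = ζ1`, so `w' = 1` (`IsPrimitiveRoot`; or `galEquivZMod` injective: `s_{w'}` fixes a generator so is `1`), so `g y = s_w y = y`.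
`exists_emb`: `C2` contains a primitive root of order `N1` (`zeta N2 ^ (N2 / N1)`), `IsCyclotomicExtension.lift`/`IsPrimitiveRoot.powerBasis.lift`: or: `C1` is generated by `zeta`, minimal polynomial the cyclotomic polynomial.
-/

set_option autoImplicit false
set_option linter.unusedSectionVars false

open NumberField

namespace H11R

variable {N1 N2 : ℕ} [NeZero N1] [NeZero N2] {C1 C2 : Type} [Field C1] [NumberField C1] [Field C2] [NumberField C2]
  [IsCyclotomicExtension {N1} ℚ C1] [IsCyclotomicExtension {N2} ℚ C2]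

theorem act_emb [Algebra C1 C2] (hN : N1 ∣ N2) (w : (ZMod N2)ˣ) (y : C1) :
    (IsCyclotomicExtension.Rat.galEquivZMod N2 C2).symm w (algebraMap C1 C2 y) =
      algebraMap C1 C2 ((IsCyclotomicExtension.Rat.galEquivZMod N1 C1).symm (ZMod.unitsMap hN w) y) := by
  have : IsGalois ℚ C1 := IsCyclotomicExtension.isGalois {N1} ℚ C1
  have h1 := IsCyclotomicExtension.Rat.galEquivZMod_restrictNormal_apply N2 C2 C1 hN
    ((IsCyclotomicExtension.Rat.galEquivZMod N2 C2).symm w)
  rw [MulEquiv.apply_symm_apply] at h1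
  rw [← h1, MulEquiv.symm_apply_apply, AlgEquiv.restrictNormal_commutes]

theorem mem_range_cyc [Algebra C1 C2] (hN : N1 ∣ N2) (y : C2) : y ∈ Set.range (algebraMap C1 C2) ↔
    ∀ w : (ZMod N2)ˣ, ZMod.unitsMap hN w = 1 → (IsCyclotomicExtension.Rat.galEquivZMod N2 C2).symm w y = y := by
  have : IsGalois ℚ C1 := IsCyclotomicExtension.isGalois {N1} ℚ C1
  have : IsGalois ℚ C2 := IsCyclotomicExtension.isGalois {N2} ℚ C2
  have : IsGalois C1 C2 := IsGalois.tower_top_of_isGalois ℚ C1 C2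
  constructor
  · rintro ⟨x, rfl⟩ w hw
    rw [act_emb hN w x, hw, map_one, AlgEquiv.one_apply]
  · intro h
    rw [IsGalois.mem_range_algebraMap_iff_fixed]
    intro g
    set σ : C2 ≃ₐ[ℚ] C2 := g.restrictScalars ℚ with hσ
    have h1 := IsCyclotomicExtension.Rat.galEquivZMod_restrictNormal_apply N2 C2 C1 hN σ
    have h2 : σ.restrictNormal C1 = 1 := by
      ext x
      apply (algebraMap C1 C2).injective
      rw [AlgEquiv.restrictNormal_commutes, AlgEquiv.one_apply]
      exact g.commutes x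
    rw [h2, map_one] at h1
    have h3 := h _ h1.symm
    rw [MulEquiv.symm_apply_apply] at h3
    exact h3

theorem exists_emb (hN : N1 ∣ N2) : Nonempty (C1 →+* C2) := by
  have h1 := IsCyclotomicExtension.zeta_spec N1 ℚ C1
  have h2 := IsCyclotomicExtension.zeta_spec N2 ℚ C2
  obtain ⟨c, hc⟩ := hN
  have h3 : IsPrimitiveRoot (IsCyclotomicExtension.zeta N2 ℚ C2 ^ c) N1 :=
    h2.pow (NeZero.pos N2) (by rw [hc, mul_comm])
  refine ⟨((h1.powerBasis ℚ).lift (IsCyclotomicExtension.zeta N2 ℚ C2 ^ c) ?_).toRingHom⟩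
  rw [IsPrimitiveRoot.powerBasis_gen, ← Polynomial.cyclotomic_eq_minpoly_rat h1 (NeZero.pos N1),
    Polynomial.aeval_def, Polynomial.eval₂_eq_eval_map, Polynomial.map_cyclotomic]
  exact h3.isRoot_cyclotomic (NeZero.pos N1)

end H11R
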