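import Pool.Agent.H11.T3R.DfH
import Pool.Agent.H11.T3R.Ba

/-!
ROW Ef (embedding of `F` in a cyclotomic field; about 120 lines).

PROOF. `f = p^(n+1)`, `N = d f`, `C` of conductor `N`.
(1) `hom_ext_F`: two ring homomorphisms `F → C` which agree on `c 1` are equal. `F/ℚ` is Galois and the only `g ∈ Gal(F/ℚ)` with `g (c 1) = c 1` is `1` (`g = σ u`, `c u = c 1` in `F`, `hφ`: `cos (2 π u / f) = cos (2 π / f)`, `u = ± 1`: see row Dpc for lemmas of this kind in
    Pool/Agent/H5/SW, e.g. injectivity of `RC.e`), so `ℚ(c 1) = F` (`IntermediateField`: the fixing subgroup of `ℚ⟮c 1⟯` is trivial, Galois correspondence), and homomorphisms agreeing on a generator are equal (`IntermediateField.algHom_ext_of_eq_adjoin` or induction).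
(2) `emb_F`: let `i : F → C`. `z0 ∈ C` a primitive root of order `f` (`(zeta_spec N).pow`). `i (c 1)`: by `r.emb` let `i' : F → CyclotomicField f ℚ → C` (the second map sends a primitive root to `z0`); `F/ℚ` is Galois, so `i = i' ∘ g` for some `g ∈ Gal(F/ℚ)` (both are `ℚ`-algebra homomorphisms
    `F → C`: `Algebra.IsAlgebraic`/`Normal`: `i` and `i'` have the same range; or compare roots of the minimal polynomial). Alternatively directly: `c 1` is a root of the integer polynomial `P` with `P (x + x⁻¹) x^k = Φ_f(x)`, or: in `AlgebraicClosure C` choose `y` with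
    `y + y⁻¹ = i (c 1)` (`exists_root` of a quadratic); using `r.c_mul`/`c_sq` (`c (a + b) + c (a - b) = c a c b`) show `y^a + y^(-a) = i (c a)` for all `a`, so `y^f + y^(-f) = i (c 0) = 2` (`hφ`: `c 0 = 2`), `y^f = 1`, and the order of `y` is exactly `f` (`y^k = 1`
    gives `c k = 2`, so `k = 0` mod `f`). This is `H5SW.psi` (grep; Pool/Agent/H5/SW, used in Pool/Agent/H55/T3/R5.lean: for a ring homomorphism `ψ : 𝓞 F →+* Ω`, `Ω` algebraically closed, `(p : Ω) ≠ 0`, it gives a primitive root `z` of order `p^(n+1)` with `ψ (c a) = z ^ a.val + (z ^ a.val)⁻¹`).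
    Apply it with `Ω = AlgebraicClosure C`, and note `z ∈ C` as `C` contains all roots of unity of order `f` (`z0` is primitive: `IsPrimitiveRoot.eq_pow_of_pow_eq_one`). For naturals `a`: `z ^ (a : ZMod f).val = z ^ a` (`pow_eq_pow_mod`).
(3) `s_w (i (c 1)) = z^w + z^(-w) = i (c w) = i (σ (w mod f) (c 1))` (`act_root` with `k = f`, `hσ`), so by (1) for the homomorphisms `s_w ∘ i` and `i ∘ σ (w mod f)`: `s_w (i x) = i (σ (w mod f) x)`.
-/

set_option autoImplicit false
set_option linter.unusedSectionVars false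

open NumberField

namespace H11R

open H5SW

variable {p n d : ℕ} [Fact p.Prime] [NeZero d] {F C : Type} [Field F] [NumberField F] [Field C] [NumberField C]
  [IsCyclotomicExtension {d * p ^ (n + 1)} ℚ C]

/-- an automorphism fixing `c 1` is trivial -/
private theorem Ef_fix {f : ℕ} {L : Type} [Field L] [NumberField L] (r : RC f L) (g : L ≃ₐ[ℚ] L)
    (h : g (r.c 1 : L) = (r.c 1 : L)) : g = 1 := by
  rw [r.apply_c, mul_one] at h
  have h1 : r.c (r.u g) = r.c 1 := RingOfIntegers.coe_injective h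
  rw [← r.σ_u g, r.ker]
  rcases r.c_inj h1 with h2 | h2
  · left; exact Units.ext h2
  · right; exact Units.ext (by rw [h2, Units.val_neg, Units.val_one])

private theorem Ef_adjoin {f : ℕ} {L : Type} [Field L] [NumberField L] (r : RC f L) :
    IntermediateField.adjoin ℚ {(r.c 1 : L)} = ⊤ := by
  have := r.gal
  have h1 : IntermediateField.fixingSubgroup (IntermediateField.adjoin ℚ {(r.c 1 : L)}) = ⊥ := by
    rw [eq_bot_iff]
    intro g hg
    rw [Subgroup.mem_bot]
    apply Ef_fix r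
    exact (IntermediateField.mem_fixingSubgroup_iff _ _).mp hg _
      (IntermediateField.mem_adjoin_simple_self ℚ (r.c 1 : L))
  have h2 := IsGalois.fixedField_fixingSubgroup (IntermediateField.adjoin ℚ {(r.c 1 : L)})
  rw [← h2, h1]
  exact IntermediateField.fixedField_bot

theorem hom_ext_F (r : RC (p ^ (n + 1)) F) {E : Type} [Field E] {i j : F →+* E} (h : i (r.c 1 : F) = j (r.c 1 : F)) : i = j := by
  have h1 : ∀ q : ℚ, algebraMap ℚ F q ∈ RingHom.eqLocusField i j := by
    intro q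
    change i (algebraMap ℚ F q) = j (algebraMap ℚ F q)
    rw [eq_ratCast, map_ratCast, map_ratCast]
  have h2 : IntermediateField.adjoin ℚ {(r.c 1 : F)} ≤
      (RingHom.eqLocusField i j).toIntermediateField h1 := by
    rw [IntermediateField.adjoin_le_iff, Set.singleton_subset_iff]
    exact h
  rw [Ef_adjoin r] at h2
  refine RingHom.ext fun x => ?_
  exact h2 (IntermediateField.mem_top (x := x))

theorem emb_F (hp2 : p ≠ 2) (r : RC (p ^ (n + 1)) F) (i : F →+* C) : ∃ z : C, IsPrimitiveRoot z (p ^ (n + 1)) ∧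
    (∀ a : ℕ, i (r.c (a : ZMod (p ^ (n + 1))) : F) = z ^ a + (z ^ a)⁻¹) ∧
    ∀ (w : (ZMod (d * p ^ (n + 1)))ˣ) (x : F), (IsCyclotomicExtension.Rat.galEquivZMod (d * p ^ (n + 1)) C).symm w (i x) =
      i (r.σ (ZMod.unitsMap (dvd_mul_left (p ^ (n + 1)) d) w) x) := by
  have hp : p.Prime := Fact.out
  have := r.neZero
  obtain ⟨z', hz', hzc⟩ := psi hp2 r (k := AlgebraicClosure C) (by exact_mod_cast hp.ne_zero)
    ((algebraMap C (AlgebraicClosure C)).comp (i.comp (algebraMap (𝓞 F) F)))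
  have hinj : Function.Injective (algebraMap C (AlgebraicClosure C)) := (algebraMap C _).injective
  have hz0 : IsPrimitiveRoot (IsCyclotomicExtension.zeta (d * p ^ (n + 1)) ℚ C ^ d) (p ^ (n + 1)) :=
    (IsCyclotomicExtension.zeta_spec (d * p ^ (n + 1)) ℚ C).pow (NeZero.pos _) rfl
  obtain ⟨k, -, hk⟩ := (hz0.map_of_injective hinj).eq_pow_of_pow_eq_one hz'.pow_eq_one
  rw [← map_pow] at hk
  obtain ⟨z, hzz⟩ : ∃ z : C, algebraMap C (AlgebraicClosure C) z = z' := ⟨_, hk⟩
  rw [← hzz] at hz' hzc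
  have hz : IsPrimitiveRoot z (p ^ (n + 1)) := hz'.of_map_of_injective hinj
  have hc : ∀ a : ℕ, i (r.c (a : ZMod (p ^ (n + 1))) : F) = z ^ a + (z ^ a)⁻¹ := by
    intro a
    apply hinj
    have h1 := hzc (a : ZMod (p ^ (n + 1)))
    rw [ZMod.val_natCast, ← map_pow, Ba_mod z hz.pow_eq_one, ← map_inv₀, ← map_add] at h1
    exact h1
  refine ⟨z, hz, hc, fun w x => ?_⟩
  have key : (((IsCyclotomicExtension.Rat.galEquivZMod (d * p ^ (n + 1)) C).symm w :
      C ≃ₐ[ℚ] C) : C →+* C).comp i =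
      i.comp ((r.σ (ZMod.unitsMap (dvd_mul_left (p ^ (n + 1)) d) w) : F ≃ₐ[ℚ] F) : F →+* F) := by
    refine hom_ext_F r ?_
    have h1 := hc 1
    rw [Nat.cast_one, pow_one] at h1
    have h2 := hc ((ZMod.unitsMap (dvd_mul_left (p ^ (n + 1)) d) w : (ZMod (p ^ (n + 1)))ˣ) :
      ZMod (p ^ (n + 1))).val
    rw [ZMod.natCast_zmod_val] at h2
    have h3 := act_root (C := C) (dvd_mul_left (p ^ (n + 1)) d) z hz.pow_eq_one w
    change (IsCyclotomicExtension.Rat.galEquivZMod (d * p ^ (n + 1)) C).symm w (i (r.c 1 : F)) =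
      i (r.σ (ZMod.unitsMap (dvd_mul_left (p ^ (n + 1)) d) w) (r.c 1 : F))
    rw [r.hσ, mul_one, h1, h2, map_add, map_inv₀, h3]
  exact congrArg (fun φ : F →+* C => φ x) key

end H11R
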