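import Pool.Agent.H11.T3R.DfH

/-!
ROW Eg (fixed fields).
-/

set_option autoImplicit false
set_option linter.unusedSectionVars false

open NumberField

namespace H11R

variable {N : ℕ} [NeZero N] {C : Type} [Field C] [NumberField C] [IsCyclotomicExtension {N} ℚ C]

theorem mem_FX (H : Subgroup (ZMod N)ˣ) (x : C) : x ∈ FX N C H ↔
    ∀ w ∈ H, (IsCyclotomicExtension.Rat.galEquivZMod N C).symm w x = x := by
  unfold FX
  rw [IntermediateField.mem_fixedField_iff]
  constructor
  · intro h w hw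
    apply h
    rw [Subgroup.mem_comap]
    have h1 : (IsCyclotomicExtension.Rat.galEquivZMod N C)
      ((IsCyclotomicExtension.Rat.galEquivZMod N C).symm w) = w := MulEquiv.apply_symm_apply _ _
    exact h1.symm ▸ hw
  · intro h g hg
    rw [Subgroup.mem_comap] at hg
    have h1 := h _ hg
    have h2 : (IsCyclotomicExtension.Rat.galEquivZMod N C).symm
      (((IsCyclotomicExtension.Rat.galEquivZMod N C) : Gal(C/ℚ) →* (ZMod N)ˣ) g) = g :=
      MulEquiv.symm_apply_apply _ _
    rw [h2] at h1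
    exact h1

theorem HM_FX (H : Subgroup (ZMod N)ˣ) : HM N (FX N C H) C = H := by
  ext u
  rw [mem_HM]
  constructor
  · intro h
    have h1 : (IsCyclotomicExtension.Rat.galEquivZMod N C).symm u ∈
        IntermediateField.fixingSubgroup (IntermediateField.fixedField
          (H.comap ((IsCyclotomicExtension.Rat.galEquivZMod N C) : Gal(C/ℚ) →* (ZMod N)ˣ))) := by
      rw [IntermediateField.mem_fixingSubgroup_iff]
      intro x hx
      exact h ⟨x, hx⟩
    rw [IntermediateField.fixingSubgroup_fixedField, Subgroup.mem_comap] at h1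
    have h2 : (IsCyclotomicExtension.Rat.galEquivZMod N C)
      ((IsCyclotomicExtension.Rat.galEquivZMod N C).symm u) = u := MulEquiv.apply_symm_apply _ _
    exact h2 ▸ h1
  · intro hu x
    exact (mem_FX H (x : C)).1 x.2 u hu

/-- complex conjugation is `s_{-1}` -/
theorem conj_cyc (φ : C →+* ℂ) (x : C) : (starRingEnd ℂ) (φ x) = φ ((IsCyclotomicExtension.Rat.galEquivZMod N C).symm (-1) x) := by
  obtain ⟨g, hgd⟩ : ∃ g, g = (IsCyclotomicExtension.Rat.galEquivZMod N C).symm (-1) := ⟨_, rfl⟩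
  rw [← hgd]
  have hg : IsCyclotomicExtension.Rat.galEquivZMod N C g = -1 := by
    rw [hgd, MulEquiv.apply_symm_apply]
  have hζ := IsCyclotomicExtension.zeta_spec N ℚ C
  obtain ⟨ζ, hζd⟩ : ∃ ζ, ζ = IsCyclotomicExtension.zeta N ℚ C := ⟨_, rfl⟩
  rw [← hζd] at hζ
  have hNpos : 0 < N := Nat.pos_of_ne_zero (NeZero.ne _)
  have hζ0 : ζ ≠ 0 := hζ.ne_zero hNpos.ne'
  have h2 := IsCyclotomicExtension.Rat.galEquivZMod_apply_of_pow_eq N C g hζ.pow_eq_one
  have h3 : g ζ * ζ = 1 := by
    rw [h2, ← pow_succ, hζ.pow_eq_one_iff_dvd, ← ZMod.natCast_eq_zero_iff, hg]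
    push_cast
    rw [ZMod.natCast_val, ZMod.cast_id]
    simp
  have h4 : φ (g ζ) = (starRingEnd ℂ) (φ ζ) := by
    have h5 : φ (g ζ) * φ ζ = 1 := by rw [← map_mul, h3, map_one]
    have h6 : φ ζ ^ N = 1 := by rw [← map_pow, hζ.pow_eq_one, map_one]
    have h7 : ‖φ ζ‖ = 1 := Complex.norm_eq_one_of_pow_eq_one h6 hNpos.ne'
    rw [← Complex.inv_eq_conj h7]
    exact eq_inv_of_mul_eq_one_left h5
  have h8 : (φ.comp (g : C →+* C)).toRatAlgHom = ((starRingEnd ℂ).comp φ).toRatAlgHom := by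
    apply (hζ.powerBasis ℚ).algHom_ext
    rw [IsPrimitiveRoot.powerBasis_gen]
    simpa using h4
  have h9 := DFunLike.congr_fun h8 x
  simpa using h9.symm

theorem real_FX (H : Subgroup (ZMod N)ˣ) (h : -1 ∈ H) : IsTotallyReal (FX N C H) := by
  refine ⟨fun v => ?_⟩
  rw [InfinitePlace.isReal_iff, ComplexEmbedding.isReal_iff]
  ext x
  rw [ComplexEmbedding.conjugate_coe_eq, ← ComplexEmbedding.lift_algebraMap_apply C v.embedding x,
    conj_cyc (N := N)]
  congr 1
  exact (mem_FX H (x : C)).1 x.2 _ h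

end H11R
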