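import Mathlib

/-!
ROW Eh (square roots of integers in cyclotomic fields; about 120 lines).

PROOF. `gauss_root`: `gaussSum_sq` (Mathlib/NumberTheory/GaussSum.lean) with `R = ZMod q`, `R' = C`, `χ = (quadraticChar (ZMod q)).ringHomComp (Int.castRingHom C)` (quadratic: `MulChar.IsQuadratic.comp`; not trivial: `quadraticChar_ne_one`, `q ≠ 2`, and
`MulChar.ringHomComp_ne_one_iff`, injectivity of `ℤ → C`), `ψ = AddChar.zmodChar q hζ.pow_eq_one` (primitive: `AddChar.zmodChar_primitive_of_primitive_root`), and `χ (-1) = ± 1` (`IsQuadratic`, `≠ 0`). `ZMod.card`.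
`sqrt_cyc`: strong induction on `n`. `n = 1`: `δ = 1`. Otherwise `n = q n'`, `q` prime (`Nat.exists_prime_and_dvd`), `8 n' ∣ N`, so `δ'^2 = n'`. `C` contains a primitive root of unity `ζ` of order `N`, so primitive roots of all orders dividing `N` (`IsPrimitiveRoot.pow`).
`y = ζ8` of order `8`: `y^4 = -1` (`y^8 = 1`, `y^4 ≠ 1`), `i = y^2`, `i^2 = -1`, `(y + y⁻¹)^2 = y^2 + 2 + y^(-2) = 2` as `y^(-2) = - y^2`. `q = 2`: `δ = (y + y⁻¹) δ'`. `q` odd: `g` of `gauss_root` (order `q ∣ N`), `δ = g δ'` or `δ = i g δ'`.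
-/

set_option autoImplicit false

namespace H11R

theorem gauss_root {q : ℕ} [Fact q.Prime] (hq : q ≠ 2) {C : Type} [Field C] [CharZero C] {ζ : C} (hζ : IsPrimitiveRoot ζ q) :
    ∃ g : C, g ^ 2 = (q : C) ∨ g ^ 2 = -(q : C) := by
  have h1 : ringChar (ZMod q) ≠ 2 := by
    rw [ZMod.ringChar_zmod_n]
    exact hq
  have h2 : ((quadraticChar (ZMod q)).ringHomComp (Int.castRingHom C)) ≠ 1 :=
    (MulChar.ringHomComp_ne_one_iff (Int.castRingHom C).injective_int).2 (quadraticChar_ne_one h1)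
  have h3 : ((quadraticChar (ZMod q)).ringHomComp (Int.castRingHom C)).IsQuadratic :=
    MulChar.IsQuadratic.comp (quadraticChar_isQuadratic (ZMod q)) _
  have h4 := gaussSum_sq h2 h3 (AddChar.zmodChar_primitive_of_primitive_root q hζ)
  rw [ZMod.card] at h4
  refine ⟨gaussSum ((quadraticChar (ZMod q)).ringHomComp (Int.castRingHom C))
      (AddChar.zmodChar q ((IsPrimitiveRoot.iff_def ζ q).mp hζ).left), ?_⟩
  rcases h3 (-1) with h | h | h
  · exfalso
    have h5 : IsUnit (((quadraticChar (ZMod q)).ringHomComp (Int.castRingHom C)) (-1)) :=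
      (isUnit_one.neg).map _
    rw [h] at h5
    exact not_isUnit_zero h5
  · left
    rw [h4, h, one_mul]
  · right
    rw [h4, h, neg_one_mul]

private theorem Eh_aux (n : ℕ) (hn : 0 < n) {N : ℕ} (hN : N ≠ 0) (h : 8 * n ∣ N) (C : Type) [Field C]
    [CharZero C] (z : C) (hz : IsPrimitiveRoot z N) : ∃ δ : C, δ ^ 2 = (n : C) := by
  induction n using Nat.strong_induction_on with
  | _ n ih =>
    rcases Nat.lt_or_ge 1 n with h1 | h1
    · obtain ⟨q, hq, m, rfl⟩ := Nat.exists_prime_and_dvd (Nat.ne_of_gt h1)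
      have hm : 0 < m := Nat.pos_of_mul_pos_left hn
      have hlt : m < q * m := by
        have := hq.two_le
        nlinarith
      obtain ⟨δ, hδ⟩ := ih m hlt hm (dvd_trans ⟨q, by ring⟩ h)
      have hN8 : 8 ∣ N := dvd_trans (Dvd.intro _ rfl) h
      have hNq : q ∣ N := dvd_trans ⟨8 * m, by ring⟩ h
      obtain ⟨a, ha⟩ := hN8
      obtain ⟨b, hb⟩ := hNq
      have hy : IsPrimitiveRoot (z ^ a) 8 :=
        hz.pow (Nat.pos_of_ne_zero hN) (by rw [ha]; ring)
      have hw : IsPrimitiveRoot (z ^ b) q :=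
        hz.pow (Nat.pos_of_ne_zero hN) (by rw [hb]; ring)
      have hy4 : (z ^ a) ^ 4 = -1 := by
        have e1 : ((z ^ a) ^ 4 - 1) * ((z ^ a) ^ 4 + 1) = 0 := by
          have e2 := hy.pow_eq_one
          calc ((z ^ a) ^ 4 - 1) * ((z ^ a) ^ 4 + 1) = (z ^ a) ^ 8 - 1 := by ring
            _ = 0 := by rw [e2, sub_self]
        rcases mul_eq_zero.1 e1 with e2 | e2
        · exfalso
          exact hy.pow_ne_one_of_pos_of_lt (by norm_num) (by norm_num) (sub_eq_zero.1 e2)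
        · exact eq_neg_of_add_eq_zero_left e2
      rcases eq_or_ne q 2 with rfl | hq2
      · have hy0 : z ^ a ≠ 0 := hy.ne_zero (by norm_num)
        refine ⟨(z ^ a + (z ^ a)⁻¹) * δ, ?_⟩
        have e3 : (z ^ a + (z ^ a)⁻¹) ^ 2 = 2 := by
          have e4 : (z ^ a)⁻¹ = -(z ^ a) ^ 3 := by
            rw [inv_eq_iff_eq_inv, eq_comm, inv_eq_iff_eq_inv]
            refine eq_inv_of_mul_eq_one_left ?_
            calc -(z ^ a) ^ 3 * z ^ a = -((z ^ a) ^ 4) := by ring
              _ = 1 := by rw [hy4, neg_neg]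
          rw [e4]
          calc (z ^ a + -(z ^ a) ^ 3) ^ 2 =
              (z ^ a) ^ 2 - 2 * (z ^ a) ^ 4 + (z ^ a) ^ 2 * (z ^ a) ^ 4 := by ring
            _ = 2 := by rw [hy4]; ring
        rw [mul_pow, e3, hδ]
        push_cast
        rfl
      · have hF : Fact q.Prime := ⟨hq⟩
        obtain ⟨g, hg | hg⟩ := gauss_root hq2 hw
        · exact ⟨g * δ, by rw [mul_pow, hg, hδ]; push_cast; rfl⟩
        · refine ⟨(z ^ a) ^ 2 * g * δ, ?_⟩
          calc ((z ^ a) ^ 2 * g * δ) ^ 2 = (z ^ a) ^ 4 * g ^ 2 * δ ^ 2 := by ring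
            _ = ((q * m : ℕ) : C) := by
              rw [hy4, hg, hδ]
              push_cast
              ring
    · have h2 : n = 1 := by omega
      exact ⟨1, by rw [h2]; norm_num⟩

theorem sqrt_cyc (n : ℕ) (hn : 0 < n) {N : ℕ} [NeZero N] (h : 8 * n ∣ N) (C : Type) [Field C] [NumberField C] [IsCyclotomicExtension {N} ℚ C] :
    ∃ δ : C, δ ^ 2 = (n : C) :=
  Eh_aux n hn (NeZero.ne N) h C (IsCyclotomicExtension.zeta N ℚ C)
    (IsCyclotomicExtension.zeta_spec N ℚ C)

end H11R
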