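import Pool.Agent.H11.T3R.Ee
import Pool.Agent.H11.T3R.Ef
import Pool.Agent.H11.T3R.Eg

/-!
ROW El (the ingredients of the construction of `RP2`; about 130 lines).

PROOF. `factor_hom`: `g` has values in the range of the injective `i`; `g'` = (inverse of `R ≃ i.range`) ∘ `g.codRestrict i.range` (`RingEquiv.ofLeftInverse`/`RingHom.rangeRestrict` bijective; or choose preimages and check additivity and multiplicativity by injectivity).
`sig_fix`: `v = 1` modulo `p^(m+1)`: `r.mem_iff hp2 (r.rL.σ v)` (Pool/Agent/H5/SW, used in Pool/Agent/H55/T3/R5.lean) gives `h : F ≃ₐ[M] F` with `h.restrictScalars ℚ = σ v`; `h` fixes `M`. If `v = -1`: `σ v = σ (-v)` (`RC.σ_neg` or `ker`), `-v = 1` modulo `p^(m+1)`.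
`root_range`: `x ^ k = 1` with `k ∣ N1` (`N1 = d p^(m+1)`): by `mem_range_cyc`, `w = 1` modulo `N1` gives `s_w x = x ^ (w mod k).val = x` (`act_root` with `k`, in Ba.lean for `N = d * f`; or `galEquivZMod_apply_of_pow_eq` directly; `w mod k = 1`, `pow_eq_pow_mod`).
`neg_one_HB`: `unitsMap (-1) = -1` (`Units.map_neg`, see DfI.lean), `Q.even`.
`HB_down`: `w ∈ HB d f ψ`, `f = p^(n+1)`, `f' = p^(m+1)`: the reduction `w'` modulo `d f'` is in `HB d f' ψ` (`ZMod.unitsMap_comp` twice).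
-/

set_option autoImplicit false
set_option linter.unusedSectionVars false

open NumberField

namespace H11R

open H5SW

theorem factor_hom {R S T : Type} [Field R] [Field S] [Field T] (i : R →+* S) (g : T →+* S) (h : ∀ x, g x ∈ Set.range i) :
    ∃ g' : T →+* R, ∀ x, i (g' x) = g x := by
  choose f hf using h
  have hi := i.injective
  refine ⟨{ toFun := f, map_one' := ?_, map_mul' := ?_, map_zero' := ?_, map_add' := ?_ }, hf⟩
  · apply hi
    rw [hf, map_one, map_one]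
  · intro x y
    apply hi
    rw [hf, map_mul, map_mul, hf, hf]
  · apply hi
    rw [hf, map_zero, map_zero]
  · intro x y
    apply hi
    rw [hf, map_add, map_add, hf, hf]

lemma El_fix {p m n : ℕ} [Fact p.Prime] (hp2 : p ≠ 2) {M F : Type} [Field M] [NumberField M] [Field F] [NumberField F] [Algebra M F]
    (r : RP p m n M F) (v : (ZMod (p ^ (n + 1)))ˣ)
    (hv : ZMod.unitsMap (pow_dvd_pow p (Nat.succ_le_succ r.hmn)) v = 1) (x : M) :
    r.rL.σ v (algebraMap M F x) = algebraMap M F x := by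
  obtain ⟨h, hh⟩ := (r.mem_iff hp2 (r.rL.σ v)).mpr ⟨v, hv, rfl⟩
  rw [← hh]
  exact h.commutes x

theorem sig_fix {p m n : ℕ} [Fact p.Prime] (hp2 : p ≠ 2) {M F : Type} [Field M] [NumberField M] [Field F] [NumberField F] [Algebra M F]
    (r : RP p m n M F) (v : (ZMod (p ^ (n + 1)))ˣ)
    (hv : ZMod.unitsMap (pow_dvd_pow p (Nat.succ_le_succ r.hmn)) v = 1 ∨ ZMod.unitsMap (pow_dvd_pow p (Nat.succ_le_succ r.hmn)) v = -1) (x : M) :
    r.rL.σ v (algebraMap M F x) = algebraMap M F x := by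
  rcases hv with hv | hv
  · exact El_fix hp2 r v hv x
  · have h1 : ZMod.unitsMap (pow_dvd_pow p (Nat.succ_le_succ r.hmn)) (-v) = 1 := by
      have h2 : ZMod.unitsMap (pow_dvd_pow p (Nat.succ_le_succ r.hmn)) (-v) =
          -ZMod.unitsMap (pow_dvd_pow p (Nat.succ_le_succ r.hmn)) v := by
        ext
        rw [Units.val_neg, ZMod.unitsMap_def, Units.coe_map, Units.coe_map, Units.val_neg]
        exact map_neg (ZMod.castHom (pow_dvd_pow p (Nat.succ_le_succ r.hmn)) (ZMod (p ^ (m + 1)))) _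
      rw [h2, hv, neg_neg]
    have h3 := El_fix hp2 r (-v) h1 x
    rwa [r.rL.σ_neg] at h3

theorem root_range {N1 N2 : ℕ} [NeZero N1] [NeZero N2] {C1 C2 : Type} [Field C1] [NumberField C1] [Field C2] [NumberField C2]
    [IsCyclotomicExtension {N1} ℚ C1] [IsCyclotomicExtension {N2} ℚ C2] [Algebra C1 C2] (hN : N1 ∣ N2) {k : ℕ} (hk : k ∣ N1) {x : C2} (hx : x ^ k = 1) :
    ∃ y : C1, algebraMap C1 C2 y = x := by
  have h1 : x ∈ Set.range (algebraMap C1 C2) := by
    rw [mem_range_cyc hN]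
    intro w hw
    have hx1 : x ^ N1 = 1 := by
      obtain ⟨c, hc⟩ := hk
      rw [hc, pow_mul, hx, one_pow]
    have hx2 : x ^ N2 = 1 := by
      obtain ⟨c, hc⟩ := hN
      rw [hc, pow_mul, hx1, one_pow]
    rw [IsCyclotomicExtension.Rat.galEquivZMod_apply_of_pow_eq N2 C2 _ hx2, MulEquiv.apply_symm_apply]
    have h2 : ((w : ZMod N2).val : ZMod N1) = 1 := by
      have h3 := congrArg Units.val hw
      rw [ZMod.unitsMap_val, Units.val_one, ZMod.cast_eq_val] at h3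
      exact h3
    have h4 : (w : ZMod N2).val ≡ 1 [MOD N1] := by
      rw [← ZMod.natCast_eq_natCast_iff, h2, Nat.cast_one]
    have h5 : x ^ (w : ZMod N2).val = x ^ 1 := by
      rw [pow_eq_pow_mod (w : ZMod N2).val hx1, pow_eq_pow_mod 1 hx1]
      exact congrArg _ h4
    rw [h5, pow_one]
  exact h1

lemma El_neg {a b : ℕ} (h : a ∣ b) : ZMod.unitsMap h (-1) = -1 := by
  ext
  rw [ZMod.unitsMap_def, Units.coe_map, Units.val_neg, Units.val_neg, Units.val_one, Units.val_one]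
  have h1 := map_neg (ZMod.castHom h (ZMod a)) 1
  rw [map_one] at h1
  exact h1

theorem neg_one_HB {d f : ℕ} {ψ : (ZMod d)ˣ →* ℤˣ} (Q : QH d ψ) : -1 ∈ HB d f ψ := by
  rw [mem_HB, El_neg, El_neg]
  exact ⟨Or.inr rfl, Q.even⟩

lemma El_comp {a b c : ℕ} (h1 : a ∣ b) (h2 : b ∣ c) (h3 : a ∣ c) (w : (ZMod c)ˣ) :
    ZMod.unitsMap h1 (ZMod.unitsMap h2 w) = ZMod.unitsMap h3 w := by
  rw [← ZMod.unitsMap_comp h1 h2, MonoidHom.comp_apply]

theorem HB_down {p m n d : ℕ} {ψ : (ZMod d)ˣ →* ℤˣ} (hmn : m ≤ n) (hN : d * p ^ (m + 1) ∣ d * p ^ (n + 1)) {w : (ZMod (d * p ^ (n + 1)))ˣ}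
    (hw : w ∈ HB d (p ^ (n + 1)) ψ) : ZMod.unitsMap hN w ∈ HB d (p ^ (m + 1)) ψ := by
  rw [mem_HB] at hw ⊢
  have hpd : p ^ (m + 1) ∣ p ^ (n + 1) := pow_dvd_pow p (Nat.succ_le_succ hmn)
  have h1 : ZMod.unitsMap (dvd_mul_left (p ^ (m + 1)) d) (ZMod.unitsMap hN w) =
      ZMod.unitsMap hpd (ZMod.unitsMap (dvd_mul_left (p ^ (n + 1)) d) w) := by
    rw [El_comp _ hN (hpd.trans (dvd_mul_left (p ^ (n + 1)) d)), El_comp hpd _ (hpd.trans (dvd_mul_left (p ^ (n + 1)) d))]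
  have h2 : ZMod.unitsMap (dvd_mul_right d (p ^ (m + 1))) (ZMod.unitsMap hN w) =
      ZMod.unitsMap (dvd_mul_right d (p ^ (n + 1))) w := El_comp _ hN _ w
  rw [h1, h2]
  refine ⟨?_, hw.2⟩
  rcases hw.1 with h | h
  · left
    rw [h, map_one]
  · right
    rw [h, El_neg]

end H11R
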